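import Pool.Agent.TH654.RB.KS
import Pool.Agent.TH654.OQ.Close

/-!
# Blocks of arbitrary size: rates
-/

set_option autoImplicit false

namespace Pool.Agent.TH654.RB

open Pool.Agent.NPC Pool.Agent.H620R2.Gauge Finset H568R2 Pool.Agent.H676 Pool.Agent.H516R2.EQP
  Pool.Agent.H516R2.EQP2 Pool.Agent.H516R2.EQP3 Pool.Agent.H516R2.EQP4 Pool.Agent.H516R2.EQP5
  Pool.Agent.H440Q Filter
open Pool.Agent.W900.CH (Close dist_le_of_off)

theorem K_block (κ : ℕ → ℕ) (n N : ℕ) :
    ((Finset.range N).filter (fun i => InK κ n (str i))).card ≤ 2 ^ (5 + 3 * κ n) := by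
  have h1 : ((Finset.range N).filter (fun i => InK κ n (str i))).card ≤
      (Finset.range (2 ^ (5 + 3 * κ n))).card := by
    apply Finset.card_le_card_of_injOn (fun i => idx ((str i).drop (n + 1)))
    · intro i hi
      have hi2 := (Finset.mem_filter.1 hi).2
      have h2 := idx_lt ((str i).drop (n + 1))
      have h3 : ((str i).drop (n + 1)).length = 4 + 3 * κ n := by
        rw [List.length_drop, hi2.2.2]
        omega
      rw [h3] at h2
      rw [Finset.mem_coe, Finset.mem_range]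
      have h4 : 4 + 3 * κ n + 1 = 5 + 3 * κ n := by ring
      rw [h4] at h2
      beta_reduce
      omega
    · intro i hi j hj hij
      have hi2 := (Finset.mem_filter.1 hi).2
      have hj2 := (Finset.mem_filter.1 hj).2
      have h2 : (str i).drop (n + 1) = (str j).drop (n + 1) := by
        have := congrArg str hij
        simp only [str_idx] at this
        exact this
      apply str_injective
      rw [← List.take_append_drop (n + 1) (str i),
        ← List.take_append_drop (n + 1) (str j), h2, hi2.2.1, hj2.2.1]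
  rwa [Finset.card_range] at h1

open Classical in
theorem K_count (κ : ℕ → ℕ) (M N : ℕ) (hM : ∀ i < N, ∀ n, InK κ n (str i) → n ≤ M) :
    ((Finset.range N).filter (fun i => str i ∈ TK κ)).card ≤
      ∑ n ∈ Finset.range (M + 1), if 0 < κ n then 2 ^ (5 + 3 * κ n) else 0 := by
  have h1 : (Finset.range N).filter (fun i => str i ∈ TK κ) ⊆
      (Finset.range (M + 1)).biUnion (fun n => (Finset.range N).filter
        (fun i => InK κ n (str i))) := by
    intro i hi
    rw [Finset.mem_filter, Finset.mem_range] at hi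
    obtain ⟨hi1, n, hn⟩ := hi
    rw [Finset.mem_biUnion]
    exact ⟨n, Finset.mem_range.2 (by have := hM i hi1 n hn; omega),
      Finset.mem_filter.2 ⟨Finset.mem_range.2 hi1, hn⟩⟩
  refine (Finset.card_le_card h1).trans (Finset.card_biUnion_le.trans ?_)
  refine Finset.sum_le_sum fun n _ => ?_
  by_cases h : 0 < κ n
  · rw [if_pos h]
    exact K_block κ n N
  · rw [if_neg h, Nat.le_zero, Finset.card_eq_zero, Finset.filter_eq_empty_iff]
    intro i _ h2
    exact h h2.1

/-- a sum of terms which are at most `G / n ^ 2` -/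
theorem sum_le_of_sq {T : ℕ → ℝ} {G : ℝ} {N : ℕ} (hG : 0 ≤ G) (h0 : T 0 = 0) (h1 : T 1 = 0)
    (h : ∀ n, 2 ≤ n → n ≤ N → T n * (n : ℝ) ^ 2 ≤ G) :
    ∑ n ∈ Finset.range (N + 1), T n ≤ G := by
  have key : ∀ M : ℕ, M + 1 ≤ N → ∑ n ∈ Finset.range (M + 2), T n ≤ G * (1 - 1 / ((M : ℝ) + 1)) := by
    intro M
    induction M with
    | zero =>
      intro _
      simp [Finset.sum_range_succ, h0, h1]
    | succ M ih =>
      intro hM
      rw [Finset.sum_range_succ]
      have h2 := ih (by omega)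
      have h3 := h (M + 2) (by omega) (by omega)
      push_cast at h3 ⊢
      have h4 : T (M + 2) ≤ G * (1 / ((M : ℝ) + 1) - 1 / ((M : ℝ) + 1 + 1)) := by
        have h5 : T (M + 2) ≤ G / ((M : ℝ) + 2) ^ 2 := by
          rw [le_div_iff₀ (by positivity)]
          exact h3
        refine h5.trans ?_
        have h6 : 1 / ((M : ℝ) + 1) - 1 / ((M : ℝ) + 1 + 1) =
            1 / (((M : ℝ) + 1) * ((M : ℝ) + 2)) := by
          field_simp
          ring
        rw [h6, div_eq_mul_one_div]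
        apply mul_le_mul_of_nonneg_left _ hG
        apply one_div_le_one_div_of_le (by positivity)
        nlinarith
      have h7 : M + 1 + 1 = M + 2 := rfl
      rw [h7]
      linarith
  rcases N with _ | M
  · simp [h0]
    exact hG
  · refine (key M le_rfl).trans ?_
    have : 0 ≤ 1 / ((M : ℝ) + 1) := by positivity
    nlinarith

/-- the parameters of the blocks for the rate `n ^ k n` -/
def kap (k : ℕ → ℕ) (n : ℕ) : ℕ :=
  if 16 ≤ k n ∧ 2 ≤ n then min (k n / 16 * n.bits.length) n else 0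

theorem kap_le (k : ℕ → ℕ) (n : ℕ) : kap k n ≤ n := by
  unfold kap
  split_ifs
  · exact min_le_right _ _
  · exact Nat.zero_le _

theorem kap_poly {k : ℕ → ℕ} (hk : PolyTime (fun x => List.replicate (k x.length) true)) :
    UPoly (fun x : List Bool => kap k x.length) := by
  have h1 : UPoly (fun x : List Bool => k x.length) := by
    have h2 := UPoly.length (Pool.Agent.H622R2.poly_of_polyTime hk)
    simpa only [List.length_replicate] using h2
  have hl : UPoly (fun x : List Bool => x.length) := UPoly.length NPC.Poly.id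
  refine UPoly.of_le ?_ hl (fun x => kap_le k x.length)
  have h3 : NPC.Poly (fun x : List Bool => k x.length / 16 * x.length.bits.length) :=
    NPC.Poly.mul (NPC.Poly.div h1.toPoly (NPC.Poly.const 16))
      (NPC.Poly.length (NPC.Poly.natBits hl.toPoly))
  have h4 := NPC.Poly.cond (NPC.Poly.and (NPC.Poly.decide_le (NPC.Poly.const 16) h1.toPoly)
    (NPC.Poly.decide_le (NPC.Poly.const 2) hl.toPoly)) (NPC.Poly.min h3 hl.toPoly)
    (NPC.Poly.const (0 : ℕ))
  refine h4.congr fun x => ?_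
  unfold kap
  by_cases h5 : 16 ≤ k x.length <;> by_cases h6 : 2 ≤ x.length <;> simp [h5, h6]

/-- the number of strings in a block -/
theorem kap_term {k : ℕ → ℕ} {n : ℕ} (h : 0 < kap k n) :
    2 ^ (5 + 3 * kap k n) * n ^ 2 ≤ n ^ k n := by
  have h1 : 16 ≤ k n ∧ 2 ≤ n := by
    by_contra h2
    unfold kap at h
    rw [if_neg h2] at h
    omega
  obtain ⟨hk, hn⟩ := h1
  have h2 : kap k n ≤ k n / 16 * n.bits.length := by
    unfold kap
    rw [if_pos ⟨hk, hn⟩]
    exact min_le_left _ _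
  have h3 : 2 ^ n.bits.length ≤ n ^ 2 := by
    rw [Nat.size_eq_bits_len]
    have h4 : 2 ^ (n.size - 1) ≤ n := by
      have h5 : 0 < n.size := Nat.size_pos.2 (by omega)
      exact Nat.lt_size.1 (by omega)
    have h5 : 0 < n.size := Nat.size_pos.2 (by omega)
    calc 2 ^ n.size = 2 * 2 ^ (n.size - 1) := by
          rw [← pow_succ']
          congr 1
          omega
      _ ≤ n * n := Nat.mul_le_mul hn h4
      _ = n ^ 2 := by ring
  obtain ⟨q, hq⟩ : ∃ q, q = k n / 16 := ⟨_, rfl⟩
  rw [← hq] at h2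
  have h4 : 2 ^ (3 * kap k n) ≤ n ^ (6 * q) := by
    calc 2 ^ (3 * kap k n) ≤ 2 ^ (3 * (q * n.bits.length)) :=
          Nat.pow_le_pow_right (by norm_num) (by omega)
      _ = (2 ^ n.bits.length) ^ (3 * q) := by
          rw [← pow_mul]
          congr 1
          ring
      _ ≤ (n ^ 2) ^ (3 * q) := Nat.pow_le_pow_left h3 _
      _ = n ^ (6 * q) := by
          rw [← pow_mul]
          congr 1
          ring
  have h5 : 2 ^ 5 ≤ n ^ 5 := Nat.pow_le_pow_left hn 5
  calc 2 ^ (5 + 3 * kap k n) * n ^ 2 = 2 ^ 5 * 2 ^ (3 * kap k n) * n ^ 2 := by rw [pow_add]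
    _ ≤ n ^ 5 * n ^ (6 * q) * n ^ 2 := by
        apply Nat.mul_le_mul_right
        exact Nat.mul_le_mul h5 h4
    _ = n ^ (5 + 6 * q + 2) := by rw [← pow_add, ← pow_add]
    _ ≤ n ^ k n := Nat.pow_le_pow_right (by omega) (by omega)

/-- there are few strings in the blocks -/
theorem kap_sum {k : ℕ → ℕ} {M : ℕ} {G : ℝ} (hG : 0 ≤ G)
    (h : ∀ n ≤ M, (n : ℝ) ^ k n ≤ G) :
    ((∑ n ∈ Finset.range (M + 1), if 0 < kap k n then 2 ^ (5 + 3 * kap k n) else 0 : ℕ) : ℝ) ≤
      G := by
  push_cast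
  have h1 : ∀ n, n < 2 → ¬ 0 < kap k n := by
    intro n hn
    unfold kap
    rw [if_neg (by omega)]
    exact lt_irrefl 0
  apply sum_le_of_sq hG
  · rw [if_neg (h1 0 (by norm_num))]
  · rw [if_neg (h1 1 (by norm_num))]
  · intro n _ hnM
    by_cases h2 : 0 < kap k n
    · rw [if_pos h2]
      have h3 := kap_term h2
      have h4 : ((2 ^ (5 + 3 * kap k n) * n ^ 2 : ℕ) : ℝ) ≤ ((n ^ k n : ℕ) : ℝ) := by
        exact_mod_cast h3
      push_cast at h4
      exact h4.trans (h n hnM)
    · rw [if_neg h2, zero_mul]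
      exact hG

theorem mul_bits_le (c : ℕ) : ∃ N : ℕ, ∀ n ≥ N, c * n.bits.length ≤ n := by
  obtain ⟨s0, hs0⟩ : ∃ s0 : ℕ, ∀ s ≥ s0, c * s ≤ 2 ^ (s - 1) := by
    refine ⟨4 * c + 5, fun s hs => ?_⟩
    have h1 : ∀ m : ℕ, 4 ≤ m → m * m ≤ 2 ^ m := by
      intro m hm
      induction m, hm using Nat.le_induction with
      | base => norm_num
      | succ m hm ih =>
        rw [pow_succ]
        nlinarith
    have h2 := h1 (s - 1) (by omega)
    have h3 : c * s ≤ (s - 1) * (s - 1) := by
      obtain ⟨r, hr⟩ : ∃ r, s = r + 1 := ⟨s - 1, by omega⟩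
      subst hr
      rw [Nat.add_sub_cancel]
      have h4 : 4 * c ≤ r := by omega
      nlinarith
    exact h3.trans h2
  refine ⟨2 ^ s0, fun n hn => ?_⟩
  have h1 : s0 < n.size := Nat.lt_size.2 hn
  have h2 : 2 ^ (n.size - 1) ≤ n := Nat.lt_size.1 (by omega)
  rw [Nat.size_eq_bits_len]
  exact (hs0 _ h1.le).trans h2

theorem kap_inf {k : ℕ → ℕ} (hk : ∀ c, ∃ n, c ≤ k n) (c N : ℕ) :
    ∃ n ≥ N, c * n.bits.length ≤ kap k n := by
  obtain ⟨N₁, hN₁⟩ := mul_bits_le c
  obtain ⟨n, hn⟩ := hk (16 * c + 16 + ∑ i ∈ Finset.range (N + N₁ + 2), (k i + 1))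
  have h1 : N + N₁ + 2 ≤ n := by
    by_contra h2
    have h3 : k n + 1 ≤ ∑ i ∈ Finset.range (N + N₁ + 2), (k i + 1) :=
      Finset.single_le_sum (f := fun i => k i + 1) (fun i _ => Nat.zero_le _)
        (Finset.mem_range.2 (by omega))
    omega
  refine ⟨n, by omega, ?_⟩
  unfold kap
  rw [if_pos ⟨by omega, by omega⟩]
  apply le_min
  · apply Nat.mul_le_mul_right
    omega
  · exact hN₁ n (by omega)

open Classical in
/-- **Every oracle can be changed at any nice superpolynomial rate.** -/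
theorem exists_close_K {g : ℕ → ℝ} {k : ℕ → ℕ}
    (hk : PolyTime (fun x => List.replicate (k x.length) true)) (hub : ∀ c, ∃ n, c ≤ k n)
    (hg : ∀ᶠ m : ℕ in atTop, ∀ n ≤ m, (n : ℝ) ^ k n ≤ g m) (O : Oracle) :
    ∃ A, Close g O A ∧ ∃ L, IsBQPq 1 A L ∧ ¬ IsPH A L := by
  obtain ⟨A, h1, h2⟩ := K_exists (kap_poly hk) (kap_le k) (kap_inf hub) O
  refine ⟨A, ?_, h2⟩
  filter_upwards [hg] with m hm
  have h3 := dist_le_of_off h1 m
  have h4 := K_count (kap k) m (2 ^ (m + 1)) (by
    intro i hi n hn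
    have h5 := hn.2.2
    rw [length_str] at h5
    have h6 : Nat.log 2 (i + 1) ≤ m + 1 := by
      have h7 : Nat.log 2 (i + 1) ≤ Nat.log 2 (2 ^ (m + 1)) := Nat.log_mono_right (by omega)
      rwa [Nat.log_pow (by norm_num)] at h7
    omega)
  have h0 : (0 : ℝ) ≤ g m := by
    have := hm 0 (Nat.zero_le _)
    exact le_trans (by positivity) this
  exact (Nat.cast_le.2 (h3.trans h4)).trans (kap_sum h0 hm)

open Classical in
/-- The set of these oracles is not a null set for any nice superpolynomial gauge. -/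
theorem not_null_K {f : ℕ → ℝ} {k : ℕ → ℕ}
    (hk : PolyTime (fun x => List.replicate (k x.length) true)) (hub : ∀ c, ∃ n, c ≤ k n)
    (hf : ∀ᶠ N : ℕ in atTop, ∀ n : ℕ, 2 ^ n ≤ N → (n : ℝ) ^ k n ≤ f N) :
    ¬ Null f {A : Oracle | ∃ L, IsBQPq 1 A L ∧ ¬ IsPH A L} := by
  refine NNg f (TK (kap k)) _ ∅ ?_ IH_ranO_empty ?_
  · filter_upwards [hf, eventually_ge_atTop 1] with N hN hN1
    have h4 := K_count (kap k) (Nat.log 2 N) N (by
      intro i hi n hn
      have h5 := hn.2.2
      rw [length_str] at h5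
      have h6 : Nat.log 2 (i + 1) ≤ Nat.log 2 N := Nat.log_mono_right (by omega)
      omega)
    have h0 : (0 : ℝ) ≤ f N := by
      have := hN 0 (by simpa using hN1)
      exact le_trans (by positivity) this
    refine (Nat.cast_le.2 h4).trans (kap_sum h0 fun n hn => hN n ?_)
    exact (Nat.le_log_iff_pow_le (by norm_num) (by omega)).1 hn
  · intro R _
    obtain ⟨A, h1, h2⟩ := K_exists (kap_poly hk) (kap_le k) (kap_inf hub) R
    exact ⟨A, h2, h1⟩

end Pool.Agent.TH654.RB
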