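import Pool.Agent.TH654.RB.SP5

/-!
# The tally set is truth-table hard near a suitable oracle
-/

set_option autoImplicit false

namespace Pool.Agent.TH654.RB

open Pool.Agent.NPC Pool.Agent.H620R2.Gauge Pool.Agent.H622R2 Finset
open Pool.Agent.W900.CH (dist finite_diff)
open Pool.Agent.TH678.PN Pool.Agent.TH678.EL
open Pool.Agent.W900.SP (join isFP_join)

theorem cntl_length {O A : Oracle} {b K B : Polynomial ℕ} {x : List Bool}
    (hK : (Df O A (b.eval x.length)).card ≤ K.eval x.length) :
    (cntl b K B (pairBits x ((QA b K B x).map (TT O A)))).length =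
      (Df O A (b.eval x.length)).card := by
  have h1 : (List.range (K.eval x.length)).map (fun i => lk (QA b K B x)
      ((QA b K B x).map (TT O A)) (ones (pr (b.eval x.length) (min i (K.eval x.length) + 1) 0))) =
      (List.range (K.eval x.length)).map
        (fun i => decide (i + 1 ≤ (Df O A (b.eval x.length)).card)) := by
    apply List.map_congr_left
    intro i hi
    rw [List.mem_range] at hi
    rw [min_eq_left hi.le, lk_eq (mem_QA (by omega) (Nat.zero_le _)), TT_ones, Bool.eq_iff_iff,
      TS_zero, decide_eq_true_iff]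
  unfold cntl
  simp only [unpair_pairBits]
  rw [h1, count_lt, min_eq_right hK]

theorem lst1_eq {O A : Oracle} {b K B : Polynomial ℕ} {x : List Bool}
    (hK : (Df O A (b.eval x.length)).card ≤ K.eval x.length) :
    lst1 b K B (pairBits x ((QA b K B x).map (TT O A))) = (List.range (B.eval x.length)).map
        (fun j => (bits (Ls O A (b.eval x.length)) ++ [true]).getD j false) := by
  unfold lst1
  rw [cntl_length hK]
  simp only [unpair_pairBits]
  apply List.map_congr_left
  intro i hi
  rw [List.mem_range] at hi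
  rw [min_eq_left hi.le, lk_eq (mem_QA hK (by omega)), TT_ones, Bool.eq_iff_iff, TS_succ]

/-- **All questions about the changed oracle are answered with the tally set.** -/
theorem tt_task {τ : ℕ → Task} {O A : Oracle} (h : ∀ e, IsFP A (Gf τ e O))
    (hA : ∃ d : Polynomial ℕ, ∀ m, dist O A m ≤ d.eval m) (e : ℕ) :
    TtRed A (TT O A) {x | (τ e).V A x} := by
  obtain ⟨d, hd⟩ := hA
  obtain ⟨K, hK⟩ : ∃ K : Polynomial ℕ, K = d.comp (τ e).b := ⟨_, rfl⟩
  obtain ⟨B, hB⟩ : ∃ B : Polynomial ℕ, B = K * (Polynomial.C 4 * (τ e).b + Polynomial.C 2) +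
    Polynomial.C 2 := ⟨_, rfl⟩
  have hKe : ∀ x : List Bool, (Df O A ((τ e).b.eval x.length)).card ≤ K.eval x.length := by
    intro x
    rw [hK, Polynomial.eval_comp, card_Df]
    exact hd _
  have hBe : ∀ x : List Bool,
      (bits (Ls O A ((τ e).b.eval x.length))).length < B.eval x.length := by
    intro x
    rw [bits_length]
    have h1 := sz_le_length_mul (Ls O A ((τ e).b.eval x.length)) (4 * (τ e).b.eval x.length + 1)
      (fun y hy => by
        have h2 := sz_listBool_le y
        have h3 := (mem_Df.1 (mem_Ls.1 hy)).1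
        omega)
    rw [Ls_length] at h1
    have h2 : (Df O A ((τ e).b.eval x.length)).card * (4 * (τ e).b.eval x.length + 1 + 1) ≤
        K.eval x.length * (4 * (τ e).b.eval x.length + 2) :=
      Nat.mul_le_mul (hKe x) (by omega)
    rw [hB]
    simp only [Polynomial.eval_add, Polynomial.eval_mul, Polynomial.eval_C]
    omega
  refine ⟨fun x => bits (QA (τ e).b K B x), fun y => Gf τ (e + 1) O (pairBits (unpair y).1
    ((lst1 (τ e).b K B y).take (lasti (lst1 (τ e).b K B y)))),
    IsFP.of_poly (R2.poly_bits (poly_QA _ _ _)), IsFP.comp (h (e + 1)) (IsFP.of_poly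
      (poly_pairBits (Poly.fst poly_unpair) (R1.poly_take (poly_lst1 _ _ _)
        (UPoly.of_le (poly_lasti.comp (poly_lst1 _ _ _)) (UPoly.length (poly_lst1 _ _ _))
          (fun y => lasti_le _))))), fun x => ⟨QA (τ e).b K B x, rfl, ?_⟩⟩
  beta_reduce
  rw [take_lasti (hBe x) (lst1_eq (hKe x)), unpair_pairBits]
  have h1 : Gf τ (e + 1) O (pairBits x (bits (Ls O A ((τ e).b.eval x.length)))) = [true] ↔
      (τ e).V (corr (Ls O A ((τ e).b.eval x.length)) O) x := by
    have h2 : Gf τ (e + 1) O (pairBits x (bits (Ls O A ((τ e).b.eval x.length)))) = [true] ↔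
        (τ e).V (corr (dec (unpair (pairBits x (bits (Ls O A ((τ e).b.eval x.length))))).2) O)
          (unpair (pairBits x (bits (Ls O A ((τ e).b.eval x.length))))).1 := by
      simp [Gf]
    rw [h2, unpair_pairBits, dec_bits]
  show (τ e).V A x ↔ Gf τ (e + 1) O (pairBits x (bits (Ls O A ((τ e).b.eval x.length)))) = [true]
  rw [h1, (τ e).loc _ A x (fun y hy => corr_eq (fun z => mem_Ls) hy)]

/-- truth-table reductions are Cook reductions -/
theorem cook_of_tt {A S : Oracle} {L : Set (List Bool)} (h : TtRed A S L) :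
    IsP (join A S) L := by
  obtain ⟨Q, E, hQ, hE, h⟩ := h
  have h1 : IsFP (join A S) (fun y => pairBits (unpair y).1
      (((dec (unpair y).2).map (fun q => true :: q)).map (join A S))) :=
    IsFP.tt (Q := fun y => (dec (unpair y).2).map (fun q => true :: q))
      (H := fun p => pairBits (unpair p.1).1 p.2)
      (NPC.Poly.map (F := fun (_ : List Bool) (q : List Bool) => true :: q)
        (poly_dec.comp (Poly.snd poly_unpair)) (Poly.cons (NPC.Poly.const true)
          (Poly.snd Poly.id)))
      (poly_pairBits (Poly.fst (poly_unpair.comp (Poly.fst Poly.id))) (Poly.snd Poly.id))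
  have h2 := IsFP.comp (isFP_join S hE) (IsFP.comp h1
    (IsFP.pair (IsFP.of_poly (F := fun x => x) Poly.id) (isFP_join S hQ)))
  refine ⟨_, h2, fun x => ?_⟩
  obtain ⟨qs, hq, hx⟩ := h x
  rw [hq, unpair_pairBits]
  simp only [dec_bits]
  have h3 : (qs.map (fun q => true :: q)).map (join A S) = qs.map S := by
    rw [List.map_map]
    exact List.map_congr_left fun q _ => rfl
  rw [h3]
  exact hx

/-- languages in `P` are reduced to every set -/
theorem tt_of_isP {A S : Oracle} {L : Set (List Bool)} (h : IsP A L) : TtRed A S L := by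
  obtain ⟨F, hF, h⟩ := h
  refine ⟨fun _ => bits ([] : List (List Bool)), fun y => F (unpair y).1,
    IsFP.of_poly (NPC.Poly.const _), IsFP.comp hF (IsFP.of_poly (Poly.fst poly_unpair)),
    fun x => ⟨[], rfl, ?_⟩⟩
  beta_reduce
  rw [unpair_pairBits]
  exact h x

/-- **Near a suitable oracle.** -/
theorem exists_tally : ∃ O : Oracle, ∀ A : Oracle,
    (∃ d : Polynomial ℕ, ∀ m, dist O A m ≤ d.eval m) →
    IsNP A {u | TT O A u = true} ∧ ∀ L, IsPSPACE A L → TtRed A (TT O A) L := by
  obtain ⟨τ, h1⟩ := exists_space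
  obtain ⟨O, hO⟩ := exists_code τ
  refine ⟨O, fun A hA => ⟨isNP_TT (hO A hA 0), fun L hL => ?_⟩⟩
  obtain ⟨e, rfl⟩ := h1 A L hL
  exact tt_task (hO A hA) hA e

end Pool.Agent.TH654.RB
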