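import Pool.Agent.H591R3.CEX.Upper
import Pool.Agent.TH654.RB.SP6
import Pool.Agent.TH678.EL.Search
import Pool.Agent.TH678.PC.Adv2

/-!
# The best solutions of optimization problems relative to all oracles
-/

set_option autoImplicit false

namespace Pool.Agent.TH654.RB

open Pool.Agent.NPC Pool.Agent.H620R2.Gauge Pool.Agent.H622R2 Finset
open Pool.Agent.TH678.PN Pool.Agent.TH678.EL
open Pool.Agent.H591R3.CEX (num)
open Pool.Agent.H591R3.CEX.Upper (num_str str_num length_le Best Beats best_exists best_unique
  unpair_pre)

/-- the data of an optimization problem -/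
structure OD : Type where
  M : Alg
  p : Polynomial ℕ
  i : ℕ
  F : Alg

/-- `v` is not feasible for `u` -/
def bad (D : OD) (A : Oracle) (u v : List Bool) : Prop :=
  Quant (D.p.eval (pairBits u v).length) (fun y => (D.M.out A y).getD []) D.i true (pairBits u v)

/-- the value of `v` -/
def val (D : OD) (A : Oracle) (v : List Bool) : ℕ := num ((D.F.out A v).getD [])

/-- the feasible solutions -/
def Cr (D : OD) (A : Oracle) (u : List Bool) (y : ℕ) : Prop :=
  y = 0 ∨ (y ≤ num u ∧ ¬ bad D A u (str y))

/-- the values -/
def rr (D : OD) (A : Oracle) (u : List Bool) (y : ℕ) : ℕ := if y ≤ num u then val D A (str y) else 0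

/-- the best solution -/
noncomputable def bst (D : OD) (A : Oracle) (u : List Bool) : List Bool :=
  str (Classical.epsilon (fun y => Best (fun _ => Cr D A u) (fun y => rr D A u y) (num u) y))

theorem Cr_le {D : OD} {A : Oracle} {u : List Bool} {y : ℕ} (h : Cr D A u y) : y ≤ num u := by
  rcases h with rfl | h
  · exact Nat.zero_le _
  · exact h.1

theorem bst_spec (D : OD) (A : Oracle) (u : List Bool) :
    Best (fun _ => Cr D A u) (fun y => rr D A u y) (num u) (num (bst D A u)) := by
  unfold bst
  rw [num_str]
  exact Classical.epsilon_spec (best_exists (C := fun _ => Cr D A u)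
    (ρ := fun y => rr D A u y) (x := num u) (Or.inl rfl) (fun y hy => Cr_le hy))

theorem bst_le (D : OD) (A : Oracle) (u : List Bool) : num (bst D A u) ≤ num u :=
  Cr_le (bst_spec D A u).1

theorem bst_len (D : OD) (A : Oracle) (u : List Bool) : (bst D A u).length ≤ u.length := by
  have h := length_le (bst_le D A u)
  rwa [str_num, str_num] at h

theorem bst_congr {D : OD} {A A' : Oracle} {u : List Bool}
    (h1 : ∀ v : List Bool, v.length ≤ u.length → (bad D A u v ↔ bad D A' u v))
    (h2 : ∀ v : List Bool, v.length ≤ u.length → val D A v = val D A' v) :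
    bst D A u = bst D A' u := by
  have hl : ∀ y, y ≤ num u → (str y).length ≤ u.length := by
    intro y hy
    have h := length_le hy
    rwa [str_num] at h
  have e1 : Cr D A u = Cr D A' u := by
    funext y
    unfold Cr
    by_cases hy : y ≤ num u
    · rw [h1 _ (hl y hy)]
    · simp [hy]
  have e2 : rr D A u = rr D A' u := by
    funext y
    unfold rr
    by_cases hy : y ≤ num u
    · rw [if_pos hy, if_pos hy, h2 _ (hl y hy)]
    · rw [if_neg hy, if_neg hy]
  unfold bst
  rw [e1, e2]

theorem quant_congr {V V' : List Bool → List Bool} {m : ℕ} : ∀ (k : ℕ) (b : Bool) (u : List Bool),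
    (∀ y : List Bool, y.length ≤ u.length + k * (2 * m + 1) → V y = V' y) →
    (Quant m V k b u ↔ Quant m V' k b u)
  | 0, b, u, h => by
    have h1 := h u (by omega)
    cases b <;> simp [Quant, h1]
  | k + 1, b, u, h => by
    have h1 : ∀ w : List Bool, w.length ≤ m → ∀ b,
        (Quant m V k b (pairBits w u) ↔ Quant m V' k b (pairBits w u)) := by
      intro w hw b
      apply quant_congr k b
      intro y hy
      apply h
      rw [A2.length_pairBits] at hy
      have h2 : (k + 1) * (2 * m + 1) = k * (2 * m + 1) + (2 * m + 1) := by ring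
      omega
    cases b with
    | true =>
      simp only [Quant]
      exact exists_congr fun w => and_congr_right fun hw => h1 w hw false
    | false =>
      simp only [Quant]
      exact forall_congr' fun w => imp_congr_right fun hw => h1 w hw true

/-- the bound -/
noncomputable def bnd (D : OD) : Polynomial ℕ :=
  (Pool.Agent.TH678.PC.out_agree D.M).choose.comp (Polynomial.C 3 * Polynomial.X + 1 +
    Polynomial.C D.i * (Polynomial.C 2 * D.p.comp (Polynomial.C 3 * Polynomial.X + 1) + 1)) +
  (Pool.Agent.TH678.PC.out_agree D.F).choose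

theorem bst_local (D : OD) {A A' : Oracle} {u : List Bool}
    (h : ∀ y : List Bool, y.length ≤ (bnd D).eval u.length → A y = A' y) :
    bst D A u = bst D A' u := by
  have hM := (Pool.Agent.TH678.PC.out_agree D.M).choose_spec
  have hF := (Pool.Agent.TH678.PC.out_agree D.F).choose_spec
  apply bst_congr
  · intro v hv
    have hz : (pairBits u v).length ≤ (Polynomial.C 3 * Polynomial.X + 1 : Polynomial ℕ).eval
        u.length := by
      rw [A2.length_pairBits]
      simp only [Polynomial.eval_add, Polynomial.eval_mul, Polynomial.eval_C, Polynomial.eval_X,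
        Polynomial.eval_one]
      omega
    unfold bad
    apply quant_congr
    intro y hy
    congr 1
    apply hM
    intro q hq
    apply h
    refine hq.trans ?_
    unfold bnd
    rw [Polynomial.eval_add]
    refine le_trans ?_ (Nat.le_add_right _ _)
    rw [Polynomial.eval_comp]
    apply eval_mono
    have h1 := eval_mono D.p hz
    refine hy.trans ?_
    rw [Polynomial.eval_add, Polynomial.eval_mul, Polynomial.eval_C]
    refine Nat.add_le_add hz (Nat.mul_le_mul_left _ ?_)
    rw [Polynomial.eval_add, Polynomial.eval_mul, Polynomial.eval_C, Polynomial.eval_comp,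
      Polynomial.eval_one]
    omega
  · intro v hv
    unfold val
    rw [hF A' A v fun y hy => h y (by
      unfold bnd
      rw [Polynomial.eval_add]
      have := eval_mono (Pool.Agent.TH678.PC.out_agree D.F).choose hv
      omega)]

/-- the bits of the best solution -/
noncomputable def optTask (D : OD) : Task where
  b := bnd D
  V := fun A x => (pairBits (bst D A (unpair x).1) []).getD (unpair x).2.length false = true
  loc := fun A A' x h => by
    rw [bst_local D (u := (unpair x).1) fun y hy =>
      h y (hy.trans (eval_mono _ (unpair_fst_len x)))]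

theorem exists_opt : ∃ g : ℕ → OD, Function.Surjective g := by
  have h1 := CC.poly_countable
  obtain ⟨al, _⟩ := exists_alg
  have h2 : Countable Alg := inferInstance
  have h3 : Nonempty ((Alg × Polynomial ℕ) × ℕ × Alg) := ⟨((al 0, 0), 0, al 0)⟩
  obtain ⟨g, hg⟩ := exists_surjective_nat ((Alg × Polynomial ℕ) × ℕ × Alg)
  refine ⟨fun e => ⟨(g e).1.1, (g e).1.2, (g e).2.1, (g e).2.2⟩, fun D => ?_⟩
  obtain ⟨e, he⟩ := hg ((D.M, D.p), D.i, D.F)
  exact ⟨e, by simp only [he]⟩

/-- a short function is computed from its bits -/
theorem isFP_of_bits {A : Oracle} {V : List Bool → List Bool} (hV : IsFP A V)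
    {G : List Bool → List Bool} (hG : ∀ s, (G s).length ≤ s.length)
    (h : ∀ s (j : ℕ), V (pairBits s (ones j)) = [true] ↔
      (pairBits (G s) []).getD j false = true) : IsFP A G := by
  obtain ⟨T, hT⟩ : ∃ T : Polynomial ℕ, T = Polynomial.C 2 * Polynomial.X + 1 := ⟨_, rfl⟩
  have hl : UPoly (fun p : (ℕ × List Bool) × List Bool => p.1.2.length) :=
    UPoly.length (Poly.snd (Poly.fst Poly.id))
  have h1 := IsFP.votes hV T (Q := fun _ => []) (NPC.Poly.const [])
    (W := fun p => pairBits p.1.2 (ones (min p.1.1 (T.eval p.1.2.length))))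
    (poly_pairBits (Poly.snd (Poly.fst Poly.id)) (poly_rep (UPoly.of_le
      (Poly.min (Poly.fst (Poly.fst Poly.id)) (hl.eval T).toPoly) (hl.eval T)
      (fun p => min_le_right _ _)) true))
    (H := fun p => (unpair p.2).1) (Poly.fst (poly_unpair.comp (Poly.snd Poly.id)))
  refine (congrArg (IsFP A) (funext fun s => ?_)).mp h1
  have h2 : (List.range (T.eval s.length)).map
      (fun i => decide (V (pairBits s (ones (min i (T.eval s.length)))) = [true])) =
      H591R3.CEX.Upper.pre (pairBits (G s) []) (T.eval s.length) := by
    unfold H591R3.CEX.Upper.pre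
    apply List.map_congr_left
    intro j hj
    rw [List.mem_range] at hj
    rw [min_eq_left hj.le, Bool.eq_iff_iff, decide_eq_true_iff]
    exact h s j
  have h3 : 2 * (G s).length + 1 ≤ T.eval s.length := by
    rw [hT]
    simp only [Polynomial.eval_add, Polynomial.eval_mul, Polynomial.eval_C, Polynomial.eval_X,
      Polynomial.eval_one]
    have := hG s
    omega
  show (unpair ((List.range (T.eval s.length)).map
      (fun i => decide (V (pairBits s (ones (min i (T.eval s.length)))) = [true])))).1 = G s
  rw [h2, unpair_pre _ _ h3]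

/-- the best solution relative to a corrected oracle -/
theorem isFP_bstc {τ : ℕ → Task} {O A : Oracle} (h : ∀ e, IsFP A (Gf τ e O)) {e : ℕ} {D : OD}
    (he : τ e = optTask D) :
    IsFP A (fun s => bst D (corr (dec (unpair s).2) O) (unpair s).1) := by
  have h1 : IsFP A (fun z => Gf τ (e + 1) O (pairBits (pairBits (unpair (unpair z).1).1
      (unpair z).2) (unpair (unpair z).1).2)) :=
    IsFP.comp (h (e + 1)) (IsFP.of_poly (poly_pairBits (poly_pairBits
      (Poly.fst (poly_unpair.comp (Poly.fst poly_unpair))) (Poly.snd poly_unpair))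
      (Poly.snd (poly_unpair.comp (Poly.fst poly_unpair)))))
  refine isFP_of_bits h1 (fun s => (bst_len _ _ _).trans (unpair_fst_len s)) (fun s j => ?_)
  have h2 : Gf τ (e + 1) O (pairBits (pairBits (unpair s).1 (ones j)) (unpair s).2) = [true] ↔
      (τ e).V (corr (dec (unpair (pairBits (pairBits (unpair s).1 (ones j)) (unpair s).2)).2) O)
        (unpair (pairBits (pairBits (unpair s).1 (ones j)) (unpair s).2)).1 := by
    simp [Gf]
  simp only [unpair_pairBits] at h2 ⊢
  rw [h2, he]
  show (pairBits (bst D (corr (dec (unpair s).2) O) (unpair (pairBits (unpair s).1 (ones j))).1)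
    []).getD (unpair (pairBits (unpair s).1 (ones j))).2.length false = true ↔ _
  rw [unpair_pairBits, ones_length]

end Pool.Agent.TH654.RB
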