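import Pool.Agent.TH654.RB.SP6

/-!
# Tally sets which are hard under bounded truth-table reductions
-/

set_option autoImplicit false

namespace Pool.Agent.TH654.RB

open Pool.Agent.NPC Pool.Agent.H620R2.Gauge Pool.Agent.H622R2 Finset
open Pool.Agent.TH678.PN Pool.Agent.TH678.EL

/-! ### short lists -/

/-- the lists of at most `k` members of `c` -/
def wl {β : Type} (c : List β) : ℕ → List (List β)
  | 0 => [[]]
  | k + 1 => [] :: (wl c k).flatMap (fun l => c.map (fun q => q :: l))

theorem mem_wl {β : Type} {c : List β} : ∀ {k : ℕ} {l : List β}, l.length ≤ k →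
    (∀ q ∈ l, q ∈ c) → l ∈ wl c k
  | 0, l, h, _ => by
    have : l = [] := List.eq_nil_of_length_eq_zero (by omega)
    rw [this]
    exact List.mem_singleton.2 rfl
  | k + 1, [], _, _ => List.mem_cons_self
  | k + 1, q :: l, h, hq => by
    unfold wl
    refine List.mem_cons_of_mem _ (List.mem_flatMap.2 ⟨l, mem_wl (by simpa using h)
      (fun q' hq' => hq q' (List.mem_cons_of_mem _ hq')), List.mem_map.2 ⟨q,
        hq q List.mem_cons_self, rfl⟩⟩)

theorem poly_wl {α β : Type} [TEnc α] [TEnc β] {c : α → List β} (hc : Poly c) :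
    ∀ k : ℕ, Poly (fun a => wl (c a) k)
  | 0 => NPC.Poly.const _
  | k + 1 => by
    refine Poly.cons (NPC.Poly.const []) (Poly.flatMap (F := fun (a : α) (l : List β) =>
      (c a).map (fun q => q :: l)) (poly_wl hc k) ?_)
    exact NPC.Poly.map (F := fun (s : α × List β) (q : β) => q :: s.2)
      (hc.comp (Poly.fst Poly.id)) (Poly.cons (Poly.snd Poly.id) (Poly.snd (Poly.fst Poly.id)))

/-! ### normal forms of the reductions -/

/-- the candidates for the questions -/
def qcd (N : ℕ) : List (List Bool) := [false] :: (List.range (N + 1)).map (fun i => ones (min i N))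

theorem poly_qcd : Poly (fun l : List Bool => qcd l.length) := by
  refine Poly.cons (NPC.Poly.const _) (NPC.Poly.map (F := fun (l : List Bool) (i : ℕ) =>
    ones (min i l.length)) (UPoly.add (UPoly.length Poly.id) (UPoly.const 1)).range ?_)
  exact poly_rep (UPoly.of_le (Poly.min (Poly.snd Poly.id)
    (UPoly.length (Poly.fst Poly.id)).toPoly) (UPoly.length (Poly.fst Poly.id))
    (fun p => min_le_right _ _)) true

/-- the question in normal form -/
def nq (q : List Bool) : List Bool := if q = List.replicate q.length true then q else [false]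

theorem nq_eq {S : Oracle} (hT : ∀ u, S u = true → u = List.replicate u.length true)
    (q : List Bool) : S (nq q) = S q := by
  unfold nq
  split_ifs with h
  · rfl
  · have h1 : ∀ u : List Bool, u ≠ List.replicate u.length true → S u = false := by
      intro u hu
      rw [← Bool.not_eq_true]
      exact fun h => hu (hT u h)
    rw [h1 q h, h1 [false] (by decide)]

theorem nq_mem {q : List Bool} {N : ℕ} (h : (nq q).length ≤ N) : nq q ∈ qcd N := by
  unfold qcd
  unfold nq at h ⊢
  split_ifs at h ⊢ with h1
  · refine List.mem_cons_of_mem _ (List.mem_map.2 ⟨q.length, List.mem_range.2 (by omega), ?_⟩)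
    rw [min_eq_left h]
    exact h1.symm
  · exact List.mem_cons_self

theorem poly_nq : Poly nq :=
  Poly.ite (Poly.decide_eq Poly.id (poly_rep (UPoly.length Poly.id) true)) Poly.id
    (NPC.Poly.const _)

/-- all short answer vectors -/
def av (k : ℕ) : List (List Bool) := wl [false, true] k

/-- a table in normal form -/
def nt (k : ℕ) (tt : List (List Bool)) : List (List Bool) := (av k).filter (fun v => decide (v ∈ tt))

/-- the candidates for the values of the reduction -/
def bc (k N : ℕ) : List (List Bool) :=
  (wl (qcd N) k).flatMap (fun q => (av k).sublists.map (fun t => bits ((q, t) :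
    List (List Bool) × List (List Bool))))

theorem poly_bc (k : ℕ) : Poly (fun l : List Bool => bc k l.length) := by
  unfold bc
  refine Poly.flatMap (F := fun (_ : List Bool) (q : List (List Bool)) =>
    (av k).sublists.map (fun t => bits ((q, t) : List (List Bool) × List (List Bool))))
    (poly_wl poly_qcd k) ?_
  exact NPC.Poly.map (F := fun (s : List Bool × List (List Bool)) (t : List (List Bool)) =>
    bits ((s.2, t) : List (List Bool) × List (List Bool))) (NPC.Poly.const _)
    (R2.poly_bits (Poly.pair (Poly.snd (Poly.fst Poly.id)) (Poly.snd Poly.id)))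

/-- decoding -/
def d2 (s : List Bool) : List (List Bool) × List (List Bool) :=
  (unbits (List (List Bool) × List (List Bool)) s).getD ([], [])

theorem d2_bits (s : List (List Bool) × List (List Bool)) : d2 (bits s) = s := by
  unfold d2
  rw [unbits_bits]
  rfl

theorem poly_d2 : Poly d2 :=
  (Poly.optCases (o := unbits (List (List Bool) × List (List Bool)))
    (g := fun _ => (([], []) : List (List Bool) × List (List Bool))) (h := fun _ b => b)
    poly_unbits (NPC.Poly.const _) (Poly.snd Poly.id)).congr fun s => by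
      unfold d2
      cases unbits (List (List Bool) × List (List Bool)) s <;> rfl

/-- the value in normal form -/
def nrm (k : ℕ) (s : List Bool) : List Bool :=
  bits (((d2 s).1.map nq, nt k (d2 s).2) : List (List Bool) × List (List Bool))

theorem poly_nrm (k : ℕ) : Poly (nrm k) := by
  unfold nrm nt
  refine R2.poly_bits (Poly.pair (NPC.Poly.map (F := fun (_ : List Bool) (q : List Bool) => nq q)
    (Poly.fst poly_d2) (poly_nq.comp (Poly.snd Poly.id))) ?_)
  exact Poly.filter (p := fun (s v : List Bool) => decide (v ∈ (d2 s).2)) (NPC.Poly.const _)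
    ((Poly.decide_mem (Poly.snd Poly.id) (Poly.snd (poly_d2.comp (Poly.fst Poly.id)))).congr
      fun _ => decide_eq_decide.2 Iff.rfl)

/-- the set of the satisfied values in normal form -/
noncomputable def BS (S : Oracle) (k : ℕ) : Oracle := fun u =>
  open Classical in decide (u ∈ bc k u.length ∧ (d2 u).1.map S ∈ (d2 u).2)

theorem length_le_bits {q : List Bool} {qs t : List (List Bool)} (h : q ∈ qs) :
    q.length ≤ (bits ((qs, t) : List (List Bool) × List (List Bool))).length := by
  rw [bits_length, sz_pair]
  have h1 := sz_le_of_mem h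
  have h2 := length_lt_sz q
  omega

theorem qcd_mono {N M : ℕ} (h : N ≤ M) {q : List Bool} (hq : q ∈ qcd N) : q ∈ qcd M := by
  unfold qcd at *
  rcases List.mem_cons.1 hq with rfl | hq
  · exact List.mem_cons_self
  · obtain ⟨i, hi, rfl⟩ := List.mem_map.1 hq
    rw [List.mem_range] at hi
    refine List.mem_cons_of_mem _ (List.mem_map.2 ⟨i, List.mem_range.2 (by omega), ?_⟩)
    rw [min_eq_left (by omega), min_eq_left (by omega)]

theorem wl_sub {β : Type} {c : List β} : ∀ {k : ℕ} {l : List β}, l ∈ wl c k →
    l.length ≤ k ∧ ∀ q ∈ l, q ∈ c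
  | 0, l, h => by
    rw [List.mem_singleton.1 h]
    exact ⟨le_rfl, fun q hq => absurd hq (by simp)⟩
  | k + 1, l, h => by
    unfold wl at h
    rcases List.mem_cons.1 h with rfl | h
    · exact ⟨Nat.zero_le _, fun q hq => absurd hq (by simp)⟩
    · obtain ⟨l', hl', h⟩ := List.mem_flatMap.1 h
      obtain ⟨q, hq, rfl⟩ := List.mem_map.1 h
      obtain ⟨h1, h2⟩ := wl_sub hl'
      refine ⟨by simpa using h1, fun q' hq' => ?_⟩
      rcases List.mem_cons.1 hq' with rfl | hq'
      · exact hq
      · exact h2 q' hq'

theorem bc_mono {k N M : ℕ} (h : N ≤ M) {u : List Bool} (hu : u ∈ bc k N) : u ∈ bc k M := by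
  unfold bc at *
  obtain ⟨q, hq, hu⟩ := List.mem_flatMap.1 hu
  obtain ⟨h1, h2⟩ := wl_sub hq
  exact List.mem_flatMap.2 ⟨q, mem_wl h1 (fun q' hq' => qcd_mono h (h2 q' hq')), hu⟩

theorem BS_cand (S : Oracle) (k : ℕ) (u : List Bool) (N : ℕ) (h : BS S k u = true)
    (hN : u.length ≤ N) : u ∈ bc k N := by
  have h0 : u ∈ bc k u.length ∧ (d2 u).1.map S ∈ (d2 u).2 := by
    simpa [BS] using h
  exact bc_mono hN h0.1

theorem BS_nrm {S : Oracle} (hT : ∀ u, S u = true → u = List.replicate u.length true) {k : ℕ}
    {qs tt : List (List Bool)} (hk : qs.length ≤ k) :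
    BS S k (nrm k (bits ((qs, tt) : List (List Bool) × List (List Bool)))) = true ↔
      qs.map S ∈ tt := by
  have h0 : nrm k (bits ((qs, tt) : List (List Bool) × List (List Bool))) =
      bits ((qs.map nq, nt k tt) : List (List Bool) × List (List Bool)) := by
    unfold nrm
    rw [d2_bits]
  have h1 : BS S k (nrm k (bits ((qs, tt) : List (List Bool) × List (List Bool)))) = true ↔
      nrm k (bits ((qs, tt) : List (List Bool) × List (List Bool))) ∈ bc k
        (nrm k (bits ((qs, tt) : List (List Bool) × List (List Bool)))).length ∧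
      (d2 (nrm k (bits ((qs, tt) : List (List Bool) × List (List Bool))))).1.map S ∈
        (d2 (nrm k (bits ((qs, tt) : List (List Bool) × List (List Bool))))).2 := by
    simp [BS]
  rw [h1, h0, d2_bits]
  have h2 : (qs.map nq).map S = qs.map S := by
    rw [List.map_map]
    exact List.map_congr_left fun q _ => nq_eq hT q
  have h3 : bits ((qs.map nq, nt k tt) : List (List Bool) × List (List Bool)) ∈ bc k
      (bits ((qs.map nq, nt k tt) : List (List Bool) × List (List Bool))).length := by
    refine List.mem_flatMap.2 ⟨qs.map nq, mem_wl (by simpa using hk) (fun q hq => ?_),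
      List.mem_map.2 ⟨nt k tt, List.mem_sublists.2 List.filter_sublist, rfl⟩⟩
    have h4 := length_le_bits (t := nt k tt) hq
    obtain ⟨q', -, rfl⟩ := List.mem_map.1 hq
    exact nq_mem h4
  show _ ∧ (qs.map nq).map S ∈ nt k tt ↔ _
  rw [h2]
  unfold nt
  rw [List.mem_filter, decide_eq_true_iff]
  constructor
  · rintro ⟨-, -, h⟩
    exact h
  · intro h
    refine ⟨h3, mem_wl (by simpa using hk) (fun b _ => ?_), h⟩
    cases b <;> simp

/-- **A tally set which is hard for `NP` under bounded truth-table reductions makes `P = NP`.** -/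
theorem isP_of_btt {A S : Oracle} (hT : ∀ u, S u = true → u = List.replicate u.length true)
    (h : ∀ L, IsNP A L → ∃ (k : ℕ) (F : List Bool → List Bool), IsFP A F ∧
      ∀ x, ∃ qs tt : List (List Bool), F x = bits (qs, tt) ∧ qs.length ≤ k ∧
        (x ∈ L ↔ qs.map S ∈ tt)) {L : Set (List Bool)} (hL : IsNP A L) : IsP A L := by
  obtain ⟨V, p, hV, hVL⟩ := hL
  obtain ⟨k, F, hF, hFL⟩ := h _ (isNP_ext hV p)
  refine isP_of_ext (S := BS S k) (poly_bc k) (BS_cand S k) hV
    (f := fun z => nrm k (F z)) (IsFP.comp (IsFP.of_poly (poly_nrm k)) hF) (fun z => ?_) hVL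
  obtain ⟨qs, tt, h1, h2, h3⟩ := hFL z
  rw [h1, BS_nrm hT h2, ← h3]
  rfl

end Pool.Agent.TH654.RB
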