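import Pool.Agent.TH654.RB.CE1
import Pool.Agent.TH654.RB.SP7

/-!
# Changed strings found with counterexamples
-/

set_option autoImplicit false

namespace Pool.Agent.TH654.RB

open Pool.Agent.NPC Pool.Agent.H620R2.Gauge Pool.Agent.H622R2 Finset
open Pool.Agent.TH678.PN
open Pool.Agent.TH678.EL (hist qj Tr isFP_Tr hist_run hist_get hist_len poly_rep)
open Pool.Agent.H591R3.CEX (num Counter)
open Pool.Agent.H591R3.CEX.Upper (num_str str_num length_le Best Beats best_exists best_unique
  unpair_pre)

/-- the questions -/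
def qs1 (M : Alg) (x a : List Bool) : List (List Bool) :=
  (List.range a.length).map (fun j => qj M x a (min j a.length))

theorem poly_qs1 (M : Alg) {α : Type} [TEnc α] {x a : α → List Bool} (hx : Poly x) (ha : Poly a) :
    Poly (fun s => qs1 M (x s) (a s)) := by
  unfold qs1
  refine NPC.Poly.map (F := fun (s : α) (j : ℕ) => qj M (x s) (a s) (min j (a s).length))
    (UPoly.length ha).range ?_
  unfold qj
  have hD : Poly M.D := poly_of_polyTime M.poly
  have ha' : Poly (fun p : α × ℕ => a p.1) := ha.comp (Poly.fst Poly.id)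
  exact Poly.tail (hD.comp (poly_pairBits (hx.comp (Poly.fst Poly.id)) (R1.poly_take ha'
    (UPoly.of_le (Poly.min (Poly.snd Poly.id) (Poly.length ha')) (UPoly.length ha')
      (fun p => min_le_right _ _)))))

theorem out_agree1 {M : Alg} {A B : Oracle} {x : List Bool}
    (h : ∀ q ∈ qs1 M x (Tr M A x), A q = B q) : M.out B x = M.out A x := by
  unfold Alg.out
  apply hist_run
  intro j hj
  rw [hist_get M A x _ j hj, ← h]
  unfold qs1
  exact List.mem_map.2 ⟨j, List.mem_range.2 hj, by
    unfold Tr
    rw [min_eq_left hj.le]⟩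

/-- the questions are short -/
theorem exists_qb (M : Alg) : ∃ b : Polynomial ℕ, ∀ (A : Oracle) (x : List Bool),
    ∀ q ∈ qs1 M x (Tr M A x), q.length ≤ b.eval x.length := by
  obtain ⟨b, hb⟩ := A2.act_bound M
  refine ⟨b, fun A x q hq => ?_⟩
  unfold qs1 at hq
  obtain ⟨j, -, rfl⟩ := List.mem_map.1 hq
  unfold qj
  rw [List.length_tail]
  have h1 : ((Tr M A x).take (min j (Tr M A x).length)).length ≤ M.p.eval x.length := by
    rw [List.length_take]
    have h2 : (Tr M A x).length ≤ M.p.eval x.length := hist_len M A x _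
    omega
  have h3 := hb x _ h1
  omega

/-- all questions in one round -/
def XX (D : OD) (u y z t1 t2 t3 t4 : List Bool) : List (List Bool) :=
  qs1 D.M (pairBits u y) t1 ++ (qs1 D.M (pairBits u z) t2 ++ (qs1 D.F y t3 ++ qs1 D.F z t4))

/-- all questions in one round -/
noncomputable def X1 (D : OD) (A : Oracle) (u y z : List Bool) : List (List Bool) :=
  XX D u y z (Tr D.M A (pairBits u y)) (Tr D.M A (pairBits u z)) (Tr D.F A y) (Tr D.F A z)

/-- the new changed string -/
noncomputable def nw (D : OD) (O A : Oracle) (u y z : List Bool) (l : List (List Bool)) :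
    List (List Bool) :=
  (((X1 D A u y z).filter (fun q => !decide (q ∈ l))).filter
    (fun q => decide ([decide (A q ≠ O q)] = [true]))).take 1

theorem mem_nw {D : OD} {O A : Oracle} {u y z : List Bool} {l : List (List Bool)}
    {q : List Bool} (h : q ∈ nw D O A u y z l) : q ∈ X1 D A u y z ∧ q ∉ l ∧ A q ≠ O q := by
  have h1 := List.mem_of_mem_take h
  rw [List.mem_filter, List.mem_filter] at h1
  refine ⟨h1.1.1, by simpa using h1.1.2, by simpa using h1.2⟩

theorem nw_length {D : OD} {O A : Oracle} {u y z : List Bool} {l : List (List Bool)} :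
    (nw D O A u y z l).length ≤ 1 := by
  unfold nw
  rw [List.length_take]
  exact min_le_left _ _

theorem corr_ne {l : List (List Bool)} {O A : Oracle} (hl : ∀ y ∈ l, A y ≠ O y) {q : List Bool} :
    A q ≠ corr l O q ↔ q ∉ l ∧ A q ≠ O q := by
  unfold corr
  by_cases hq : q ∈ l
  · rw [if_pos hq]
    have h1 := hl q hq
    constructor
    · intro h
      exfalso
      apply h
      revert h1
      cases A q <;> cases O q <;> simp
    · intro h
      exact absurd hq h.1
  · rw [if_neg hq]
    exact ⟨fun h => ⟨hq, h⟩, fun h => h.2⟩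

theorem nw_pos {D : OD} {O A : Oracle} {u y z : List Bool} {l : List (List Bool)}
    (hl : ∀ y ∈ l, A y ≠ O y) (h : ∃ q ∈ X1 D A u y z, A q ≠ corr l O q) :
    (nw D O A u y z l).length = 1 := by
  obtain ⟨q, hq, h⟩ := h
  rw [corr_ne hl] at h
  unfold nw
  rw [List.length_take]
  have h1 : q ∈ ((X1 D A u y z).filter (fun q => !decide (q ∈ l))).filter
      (fun q => decide ([decide (A q ≠ O q)] = [true])) := by
    rw [List.mem_filter, List.mem_filter]
    exact ⟨⟨hq, by simpa using h.1⟩, by simpa using h.2⟩
  have h2 := List.length_pos_of_mem h1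
  omega

/-- **A counterexample shows a new changed string.** -/
theorem progress {D : OD} {O A : Oracle} {C : ℕ → ℕ → Prop} {ρ : ℕ → ℕ} (hi : D.i = 0)
    (h0 : ∀ x, C x 0)
    (hbad : ∀ u v, bad D A u v ↔ ¬ C (num u) (num v)) (hval : ∀ v, val D A v = ρ (num v))
    {u : List Bool} {l : List (List Bool)} {z : ℕ}
    (hz : Counter C ρ (num u) (num (bst D (corr l O) u)) z) :
    ∃ q ∈ X1 D A u (bst D (corr l O) u) (str z), A q ≠ corr l O q := by
  by_contra hcon
  push Not at hcon
  obtain ⟨y, hy⟩ : ∃ y, y = bst D (corr l O) u := ⟨_, rfl⟩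
  rw [← hy] at hcon hz
  have m1 : D.M.out (corr l O) (pairBits u y) = D.M.out A (pairBits u y) :=
    out_agree1 fun q hq => hcon q (List.mem_append_left _ hq)
  have m2 : D.M.out (corr l O) (pairBits u (str z)) = D.M.out A (pairBits u (str z)) :=
    out_agree1 fun q hq => hcon q (List.mem_append_right _ (List.mem_append_left _ hq))
  have f1 : D.F.out (corr l O) y = D.F.out A y :=
    out_agree1 fun q hq => hcon q (List.mem_append_right _ (List.mem_append_right _
      (List.mem_append_left _ hq)))
  have f2 : D.F.out (corr l O) (str z) = D.F.out A (str z) :=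
    out_agree1 fun q hq => hcon q (List.mem_append_right _ (List.mem_append_right _
      (List.mem_append_right _ hq)))
  have b1 : bad D (corr l O) u y ↔ bad D A u y := by
    unfold bad
    rw [hi]
    simp only [Quant, m1]
  have b2 : bad D (corr l O) u (str z) ↔ bad D A u (str z) := by
    unfold bad
    rw [hi]
    simp only [Quant, m2]
  have v1 : val D (corr l O) y = val D A y := by
    unfold val
    rw [f1]
  have v2 : val D (corr l O) (str z) = val D A (str z) := by
    unfold val
    rw [f2]
  have hs := bst_spec D (corr l O) u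
  rw [← hy] at hs
  obtain ⟨s1, s2⟩ := hs
  have hyle : num y ≤ num u := Cr_le s1
  have hCy : C (num u) (num y) := by
    rcases s1 with h | ⟨-, h⟩
    · rw [h]
      exact h0 _
    · rw [str_num, b1, hbad, not_not] at h
      exact h
  obtain ⟨hzle, hz⟩ := hz
  have hz' : ρ (num y) < ρ z ∧ C (num u) z := by
    by_contra h
    apply hz
    refine ⟨hCy, fun h1 h2 => h ⟨h1, h2⟩⟩
  have hCz : Cr D (corr l O) u z := Or.inr ⟨hzle, by
    rw [b2, hbad, num_str, not_not]
    exact hz'.2⟩
  have e1 : rr D (corr l O) u (num y) = ρ (num y) := by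
    unfold rr
    rw [if_pos hyle, str_num, v1, hval]
  have e2 : rr D (corr l O) u z = ρ z := by
    unfold rr
    rw [if_pos hzle, v2, hval, num_str]
  apply s2 z
  exact ⟨hCz, Or.inl (by
    show rr D (corr l O) u (num y) < rr D (corr l O) u z
    rw [e1, e2]
    exact hz'.1)⟩

/-- the list after a counterexample -/
noncomputable def upd (D : OD) (O A : Oracle) (u : List Bool) (l : List (List Bool))
    (z : List Bool) : List (List Bool) :=
  l ++ nw D O A u (bst D (corr l O) u) z l

/-- the list after several counterexamples -/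
noncomputable def lf (D : OD) (O A : Oracle) (u : List Bool) (zs : List (List Bool)) :
    List (List Bool) := zs.foldl (upd D O A u) []

theorem lf_append (D : OD) (O A : Oracle) (u : List Bool) (zs : List (List Bool))
    (z : List Bool) : lf D O A u (zs ++ [z]) = upd D O A u (lf D O A u zs) z := by
  unfold lf
  rw [List.foldl_append]
  rfl

/-- states of the loop -/
abbrev S3 : Type := List Bool × List (List Bool) × List (List Bool)

/-- decoding -/
def d3 (s : List Bool) : S3 := (unbits S3 s).getD ([], [], [])

theorem d3_bits (s : S3) : d3 (bits s) = s := by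
  unfold d3
  rw [unbits_bits]
  rfl

theorem poly_d3 : Poly d3 :=
  (Poly.optCases (o := unbits S3) (g := fun _ => (([], [], []) : S3)) (h := fun _ b => b)
    poly_unbits (NPC.Poly.const _) (Poly.snd Poly.id)).congr fun s => by
      unfold d3
      cases unbits S3 s <;> rfl

/-- one step, on the states -/
noncomputable def st3 (D : OD) (O A : Oracle) (s : S3) : S3 :=
  if s.2.2.length = 0 then (s.1, s.2.1, []) else
    (s.1, upd D O A s.1 s.2.1 (s.2.2.head?.getD []), s.2.2.tail)

theorem isFP_st3 {D : OD} {O A : Oracle} (hO : IsFP A (fun z => [O z]))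
    (hb : IsFP A (fun s => bst D (corr (dec (unpair s).2) O) (unpair s).1)) :
    IsFP A (fun s => bits (st3 D O A (d3 s))) := by
  have p1 : Poly (fun s => (d3 s).1) := Poly.fst poly_d3
  have p2 : Poly (fun s => (d3 s).2.1) := Poly.fst (Poly.snd poly_d3)
  have p3 : Poly (fun s => (d3 s).2.2) := Poly.snd (Poly.snd poly_d3)
  have pz : Poly (fun s => (d3 s).2.2.head?.getD []) := Poly.head?_getD p3 []
  -- the best solution
  have hy : IsFP A (fun s => bst D (corr (d3 s).2.1 O) (d3 s).1) := by
    have h1 := IsFP.comp hb (IsFP.of_poly (A := A) (F := fun s => pairBits (d3 s).1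
      (bits (d3 s).2.1)) (poly_pairBits p1 (R2.poly_bits p2)))
    refine (congrArg (IsFP A) (funext fun s => ?_)).mp h1
    simp only [unpair_pairBits, dec_bits]
  have hid : IsFP A (fun s : List Bool => s) := IsFP.of_poly Poly.id
  have hu : IsFP A (fun s => (d3 s).1) := IsFP.of_poly p1
  have hz : IsFP A (fun s => (d3 s).2.2.head?.getD []) := IsFP.of_poly pz
  have t1 : IsFP A (fun s => Tr D.M A (pairBits (d3 s).1 (bst D (corr (d3 s).2.1 O) (d3 s).1))) :=
    IsFP.comp (isFP_Tr D.M A) (IsFP.pair hu hy)
  have t2 : IsFP A (fun s => Tr D.M A (pairBits (d3 s).1 ((d3 s).2.2.head?.getD []))) :=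
    IsFP.comp (isFP_Tr D.M A) (IsFP.pair hu hz)
  have t3 : IsFP A (fun s => Tr D.F A (bst D (corr (d3 s).2.1 O) (d3 s).1)) :=
    IsFP.comp (isFP_Tr D.F A) hy
  have t4 : IsFP A (fun s => Tr D.F A ((d3 s).2.2.head?.getD [])) :=
    IsFP.comp (isFP_Tr D.F A) hz
  have hall := IsFP.pair hid (IsFP.pair hy (IsFP.pair t1 (IsFP.pair t2 (IsFP.pair t3 t4))))
  -- the decoding of the string with all the information
  have a0 : Poly (fun w : List Bool => (unpair w).1) := Poly.fst poly_unpair
  have r1 : Poly (fun w : List Bool => (unpair w).2) := Poly.snd poly_unpair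
  have a1 : Poly (fun w : List Bool => (unpair (unpair w).2).1) := a0.comp r1
  have r2 : Poly (fun w : List Bool => (unpair (unpair w).2).2) := r1.comp r1
  have a2 : Poly (fun w : List Bool => (unpair (unpair (unpair w).2).2).1) := a0.comp r2
  have r3 : Poly (fun w : List Bool => (unpair (unpair (unpair w).2).2).2) := r1.comp r2
  have a3 : Poly (fun w : List Bool => (unpair (unpair (unpair (unpair w).2).2).2).1) :=
    a0.comp r3
  have r4 : Poly (fun w : List Bool => (unpair (unpair (unpair (unpair w).2).2).2).2) :=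
    r1.comp r3
  have a4 : Poly (fun w : List Bool => (unpair (unpair (unpair (unpair (unpair w).2).2).2).2).1) :=
    a0.comp r4
  have a5 : Poly (fun w : List Bool => (unpair (unpair (unpair (unpair (unpair w).2).2).2).2).2) :=
    r1.comp r4
  have pu : Poly (fun w : List Bool => (d3 (unpair w).1).1) := p1.comp a0
  have pl : Poly (fun w : List Bool => (d3 (unpair w).1).2.1) := p2.comp a0
  have pq : Poly (fun w : List Bool => (d3 (unpair w).1).2.2.head?.getD []) := pz.comp a0
  have pX : Poly (fun w : List Bool => XX D (d3 (unpair w).1).1 (unpair (unpair w).2).1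
      ((d3 (unpair w).1).2.2.head?.getD []) (unpair (unpair (unpair w).2).2).1
      (unpair (unpair (unpair (unpair w).2).2).2).1
      (unpair (unpair (unpair (unpair (unpair w).2).2).2).2).1
      (unpair (unpair (unpair (unpair (unpair w).2).2).2).2).2) := by
    unfold XX
    exact Poly.append (poly_qs1 D.M (poly_pairBits pu a1) a2)
      (Poly.append (poly_qs1 D.M (poly_pairBits pu pq) a3)
        (Poly.append (poly_qs1 D.F a1 a4) (poly_qs1 D.F pq a5)))
  have pP := Poly.filter (p := fun (w q : List Bool) => !decide (q ∈ (d3 (unpair w).1).2.1)) pX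
    (Poly.not ((Poly.decide_mem (Poly.snd Poly.id) (pl.comp (Poly.fst Poly.id))).congr
      fun _ => decide_eq_decide.2 Iff.rfl))
  have pφ : Poly (fun p : List Bool × List (List Bool) =>
      bits (if (d3 (unpair p.1).1).2.2.length = 0 then
        (((d3 (unpair p.1).1).1, (d3 (unpair p.1).1).2.1, []) : S3) else
        (((d3 (unpair p.1).1).1, (d3 (unpair p.1).1).2.1 ++ p.2.take 1,
          (d3 (unpair p.1).1).2.2.tail) : S3))) := by
    refine R2.poly_bits (Poly.ite (Poly.decide_eq (Poly.length ((p3.comp a0).comp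
      (Poly.fst Poly.id))) (NPC.Poly.const 0)) (Poly.pair (pu.comp (Poly.fst Poly.id))
        (Poly.pair (pl.comp (Poly.fst Poly.id)) (NPC.Poly.const _))) ?_)
    exact Poly.pair (pu.comp (Poly.fst Poly.id)) (Poly.pair (Poly.append
      (pl.comp (Poly.fst Poly.id)) (R1.poly_take (Poly.snd Poly.id) (UPoly.const 1)))
      (Poly.tail ((p3.comp a0).comp (Poly.fst Poly.id))))
  have h5 := IsFP.comp (isFP_filt (isFP_ne hO) pP pφ) hall
  refine (congrArg (IsFP A) (funext fun s => ?_)).mp h5
  simp only [unpair_pairBits]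
  unfold st3 upd nw X1
  rfl

end Pool.Agent.TH654.RB
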