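import Pool.Agent.TH654.RB.CE2

/-!
# The list of the changed strings after several counterexamples can be computed
-/

set_option autoImplicit false

namespace Pool.Agent.TH654.RB

open Pool.Agent.NPC Pool.Agent.H620R2.Gauge Pool.Agent.H622R2 Finset
open Pool.Agent.W900.CH (dist finite_diff)
open Pool.Agent.TH678.PN
open Pool.Agent.TH678.EL (hist qj Tr isFP_Tr hist_run hist_get hist_len poly_rep unpair_fst_len)
open Pool.Agent.H591R3.CEX (num Counter Optimal Legal Adversary CAlg Computes)
open Pool.Agent.H591R3.CEX.Upper (num_str str_num length_le Best Beats best_exists best_unique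
  unpair_pre)

theorem exists_qX (D : OD) : ∃ b : Polynomial ℕ, ∀ (A : Oracle) (u y z : List Bool),
    y.length ≤ u.length → ∀ q ∈ X1 D A u y z, q.length ≤ b.eval (u.length + z.length) := by
  obtain ⟨b1, h1⟩ := exists_qb D.M
  obtain ⟨b2, h2⟩ := exists_qb D.F
  refine ⟨b1.comp (Polynomial.C 3 * Polynomial.X + 1) + b2, fun A u y z hy q hq => ?_⟩
  rw [Polynomial.eval_add, Polynomial.eval_comp]
  have e3 : (Polynomial.C 3 * Polynomial.X + 1 : Polynomial ℕ).eval (u.length + z.length) =
      3 * (u.length + z.length) + 1 := by
    simp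
  rw [e3]
  unfold X1 XX at hq
  rw [List.mem_append, List.mem_append, List.mem_append] at hq
  rcases hq with hq | hq | hq | hq
  · refine (h1 _ _ _ hq).trans (le_trans (eval_mono b1 ?_) (Nat.le_add_right _ _))
    rw [A2.length_pairBits]
    omega
  · refine (h1 _ _ _ hq).trans (le_trans (eval_mono b1 ?_) (Nat.le_add_right _ _))
    rw [A2.length_pairBits]
    omega
  · exact (h2 _ _ _ hq).trans (le_trans (eval_mono b2 (by omega)) (Nat.le_add_left _ _))
  · exact (h2 _ _ _ hq).trans (le_trans (eval_mono b2 (by omega)) (Nat.le_add_left _ _))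

theorem st3_iter (D : OD) (O A : Oracle) (u : List Bool) (zs : List (List Bool)) : ∀ i,
    (st3 D O A)^[i] (u, [], zs) = (u, (zs.take i).foldl (upd D O A u) [], zs.drop i) := by
  intro i
  induction i with
  | zero => simp
  | succ i ih =>
    rw [Function.iterate_succ_apply', ih]
    unfold st3
    by_cases hi : i < zs.length
    · have h1 : (zs.drop i).length ≠ 0 := by
        rw [List.length_drop]
        omega
      simp only [if_neg h1]
      have h2 : zs.take (i + 1) = zs.take i ++ [zs[i]] := by
        rw [List.take_add_one, List.getElem?_eq_getElem hi]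
        rfl
      rw [h2, List.foldl_append, List.tail_drop, List.head?_drop, List.getElem?_eq_getElem hi]
      rfl
    · have h1 : (zs.drop i).length = 0 := by
        rw [List.length_drop]
        omega
      simp only [if_pos h1]
      rw [List.take_of_length_le (by omega), List.take_of_length_le (by omega),
        List.drop_of_length_le (by omega)]

theorem bits_iter (D : OD) (O A : Oracle) (s : S3) : ∀ i,
    (fun s => bits (st3 D O A (d3 s)))^[i] (bits s) = bits ((st3 D O A)^[i] s) := by
  intro i
  induction i with
  | zero => rfl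
  | succ i ih =>
    rw [Function.iterate_succ_apply', Function.iterate_succ_apply', ih]
    simp only [d3_bits]

theorem foldl_bound {D : OD} {O A : Oracle} {u : List Bool} {B : ℕ} : ∀ (zs : List (List Bool))
    (l : List (List Bool)),
    (∀ l, ∀ z ∈ zs, ∀ q ∈ nw D O A u (bst D (corr l O) u) z l, q.length ≤ B) →
    (∀ q ∈ l, q.length ≤ B) → (zs.foldl (upd D O A u) l).length ≤ l.length + zs.length ∧
      ∀ q ∈ zs.foldl (upd D O A u) l, q.length ≤ B
  | [], l, _, h2 => ⟨by simp, h2⟩
  | z :: zs, l, h1, h2 => by
    rw [List.foldl_cons]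
    have h3 := foldl_bound zs (upd D O A u l z)
      (fun l z' hz' => h1 l z' (List.mem_cons_of_mem _ hz')) (by
        intro q hq
        unfold upd at hq
        rcases List.mem_append.1 hq with hq | hq
        · exact h2 q hq
        · exact h1 l z List.mem_cons_self q hq)
    refine ⟨h3.1.trans ?_, h3.2⟩
    unfold upd
    rw [List.length_append, List.length_cons]
    have := nw_length (D := D) (O := O) (A := A) (u := u) (y := bst D (corr l O) u) (z := z)
      (l := l)
    omega

theorem isFP_lf {D : OD} {O A : Oracle} (hO : IsFP A (fun z => [O z]))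
    (hb : IsFP A (fun s => bst D (corr (dec (unpair s).2) O) (unpair s).1)) :
    IsFP A (fun w => bits ((unpair w).1, lf D O A (unpair w).1 (dec (unpair w).2))) := by
  obtain ⟨bX, hbX⟩ := exists_qX D
  have hg : Poly (fun w : List Bool => (((unpair w).1, [], dec (unpair w).2) : S3)) :=
    Poly.pair (Poly.fst poly_unpair) (Poly.pair (NPC.Poly.const _)
      (poly_dec.comp (Poly.snd poly_unpair)))
  obtain ⟨q, hq⟩ := hg.sz_le
  obtain ⟨Q, hQ⟩ : ∃ Q : Polynomial ℕ,
    Q = q.comp (Polynomial.C 4 * Polynomial.X + Polynomial.C 1) := ⟨_, rfl⟩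
  have hsz : ∀ w : List Bool, sz (((unpair w).1, [], dec (unpair w).2) : S3) ≤ Q.eval w.length := by
    intro w
    have := A2.sz_eval_le (hq w)
    rw [hQ]
    exact this
  have hzs : ∀ w : List Bool, ∀ z ∈ dec (unpair w).2, z.length ≤ Q.eval w.length := by
    intro w z hz
    have h1 := hsz w
    rw [sz_pair, sz_pair] at h1
    have h2 := sz_le_of_mem hz
    have h3 := length_lt_sz z
    omega
  have hzl : ∀ w : List Bool, (dec (unpair w).2).length ≤ Q.eval w.length := by
    intro w
    have h1 := hsz w
    rw [sz_pair, sz_pair] at h1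
    have h2 := length_lt_sz (dec (unpair w).2)
    omega
  have h1 := IsFP.loop (isFP_st3 hO hb) (g := fun w => bits (((unpair w).1, [],
    dec (unpair w).2) : S3)) (R2.poly_bits hg) Q
    (Q + (Q * (Polynomial.C 4 * bX.comp (Polynomial.X + Q) + 2) + 2)) (by
      intro w i _
      rw [bits_iter, st3_iter, bits_length, sz_pair, sz_pair]
      have h2 := hsz w
      rw [sz_pair, sz_pair] at h2
      have h3 : sz ((dec (unpair w).2).drop i) ≤ sz (dec (unpair w).2) := by
        have h4 := sz_append ((dec (unpair w).2).take i) ((dec (unpair w).2).drop i)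
        rw [List.take_append_drop] at h4
        have h5 := sz_pos ((dec (unpair w).2).take i)
        omega
      obtain ⟨h6, h7⟩ := foldl_bound (D := D) (O := O) (A := A) (u := (unpair w).1)
        (B := bX.eval (w.length + Q.eval w.length)) ((dec (unpair w).2).take i) [] (by
          intro l z hz q' hq'
          have h8 := (mem_nw hq').1
          refine (hbX A _ _ _ (bst_len _ _ _) _ h8).trans (eval_mono _ ?_)
          have h9 := hzs w z (List.mem_of_mem_take hz)
          have h10 := unpair_fst_len w
          omega) (fun q' hq' => absurd hq' (by simp))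
      have h8 := sz_le_length_mul (((dec (unpair w).2).take i).foldl (upd D O A (unpair w).1) [])
        (4 * bX.eval (w.length + Q.eval w.length) + 1) (fun y hy => by
          have h9 := sz_listBool_le y
          have h10 := h7 y hy
          omega)
      have h9 : (((dec (unpair w).2).take i).foldl (upd D O A (unpair w).1) []).length ≤
          Q.eval w.length := by
        refine h6.trans ?_
        rw [List.length_take, List.length_nil, zero_add]
        exact (min_le_right _ _).trans (hzl w)
      have h10 : (((dec (unpair w).2).take i).foldl (upd D O A (unpair w).1) []).length *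
          (4 * bX.eval (w.length + Q.eval w.length) + 1 + 1) ≤
          Q.eval w.length * (4 * bX.eval (w.length + Q.eval w.length) + 2) :=
        Nat.mul_le_mul h9 (by omega)
      simp only [Polynomial.eval_add, Polynomial.eval_mul, Polynomial.eval_C, Polynomial.eval_X,
        Polynomial.eval_comp, Polynomial.eval_ofNat]
      have h11 : sz ([] : List (List Bool)) = 1 := rfl
      omega)
  have h2 := IsFP.comp (IsFP.of_poly (A := A) (F := fun s => bits ((d3 s).1, (d3 s).2.1))
    (R2.poly_bits (Poly.pair (Poly.fst poly_d3) (Poly.fst (Poly.snd poly_d3))))) h1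
  refine (congrArg (IsFP A) (funext fun w => ?_)).mp h2
  rw [bits_iter, st3_iter]
  simp only [d3_bits]
  rw [List.take_of_length_le (hzl w)]
  rfl

/-- the candidate after several counterexamples -/
noncomputable def YY (D : OD) (O A : Oracle) (w : List Bool) : List Bool :=
  bst D (corr (lf D O A (unpair w).1 (dec (unpair w).2)) O) (unpair w).1

theorem isFP_YY {D : OD} {O A : Oracle} (hO : IsFP A (fun z => [O z]))
    (hb : IsFP A (fun s => bst D (corr (dec (unpair s).2) O) (unpair s).1)) :
    IsFP A (YY D O A) := by
  have h1 := IsFP.comp (IsFP.of_poly (A := A) (F := fun s => pairBits (PH.d1 s).1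
    (bits (PH.d1 s).2)) (poly_pairBits (Poly.fst PH.poly_d1) (R2.poly_bits (Poly.snd PH.poly_d1))))
    (isFP_lf hO hb)
  have h2 := IsFP.comp hb h1
  refine (congrArg (IsFP A) (funext fun w => ?_)).mp h2
  simp only [PH.d1_bits, unpair_pairBits, dec_bits]
  rfl

/-- the oracle of the computation -/
noncomputable def B0 (D : OD) (O A : Oracle) : Oracle := fun q =>
  (pairBits (YY D O A (unpair q).1) []).getD (unpair q).2.length false

theorem isP_B0 {D : OD} {O A : Oracle} (hO : IsFP A (fun z => [O z]))
    (hb : IsFP A (fun s => bst D (corr (dec (unpair s).2) O) (unpair s).1)) :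
    IsP A {q | B0 D O A q = true} := by
  have h1 : IsFP A (fun q => YY D O A (unpair q).1) :=
    IsFP.comp (isFP_YY hO hb) (IsFP.of_poly (Poly.fst poly_unpair))
  have h2 := IsFP.seq (IsFP.of_poly (A := A) (F := fun x => x) Poly.id) h1
    (φ := fun p => p.1) (ψ := fun p => [(pairBits p.2.2 []).getD (unpair p.1).2.length false])
    (Poly.fst Poly.id) (Poly.cons (Poly.getD (poly_pairBits (Poly.snd (Poly.snd Poly.id))
      (NPC.Poly.const [])) (Poly.length (Poly.snd (poly_unpair.comp (Poly.fst Poly.id))))
      (NPC.Poly.const false)) (NPC.Poly.const []))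
  refine ⟨_, h2, fun q => ?_⟩
  show B0 D O A q = true ↔ [B0 D O A q] = [true]
  simp

end Pool.Agent.TH654.RB
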