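import Pool.Agent.TH654.RB.CE3
import Pool.Agent.H543R3.PC.A2

/-!
# The counterexample computation
-/

set_option autoImplicit false

namespace Pool.Agent.TH654.RB

open Pool.Agent.NPC Pool.Agent.H620R2.Gauge Pool.Agent.H622R2 Finset
open Pool.Agent.W900.CH (dist finite_diff)
open Pool.Agent.H591R3.CEX (num Counter Optimal Legal Adversary CAlg Computes)
open Pool.Agent.H591R3.CEX.Upper (num_str str_num length_le Best Beats best_exists best_unique
  unpair_pre)

/-! ### reading the protocol -/

/-- remove the first `n` bits -/
def dr (n : ℕ) (l : List Bool) : List Bool := (l.reverse.take (l.length - n)).reverse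

theorem dr_append {n : ℕ} {r t : List Bool} (h : r.length = n) : dr n (r ++ t) = t := by
  unfold dr
  have h1 : (r ++ t).length - n = t.reverse.length := by
    rw [List.length_append, List.length_reverse]
    omega
  rw [h1, List.reverse_append, List.take_left' rfl, List.reverse_reverse]

theorem dr_length (n : ℕ) (l : List Bool) : (dr n l).length ≤ l.length := by
  unfold dr
  rw [List.length_reverse, List.length_take, List.length_reverse]
  omega

/-- one step of the reading -/
def ps (N : ℕ) (s : List (List Bool) × List Bool) : List (List Bool) × List Bool :=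
  if N < s.2.length ∧ s.2.getD N false = true then
    (s.1 ++ [(unpair (dr (N + 1) s.2)).1], (unpair (dr (N + 1) s.2)).2) else s

/-- the reading -/
def prs (x a : List Bool) : List (List Bool) × List Bool :=
  (ps (2 * x.length + 1))^[a.length] ([], a)

theorem ps_size (N : ℕ) (a : List Bool) : ∀ i, sz ((ps N)^[i] ([], a)) ≤
    4 * a.length + 4 * i + 3 + (4 * a.length) ∧
    sz ((ps N)^[i] ([], a)).1 + 4 * ((ps N)^[i] ([], a)).2.length ≤ 4 * a.length + 4 * i + 1 ∧
    ((ps N)^[i] ([], a)).2.length ≤ a.length := by
  intro i
  induction i with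
  | zero =>
    refine ⟨?_, ?_, le_rfl⟩
    · show sz ((([] : List (List Bool)), a) : List (List Bool) × List Bool) ≤ _
      have := sz_listBool_le a
      rw [sz_pair]
      have h0 : sz ([] : List (List Bool)) = 1 := rfl
      omega
    · show sz ([] : List (List Bool)) + 4 * a.length ≤ _
      have h0 : sz ([] : List (List Bool)) = 1 := rfl
      omega
  | succ i ih =>
    rw [Function.iterate_succ_apply']
    obtain ⟨s, hs⟩ : ∃ s, s = (ps N)^[i] ([], a) := ⟨_, rfl⟩
    rw [← hs] at ih ⊢
    obtain ⟨h1, h2, h3⟩ := ih
    have key : sz (ps N s).1 + 4 * (ps N s).2.length ≤ 4 * a.length + 4 * (i + 1) + 1 ∧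
        (ps N s).2.length ≤ a.length := by
      unfold ps
      split_ifs with h
      · have h4 := H543R3.PC.unpair_len (dr (N + 1) s.2)
        have h5 := dr_length (N + 1) s.2
        have h6 := sz_append s.1 [(unpair (dr (N + 1) s.2)).1]
        rw [sz_list_cons] at h6
        have h7 := sz_listBool_le (unpair (dr (N + 1) s.2)).1
        have h0 : sz ([] : List (List Bool)) = 1 := rfl
        rw [h0] at h6
        constructor
        · show sz (s.1 ++ [(unpair (dr (N + 1) s.2)).1]) +
            4 * (unpair (dr (N + 1) s.2)).2.length ≤ _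
          omega
        · show (unpair (dr (N + 1) s.2)).2.length ≤ _
          omega
      · exact ⟨by omega, h3⟩
    refine ⟨?_, key.1, key.2⟩
    have h8 : sz (ps N s) = sz (ps N s).1 + sz (ps N s).2 + 1 := by
      rw [← sz_pair]
    have h9 := sz_listBool_le (ps N s).2
    omega

theorem poly_dr {α : Type} [TEnc α] {n : α → ℕ} {l : α → List Bool} (hn : Poly n)
    (hl : Poly l) : Poly (fun a => dr (n a) (l a)) := by
  unfold dr
  exact Poly.reverse (R1.poly_take (Poly.reverse hl) (UPoly.of_le (Poly.sub (Poly.length hl) hn)
    (UPoly.length hl) (fun a => Nat.sub_le _ _)))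

theorem poly_prs : Poly (fun p : List Bool × List Bool => prs p.1 p.2) := by
  unfold prs
  refine Poly.iterLen (l := fun p : List Bool × List Bool => p.2)
    (s := fun p : List Bool × List Bool => (([], p.2) : List (List Bool) × List Bool))
    (F := fun (p : List Bool × List Bool) (s : List (List Bool) × List Bool) =>
      ps (2 * p.1.length + 1) s) (Poly.snd Poly.id) (Poly.pair (NPC.Poly.const _)
        (Poly.snd Poly.id)) ?_ (Polynomial.C 12 * Polynomial.X + Polynomial.C 3) ?_
  · have hN : Poly (fun q : (List Bool × List Bool) × List (List Bool) × List Bool =>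
        2 * q.1.1.length + 1) :=
      Poly.add (Poly.mul (NPC.Poly.const 2) (Poly.length (Poly.fst (Poly.fst Poly.id))))
        (NPC.Poly.const 1)
    have h1 : Poly (fun q : (List Bool × List Bool) × List (List Bool) × List Bool => q.2.1) :=
      Poly.fst (Poly.snd Poly.id)
    have h2 : Poly (fun q : (List Bool × List Bool) × List (List Bool) × List Bool => q.2.2) :=
      Poly.snd (Poly.snd Poly.id)
    have h3 := poly_unpair.comp (poly_dr (Poly.add hN (NPC.Poly.const 1)) h2)
    unfold ps
    exact Poly.ite (Poly.decide_and (Poly.decide_lt hN (Poly.length h2))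
      (Poly.decide_bool (Poly.getD h2 hN (NPC.Poly.const false))))
      (Poly.pair (Poly.append h1 (Poly.cons (Poly.fst h3) (NPC.Poly.const []))) (Poly.snd h3))
      (Poly.snd Poly.id)
  · intro p k hk
    have h1 := (ps_size (2 * p.1.length + 1) p.2 k).1
    have h2 := length_lt_sz p.2
    have h3 : sz p = sz p.1 + sz p.2 + 1 := sz_pair p.1 p.2
    have h4 := sz_pos p.1
    simp only [Polynomial.eval_add, Polynomial.eval_mul, Polynomial.eval_C, Polynomial.eval_X]
    refine h1.trans ?_
    have h5 : k ≤ p.2.length := hk
    omega

/-- a protocol -/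
def prot (bs : List (List Bool × List Bool)) : List Bool :=
  bs.flatMap (fun b => b.1 ++ true :: pairBits b.2 [])

theorem prot_append (bs : List (List Bool × List Bool)) (b : List Bool × List Bool) :
    prot (bs ++ [b]) = prot bs ++ (b.1 ++ true :: pairBits b.2 []) := by
  unfold prot
  rw [List.flatMap_append]
  simp

theorem pairBits_append (z t : List Bool) : pairBits z [] ++ t = pairBits z t := by
  simp [pairBits]

theorem ps_block {N : ℕ} {zs : List (List Bool)} {r z t : List Bool} (h : r.length = N) :
    ps N (zs, (r ++ true :: pairBits z []) ++ t) = (zs ++ [z], t) := by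
  have h1 : N < ((r ++ true :: pairBits z []) ++ t).length ∧
      ((r ++ true :: pairBits z []) ++ t).getD N false = true := by
    constructor
    · simp only [List.length_append, List.length_cons]
      omega
    · rw [List.append_assoc, List.getD_append_right _ _ _ _ (by omega), h, Nat.sub_self]
      rfl
  have h2 : dr (N + 1) ((r ++ true :: pairBits z []) ++ t) = pairBits z t := by
    have h3 : (r ++ true :: pairBits z []) ++ t = (r ++ [true]) ++ pairBits z t := by
      rw [← pairBits_append z t]
      simp
    rw [h3]
    exact dr_append (by simp [h])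
  unfold ps
  dsimp only
  rw [if_pos h1, h2, unpair_pairBits]

theorem ps_fix {N : ℕ} {zs : List (List Bool)} {t : List Bool}
    (h : t.length ≤ N ∨ t.getD N false = false) : ps N (zs, t) = (zs, t) := by
  unfold ps
  dsimp only
  rw [if_neg]
  rintro ⟨h1, h2⟩
  rcases h with h | h
  · omega
  · rw [h] at h2
    exact Bool.false_ne_true h2

theorem ps_fix_iter {N : ℕ} {zs : List (List Bool)} {t : List Bool}
    (h : t.length ≤ N ∨ t.getD N false = false) : ∀ n, (ps N)^[n] (zs, t) = (zs, t)
  | 0 => rfl
  | n + 1 => by rw [Function.iterate_succ_apply, ps_fix h, ps_fix_iter h n]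

theorem ps_prot {N : ℕ} {t : List Bool} (ht : t.length ≤ N ∨ t.getD N false = false) :
    ∀ (bs : List (List Bool × List Bool)) (zs : List (List Bool)) (n : ℕ), bs.length ≤ n →
      (∀ b ∈ bs, b.1.length = N) → (ps N)^[n] (zs, prot bs ++ t) = (zs ++ bs.map Prod.snd, t)
  | [], zs, n, _, _ => by
    rw [List.map_nil, List.append_nil]
    exact ps_fix_iter ht n
  | b :: bs, zs, n, hn, hb => by
    obtain ⟨n, rfl⟩ : ∃ m, n = m + 1 := ⟨n - 1, by rw [List.length_cons] at hn; omega⟩
    rw [Function.iterate_succ_apply]
    have h1 : prot (b :: bs) ++ t = (b.1 ++ true :: pairBits b.2 []) ++ (prot bs ++ t) := by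
      unfold prot
      rw [List.flatMap_cons, List.append_assoc]
    rw [h1, ps_block (hb b List.mem_cons_self), ps_prot ht bs _ n (by
      rw [List.length_cons] at hn
      omega) (fun b' hb' => hb b' (List.mem_cons_of_mem _ hb'))]
    simp

theorem prot_length (bs : List (List Bool × List Bool)) : bs.length ≤ (prot bs).length := by
  induction bs with
  | nil => exact Nat.zero_le _
  | cons b bs ih =>
    unfold prot at ih ⊢
    rw [List.flatMap_cons, List.length_append, List.length_append, List.length_cons,
      List.length_cons]
    omega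

theorem prs_prot {x : List Bool} {t : List Bool}
    (ht : t.length ≤ 2 * x.length + 1 ∨ t.getD (2 * x.length + 1) false = false)
    {bs : List (List Bool × List Bool)} (hb : ∀ b ∈ bs, b.1.length = 2 * x.length + 1) :
    prs x (prot bs ++ t) = (bs.map Prod.snd, t) := by
  unfold prs
  rw [ps_prot ht bs [] _ (by
    rw [List.length_append]
    exact (prot_length bs).trans (Nat.le_add_right _ _)) hb, List.nil_append]

/-! ### the algorithm -/

/-- the next action -/
def DC (z : List Bool) : List Bool :=
  if (prs (unpair z).1 (unpair z).2).2.length < 2 * (unpair z).1.length + 1 then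
    false :: false :: pairBits (pairBits (unpair z).1 (bits (prs (unpair z).1 (unpair z).2).1))
      (prs (unpair z).1 (unpair z).2).2
  else if (prs (unpair z).1 (unpair z).2).2.length = 2 * (unpair z).1.length + 1 then
    false :: true :: (unpair (prs (unpair z).1 (unpair z).2).2).1
  else true :: (unpair (prs (unpair z).1 (unpair z).2).2).1

theorem poly_DC : Poly DC := by
  have hx : Poly (fun z : List Bool => (unpair z).1) := Poly.fst poly_unpair
  have hP : Poly (fun z : List Bool => prs (unpair z).1 (unpair z).2) := poly_prs.comp poly_unpair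
  have hN : Poly (fun z : List Bool => 2 * (unpair z).1.length + 1) :=
    Poly.add (Poly.mul (NPC.Poly.const 2) (Poly.length hx)) (NPC.Poly.const 1)
  unfold DC
  refine Poly.ite (Poly.decide_lt (Poly.length (Poly.snd hP)) hN) ?_
    (Poly.ite (Poly.decide_eq (Poly.length (Poly.snd hP)) hN) ?_ ?_)
  · exact Poly.cons (NPC.Poly.const _) (Poly.cons (NPC.Poly.const _) (poly_pairBits
      (poly_pairBits hx (R2.poly_bits (Poly.fst hP))) (Poly.snd hP)))
  · exact Poly.cons (NPC.Poly.const _) (Poly.cons (NPC.Poly.const _)
      (Poly.fst (poly_unpair.comp (Poly.snd hP))))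
  · exact Poly.cons (NPC.Poly.const _) (Poly.fst (poly_unpair.comp (Poly.snd hP)))

/-- the algorithm -/
noncomputable def MC (d : Polynomial ℕ) : CAlg := ⟨DC, polyTime_of_poly_list poly_DC,
  (d + 1) * (Polynomial.C 2 * Polynomial.X + Polynomial.C 3)⟩

/-- the first bits -/
def pr3 (c : List Bool) (k : ℕ) : List Bool := H591R3.CEX.Upper.pre c k

theorem pr3_succ (c : List Bool) (k : ℕ) : pr3 c (k + 1) = pr3 c k ++ [c.getD k false] :=
  H591R3.CEX.Upper.pre_succ c k

theorem pr3_length (c : List Bool) (k : ℕ) : (pr3 c k).length = k :=
  H591R3.CEX.Upper.length_pre c k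

theorem unpair_pr3 (v : List Bool) (k : ℕ) (h : 2 * v.length + 1 ≤ k) :
    (unpair (pr3 (pairBits v []) k)).1 = v := unpair_pre v k h

theorem run_block {D : OD} {O A : Oracle} {adv : Adversary} {u : List Bool}
    {bs : List (List Bool × List Bool)} (hb : ∀ b ∈ bs, b.1.length = 2 * u.length + 1)
    {c : List Bool} (hc : c = pairBits (YY D O A (pairBits u (bits (bs.map Prod.snd)))) [])
    {d : Polynomial ℕ} : ∀ (j k n : ℕ), k + j = 2 * u.length + 1 →
      (MC d).run (B0 D O A) adv u (n + j) (prot bs ++ pr3 c k) =
        (MC d).run (B0 D O A) adv u n (prot bs ++ pr3 c (2 * u.length + 1)) := by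
  intro j
  induction j with
  | zero =>
    intro k n h
    rw [add_zero] at h
    rw [h, add_zero]
  | succ j ih =>
    intro k n h
    have h1 : (MC d).D (pairBits u (prot bs ++ pr3 c k)) =
        false :: false :: pairBits (pairBits u (bits (bs.map Prod.snd))) (pr3 c k) := by
      show DC _ = _
      unfold DC
      rw [unpair_pairBits]
      dsimp only
      rw [prs_prot (Or.inl (by rw [pr3_length]; omega)) hb]
      dsimp only
      rw [if_pos (by rw [pr3_length]; omega)]
    rw [← add_assoc]
    simp only [CAlg.run, h1]
    have h2 : B0 D O A (pairBits (pairBits u (bits (bs.map Prod.snd))) (pr3 c k)) =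
        c.getD k false := by
      unfold B0
      rw [unpair_pairBits, pr3_length, hc]
    rw [h2, List.append_assoc, ← pr3_succ]
    exact ih (k + 1) n (by omega)

theorem YY_eq (D : OD) (O A : Oracle) (u : List Bool) (zs : List (List Bool)) :
    YY D O A (pairBits u (bits zs)) = bst D (corr (lf D O A u zs) O) u := by
  unfold YY
  rw [unpair_pairBits, dec_bits]

/-- the lists consist of different changed strings -/
theorem lf_inv {D : OD} {O A : Oracle} {u : List Bool} {bX : Polynomial ℕ}
    (hbX : ∀ (A : Oracle) (u y z : List Bool), y.length ≤ u.length →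
      ∀ q ∈ X1 D A u y z, q.length ≤ bX.eval (u.length + z.length)) :
    ∀ zs : List (List Bool), (∀ z ∈ zs, z.length ≤ u.length) →
      (lf D O A u zs).Nodup ∧
        ∀ q ∈ lf D O A u zs, q ∈ Df O A (bX.eval (u.length + u.length)) := by
  intro zs
  induction zs using List.reverseRecOn with
  | nil => exact fun _ => ⟨List.nodup_nil, fun q hq => absurd hq (by simp [lf])⟩
  | append_singleton zs z ih =>
    intro hz
    obtain ⟨h1, h2⟩ := ih fun z' hz' => hz z' (List.mem_append_left _ hz')
    rw [lf_append]
    unfold upd
    refine ⟨?_, fun q hq => ?_⟩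
    · rw [List.nodup_append']
      refine ⟨h1, ?_, fun q hq hq' => (mem_nw hq').2.1 hq⟩
      have h3 := nw_length (D := D) (O := O) (A := A) (u := u)
        (y := bst D (corr (lf D O A u zs) O) u) (z := z) (l := lf D O A u zs)
      rcases hn : nw D O A u (bst D (corr (lf D O A u zs) O) u) z (lf D O A u zs) with _ | ⟨q, t⟩
      · exact List.nodup_nil
      · rw [hn, List.length_cons] at h3
        have h4 : t = [] := List.eq_nil_of_length_eq_zero (by omega)
        rw [h4]
        exact List.nodup_singleton q
    · rcases List.mem_append.1 hq with hq | hq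
      · exact h2 q hq
      · obtain ⟨h3, -, h4⟩ := mem_nw hq
        refine mem_Df.2 ⟨(hbX A _ _ _ (bst_len _ _ _) _ h3).trans (eval_mono _ ?_), h4⟩
        have := hz z (List.mem_append_right _ (List.mem_singleton.2 rfl))
        omega

theorem run_main {D : OD} {O A : Oracle} {C : ℕ → ℕ → Prop} {ρ : ℕ → ℕ} (hi : D.i = 0)
    (h0 : ∀ x, C x 0)
    (hbad : ∀ u v, bad D A u v ↔ ¬ C (num u) (num v)) (hval : ∀ v, val D A v = ρ (num v))
    {bX : Polynomial ℕ}
    (hbX : ∀ (A : Oracle) (u y z : List Bool), y.length ≤ u.length →
      ∀ q ∈ X1 D A u y z, q.length ≤ bX.eval (u.length + z.length))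
    {d : Polynomial ℕ} {u : List Bool} {adv : Adversary} (hadv : Legal C ρ (num u) adv) :
    ∀ (m : ℕ) (bs : List (List Bool × List Bool)),
      (∀ b ∈ bs, b.1.length = 2 * u.length + 1) → (∀ b ∈ bs, b.2.length ≤ u.length) →
      (Df O A (bX.eval (u.length + u.length))).card ≤ (lf D O A u (bs.map Prod.snd)).length + m →
      ∀ n, (m + 1) * (2 * u.length + 3) ≤ n →
        ∃ y, (MC d).run (B0 D O A) adv u n (prot bs) = some (str y) ∧ Optimal C ρ (num u) y := by
  intro m
  induction m with
  | zero =>
    intro bs hb hz hm n hn
    obtain ⟨c, hc⟩ : ∃ c, c = pairBits (YY D O A (pairBits u (bits (bs.map Prod.snd)))) [] :=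
      ⟨_, rfl⟩
    obtain ⟨y, hy⟩ : ∃ y, y = YY D O A (pairBits u (bits (bs.map Prod.snd))) := ⟨_, rfl⟩
    have hy' : y = bst D (corr (lf D O A u (bs.map Prod.snd)) O) u := by
      rw [hy, YY_eq]
    have hylen : y.length ≤ u.length := by rw [hy']; exact bst_len _ _ _
    obtain ⟨n, rfl⟩ : ∃ k, n = k + 1 + 1 + (2 * u.length + 1) :=
      ⟨n - (2 * u.length + 3), by omega⟩
    have h1 := run_block (D := D) (O := O) (A := A) (adv := adv) (u := u) hb hc (d := d)
      (2 * u.length + 1) 0 (n + 1 + 1) (by omega)
    have hp0 : pr3 c 0 = [] := rfl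
    rw [hp0, List.append_nil] at h1
    rw [h1]
    have hcl : c.length = 2 * y.length + 1 := by
      rw [hc, ← hy, A2.length_pairBits]
      simp
    have hu1 : (unpair (pr3 c (2 * u.length + 1))).1 = y := by
      rw [hc, ← hy]
      exact unpair_pr3 _ _ (by omega)
    have h2 : (MC d).D (pairBits u (prot bs ++ pr3 c (2 * u.length + 1))) =
        false :: true :: y := by
      show DC _ = _
      unfold DC
      rw [unpair_pairBits]
      dsimp only
      rw [prs_prot (Or.inl (by rw [pr3_length])) hb]
      dsimp only
      rw [if_neg (by rw [pr3_length]; omega),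
        if_pos (by rw [pr3_length]), hu1]
    rw [CAlg.run]
    simp only [h2]
    have h3 := hadv (prot bs ++ pr3 c (2 * u.length + 1)) (num y)
    rcases ha : adv (prot bs ++ pr3 c (2 * u.length + 1)) (num y) with _ | z
    · rw [ha] at h3
      refine ⟨num y, ?_, h3⟩
      have h4 : (prot bs ++ pr3 c (2 * u.length + 1)) ++ [false] =
          prot bs ++ pr3 c (2 * u.length + 1 + 1) := by
        rw [pr3_succ c (2 * u.length + 1), List.append_assoc, List.getD_eq_default _ _ (by omega)]
      dsimp only
      rw [h4]
      have h5 : (MC d).D (pairBits u (prot bs ++ pr3 c (2 * u.length + 1 + 1))) = true :: y := by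
        show DC _ = _
        unfold DC
        rw [unpair_pairBits]
        dsimp only
        rw [prs_prot (Or.inr (by
          rw [pr3_succ c (2 * u.length + 1), List.getD_append_right _ _ _ _ (by
            rw [pr3_length]), pr3_length, Nat.sub_self,
            List.getD_eq_default c _ (by omega)]
          rfl)) hb]
        dsimp only
        rw [if_neg (by rw [pr3_length]; omega),
          if_neg (by rw [pr3_length]; omega), hc, ← hy,
          unpair_pr3 _ _ (by omega)]
      rw [CAlg.run]
      simp only [h5, str_num]
    · exfalso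
      rw [ha] at h3
      rw [hy'] at h3
      have h4 := progress hi h0 hbad hval h3
      obtain ⟨i1, i2⟩ := lf_inv (D := D) (O := O) (A := A) (u := u) hbX (bs.map Prod.snd) (by
        intro z' hz'
        obtain ⟨b, hb', rfl⟩ := List.mem_map.1 hz'
        exact hz b hb')
      have h5 := nw_pos (fun q hq => (mem_Df.1 (i2 q hq)).2) h4
      have hzl : (str z).length ≤ u.length := by
        have := length_le h3.1
        rwa [str_num] at this
      obtain ⟨j1, j2⟩ := lf_inv (D := D) (O := O) (A := A) (u := u) hbX
        (bs.map Prod.snd ++ [str z]) (by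
          intro z' hz'
          rcases List.mem_append.1 hz' with h | h
          · obtain ⟨b, hb', rfl⟩ := List.mem_map.1 h
            exact hz b hb'
          · rw [List.mem_singleton.1 h]
            exact hzl)
      have h6 : (lf D O A u (bs.map Prod.snd ++ [str z])).length ≤
          (Df O A (bX.eval (u.length + u.length))).card := by
        rw [← List.toFinset_card_of_nodup j1]
        exact card_le_card fun q hq => j2 q (List.mem_toFinset.1 hq)
      rw [lf_append] at h6
      unfold upd at h6
      rw [List.length_append, h5] at h6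
      omega
  | succ m ih =>
    intro bs hb hz hm n hn
    obtain ⟨c, hc⟩ : ∃ c, c = pairBits (YY D O A (pairBits u (bits (bs.map Prod.snd)))) [] :=
      ⟨_, rfl⟩
    obtain ⟨y, hy⟩ : ∃ y, y = YY D O A (pairBits u (bits (bs.map Prod.snd))) := ⟨_, rfl⟩
    have hy' : y = bst D (corr (lf D O A u (bs.map Prod.snd)) O) u := by
      rw [hy, YY_eq]
    have hylen : y.length ≤ u.length := by rw [hy']; exact bst_len _ _ _
    have hmul : (m + 1 + 1) * (2 * u.length + 3) = (m + 1) * (2 * u.length + 3) +
        (2 * u.length + 3) := by ring
    obtain ⟨n, rfl⟩ : ∃ k, n = k + 1 + 1 + (2 * u.length + 1) :=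
      ⟨n - (2 * u.length + 3), by omega⟩
    have h1 := run_block (D := D) (O := O) (A := A) (adv := adv) (u := u) hb hc (d := d)
      (2 * u.length + 1) 0 (n + 1 + 1) (by omega)
    have hp0 : pr3 c 0 = [] := rfl
    rw [hp0, List.append_nil] at h1
    rw [h1]
    have hcl : c.length = 2 * y.length + 1 := by
      rw [hc, ← hy, A2.length_pairBits]
      simp
    have hu1 : (unpair (pr3 c (2 * u.length + 1))).1 = y := by
      rw [hc, ← hy]
      exact unpair_pr3 _ _ (by omega)
    have h2 : (MC d).D (pairBits u (prot bs ++ pr3 c (2 * u.length + 1))) =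
        false :: true :: y := by
      show DC _ = _
      unfold DC
      rw [unpair_pairBits]
      dsimp only
      rw [prs_prot (Or.inl (by rw [pr3_length])) hb]
      dsimp only
      rw [if_neg (by rw [pr3_length]; omega),
        if_pos (by rw [pr3_length]), hu1]
    rw [CAlg.run]
    simp only [h2]
    have h3 := hadv (prot bs ++ pr3 c (2 * u.length + 1)) (num y)
    rcases ha : adv (prot bs ++ pr3 c (2 * u.length + 1)) (num y) with _ | z
    · rw [ha] at h3
      refine ⟨num y, ?_, h3⟩
      have h4 : (prot bs ++ pr3 c (2 * u.length + 1)) ++ [false] =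
          prot bs ++ pr3 c (2 * u.length + 1 + 1) := by
        rw [pr3_succ c (2 * u.length + 1), List.append_assoc, List.getD_eq_default _ _ (by omega)]
      dsimp only
      rw [h4]
      have h5 : (MC d).D (pairBits u (prot bs ++ pr3 c (2 * u.length + 1 + 1))) = true :: y := by
        show DC _ = _
        unfold DC
        rw [unpair_pairBits]
        dsimp only
        rw [prs_prot (Or.inr (by
          rw [pr3_succ c (2 * u.length + 1), List.getD_append_right _ _ _ _ (by
            rw [pr3_length]), pr3_length, Nat.sub_self,
            List.getD_eq_default c _ (by omega)]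
          rfl)) hb]
        dsimp only
        rw [if_neg (by rw [pr3_length]; omega),
          if_neg (by rw [pr3_length]; omega), hc, ← hy,
          unpair_pr3 _ _ (by omega)]
      rw [CAlg.run]
      simp only [h5, str_num]
    · rw [ha] at h3
      dsimp only
      have hzl : (str z).length ≤ u.length := by
        have := length_le h3.1
        rwa [str_num] at this
      have h4 : (prot bs ++ pr3 c (2 * u.length + 1)) ++ (true :: pairBits (str z) []) =
          prot (bs ++ [(pr3 c (2 * u.length + 1), str z)]) := by
        rw [prot_append, List.append_assoc]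
      rw [h4]
      rw [hy'] at h3
      have h5 := progress hi h0 hbad hval h3
      obtain ⟨i1, i2⟩ := lf_inv (D := D) (O := O) (A := A) (u := u) hbX (bs.map Prod.snd) (by
        intro z' hz'
        obtain ⟨b, hb', rfl⟩ := List.mem_map.1 hz'
        exact hz b hb')
      have h6 := nw_pos (fun q hq => (mem_Df.1 (i2 q hq)).2) h5
      refine ih (bs ++ [(pr3 c (2 * u.length + 1), str z)]) ?_ ?_ ?_ (n + 1) (by omega)
      · intro b hb'
        rcases List.mem_append.1 hb' with h | h
        · exact hb b h
        · rw [List.mem_singleton.1 h]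
          exact pr3_length _ _
      · intro b hb'
        rcases List.mem_append.1 hb' with h | h
        · exact hz b h
        · rw [List.mem_singleton.1 h]
          exact hzl
      · rw [List.map_append, List.map_singleton, lf_append]
        unfold upd
        rw [List.length_append, h6]
        omega

end Pool.Agent.TH654.RB
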