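import Pool.Agent.TH654.RB.CE4

/-!
# Near a suitable oracle all optimization problems are computed
-/

set_option autoImplicit false

namespace Pool.Agent.TH654.RB

open Pool.Agent.NPC Pool.Agent.H620R2.Gauge Pool.Agent.H622R2 Finset
open Pool.Agent.W900.CH (dist finite_diff)
open Pool.Agent.W900.SP (join isFP_join)
open Pool.Agent.H591R3.PHG (IsSig)
open Pool.Agent.H591R3.CEX (num Counter Optimal Legal Adversary CAlg Computes Type1 OptProblem)
open Pool.Agent.H591R3.CEX.Upper (num_str str_num length_le Best Beats best_exists best_unique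
  unpair_pre)

/-- the data of an optimization problem relative to `A` -/
theorem exists_data {A : Oracle} {i : ℕ} {C : ℕ → ℕ → Prop} {ρ : ℕ → ℕ}
    (h : OptProblem A i C ρ) : ∃ D : OD, D.i = i ∧
      (∀ u v, bad D A u v ↔ ¬ C (num u) (num v)) ∧ ∀ v, val D A v = ρ (num v) := by
  obtain ⟨F, ⟨MF, hMF⟩, hF⟩ := h.fp
  obtain ⟨V, p, ⟨MV, hMV⟩, hV⟩ := h.pi
  refine ⟨⟨MV, p, i, MF⟩, rfl, fun u v => ?_, fun v => ?_⟩
  · have h1 : (fun y => (MV.out A y).getD []) = V := by
      funext y
      rw [hMV y]
      rfl
    unfold bad
    dsimp only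
    rw [h1]
    have h2 := hV (pairBits u v)
    rw [← h2]
    constructor
    · rintro ⟨x, y, hxy, hc⟩
      have h3 : (u, v) = (str x, str y) := by
        rw [← unpair_pairBits u v, hxy, unpair_pairBits]
      rw [Prod.mk.injEq] at h3
      rw [h3.1, h3.2, num_str, num_str]
      exact hc
    · intro hc
      exact ⟨num u, num v, by rw [str_num, str_num], hc⟩
  · unfold val
    dsimp only
    rw [hMF v]
    show num (F v) = _
    conv_lhs => rw [← str_num v]
    rw [hF, num_str]

/-- the best solution is optimal -/
theorem bst_optimal {A : Oracle} {C : ℕ → ℕ → Prop} {ρ : ℕ → ℕ} {D : OD}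
    (h0 : ∀ x, C x 0)
    (hbad : ∀ u v, bad D A u v ↔ ¬ C (num u) (num v)) (hval : ∀ v, val D A v = ρ (num v))
    (u : List Bool) : Optimal C ρ (num u) (num (bst D A u)) := by
  obtain ⟨s1, s2⟩ := bst_spec D A u
  have hle := bst_le D A u
  refine ⟨?_, fun z hz hC => ?_⟩
  · rcases s1 with h | ⟨-, h⟩
    · rw [h]
      exact h0 _
    · rw [str_num, hbad, not_not] at h
      exact h
  · by_contra hcon
    apply s2 z
    refine ⟨Or.inr ⟨hz, by rw [hbad, num_str, not_not]; exact hC⟩, Or.inl ?_⟩
    show rr D A u (num (bst D A u)) < rr D A u z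
    unfold rr
    rw [if_pos hle, if_pos hz, hval, hval, num_str, num_str]
    omega

/-- **Level zero.** -/
theorem type1_zero {τ : ℕ → Task} {O A : Oracle} (h : ∀ e, IsFP A (Gf τ e O))
    (hτ : ∀ D : OD, ∃ e, τ e = optTask D)
    (hA : ∃ d : Polynomial ℕ, ∀ m, dist O A m ≤ d.eval m) : Type1 A 0 := by
  intro C ρ hC
  obtain ⟨D, hi, hbad, hval⟩ := exists_data hC
  obtain ⟨e, he⟩ := hτ D
  obtain ⟨d, hd⟩ := hA
  obtain ⟨bX, hbX⟩ := exists_qX D
  have hb := isFP_bstc h he
  refine ⟨MC (d.comp (bX.comp (Polynomial.C 2 * Polynomial.X))), B0 D O A,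
    IsSig.of_isP (isP_B0 (h 0) hb) 0, fun x adv hadv => ?_⟩
  have h1 := run_main (d := d.comp (bX.comp (Polynomial.C 2 * Polynomial.X))) (u := str x)
    (adv := adv) hi hC.zero hbad hval hbX (by rw [num_str]; exact hadv)
    (Df O A (bX.eval ((str x).length + (str x).length))).card []
    (fun b hb => absurd hb (by simp)) (fun b hb => absurd hb (by simp)) (Nat.le_add_left _ _)
    ((MC (d.comp (bX.comp (Polynomial.C 2 * Polynomial.X)))).p.eval (str x).length) (by
      show _ ≤ ((d.comp (bX.comp (Polynomial.C 2 * Polynomial.X)) + 1) *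
        (Polynomial.C 2 * Polynomial.X + Polynomial.C 3)).eval (str x).length
      simp only [Polynomial.eval_add, Polynomial.eval_mul, Polynomial.eval_C, Polynomial.eval_X,
        Polynomial.eval_comp, Polynomial.eval_one]
      refine Nat.mul_le_mul_right _ (Nat.succ_le_succ ?_)
      rw [card_Df, ← two_mul]
      exact hd _)
  rw [num_str] at h1
  exact h1

/-- an algorithm that does not ask the adversary -/
def noAdv (D : List Bool → List Bool) (z : List Bool) : List Bool :=
  if (D z).head? = some false then false :: false :: (D z).tail else true :: (D z).tail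

theorem poly_noAdv {D : List Bool → List Bool} (hD : Poly D) : Poly (noAdv D) :=
  Poly.ite (Poly.decide_eq (Poly.head? hD) (NPC.Poly.const _))
    (Poly.cons (NPC.Poly.const _) (Poly.cons (NPC.Poly.const _) (Poly.tail hD)))
    (Poly.cons (NPC.Poly.const _) (Poly.tail hD))

/-- the algorithm that does not ask the adversary -/
noncomputable def noAlg (N : Alg) : CAlg :=
  ⟨noAdv N.D, polyTime_of_poly_list (poly_noAdv (poly_of_polyTime N.poly)), N.p⟩

theorem noAlg_run (N : Alg) (B : Oracle) (adv : Adversary) (x : List Bool) : ∀ (n : ℕ)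
    (a : List Bool), (noAlg N).run B adv x n a = N.run B x n a := by
  intro n
  induction n with
  | zero => intro a; rfl
  | succ n ih =>
    intro a
    have hD : (noAlg N).D (pairBits x a) = noAdv N.D (pairBits x a) := rfl
    rcases h : N.D (pairBits x a) with _ | ⟨b, q⟩
    · have h1 : (noAlg N).D (pairBits x a) = true :: [] := by
        rw [hD]
        unfold noAdv
        rw [h]
        rfl
      simp only [CAlg.run, Alg.run, h1, h]
    · cases b with
      | true =>
        have h1 : (noAlg N).D (pairBits x a) = true :: q := by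
          rw [hD]
          unfold noAdv
          rw [h]
          rfl
        simp only [CAlg.run, Alg.run, h1, h]
      | false =>
        have h1 : (noAlg N).D (pairBits x a) = false :: false :: q := by
          rw [hD]
          unfold noAdv
          rw [h]
          rfl
        simp only [CAlg.run, Alg.run, h1, h]
        exact ih _

/-- the disjoint union with a set in `NP` is in `NP` -/
theorem isNP_join {A S : Oracle} (hS : IsNP A {u | S u = true}) :
    IsNP A {q | join A S q = true} := by
  obtain ⟨V, p, hV, hVS⟩ := hS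
  have hw : Poly (fun y : List Bool => (unpair y).1) := Poly.fst poly_unpair
  have hq : Poly (fun y : List Bool => (unpair y).2) := Poly.snd poly_unpair
  have h1 : IsFP A (fun y => V (pairBits (unpair y).1 (unpair y).2.tail)) :=
    IsFP.comp hV (IsFP.of_poly (poly_pairBits hw (Poly.tail hq)))
  have h2 : IsFP A (fun y => [A (unpair y).2.tail]) :=
    IsFP.tt (Q := fun y => [(unpair y).2.tail]) (H := fun p => p.2)
      (Poly.cons (Poly.tail hq) (NPC.Poly.const [])) (Poly.snd Poly.id)
  have h3 := IsFP.pair (IsFP.of_poly (A := A) (F := fun y => y) Poly.id) (IsFP.pair h1 h2)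
  have h4 := IsFP.comp (IsFP.of_poly (A := A) (F := fun s =>
    if (unpair (unpair s).1).2.head? = some false then (unpair (unpair s).2).2 else
      if (unpair (unpair s).1).2.head? = some true ∧ (unpair (unpair s).1).1.length ≤
        p.eval (unpair (unpair s).1).2.tail.length then (unpair (unpair s).2).1 else [])
    (by
      have g1 : Poly (fun s : List Bool => (unpair (unpair s).1).2) :=
        Poly.snd (poly_unpair.comp (Poly.fst poly_unpair))
      have g2 : Poly (fun s : List Bool => (unpair (unpair s).1).1) :=
        Poly.fst (poly_unpair.comp (Poly.fst poly_unpair))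
      have g3 : Poly (fun s : List Bool => unpair (unpair s).2) :=
        poly_unpair.comp (Poly.snd poly_unpair)
      exact Poly.ite (Poly.decide_eq (Poly.head? g1) (NPC.Poly.const _)) (Poly.snd g3)
        (Poly.ite (Poly.decide_and (Poly.decide_eq (Poly.head? g1) (NPC.Poly.const _))
          (Poly.decide_le (Poly.length g2) ((UPoly.length (Poly.tail g1)).eval p).toPoly))
          (Poly.fst g3) (NPC.Poly.const [])))) h3
  refine ⟨_, p, h4, fun q => ?_⟩
  simp only [unpair_pairBits]
  show join A S q = true ↔ _
  rcases q with _ | ⟨b, z⟩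
  · constructor
    · intro h
      exact absurd (show false = true from h) Bool.false_ne_true
    · rintro ⟨w, -, hw⟩
      simp at hw
  · cases b with
    | false =>
      show A z = true ↔ _
      simp only [List.head?_cons, if_true, List.tail_cons]
      constructor
      · intro h
        exact ⟨[], Nat.zero_le _, by rw [h]⟩
      · rintro ⟨w, -, hw⟩
        simpa using hw
    | true =>
      show S z = true ↔ _
      simp only [List.head?_cons, List.tail_cons]
      have h5 := hVS z
      have h6 : z ∈ {u | S u = true} ↔ S z = true := Iff.rfl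
      rw [← h6, h5]
      have h7 : ¬ (some true = some false) := by simp
      simp only [if_neg h7, true_and]
      constructor
      · rintro ⟨w, h8, h9⟩
        refine ⟨w, h8.trans (eval_mono _ (by simp)), ?_⟩
        rw [if_pos h8]
        exact h9
      · rintro ⟨w, -, h9⟩
        split_ifs at h9 with h10
        exact ⟨w, h10, h9⟩

/-- **The other levels.** -/
theorem type1_pos {τ : ℕ → Task} {O A : Oracle} (h : ∀ e, IsFP A (Gf τ e O))
    (hτ : ∀ D : OD, ∃ e, τ e = optTask D)
    (hA : ∃ d : Polynomial ℕ, ∀ m, dist O A m ≤ d.eval m) (i : ℕ) : Type1 A (i + 1) := by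
  intro C ρ hC
  obtain ⟨D, hi, hbad, hval⟩ := exists_data hC
  obtain ⟨e, he⟩ := hτ D
  have h1 := cook_of_tt (tt_task h hA e)
  obtain ⟨V, hV, hVL⟩ := h1
  have h2 : IsFP (join A (TT O A)) (fun u => bst D A u) := by
    refine isFP_of_bits hV (fun s => bst_len _ _ _) (fun s j => ?_)
    rw [← hVL]
    show (τ e).V A (pairBits s (ones j)) ↔ _
    rw [he]
    show (pairBits (bst D A (unpair (pairBits s (ones j))).1) []).getD
      (unpair (pairBits s (ones j))).2.length false = true ↔ _
    rw [unpair_pairBits, ones_length]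
  obtain ⟨N, hN⟩ := h2
  refine ⟨noAlg N, join A (TT O A), ?_, fun x adv _ => ?_⟩
  · have h3 : IsSig A 1 {q | join A (TT O A) q = true} := isNP_join (isNP_TT (h 0))
    have h4 : ∀ k, IsSig A (k + 1) {q | join A (TT O A) q = true} := by
      intro k
      induction k with
      | zero => exact h3
      | succ k ih => exact ih.succ
    exact h4 i
  · refine ⟨num (bst D A (str x)), ?_, ?_⟩
    · rw [noAlg_run, str_num]
      exact hN (str x)
    · have h3 := bst_optimal hC.zero hbad hval (str x)
      rwa [num_str] at h3

/-- **Near a suitable oracle.** -/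
theorem exists_type1 : ∃ O : Oracle, ∀ A : Oracle,
    (∃ d : Polynomial ℕ, ∀ m, dist O A m ≤ d.eval m) → ∀ i, Type1 A i := by
  obtain ⟨g, hg⟩ := exists_opt
  obtain ⟨O, hO⟩ := exists_code (fun e => optTask (g e))
  have hτ : ∀ D : OD, ∃ e, (fun e => optTask (g e)) e = optTask D := fun D => by
    obtain ⟨e, he⟩ := hg D
    exact ⟨e, by simp only [he]⟩
  refine ⟨O, fun A hA i => ?_⟩
  cases i with
  | zero => exact type1_zero (hO A hA) hτ hA
  | succ i => exact type1_pos (hO A hA) hτ hA i

end Pool.Agent.TH654.RB
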