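import Pool.Agent.TH654.RB.CE5
import Pool.Agent.TH678.EL.Stage

/-!
# Counterexample computations find the ends of metered lines
-/

set_option autoImplicit false

namespace Pool.Agent.TH654.RB

open Pool.Agent.NPC Pool.Agent.H620R2.Gauge Pool.Agent.H622R2 Finset
open Pool.Agent.H591R3.PHG (IsSig)
open Pool.Agent.TH678.EL (Promised SingleLine Solves zero)
open Pool.Agent.H591R3.CEX (num Counter Optimal Legal Adversary CAlg Computes Type1 OptProblem)
open Pool.Agent.H591R3.CEX.Upper (num_str str_num length_le poly_num)

/-! ### simulation -/

/-- the addition to the protocol -/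
def inc (D : List Bool → List Bool) (B : Oracle) (ans : List Bool → List Bool)
    (s : List Bool) : List Bool :=
  if (D s).head? = some false then
    if (D s).tail.head? = some false then [B (D s).tail.tail]
    else if (D s).tail.head? = some true then ans (pairBits (unpair s).1 (D s).tail.tail) else []
  else []

/-- one step -/
def stp1 (D : List Bool → List Bool) (B : Oracle) (ans : List Bool → List Bool)
    (s : List Bool) : List Bool :=
  pairBits (unpair s).1 ((unpair s).2 ++ inc D B ans s)

/-- the output -/
def fin1 (D : List Bool → List Bool) (s : List Bool) : List Bool :=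
  if (D s).head? = some true then (D s).tail else []

theorem stp1_pair (D : List Bool → List Bool) (B : Oracle) (ans : List Bool → List Bool)
    (x a : List Bool) : stp1 D B ans (pairBits x a) =
      pairBits x (a ++ inc D B ans (pairBits x a)) := by
  unfold stp1
  rw [unpair_pairBits]

theorem stop_iter {D : List Bool → List Bool} {B : Oracle} {ans : List Bool → List Bool}
    {x a : List Bool} (h : inc D B ans (pairBits x a) = []) : ∀ n,
    (stp1 D B ans)^[n] (pairBits x a) = pairBits x a
  | 0 => rfl
  | n + 1 => by
    rw [Function.iterate_succ_apply, stp1_pair, h, List.append_nil]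
    exact stop_iter h n

theorem sim {M : CAlg} {B : Oracle} {adv : Adversary} {ans : List Bool → List Bool}
    {x : List Bool}
    (hans : ∀ a w, ans (pairBits x w) = match adv a (num w) with
      | none => [false]
      | some z => true :: pairBits (str z) []) : ∀ (n : ℕ) (a z : List Bool),
    M.run B adv x n a = some z → fin1 M.D ((stp1 M.D B ans)^[n] (pairBits x a)) = z := by
  intro n
  induction n with
  | zero =>
    intro a z h
    exact absurd h (by simp [CAlg.run])
  | succ n ih =>
    intro a z h
    rcases hD : M.D (pairBits x a) with _ | ⟨b, r⟩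
    · simp only [CAlg.run, hD, Option.some.injEq] at h
      have h1 : inc M.D B ans (pairBits x a) = [] := by
        unfold inc
        rw [hD]
        simp
      rw [stop_iter h1]
      unfold fin1
      rw [hD, ← h]
      simp
    · cases b with
      | true =>
        simp only [CAlg.run, hD, Option.some.injEq] at h
        have h1 : inc M.D B ans (pairBits x a) = [] := by
          unfold inc
          rw [hD]
          simp
        rw [stop_iter h1]
        unfold fin1
        rw [hD, ← h]
        simp
      | false =>
        rcases r with _ | ⟨b, q⟩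
        · simp only [CAlg.run, hD, Option.some.injEq] at h
          have h1 : inc M.D B ans (pairBits x a) = [] := by
            unfold inc
            rw [hD]
            simp
          rw [stop_iter h1]
          unfold fin1
          rw [hD, ← h]
          simp
        · cases b with
          | false =>
            simp only [CAlg.run, hD] at h
            have h1 : inc M.D B ans (pairBits x a) = [B q] := by
              unfold inc
              rw [hD]
              simp
            rw [Function.iterate_succ_apply, stp1_pair, h1]
            exact ih _ _ h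
          | true =>
            have h1 : inc M.D B ans (pairBits x a) = ans (pairBits x q) := by
              unfold inc
              rw [hD, unpair_pairBits]
              simp
            rw [Function.iterate_succ_apply, stp1_pair, h1, hans a q]
            simp only [CAlg.run, hD] at h
            rcases ha : adv a (num q) with _ | z'
            · rw [ha] at h
              exact ih _ _ h
            · rw [ha] at h
              exact ih _ _ h

theorem isFP_stp1 {A B : Oracle} {M : CAlg} {ans : List Bool → List Bool}
    (hB : IsP A {q | B q = true}) (hans : IsFP A ans) : IsFP A (stp1 M.D B ans) := by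
  obtain ⟨V, hV, hVB⟩ := hB
  have hD : Poly M.D := poly_of_polyTime M.poly
  have h1 : IsFP A (fun s => V (M.D s).tail.tail) :=
    IsFP.comp hV (IsFP.of_poly (Poly.tail (Poly.tail hD)))
  have h2 : IsFP A (fun s => ans (pairBits (unpair s).1 (M.D s).tail.tail)) :=
    IsFP.comp hans (IsFP.of_poly (poly_pairBits (Poly.fst poly_unpair)
      (Poly.tail (Poly.tail hD))))
  have h3 := IsFP.pair (IsFP.of_poly (A := A) (F := fun s => s) Poly.id) (IsFP.pair h1 h2)
  have g0 : Poly (fun w : List Bool => (unpair w).1) := Poly.fst poly_unpair
  have g1 : Poly (fun w : List Bool => (unpair (unpair w).2).1) :=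
    Poly.fst (poly_unpair.comp (Poly.snd poly_unpair))
  have g2 : Poly (fun w : List Bool => (unpair (unpair w).2).2) :=
    Poly.snd (poly_unpair.comp (Poly.snd poly_unpair))
  have gD : Poly (fun w : List Bool => M.D (unpair w).1) := hD.comp g0
  have h4 := IsFP.comp (IsFP.of_poly (A := A) (F := fun w =>
    pairBits (unpair (unpair w).1).1 ((unpair (unpair w).1).2 ++
      (if (M.D (unpair w).1).head? = some false then
        if (M.D (unpair w).1).tail.head? = some false then
          [decide ((unpair (unpair w).2).1 = [true])]
        else if (M.D (unpair w).1).tail.head? = some true then (unpair (unpair w).2).2 else []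
      else [])))
    (poly_pairBits (Poly.fst (poly_unpair.comp g0)) (Poly.append (Poly.snd (poly_unpair.comp g0))
      (Poly.ite (Poly.decide_eq (Poly.head? gD) (NPC.Poly.const _))
        (Poly.ite (Poly.decide_eq (Poly.head? (Poly.tail gD)) (NPC.Poly.const _))
          (Poly.cons (Poly.decide_eq g1 (NPC.Poly.const _)) (NPC.Poly.const _))
          (Poly.ite (Poly.decide_eq (Poly.head? (Poly.tail gD)) (NPC.Poly.const _)) g2
            (NPC.Poly.const _))) (NPC.Poly.const _))))) h3
  refine (congrArg (IsFP A) (funext fun s => ?_)).mp h4
  simp only [unpair_pairBits]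
  unfold stp1 inc
  have h5 : decide (V (M.D s).tail.tail = [true]) = B (M.D s).tail.tail := by
    have h6 := hVB (M.D s).tail.tail
    have h7 : (M.D s).tail.tail ∈ {q | B q = true} ↔ B (M.D s).tail.tail = true := Iff.rfl
    rw [Bool.eq_iff_iff, decide_eq_true_iff, ← h6, h7]
  rw [h5]

theorem isFP_fin1 {A B : Oracle} {M : CAlg} {ans : List Bool → List Bool}
    (hB : IsP A {q | B q = true}) (hans : IsFP A ans) {β : Polynomial ℕ}
    (hβ : ∀ x w, (ans (pairBits x w)).length ≤ β.eval x.length) :
    IsFP A (fun x => fin1 M.D ((stp1 M.D B ans)^[M.p.eval x.length] (pairBits x []))) := by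
  have hD : Poly M.D := poly_of_polyTime M.poly
  have key : ∀ (x : List Bool) (i : ℕ), ∃ a : List Bool,
      (stp1 M.D B ans)^[i] (pairBits x []) = pairBits x a ∧
        a.length ≤ i * (β.eval x.length + 1) := by
    intro x i
    induction i with
    | zero => exact ⟨[], rfl, by simp⟩
    | succ i ih =>
      obtain ⟨a, h1, h2⟩ := ih
      rw [Function.iterate_succ_apply', h1, stp1_pair]
      refine ⟨_, rfl, ?_⟩
      have h3 : (inc M.D B ans (pairBits x a)).length ≤ β.eval x.length + 1 := by
        unfold inc
        rw [unpair_pairBits]
        split_ifs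
        · simp
        · exact (hβ _ _).trans (Nat.le_succ _)
        · simp
        · simp
      rw [List.length_append]
      have h4 : (i + 1) * (β.eval x.length + 1) = i * (β.eval x.length + 1) +
          (β.eval x.length + 1) := by ring
      omega
  have h1 := IsFP.loop (isFP_stp1 (M := M) hB hans) (g := fun x => pairBits x [])
    (poly_pairBits Poly.id (NPC.Poly.const [])) M.p
    (Polynomial.C 2 * Polynomial.X + M.p * (β + 1) + 1) (by
      intro x i hi
      obtain ⟨a, h1, h2⟩ := key x i
      rw [h1, A2.length_pairBits]
      simp only [Polynomial.eval_add, Polynomial.eval_mul, Polynomial.eval_C, Polynomial.eval_X,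
        Polynomial.eval_one]
      have h3 : i * (β.eval x.length + 1) ≤ M.p.eval x.length * (β.eval x.length + 1) :=
        Nat.mul_le_mul_right _ hi
      omega)
  exact IsFP.comp (IsFP.of_poly (A := A) (F := fin1 M.D) (Poly.ite (Poly.decide_eq
    (Poly.head? hD) (NPC.Poly.const _)) (Poly.tail hD) (NPC.Poly.const _))) h1

/-! ### the optimization problem -/

/-- `w` is the code of a vertex on the line of the instance `u` -/
def TL (S P : List Bool → List Bool) (u w : List Bool) : Prop :=
  (unpair w).1 = (unpair u.tail).1 ∧ (unpair w).2.length = (unpair u.tail).2.length ∧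
    ¬ (S (pairBits (unpair w).2 (unpair u.tail).2) = (unpair w).2 ∧
      P (pairBits (unpair w).2 (unpair u.tail).2) = (unpair w).2)

/-- the solutions -/
def CL (S P : List Bool → List Bool) (x y : ℕ) : Prop := y = 0 ∨ (y ≤ x ∧ TL S P (str x) (str y))

/-- the position -/
def ρS (w : List Bool) : ℕ := valB ((unpair w).2.take (unpair w).1.length)

/-- the values -/
def ρL (y : ℕ) : ℕ := ρS (str y)

theorem poly_str' {α : Type} [TEnc α] {i : α → ℕ} (hi : Poly i) : Poly (fun a => str (i a)) := by
  unfold str
  exact Poly.tail (Poly.reverse (Poly.natBits (Poly.add hi (NPC.Poly.const 1))))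

theorem poly_ρS : Poly ρS := by
  unfold ρS
  exact Poly.valBits (R1.poly_take (Poly.snd poly_unpair) (UPoly.length (Poly.fst poly_unpair)))

open Classical in
/-- the test in polynomial time -/
theorem isFP_TL {A : Oracle} {S P : List Bool → List Bool} (hS : IsFP A S) (hP : IsFP A P) :
    IsFP A (fun z => [decide (TL S P (unpair z).1 (unpair z).2)]) := by
  have gv : Poly (fun z : List Bool => (unpair (unpair z).2).2) :=
    Poly.snd (poly_unpair.comp (Poly.snd poly_unpair))
  have gm : Poly (fun z : List Bool => (unpair (unpair z).2).1) :=
    Poly.fst (poly_unpair.comp (Poly.snd poly_unpair))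
  have gI : Poly (fun z : List Bool => (unpair (unpair z).1.tail).2) :=
    Poly.snd (poly_unpair.comp (Poly.tail (Poly.fst poly_unpair)))
  have gM : Poly (fun z : List Bool => (unpair (unpair z).1.tail).1) :=
    Poly.fst (poly_unpair.comp (Poly.tail (Poly.fst poly_unpair)))
  have h1 : IsFP A (fun z => S (pairBits (unpair (unpair z).2).2 (unpair (unpair z).1.tail).2)) :=
    IsFP.comp hS (IsFP.of_poly (poly_pairBits gv gI))
  have h2 : IsFP A (fun z => P (pairBits (unpair (unpair z).2).2 (unpair (unpair z).1.tail).2)) :=
    IsFP.comp hP (IsFP.of_poly (poly_pairBits gv gI))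
  have h3 := IsFP.pair (IsFP.of_poly (A := A) (F := fun s => s) Poly.id) (IsFP.pair h1 h2)
  have g0 : Poly (fun w : List Bool => (unpair w).1) := Poly.fst poly_unpair
  have g1 : Poly (fun w : List Bool => (unpair (unpair w).2).1) :=
    Poly.fst (poly_unpair.comp (Poly.snd poly_unpair))
  have g2 : Poly (fun w : List Bool => (unpair (unpair w).2).2) :=
    Poly.snd (poly_unpair.comp (Poly.snd poly_unpair))
  have h4 := IsFP.comp (IsFP.of_poly (A := A) (F := fun w =>
    [decide ((unpair (unpair (unpair w).1).2).1 = (unpair (unpair (unpair w).1).1.tail).1) &&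
      (decide ((unpair (unpair (unpair w).1).2).2.length =
        (unpair (unpair (unpair w).1).1.tail).2.length) &&
      !(decide ((unpair (unpair w).2).1 = (unpair (unpair (unpair w).1).2).2) &&
        decide ((unpair (unpair w).2).2 = (unpair (unpair (unpair w).1).2).2)))])
    (Poly.cons (Poly.and (Poly.decide_eq (gm.comp g0) (gM.comp g0))
      (Poly.and (Poly.decide_eq (Poly.length (gv.comp g0)) (Poly.length (gI.comp g0)))
        (Poly.not (Poly.and (Poly.decide_eq g1 (gv.comp g0)) (Poly.decide_eq g2 (gv.comp g0))))))
      (NPC.Poly.const []))) h3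
  refine (congrArg (IsFP A) (funext fun z => ?_)).mp h4
  simp only [unpair_pairBits]
  congr 1
  rw [Bool.eq_iff_iff]
  unfold TL
  simp

theorem lt_of_length {a b : List Bool} (h : a.length < b.length) : num a ≤ num b := by
  by_contra hcon
  have h1 := length_le (x := num a) (y := num b) (by omega)
  rw [str_num, str_num] at h1
  omega

theorem num_nil : num [] = 0 := rfl

theorem str_zero' : str 0 = [] := by
  rw [← num_nil, str_num]

theorem num_zero {w : List Bool} : num w = 0 ↔ w = [] := by
  constructor
  · intro h
    rw [← str_num w, h, str_zero']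
  · intro h
    rw [h]
    rfl

open Classical in
theorem optL {A : Oracle} {S P : List Bool → List Bool} (hS : IsFP A S) (hP : IsFP A P) :
    OptProblem A 0 (CL S P) ρL where
  zero := fun _ => Or.inl rfl
  le := fun x y h => by
    rcases h with rfl | h
    · exact Nat.zero_le _
    · exact h.1
  pi := by
    have h1 := isFP_TL hS hP
    have g0 : Poly (fun w : List Bool => (unpair w).1) := Poly.fst poly_unpair
    have g1 : Poly (fun w : List Bool => (unpair w).2) := Poly.snd poly_unpair
    have h2 := IsFP.seq (IsFP.of_poly (A := A) (F := fun x => x) Poly.id) h1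
      (φ := fun p => p.1)
      (ψ := fun p => if p.1 = pairBits (unpair p.1).1 (unpair p.1).2 ∧
        ¬ ((unpair p.1).2 = [] ∨ (num (unpair p.1).2 ≤ num (unpair p.1).1 ∧ p.2.2 = [true])) then
          [true] else []) (Poly.fst Poly.id)
      (Poly.ite (Poly.decide_and (Poly.decide_eq (Poly.fst Poly.id) (poly_pairBits
          (g0.comp (Poly.fst Poly.id)) (g1.comp (Poly.fst Poly.id))))
        (Poly.decide_not (Poly.decide_or (Poly.decide_eq (g1.comp (Poly.fst Poly.id))
          (NPC.Poly.const _)) (Poly.decide_and (Poly.decide_le
            (poly_num (g1.comp (Poly.fst Poly.id))) (poly_num (g0.comp (Poly.fst Poly.id))))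
            (Poly.decide_eq (Poly.snd (Poly.snd Poly.id)) (NPC.Poly.const _))))))
        (NPC.Poly.const _) (NPC.Poly.const _))
    have h3 : IsP A {z | ∃ x y, z = pairBits (str x) (str y) ∧ ¬ CL S P x y} := by
      refine ⟨_, h2, fun z => ?_⟩
      have h4 : ∀ u w : List Bool, CL S P (num u) (num w) ↔
          (w = [] ∨ (num w ≤ num u ∧ TL S P u w)) := by
        intro u w
        unfold CL
        rw [num_zero, str_num, str_num]
      constructor
      · rintro ⟨x, y, rfl, hc⟩
        have h5 := h4 (str x) (str y)
        rw [num_str, num_str] at h5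
        rw [h5] at hc
        simp only [unpair_pairBits, true_and, num_str]
        rw [if_pos]
        simpa using hc
      · intro h
        split_ifs at h with h5
        obtain ⟨h5, h6⟩ := h5
        refine ⟨num (unpair z).1, num (unpair z).2, by rw [str_num, str_num]; exact h5, ?_⟩
        rw [h4]
        simpa using h6
    exact IsSig.of_isP h3 0
  fp := ⟨fun w => str (ρS w), IsFP.of_poly (poly_str' poly_ρS), fun _ => rfl⟩

end Pool.Agent.TH654.RB
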