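import Pool.Agent.TH654.RB.CE6

/-!
# The adversary that follows the line, and the solver
-/

set_option autoImplicit false

namespace Pool.Agent.TH654.RB

open Pool.Agent.NPC Pool.Agent.H620R2.Gauge Pool.Agent.H622R2 Finset
open Pool.Agent.H591R3.PHG (IsSig)
open Pool.Agent.TH678.EL (Promised SingleLine Solves zero)
open Pool.Agent.H591R3.CEX (num Counter Optimal Legal Adversary CAlg Computes Type1 OptProblem)
open Pool.Agent.H591R3.CEX.Upper (num_str str_num length_le poly_num)

/-! ### binary digits -/

theorem valB_digits : ∀ (m i : ℕ) (l : List Bool), i < 2 ^ m → m ≤ l.length →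
    (∀ j < m, l[j]? = some (i.testBit j)) → valB (l.take m) = i
  | 0, i, l, h, _, _ => by
    have : i = 0 := by omega
    rw [this, List.take_zero]
    rfl
  | m + 1, i, [], _, h, _ => by
    simp at h
  | m + 1, i, b :: l, h, hl, hj => by
    have h0 := hj 0 (by omega)
    rw [List.getElem?_cons_zero, Option.some.injEq, Nat.testBit_zero] at h0
    rw [List.take_succ_cons, valB_cons, valB_digits m (i / 2) l (by
      rw [pow_succ] at h
      omega) (by simpa using hl) (fun j hj' => by
        have h1 := hj (j + 1) (by omega)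
        rw [List.getElem?_cons_succ] at h1
        rw [h1, Nat.testBit_succ])]
    rw [h0]
    by_cases h2 : i % 2 = 1
    · simp only [h2, decide_true, if_true]
      omega
    · simp only [h2, decide_false, Bool.false_eq_true, if_false]
      omega

/-! ### the adversary -/

/-- the code of a vertex -/
def cd (u v : List Bool) : List Bool := pairBits (unpair u.tail).1 v

/-- the vertex presented -/
def vx (u w : List Bool) : List Bool :=
  if w = [] then zero (unpair u.tail).2.length else (unpair w).2

/-- the number is a feasible solution -/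
def Fs (S P : List Bool → List Bool) (u w : List Bool) : Prop :=
  w = [] ∨ (num w ≤ num u ∧ TL S P u w)

open Classical in
/-- the strategy -/
noncomputable def advL (S P : List Bool → List Bool) (u w : List Bool) : Option ℕ :=
  if Fs S P u w then
    if S (pairBits (vx u w) (unpair u.tail).2) = vx u w ∨
      (S (pairBits (vx u w) (unpair u.tail).2)).length ≠ (unpair u.tail).2.length then none
    else some (num (cd u (S (pairBits (vx u w) (unpair u.tail).2))))
  else some 0

open Classical in
/-- the answers as strings -/
noncomputable def ansL (S P : List Bool → List Bool) (z : List Bool) : List Bool :=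
  if Fs S P (unpair z).1 (unpair z).2 then
    if S (pairBits (vx (unpair z).1 (unpair z).2) (unpair (unpair z).1.tail).2) =
      vx (unpair z).1 (unpair z).2 ∨
      (S (pairBits (vx (unpair z).1 (unpair z).2) (unpair (unpair z).1.tail).2)).length ≠
        (unpair (unpair z).1.tail).2.length then [false]
    else true :: pairBits (cd (unpair z).1
      (S (pairBits (vx (unpair z).1 (unpair z).2) (unpair (unpair z).1.tail).2))) []
  else true :: pairBits [] []

theorem ansL_eq (S P : List Bool → List Bool) (u w : List Bool) :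
    ansL S P (pairBits u w) = match advL S P u w with
      | none => [false]
      | some z => true :: pairBits (str z) [] := by
  unfold ansL advL
  rw [unpair_pairBits]
  dsimp only
  split_ifs
  · rfl
  · dsimp only
    rw [str_num]
  · dsimp only
    rw [str_zero']

theorem ansL_length (S P : List Bool → List Bool) (u w : List Bool) :
    (ansL S P (pairBits u w)).length ≤
      (Polynomial.C 6 * Polynomial.X + Polynomial.C 4 : Polynomial ℕ).eval u.length := by
  have h1 := TH678.EL.unpair_fst_len u.tail
  have h2 := V8.unpair_snd_len u.tail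
  have h3 : u.tail.length ≤ u.length := by
    rw [List.length_tail]
    omega
  simp only [Polynomial.eval_add, Polynomial.eval_mul, Polynomial.eval_C, Polynomial.eval_X]
  unfold ansL
  rw [unpair_pairBits]
  dsimp only
  split_ifs with h4 h5
  · simp
  · push Not at h5
    unfold cd
    rw [List.length_cons, A2.length_pairBits, A2.length_pairBits, h5.2, List.length_nil]
    omega
  · rw [List.length_cons, A2.length_pairBits]
    simp

open Classical in
theorem isFP_ansL {A : Oracle} {S P : List Bool → List Bool} (hS : IsFP A S) (hP : IsFP A P) :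
    IsFP A (ansL S P) := by
  have g0 : Poly (fun w : List Bool => (unpair w).1) := Poly.fst poly_unpair
  have g1 : Poly (fun w : List Bool => (unpair w).2) := Poly.snd poly_unpair
  have gM : Poly (fun z : List Bool => (unpair (unpair z).1.tail).1) :=
    Poly.fst (poly_unpair.comp (Poly.tail g0))
  have gI : Poly (fun z : List Bool => (unpair (unpair z).1.tail).2) :=
    Poly.snd (poly_unpair.comp (Poly.tail g0))
  have gv : Poly (fun z : List Bool => vx (unpair z).1 (unpair z).2) := by
    unfold vx
    exact Poly.ite (Poly.decide_eq g1 (NPC.Poly.const _)) (TH678.EL.poly_rep (UPoly.length gI) false)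
      (Poly.snd (poly_unpair.comp g1))
  have h1 : IsFP A (fun z => S (pairBits (vx (unpair z).1 (unpair z).2)
      (unpair (unpair z).1.tail).2)) := IsFP.comp hS (IsFP.of_poly (poly_pairBits gv gI))
  have h2 := IsFP.pair (IsFP.of_poly (A := A) (F := fun s => s) Poly.id)
    (IsFP.pair h1 (isFP_TL hS hP))
  have k0 : Poly (fun w : List Bool => (unpair (unpair w).2).1) :=
    Poly.fst (poly_unpair.comp (Poly.snd poly_unpair))
  have k1 : Poly (fun w : List Bool => (unpair (unpair w).2).2) :=
    Poly.snd (poly_unpair.comp (Poly.snd poly_unpair))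
  have h3 := IsFP.comp (IsFP.of_poly (A := A) (F := fun w =>
    if (unpair (unpair w).1).2 = [] ∨ (num (unpair (unpair w).1).2 ≤ num (unpair (unpair w).1).1 ∧
      (unpair (unpair w).2).2 = [true]) then
      if (unpair (unpair w).2).1 = vx (unpair (unpair w).1).1 (unpair (unpair w).1).2 ∨
        ¬ (unpair (unpair w).2).1.length = (unpair (unpair (unpair w).1).1.tail).2.length then
          [false]
      else true :: pairBits (pairBits (unpair (unpair (unpair w).1).1.tail).1
        (unpair (unpair w).2).1) []
    else true :: pairBits [] [])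
    (Poly.ite (Poly.decide_or (Poly.decide_eq (g1.comp g0) (NPC.Poly.const _))
      (Poly.decide_and (Poly.decide_le (poly_num (g1.comp g0)) (poly_num (g0.comp g0)))
        (Poly.decide_eq k1 (NPC.Poly.const _))))
      (Poly.ite (Poly.decide_or (Poly.decide_eq k0 (gv.comp g0))
        (Poly.decide_not (Poly.decide_eq (Poly.length k0) (Poly.length (gI.comp g0)))))
        (NPC.Poly.const _)
        (Poly.cons (NPC.Poly.const _) (poly_pairBits (poly_pairBits (gM.comp g0) k0)
          (NPC.Poly.const _))))
      (NPC.Poly.const _))) h2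
  refine (congrArg (IsFP A) (funext fun z => ?_)).mp h3
  simp only [unpair_pairBits]
  unfold ansL Fs cd
  simp

/-! ### one line -/

/-- the line -/
structure Ln (S P : List Bool → List Bool) (x : List Bool) (L m : ℕ) (v : ℕ → List Bool) :
    Prop where
  hL : 0 < L
  hm : L < 2 ^ m
  v0 : v 0 = zero x.length
  len : ∀ i ≤ L, (v i).length = x.length
  dig : ∀ i ≤ L, ∀ j < m, (v i)[j]? = some (i.testBit j)
  p0 : P (pairBits (v 0) x) = v 0
  sL : S (pairBits (v L) x) = v L
  nx : ∀ i < L, S (pairBits (v i) x) = v (i + 1) ∧ P (pairBits (v (i + 1)) x) = v i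
  iso : ∀ w : List Bool, w.length = x.length → (∀ i ≤ L, w ≠ v i) →
    S (pairBits w x) = w ∧ P (pairBits w x) = w

section

variable {S P : List Bool → List Bool} {x : List Bool} {L m : ℕ} {v : ℕ → List Bool}

theorem Ln.m_pos (h : Ln S P x L m v) : 0 < m := by
  rcases Nat.eq_zero_or_pos m with h1 | h1
  · have h2 := h.hm
    have h3 := h.hL
    rw [h1, pow_zero] at h2
    omega
  · exact h1

theorem Ln.m_le (h : Ln S P x L m v) : m ≤ x.length := by
  by_contra hcon
  have h1 := h.dig 0 (Nat.zero_le _) x.length (by omega)
  rw [List.getElem?_eq_none (by rw [h.len 0 (Nat.zero_le _)])] at h1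
  exact absurd h1 (by simp)

theorem Ln.val (h : Ln S P x L m v) {i : ℕ} (hi : i ≤ L) : valB ((v i).take m) = i :=
  valB_digits m i (v i) (lt_of_le_of_lt hi h.hm) (by rw [h.len i hi]; exact h.m_le) (h.dig i hi)

theorem Ln.inj (h : Ln S P x L m v) {i j : ℕ} (hi : i ≤ L) (hj : j ≤ L) (he : v i = v j) :
    i = j := by
  rw [← h.val hi, ← h.val hj, he]

/-- the code of the instance -/
def un1 (m : ℕ) (x : List Bool) : List Bool := true :: pairBits (ones m) x

theorem un1_tail (m : ℕ) (x : List Bool) : unpair (un1 m x).tail = (ones m, x) := by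
  unfold un1
  rw [List.tail_cons, unpair_pairBits]

theorem cd_eq (m : ℕ) (x v : List Bool) : cd (un1 m x) v = pairBits (ones m) v := by
  unfold cd
  rw [un1_tail]

theorem Ln.noniso (h : Ln S P x L m v) {i : ℕ} (hi : i ≤ L) :
    ¬ (S (pairBits (v i) x) = v i ∧ P (pairBits (v i) x) = v i) := by
  rintro ⟨h1, h2⟩
  rcases Nat.lt_or_ge i L with h3 | h3
  · rw [(h.nx i h3).1] at h1
    have := h.inj (by omega) hi h1
    omega
  · have h4 : i = L := by omega
    subst h4
    obtain ⟨k, rfl⟩ : ∃ k, i = k + 1 := ⟨i - 1, by have := h.hL; omega⟩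
    rw [(h.nx k (by omega)).2] at h2
    have := h.inj (by omega) hi h2
    omega

theorem Ln.feas (h : Ln S P x L m v) {i : ℕ} (hi : i ≤ L) :
    num (pairBits (ones m) (v i)) ≤ num (un1 m x) ∧
      TL S P (un1 m x) (pairBits (ones m) (v i)) := by
  refine ⟨lt_of_length ?_, ?_⟩
  · unfold un1
    rw [List.length_cons, A2.length_pairBits, A2.length_pairBits, h.len i hi]
    omega
  · unfold TL
    rw [un1_tail, unpair_pairBits]
    exact ⟨rfl, h.len i hi, h.noniso hi⟩

theorem Ln.of_TL (h : Ln S P x L m v) {w : List Bool} (hw : TL S P (un1 m x) w) :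
    ∃ i ≤ L, (unpair w).2 = v i ∧ ρS w = i := by
  unfold TL at hw
  rw [un1_tail] at hw
  obtain ⟨h1, h2, h3⟩ := hw
  by_contra hcon
  push Not at hcon
  apply h3
  refine h.iso _ h2 fun i hi he => hcon i hi he ?_
  unfold ρS
  rw [h1, he]
  dsimp only
  rw [ones_length]
  exact h.val hi

theorem ρS_nil : ρS [] = 0 := by
  unfold ρS
  have h1 : (unpair []).2 = [] := by
    have := V8.unpair_snd_len []
    exact List.eq_nil_of_length_eq_zero (by simpa using this)
  rw [h1, List.take_nil]
  rfl

theorem Ln.ρ_code (h : Ln S P x L m v) {i : ℕ} (hi : i ≤ L) :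
    ρS (pairBits (ones m) (v i)) = i := by
  unfold ρS
  rw [unpair_pairBits, ones_length]
  exact h.val hi

theorem Ln.CL_code (h : Ln S P x L m v) {i : ℕ} (hi : i ≤ L) :
    CL S P (num (un1 m x)) (num (pairBits (ones m) (v i))) :=
  Or.inr ⟨(h.feas hi).1, by rw [str_num, str_num]; exact (h.feas hi).2⟩

/-- **The adversary is legal.** -/
theorem Ln.legal (h : Ln S P x L m v) :
    Legal (CL S P) ρL (num (un1 m x)) (fun _ y => advL S P (un1 m x) (str y)) := by
  intro a y
  dsimp only
  -- the vertex on the line
  have key : ∀ i ≤ L, vx (un1 m x) (str y) = v i → ρL y = i →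
      CL S P (num (un1 m x)) y → Fs S P (un1 m x) (str y) →
      match advL S P (un1 m x) (str y) with
      | none => Optimal (CL S P) ρL (num (un1 m x)) y
      | some z => Counter (CL S P) ρL (num (un1 m x)) y z := by
    intro i hi hv hρ hC hF
    unfold advL
    rw [if_pos hF, un1_tail]
    dsimp only
    rw [hv]
    rcases Nat.lt_or_ge i L with h3 | h3
    · have h4 : ¬ (S (pairBits (v i) x) = v i ∨ (S (pairBits (v i) x)).length ≠ x.length) := by
        rintro (h5 | h5)
        · rw [(h.nx i h3).1] at h5
          have := h.inj (by omega) hi h5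
          omega
        · rw [(h.nx i h3).1] at h5
          exact h5 (h.len _ h3)
      rw [if_neg h4, (h.nx i h3).1, cd_eq]
      refine ⟨(h.feas h3).1, ?_⟩
      rintro ⟨-, h6⟩
      refine h6 ?_ (h.CL_code h3)
      rw [hρ]
      show i < ρS (str (num (pairBits (ones m) (v (i + 1)))))
      rw [str_num, h.ρ_code h3]
      omega
    · have h4 : i = L := by omega
      subst h4
      rw [if_pos (Or.inl h.sL)]
      refine ⟨hC, fun z _ hz => ?_⟩
      rw [hρ]
      rcases hz with rfl | ⟨-, hz⟩
      · show ρS (str 0) ≤ i
        rw [str_zero', ρS_nil]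
        exact Nat.zero_le _
      · rw [str_num] at hz
        obtain ⟨j, hj, -, h5⟩ := h.of_TL hz
        show ρS (str z) ≤ i
        rw [h5]
        exact hj
  by_cases hF : Fs S P (un1 m x) (str y)
  · rcases hF with h0 | ⟨h1, h2⟩
    · have hy : y = 0 := by
        have := num_zero.2 h0
        rwa [num_str] at this
      refine key 0 (Nat.zero_le _) ?_ ?_ (Or.inl hy) (Or.inl h0)
      · unfold vx
        rw [if_pos h0, un1_tail, h.v0]
      · show ρS (str y) = 0
        rw [h0, ρS_nil]
    · obtain ⟨i, hi, h3, h4⟩ := h.of_TL h2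
      by_cases h0 : str y = []
      · have hy : y = 0 := by
          have := num_zero.2 h0
          rwa [num_str] at this
        refine key 0 (Nat.zero_le _) ?_ ?_ (Or.inl hy) (Or.inl h0)
        · unfold vx
          rw [if_pos h0, un1_tail, h.v0]
        · show ρS (str y) = 0
          rw [h0, ρS_nil]
      · refine key i hi ?_ h4 (Or.inr ⟨by rwa [num_str] at h1, by rw [str_num]; exact h2⟩)
          (Or.inr ⟨h1, h2⟩)
        unfold vx
        rw [if_neg h0]
        exact h3
  · unfold advL
    rw [if_neg hF]
    refine ⟨Nat.zero_le _, ?_⟩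
    rintro ⟨h1, -⟩
    apply hF
    rcases h1 with h1 | ⟨h1, h2⟩
    · left
      rw [h1, str_zero']
    · right
      rw [str_num] at h2
      exact ⟨by rwa [num_str], h2⟩

/-- an optimal solution is the end of the line -/
theorem Ln.solved (h : Ln S P x L m v) {y : ℕ}
    (hy : Optimal (CL S P) ρL (num (un1 m x)) y) : Solves S P x.length x (unpair (str y)).2 := by
  obtain ⟨h1, h2⟩ := hy
  have h3 := h2 _ (h.feas le_rfl).1 (h.CL_code le_rfl)
  have h4 : ρL (num (pairBits (ones m) (v L))) = L := by
    show ρS (str (num (pairBits (ones m) (v L)))) = L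
    rw [str_num, h.ρ_code le_rfl]
  rw [h4] at h3
  rcases h1 with rfl | ⟨-, h1⟩
  · exfalso
    have h5 : ρL 0 = 0 := by
      show ρS (str 0) = 0
      rw [str_zero', ρS_nil]
    rw [h5] at h3
    have := h.hL
    omega
  · rw [str_num] at h1
    obtain ⟨i, hi, h5, h6⟩ := h.of_TL h1
    have h7 : ρL y = i := h6
    have h8 : i = L := by omega
    subst h8
    rw [h5]
    refine ⟨h.len i le_rfl, Or.inl ?_⟩
    rw [h.sL]
    obtain ⟨k, rfl⟩ : ∃ k, i = k + 1 := ⟨i - 1, by have := h.hL; omega⟩
    rw [(h.nx k (by omega)).2]
    intro he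
    have := h.inj (by omega) le_rfl he
    omega

end

end Pool.Agent.TH654.RB
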