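import Pool.Agent.TH654.RB.SP2

/-!
# The tree of partial witnesses, pruned with a reduction to a set with few candidates
-/

set_option autoImplicit false

namespace Pool.Agent.TH654.RB

open Pool.Agent.NPC Pool.Agent.H620R2.Gauge Pool.Agent.H622R2 Finset
open Pool.Agent.TH678.PN Pool.Agent.TH678.EL
open Pool.Agent.TH678.PN.PH (d1 d1_bits poly_d1)

/-! ### filtering a list with a test relative to the oracle -/

theorem filter_zip (f : List Bool → Bool) (H : List (List Bool)) (m : ℕ) (h : H.length ≤ m) :
    ((H.zip ((List.range m).map (fun i => f (H.getD i [])))).filter (fun q => q.2)).map Prod.fst =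
      H.filter f := by
  rw [zip_ans f H m h, List.filter_map, List.map_map]
  have h1 : (fun q : List Bool × Bool => q.2) ∘ (fun y => (y, f y)) = f := rfl
  have h2 : (Prod.fst ∘ fun y => (y, f y) : List Bool → List Bool) = id := rfl
  rw [h1, h2, List.map_id]

theorem isFP_filt {A : Oracle} {g : List Bool → List Bool} (hg : IsFP A g)
    {P : List Bool → List (List Bool)} (hP : Poly P)
    {φ : List Bool × List (List Bool) → List Bool} (hφ : Poly φ) :
    IsFP A (fun x => φ (x, (P x).filter (fun z => decide (g z = [true])))) := by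
  obtain ⟨q, hq⟩ := hP.sz_le
  have h1 := IsFP.votes hg (q.comp (Polynomial.C 4 * Polynomial.X + Polynomial.C 1))
    (Q := fun _ => []) (NPC.Poly.const [])
    (W := fun p => (P p.1.2).getD p.1.1 []) (Poly.getD (hP.comp (Poly.snd (Poly.fst Poly.id)))
      (Poly.fst (Poly.fst Poly.id)) (NPC.Poly.const []))
    (H := fun p => φ (p.1, (((P p.1).zip p.2).filter (fun q => q.2)).map Prod.fst))
    (hφ.comp (Poly.pair (Poly.fst Poly.id) (NPC.Poly.map
      (F := fun (_ : List Bool × List Bool) (q : List Bool × Bool) => q.1)
      (Poly.filter (p := fun (_ : List Bool × List Bool) (q : List Bool × Bool) => q.2)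
        (Poly.zip (hP.comp (Poly.fst Poly.id)) (Poly.snd Poly.id)) (Poly.snd (Poly.snd Poly.id)))
      (Poly.fst (Poly.snd Poly.id)))))
  refine (congrArg (IsFP A) (funext fun x => ?_)).mp h1
  have h2 := length_lt_sz (P x)
  have h3 : (P x).length + 1 ≤
      (q.comp (Polynomial.C 4 * Polynomial.X + Polynomial.C 1)).eval x.length :=
    A2.sz_eval_le (h2.trans_le (hq x))
  have h4 := filter_zip (fun z => decide (g z = [true])) (P x)
    ((q.comp (Polynomial.C 4 * Polynomial.X + Polynomial.C 1)).eval x.length) (by omega)
  exact congrArg (fun r => φ (x, r)) h4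

/-! ### witnesses with a mark at the end -/

/-- removing the mark at the end -/
def stp (w : List Bool) : List Bool := w.take (lasti w)

theorem stp_mark (w : List Bool) (k : ℕ) : stp (w ++ true :: List.replicate k false) = w := by
  have h : lasti (w ++ true :: List.replicate k false) = w.length := by
    apply lasti_eq
    · simp
    · intro i hi
      obtain ⟨j, rfl⟩ : ∃ j, i = w.length + (j + 1) := ⟨i - w.length - 1, by omega⟩
      rw [List.getD_append_right _ _ _ _ (by omega)]
      have h1 : w.length + (j + 1) - w.length = j + 1 := by omega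
      rw [h1, List.getD_cons_succ]
      by_cases h2 : j < k
      · rw [List.getD_eq_getElem _ _ (by simpa using h2)]
        simp
      · rw [List.getD_eq_default]
        rw [List.length_replicate]
        omega
  unfold stp
  rw [h, List.take_left]

theorem lasti_lt (w : List Bool) : lasti w ≤ w.length - 1 := by
  unfold lasti
  cases h : ((List.range w.length).filter (fun i => w.getD i false)).reverse.head? with
  | none => simp
  | some m =>
    have h1 := List.mem_of_mem_head? h
    rw [List.mem_reverse, List.mem_filter, List.mem_range] at h1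
    have h2 := h1.1
    show m ≤ w.length - 1
    omega

theorem stp_length (w : List Bool) : (stp w).length ≤ w.length - 1 := by
  unfold stp
  rw [List.length_take]
  have := lasti_lt w
  omega

theorem poly_stp : Poly stp :=
  R1.poly_take Poly.id (UPoly.of_le poly_lasti (UPoly.length Poly.id) lasti_le)

/-- `a` can be extended to a witness -/
def Ext (V : List Bool → List Bool) (p : Polynomial ℕ) (x a : List Bool) : Prop :=
  ∃ w : List Bool, (a ++ w).length = p.eval x.length + 1 ∧
    V (pairBits (stp (a ++ w)) x) = [true]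

theorem ext_nil {V : List Bool → List Bool} {p : Polynomial ℕ} {x : List Bool} :
    Ext V p x [] ↔ ∃ w : List Bool, w.length ≤ p.eval x.length ∧ V (pairBits w x) = [true] := by
  constructor
  · rintro ⟨w, h1, h2⟩
    rw [List.nil_append] at h1 h2
    refine ⟨stp w, ?_, h2⟩
    have := stp_length w
    omega
  · rintro ⟨w, h1, h2⟩
    refine ⟨w ++ true :: List.replicate (p.eval x.length - w.length) false, ?_, ?_⟩
    · rw [List.nil_append, List.length_append, List.length_cons, List.length_replicate]
      omega
    · rw [List.nil_append, stp_mark]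
      exact h2

theorem ext_full {V : List Bool → List Bool} {p : Polynomial ℕ} {x a : List Bool}
    (h : a.length = p.eval x.length + 1) : Ext V p x a ↔ V (pairBits (stp a) x) = [true] := by
  constructor
  · rintro ⟨w, h1, h2⟩
    rw [List.length_append] at h1
    have h3 : w = [] := List.eq_nil_of_length_eq_zero (by omega)
    rw [h3, List.append_nil] at h2
    exact h2
  · intro h1
    exact ⟨[], by rw [List.append_nil]; exact h, by rw [List.append_nil]; exact h1⟩

theorem ext_step {V : List Bool → List Bool} {p : Polynomial ℕ} {x a : List Bool}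
    (h : a.length < p.eval x.length + 1) (he : Ext V p x a) : ∃ b, Ext V p x (a ++ [b]) := by
  obtain ⟨w, h1, h2⟩ := he
  cases w with
  | nil =>
    rw [List.append_nil] at h1
    omega
  | cons b w =>
    refine ⟨b, w, ?_, ?_⟩
    · rw [List.append_assoc]
      exact h1
    · rw [List.append_assoc]
      exact h2

/-- the language of the partial witnesses is in `NP` -/
theorem isNP_ext {A : Oracle} {V : List Bool → List Bool} (hV : IsFP A V) (p : Polynomial ℕ) :
    IsNP A {z | Ext V p (unpair z).2 (unpair z).1} := by
  have hz : Poly (fun y : List Bool => (unpair y).2) := Poly.snd poly_unpair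
  have ha : Poly (fun y : List Bool => (unpair (unpair y).2).1 ++ (unpair y).1) :=
    Poly.append (Poly.fst (poly_unpair.comp hz)) (Poly.fst poly_unpair)
  have hx : Poly (fun y : List Bool => (unpair (unpair y).2).2) := Poly.snd (poly_unpair.comp hz)
  have h1 := IsFP.seq (IsFP.of_poly (A := A) (F := fun x => x) Poly.id) hV
    (φ := fun q => pairBits (stp ((unpair (unpair q.1).2).1 ++ (unpair q.1).1))
      (unpair (unpair q.1).2).2)
    (ψ := fun q => if ((unpair (unpair q.1).2).1 ++ (unpair q.1).1).length =
      p.eval (unpair (unpair q.1).2).2.length + 1 then q.2.2 else [])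
    (poly_pairBits (poly_stp.comp (ha.comp (Poly.fst Poly.id))) (hx.comp (Poly.fst Poly.id)))
    (Poly.ite (Poly.decide_eq (Poly.length (ha.comp (Poly.fst Poly.id)))
      (Poly.add ((UPoly.length (hx.comp (Poly.fst Poly.id))).eval p).toPoly
        (NPC.Poly.const 1))) (Poly.snd (Poly.snd Poly.id)) (NPC.Poly.const []))
  refine ⟨_, p + 1, h1, fun z => ?_⟩
  show Ext V p (unpair z).2 (unpair z).1 ↔ _
  have h2 := eval_mono p (unpair_snd_len z)
  simp only [unpair_pairBits]
  constructor
  · rintro ⟨w, h3, h4⟩
    refine ⟨w, ?_, ?_⟩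
    · rw [List.length_append] at h3
      rw [Polynomial.eval_add, Polynomial.eval_one]
      omega
    · rw [if_pos h3]
      exact h4
  · rintro ⟨w, -, h3⟩
    split_ifs at h3 with h4
    exact ⟨w, h4, h3⟩

/-! ### one level -/

/-- the children -/
def kids (F : List (List Bool)) : List (List Bool) :=
  F.flatMap (fun a => [a ++ [false], a ++ [true]])

/-- all pairs of a child and a candidate -/
def qs (U : List (List Bool)) (x : List Bool) (C : List (List Bool)) : List (List Bool) :=
  C.flatMap (fun a => U.map (fun u => pairBits (pairBits a x) u))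

/-- choose one for each candidate -/
def pick (U R : List (List Bool)) : List (List Bool) :=
  U.flatMap (fun u => ((R.filter (fun z => decide ((unpair z).2 = u))).take 1).map
    (fun z => (unpair (unpair z).1).1))

/-- the test -/
def eqt (f : List Bool → List Bool) (z : List Bool) : List Bool :=
  [decide (f (unpair z).1 = (unpair z).2)]

/-- the next level -/
def nxt (f : List Bool → List Bool) (U : List (List Bool)) (x : List Bool)
    (F : List (List Bool)) : List (List Bool) :=
  pick U ((qs U x (kids F)).filter (fun z => decide (eqt f z = [true])))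

theorem mem_kids {F : List (List Bool)} {c : List Bool} :
    c ∈ kids F ↔ ∃ a ∈ F, ∃ b, c = a ++ [b] := by
  unfold kids
  rw [List.mem_flatMap]
  constructor
  · rintro ⟨a, ha, hc⟩
    simp only [List.mem_cons, List.not_mem_nil, or_false] at hc
    rcases hc with rfl | rfl
    · exact ⟨a, ha, _, rfl⟩
    · exact ⟨a, ha, _, rfl⟩
  · rintro ⟨a, ha, b, rfl⟩
    refine ⟨a, ha, ?_⟩
    cases b <;> simp

theorem mem_filt {f : List Bool → List Bool} {U : List (List Bool)} {x : List Bool}
    {C : List (List Bool)} {z : List Bool} :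
    z ∈ (qs U x C).filter (fun z => decide (eqt f z = [true])) ↔
      ∃ a ∈ C, f (pairBits a x) ∈ U ∧ z = pairBits (pairBits a x) (f (pairBits a x)) := by
  unfold qs eqt
  rw [List.mem_filter, List.mem_flatMap]
  simp only [List.mem_map, List.cons.injEq, and_true, decide_eq_true_eq]
  constructor
  · rintro ⟨⟨a, ha, u, hu, rfl⟩, h⟩
    simp only [unpair_pairBits] at h
    subst h
    exact ⟨a, ha, hu, rfl⟩
  · rintro ⟨a, ha, hu, rfl⟩
    exact ⟨⟨a, ha, _, hu, rfl⟩, by rw [unpair_pairBits]⟩

theorem mem_pick {U R : List (List Bool)} {c : List Bool} (h : c ∈ pick U R) :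
    ∃ z ∈ R, c = (unpair (unpair z).1).1 := by
  unfold pick at h
  rw [List.mem_flatMap] at h
  obtain ⟨u, -, h⟩ := h
  rw [List.mem_map] at h
  obtain ⟨z, hz, rfl⟩ := h
  exact ⟨z, List.mem_of_mem_filter (List.mem_of_mem_take hz), rfl⟩

theorem pick_cover {U R : List (List Bool)} {z : List Bool} (hz : z ∈ R) (hu : (unpair z).2 ∈ U) :
    ∃ z' ∈ R, (unpair z').2 = (unpair z).2 ∧ (unpair (unpair z').1).1 ∈ pick U R := by
  obtain ⟨F, hF⟩ : ∃ F, F = R.filter (fun z' => decide ((unpair z').2 = (unpair z).2)) := ⟨_, rfl⟩
  have h1 : z ∈ F := by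
    rw [hF, List.mem_filter]
    exact ⟨hz, by simp⟩
  obtain ⟨z', t, ht⟩ : ∃ z' t, F = z' :: t := by
    cases F with
    | nil => simp at h1
    | cons z' t => exact ⟨z', t, rfl⟩
  have h2 : z' ∈ R ∧ (unpair z').2 = (unpair z).2 := by
    have h3 : z' ∈ F := by rw [ht]; simp
    rw [hF, List.mem_filter] at h3
    exact ⟨h3.1, by simpa using h3.2⟩
  refine ⟨z', h2.1, h2.2, ?_⟩
  unfold pick
  rw [List.mem_flatMap]
  refine ⟨(unpair z).2, hu, ?_⟩
  rw [← hF, ht]
  simp

theorem pick_length (U R : List (List Bool)) : (pick U R).length ≤ U.length := by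
  unfold pick
  rw [List.length_flatMap]
  have h1 : ∀ n ∈ U.map (fun u => (((R.filter (fun z => decide ((unpair z).2 = u))).take 1).map
      (fun z => (unpair (unpair z).1).1)).length), n ≤ 1 := by
    intro n hn
    rw [List.mem_map] at hn
    obtain ⟨u, -, rfl⟩ := hn
    rw [List.length_map, List.length_take]
    exact min_le_left _ _
  have h2 := List.sum_le_card_nsmul _ 1 h1
  rw [List.length_map, smul_eq_mul, mul_one] at h2
  exact h2

theorem mem_nxt {f : List Bool → List Bool} {U : List (List Bool)} {x : List Bool}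
    {F : List (List Bool)} {c : List Bool} (h : c ∈ nxt f U x F) :
    ∃ a ∈ F, ∃ b, c = a ++ [b] := by
  obtain ⟨z, hz, rfl⟩ := mem_pick h
  obtain ⟨a, ha, -, rfl⟩ := mem_filt.1 hz
  rw [unpair_pairBits, unpair_pairBits]
  exact mem_kids.1 ha

theorem nxt_cover {f : List Bool → List Bool} {U : List (List Bool)} {x : List Bool}
    {F : List (List Bool)} {a : List Bool} (ha : a ∈ F) (b : Bool)
    (hu : f (pairBits (a ++ [b]) x) ∈ U) :
    ∃ c ∈ nxt f U x F, f (pairBits c x) = f (pairBits (a ++ [b]) x) := by
  have h1 : pairBits (pairBits (a ++ [b]) x) (f (pairBits (a ++ [b]) x)) ∈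
      (qs U x (kids F)).filter (fun z => decide (eqt f z = [true])) :=
    mem_filt.2 ⟨a ++ [b], mem_kids.2 ⟨a, ha, b, rfl⟩, hu, rfl⟩
  obtain ⟨z', h2, h3, h4⟩ := pick_cover h1 (by rw [unpair_pairBits]; exact hu)
  obtain ⟨c, -, -, rfl⟩ := mem_filt.1 h2
  rw [unpair_pairBits, unpair_pairBits] at h3
  rw [unpair_pairBits, unpair_pairBits] at h4
  exact ⟨c, h4, h3⟩

/-- the levels -/
def fr (f : List Bool → List Bool) (U : List (List Bool)) (x : List Bool) (i : ℕ) :
    List (List Bool) := (nxt f U x)^[i] [[]]

theorem fr_succ (f : List Bool → List Bool) (U : List (List Bool)) (x : List Bool) (i : ℕ) :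
    fr f U x (i + 1) = nxt f U x (fr f U x i) := by
  unfold fr
  rw [Function.iterate_succ_apply']

theorem fr_len {f : List Bool → List Bool} {U : List (List Bool)} {x : List Bool} :
    ∀ {i : ℕ} {a : List Bool}, a ∈ fr f U x i → a.length = i
  | 0, a, h => by
    have h1 : a ∈ [([] : List Bool)] := h
    rw [List.mem_singleton] at h1
    rw [h1]
    rfl
  | i + 1, a, h => by
    rw [fr_succ] at h
    obtain ⟨c, hc, b, rfl⟩ := mem_nxt h
    rw [List.length_append, fr_len hc]
    rfl

theorem fr_card (f : List Bool → List Bool) (U : List (List Bool)) (x : List Bool) :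
    ∀ i, (fr f U x i).length ≤ U.length + 1
  | 0 => by
    show ([[]] : List (List Bool)).length ≤ _
    simp
  | i + 1 => by
    rw [fr_succ]
    exact (pick_length _ _).trans (Nat.le_succ _)

theorem fr_inv {V f : List Bool → List Bool} {p : Polynomial ℕ} {S : List Bool → Bool}
    {U : List (List Bool)} {x : List Bool}
    (hf : ∀ z, Ext V p (unpair z).2 (unpair z).1 ↔ S (f z) = true)
    (hU : ∀ a : List Bool, a.length ≤ p.eval x.length + 1 → S (f (pairBits a x)) = true →
      f (pairBits a x) ∈ U) (h0 : Ext V p x []) :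
    ∀ i ≤ p.eval x.length + 1, ∃ a ∈ fr f U x i, Ext V p x a := by
  have hf' : ∀ a, Ext V p x a ↔ S (f (pairBits a x)) = true := fun a => by
    have := hf (pairBits a x)
    rwa [unpair_pairBits] at this
  intro i
  induction i with
  | zero => exact fun _ => ⟨[], by show [] ∈ [([] : List Bool)]; simp, h0⟩
  | succ i ih =>
    intro hi
    obtain ⟨a, ha, he⟩ := ih (by omega)
    have h1 := fr_len ha
    obtain ⟨b, hb⟩ := ext_step (by omega) he
    have h2 := (hf' _).1 hb
    obtain ⟨c, hc, hcf⟩ := nxt_cover ha b (hU _ (by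
      rw [List.length_append, h1]
      exact hi) h2)
    refine ⟨c, by rw [fr_succ]; exact hc, (hf' c).2 ?_⟩
    rw [hcf]
    exact h2

end Pool.Agent.TH654.RB
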