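import Pool.Agent.TH654.RB.CE7
import Pool.Agent.TH654.RB.SP3

/-!
# Many changes: an optimization problem that is not computed
-/

set_option autoImplicit false

namespace Pool.Agent.TH654.RB

open Pool.Agent.NPC Pool.Agent.H620R2.Gauge Pool.Agent.H622R2 Finset
open Pool.Agent.H591R3.PHG (IsSig)
open Pool.Agent.TH678.EL (Promised SingleLine Solves zero)
open Pool.Agent.H591R3.CEX (num Counter Optimal Legal Adversary CAlg Computes Type1 OptProblem)
open Pool.Agent.H591R3.CEX.Upper (num_str str_num length_le poly_num)

open Classical in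
theorem isFP_solves {A : Oracle} {S P W : List Bool → List Bool} (hS : IsFP A S) (hP : IsFP A P)
    (hW : IsFP A W) :
    IsFP A (fun s => [decide (Solves S P (unpair s).2.length (unpair s).2 (W s))]) := by
  have hI : IsFP A (fun s => (unpair s).2) := IsFP.of_poly (Poly.snd poly_unpair)
  have t1 : IsFP A (fun s => S (pairBits (W s) (unpair s).2)) := IsFP.comp hS (IsFP.pair hW hI)
  have t2 : IsFP A (fun s => P (pairBits (S (pairBits (W s) (unpair s).2)) (unpair s).2)) :=
    IsFP.comp hP (IsFP.pair t1 hI)
  have t3 : IsFP A (fun s => P (pairBits (W s) (unpair s).2)) := IsFP.comp hP (IsFP.pair hW hI)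
  have t4 : IsFP A (fun s => S (pairBits (P (pairBits (W s) (unpair s).2)) (unpair s).2)) :=
    IsFP.comp hS (IsFP.pair t3 hI)
  have h1 := IsFP.pair hI (IsFP.pair hW (IsFP.pair t2 t4))
  have g0 : Poly (fun w : List Bool => (unpair w).1) := Poly.fst poly_unpair
  have r1 : Poly (fun w : List Bool => (unpair w).2) := Poly.snd poly_unpair
  have g1 : Poly (fun w : List Bool => (unpair (unpair w).2).1) := g0.comp r1
  have r2 : Poly (fun w : List Bool => (unpair (unpair w).2).2) := r1.comp r1
  have g2 : Poly (fun w : List Bool => (unpair (unpair (unpair w).2).2).1) := g0.comp r2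
  have g3 : Poly (fun w : List Bool => (unpair (unpair (unpair w).2).2).2) := r1.comp r2
  have h2 := IsFP.comp (IsFP.of_poly (A := A) (F := fun w =>
    [decide ((unpair (unpair w).2).1.length = (unpair w).1.length) &&
      (!(decide ((unpair (unpair (unpair w).2).2).1 = (unpair (unpair w).2).1)) ||
        (!(decide ((unpair (unpair w).2).1 = zero (unpair w).1.length)) &&
          !(decide ((unpair (unpair (unpair w).2).2).2 = (unpair (unpair w).2).1))))])
    (Poly.cons (Poly.and (Poly.decide_eq (Poly.length g1) (Poly.length g0))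
      (Poly.or (Poly.not (Poly.decide_eq g2 g1))
        (Poly.and (Poly.not (Poly.decide_eq g1 (TH678.EL.poly_rep (UPoly.length g0) false)))
          (Poly.not (Poly.decide_eq g3 g1))))) (NPC.Poly.const []))) h1
  refine (congrArg (IsFP A) (funext fun s => ?_)).mp h2
  simp only [unpair_pairBits]
  congr 1
  rw [Bool.eq_iff_iff]
  unfold Solves
  simp

/-- the candidates for the instance with the length of the position -/
def cands (y : List Bool) : List (List Bool) :=
  (List.range ((unpair y).1.length + 1)).map
    (fun m => pairBits (ones (min m (unpair y).1.length)) (unpair y).1)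

theorem poly_cands : Poly cands := by
  have g0 : Poly (fun w : List Bool => (unpair w).1) := Poly.fst poly_unpair
  have hl : UPoly (fun p : List Bool × ℕ => (unpair p.1).1.length) :=
    UPoly.length (g0.comp (Poly.fst Poly.id))
  unfold cands
  refine NPC.Poly.map (F := fun (y : List Bool) (m : ℕ) =>
    pairBits (ones (min m (unpair y).1.length)) (unpair y).1)
    (UPoly.add (UPoly.length g0) (UPoly.const 1)).range ?_
  exact poly_pairBits (TH678.EL.poly_rep (UPoly.of_le (Poly.min (Poly.snd Poly.id) hl.toPoly) hl
    (fun p => min_le_right _ _)) true) (g0.comp (Poly.fst Poly.id))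

open Classical in
/-- **Metered lines give an optimization problem that is not computed.** -/
theorem not_type1 {A : Oracle} {S P : List Bool → List Bool} (hS : IsFP A S) (hP : IsFP A P)
    (h : ∀ (f : List Bool → List Bool) (a : ℕ → List Bool) (p : Polynomial ℕ), IsFP A f →
      (∀ n, (a n).length ≤ p.eval n) → ∃ x : List Bool, Promised S P x.length x ∧
        SingleLine S P x.length x ∧ ¬ Solves S P x.length x (f (pairBits x (a x.length)))) :
    ¬ Type1 A 0 := by
  intro hT
  obtain ⟨M, B, hB, hcomp⟩ := hT _ _ (optL hS hP)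
  have hB' : IsP A {q | B q = true} := by
    obtain ⟨V, p, hV, hL⟩ := hB
    exact ⟨V, hV, fun x => hL x⟩
  obtain ⟨F, hF⟩ : ∃ F : List Bool → List Bool, F = fun x => fin1 M.D
    ((stp1 M.D B (ansL S P))^[M.p.eval x.length] (pairBits x [])) := ⟨_, rfl⟩
  have hFP : IsFP A F := by
    rw [hF]
    exact isFP_fin1 hB' (isFP_ansL hS hP) (ansL_length S P)
  obtain ⟨W, hW⟩ : ∃ W : List Bool → List Bool, W = fun s => (unpair (F (true :: s))).2 :=
    ⟨_, rfl⟩
  have hWP : IsFP A W := by
    rw [hW]
    exact IsFP.comp (IsFP.of_poly (Poly.snd poly_unpair)) (IsFP.comp hFP (IsFP.of_poly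
      (Poly.cons (NPC.Poly.const true) Poly.id)))
  have h1 := isFP_filt (isFP_solves hS hP hWP) poly_cands
    (φ := fun p => p.2.head?.getD []) (Poly.head?_getD (Poly.snd Poly.id) [])
  have h2 := IsFP.comp hWP h1
  obtain ⟨x, -, ⟨L, m, v, a1, a2, a3, a4, a5, a6, a7, a8⟩, hn⟩ := h _ (fun _ => []) 0 h2
    (fun _ => by simp)
  have hl : Ln S P x L m v := ⟨a1, a2, a3, fun i hi => (a4 i hi).1, fun i hi => (a4 i hi).2,
    a5, a6, a7, a8⟩
  apply hn
  -- the right candidate is good
  have h3 : Solves S P x.length x (W (pairBits (ones m) x)) := by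
    obtain ⟨y, h4, h5⟩ := hcomp (num (un1 m x)) _ hl.legal
    rw [str_num] at h4
    have h6 : F (un1 m x) = str y := by
      rw [hF]
      exact sim (adv := fun _ y => advL S P (un1 m x) (str y)) (fun a w => by
        rw [ansL_eq]
        simp only [str_num]
        cases advL S P (un1 m x) w <;> rfl) _ _ _ h4
    have h7 : W (pairBits (ones m) x) = (unpair (str y)).2 := by
      rw [hW]
      show (unpair (F (un1 m x))).2 = _
      rw [h6]
    rw [h7]
    exact hl.solved h5
  obtain ⟨R, hR⟩ : ∃ R, R = (cands (pairBits x [])).filter (fun z => decide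
    ([decide (Solves S P (unpair z).2.length (unpair z).2 (W z))] = [true])) := ⟨_, rfl⟩
  show Solves S P x.length x (W (((cands (pairBits x [])).filter (fun z => decide
    ([decide (Solves S P (unpair z).2.length (unpair z).2 (W z))] = [true]))).head?.getD []))
  rw [← hR]
  have h4 : pairBits (ones m) x ∈ R := by
    rw [hR, List.mem_filter]
    constructor
    · unfold cands
      rw [unpair_pairBits]
      dsimp only
      exact List.mem_map.2 ⟨m, List.mem_range.2 (by have := hl.m_le; omega), by
        rw [min_eq_left hl.m_le]⟩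
    · rw [unpair_pairBits]
      simpa using h3
  rcases hc : R with _ | ⟨s, t⟩
  · rw [hc] at h4
    exact absurd h4 (by simp)
  · have h5 : s ∈ R := by rw [hc]; exact List.mem_cons_self
    rw [hR, List.mem_filter] at h5
    obtain ⟨h5, h6⟩ := h5
    unfold cands at h5
    rw [unpair_pairBits] at h5
    obtain ⟨k, -, rfl⟩ := List.mem_map.1 h5
    rw [unpair_pairBits] at h6
    simpa using h6

end Pool.Agent.TH654.RB
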