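import Pool.Agent.TH654.RB.Tasks
import Pool.Agent.H620R2.GaugeQ.Q2
import Pool.Agent.H620R2.Gauge.Blk

/-!
# Functions of the oracle which change only if they look

(The hybrid argument for quantum circuits.)
-/

set_option autoImplicit false

namespace Pool.Agent.TH654.RB

open Pool.Agent.NPC Pool.Agent.H620R2.Gauge Pool.Agent.H622R2 Finset Filter
open Pool.Agent.W900.CH (finite_short)

/-- a family of probabilities depending on the oracle; `M A x y` is the weight of the questions
about the string `y` -/
structure HTask : Type where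
  b : Polynomial ℕ
  p : Oracle → List Bool → ℝ
  M : Oracle → List Bool → List Bool → ℝ
  loc : ∀ (A A' : Oracle) (x : List Bool),
    (∀ y : List Bool, y.length ≤ b.eval x.length → A y = A' y) → p A x = p A' x ∧ M A x = M A' x
  nonneg : ∀ (A : Oracle) (x y : List Bool), 0 ≤ M A x y
  sum : ∀ (A : Oracle) (x : List Bool) (S : Finset (List Bool)),
    ∑ y ∈ S, M A x y ≤ b.eval x.length
  hyb : ∀ (A A' : Oracle) (x : List Bool) (D : Finset (List Bool)),
    (∀ y : List Bool, y.length ≤ b.eval x.length → A y ≠ A' y → y ∈ D) →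
    |p A x - p A' x| ≤ 4 * Real.sqrt (b.eval x.length * ∑ y ∈ D, M A x y)

/-- the number of strings of length at most `B` -/
def NN (B : ℕ) : ℕ := 2 ^ (B + 1) - 1

theorem idx_lt_NN {B : ℕ} {y : List Bool} : idx y < NN B ↔ y.length ≤ B := by
  have h1 := idx_lt y
  have h2 := le_idx y
  unfold NN
  constructor
  · intro h
    by_contra h3
    have h4 : 2 ^ (B + 1) ≤ 2 ^ y.length := Nat.pow_le_pow_right (by norm_num) (by omega)
    omega
  · intro h
    have h4 : 2 ^ (y.length + 1) ≤ 2 ^ (B + 1) := Nat.pow_le_pow_right (by norm_num) (by omega)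
    omega

theorem str_len_NN {B i : ℕ} (h : i < NN B) : (str i).length ≤ B := by
  rw [← idx_lt_NN, idx_str]
  exact h

theorem pre_congr {B : ℕ} {A A' : Oracle} (h : ∀ y : List Bool, y.length ≤ B → A y = A' y) :
    pre (NN B) A = pre (NN B) A' := by
  funext i
  exact h _ (str_len_NN i.2)

/-- extension by zero -/
noncomputable def ext0 {N : ℕ} (f : Fin N → ℝ) (i : ℕ) : ℝ := if h : i < N then f ⟨i, h⟩ else 0

theorem ext0_nonneg {N : ℕ} {f : Fin N → ℝ} (hf : ∀ e, 0 ≤ f e) (i : ℕ) : 0 ≤ ext0 f i := by
  unfold ext0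
  split_ifs
  · exact hf _
  · exact le_rfl

theorem sum_ext0 {N : ℕ} (f : Fin N → ℝ) : ∑ i ∈ range N, ext0 f i = ∑ e, f e := by
  rw [Finset.sum_range]
  refine sum_congr rfl fun e _ => ?_
  unfold ext0
  rw [dif_pos e.2]

theorem idx_injective : Function.Injective idx := Function.LeftInverse.injective str_idx

theorem sum_idx (S : Finset (List Bool)) (f : ℕ → ℝ) :
    ∑ y ∈ S, f (idx y) = ∑ i ∈ S.image idx, f i := by
  rw [sum_image]
  intro a _ b _ h
  exact idx_injective h

/-- the task of a family of quantum circuits -/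
noncomputable def circH (C : List Bool → List Unit × List Gate)
    (hC : PolyTime (fun x => bits (C x))) : HTask where
  b := (circ_bound hC).choose
  p := fun A x => accProb A (C x)
  M := fun A x y => ext0 ((hyb_circuit (NN ((circ_bound hC).choose.eval x.length)) (C x)).choose
    (pre (NN ((circ_bound hC).choose.eval x.length)) A)) (idx y)
  loc := by
    intro A A' x h
    constructor
    · exact accProb_local (N := 0) fun q k hq y hy => h y (by
        have := ((circ_bound hC).choose_spec x).2 q k hq
        omega)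
    · funext y
      rw [pre_congr h]
  nonneg := fun A x y => ext0_nonneg
    (fun e => (hyb_circuit (NN ((circ_bound hC).choose.eval x.length)) (C x)).choose_spec.1 _ e) _
  sum := by
    intro A x S
    obtain ⟨B, hB⟩ : ∃ B, B = (circ_bound hC).choose.eval x.length := ⟨_, rfl⟩
    have h1 := (hyb_circuit (NN B) (C x)).choose_spec
    have h2 := h1.2.1 (pre (NN B) A)
    have h3 := ((circ_bound hC).choose_spec x).1
    rw [← hB] at h3 ⊢
    rw [sum_idx S (fun i => ext0 ((hyb_circuit (NN B) (C x)).choose (pre (NN B) A)) i)]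
    have h4 : ∑ i ∈ S.image idx, ext0 ((hyb_circuit (NN B) (C x)).choose (pre (NN B) A)) i ≤
        ∑ i ∈ range (NN B), ext0 ((hyb_circuit (NN B) (C x)).choose (pre (NN B) A)) i := by
      rw [← sum_filter_add_sum_filter_not (S.image idx) (fun i => i < NN B)]
      have h5 : ∑ i ∈ (S.image idx).filter (fun i => ¬ i < NN B),
          ext0 ((hyb_circuit (NN B) (C x)).choose (pre (NN B) A)) i = 0 := by
        refine sum_eq_zero fun i hi => ?_
        unfold ext0
        rw [dif_neg (mem_filter.1 hi).2]
      rw [h5, add_zero]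
      refine sum_le_sum_of_subset_of_nonneg ?_ (fun i _ _ => ext0_nonneg (h1.1 _) i)
      intro i hi
      exact mem_range.2 (mem_filter.1 hi).2
    refine h4.trans ?_
    rw [sum_ext0]
    refine h2.trans ?_
    exact_mod_cast h3
  hyb := by
    intro A A' x D hD
    obtain ⟨B, hB⟩ : ∃ B, B = (circ_bound hC).choose.eval x.length := ⟨_, rfl⟩
    rw [← hB] at hD ⊢
    have h1 := (hyb_circuit (NN B) (C x)).choose_spec
    have h2 := h1.2.2 (pre (NN B) A) (pre (NN B) A')
    have h3 := ((circ_bound hC).choose_spec x).1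
    have e1 : ∀ A : Oracle, accProb (orc (NN B) (pre (NN B) A)) (C x) = accProb A (C x) := by
      intro A
      refine accProb_local (N := 0) fun q k hq y hy => ?_
      apply orc_pre
      rw [idx_lt_NN]
      have := ((circ_bound hC).choose_spec x).2 q k hq
      omega
    simp only [e1] at h2
    refine h2.trans ?_
    apply mul_le_mul_of_nonneg_left _ (by norm_num)
    apply Real.sqrt_le_sqrt
    set w := (hyb_circuit (NN B) (C x)).choose (pre (NN B) A) with hw
    have hw0 : ∀ i, 0 ≤ ext0 w i := ext0_nonneg (h1.1 _)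
    have h4 : (∑ e : Fin (NN B), if pre (NN B) A e = pre (NN B) A' e then 0 else w e) ≤
        ∑ y ∈ D, ext0 w (idx y) := by
      rw [sum_idx D (fun i => ext0 w i)]
      have h5 : (∑ e : Fin (NN B), if pre (NN B) A e = pre (NN B) A' e then 0 else w e) =
          ∑ i ∈ range (NN B), if A (str i) = A' (str i) then 0 else ext0 w i := by
        rw [Finset.sum_range]
        refine sum_congr rfl fun e _ => ?_
        unfold ext0
        rw [dif_pos e.2]
        rfl
      rw [h5]
      have h6 : ∑ i ∈ range (NN B), (if A (str i) = A' (str i) then 0 else ext0 w i) =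
          ∑ i ∈ (range (NN B)).filter (fun i => ¬ A (str i) = A' (str i)), ext0 w i := by
        rw [sum_filter]
        refine sum_congr rfl fun i _ => ?_
        by_cases h : A (str i) = A' (str i) <;> simp [h]
      rw [h6]
      refine sum_le_sum_of_subset_of_nonneg ?_ (fun i _ _ => hw0 i)
      intro i hi
      rw [mem_filter, mem_range] at hi
      exact mem_image.2 ⟨str i, hD _ (str_len_NN hi.1) hi.2, idx_str i⟩
    have h5 : (0 : ℝ) ≤ ∑ y ∈ D, ext0 w (idx y) := sum_nonneg fun y _ => hw0 _
    have h6 : ((C x).2.length : ℝ) ≤ B := by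
      rw [hB]
      exact_mod_cast h3
    calc ((C x).2.length : ℝ) * _ ≤ ((C x).2.length : ℝ) * ∑ y ∈ D, ext0 w (idx y) :=
          mul_le_mul_of_nonneg_left h4 (Nat.cast_nonneg _)
      _ ≤ (B : ℝ) * ∑ y ∈ D, ext0 w (idx y) := mul_le_mul_of_nonneg_right h6 h5

/-! ### heavy strings -/

open Classical in
/-- the strings whose weight is at least `1 / s` -/
noncomputable def heavy (η : HTask) (A : Oracle) (x : List Bool) (s : ℕ) : Finset (List Bool) :=
  (finite_short (η.b.eval x.length)).toFinset.filter (fun y => 1 ≤ s * η.M A x y)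

theorem mem_heavy {η : HTask} {A : Oracle} {x : List Bool} {s : ℕ} {y : List Bool} :
    y ∈ heavy η A x s ↔ y.length ≤ η.b.eval x.length ∧ 1 ≤ s * η.M A x y := by
  unfold heavy
  rw [mem_filter, Set.Finite.mem_toFinset]
  rfl

theorem card_heavy (η : HTask) (A : Oracle) (x : List Bool) (s : ℕ) :
    (heavy η A x s).card ≤ s * η.b.eval x.length := by
  have h1 : ((heavy η A x s).card : ℝ) ≤ s * η.b.eval x.length := by
    calc ((heavy η A x s).card : ℝ) = ∑ y ∈ heavy η A x s, (1 : ℝ) := by simp
      _ ≤ ∑ y ∈ heavy η A x s, s * η.M A x y := sum_le_sum fun y hy => (mem_heavy.1 hy).2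
      _ = s * ∑ y ∈ heavy η A x s, η.M A x y := by rw [mul_sum]
      _ ≤ s * η.b.eval x.length := mul_le_mul_of_nonneg_left (η.sum A x _) (Nat.cast_nonneg _)
  exact_mod_cast h1

theorem heavy_congr {η : HTask} {A A' : Oracle} {x : List Bool}
    (h : ∀ y : List Bool, y.length ≤ η.b.eval x.length → A y = A' y) (s : ℕ) :
    heavy η A x s = heavy η A' x s := by
  ext y
  rw [mem_heavy, mem_heavy, (η.loc A A' x h).2]

theorem sz_heavy (η : HTask) (A : Oracle) (x : List Bool) (s : ℕ) :
    sz (heavy η A x s).toList ≤ s * η.b.eval x.length * (4 * η.b.eval x.length + 2) + 1 := by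
  have h1 := sz_le_length_mul (heavy η A x s).toList (4 * η.b.eval x.length + 1) (fun y hy => by
    have h2 := sz_listBool_le y
    have h3 := (mem_heavy.1 (mem_toList.1 hy)).1
    omega)
  rw [length_toList] at h1
  refine h1.trans ?_
  have h2 := card_heavy η A x s
  have h3 : (heavy η A x s).card * (4 * η.b.eval x.length + 1 + 1) ≤
      s * η.b.eval x.length * (4 * η.b.eval x.length + 2) := Nat.mul_le_mul h2 (by omega)
  omega

end Pool.Agent.TH654.RB
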