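import Pool.Agent.TH654.RB.HT1

/-!
# The heavy strings are computed near a suitable oracle
-/

set_option autoImplicit false

namespace Pool.Agent.TH654.RB

open Pool.Agent.NPC Pool.Agent.H620R2.Gauge Pool.Agent.H622R2 Finset Filter
open Pool.Agent.W900.CH (dist finite_short)
open Pool.Agent.TH678.PN Pool.Agent.TH678.EL
open Pool.Agent.TH678.PN.PH (d1 d1_bits poly_d1)

/-- the list of the heavy strings, for the oracle `O` corrected by a list -/
noncomputable def Hf (η : HTask) (O : Oracle) (z : List Bool) : List Bool :=
  bits (heavy η (corr (dec (unpair (unpair z).2).1) O) (unpair z).1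
    (unpair (unpair z).2).2.length).toList

theorem Hf_pair (η : HTask) (O : Oracle) (x : List Bool) (l : List (List Bool)) (s : List Bool) :
    Hf η O (pairBits x (pairBits (bits l) s)) =
      bits (heavy η (corr l O) x s.length).toList := by
  unfold Hf
  simp only [unpair_pairBits, dec_bits]

theorem unpair_snd_len (z : List Bool) : (unpair z).2.length ≤ z.length := by
  have h := ustep_iter_fst z.length ([], z, false)
  unfold unpair
  dsimp only at h ⊢
  simp only [List.length_nil] at h
  omega

/-- the bound -/
noncomputable def bh (b : Polynomial ℕ) : Polynomial ℕ :=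
  Polynomial.X * b * (Polynomial.C 4 * b + Polynomial.C 2) + 1 + b

theorem exists_code2 (τ : ℕ → Task) (η : ℕ → HTask) : ∃ O : Oracle, ∀ A : Oracle,
    (∃ d : Polynomial ℕ, ∀ m, dist O A m ≤ d.eval m) →
    (∀ e, IsFP A (Gf τ e O)) ∧ ∀ e, IsFP A (Hf (η e) O) := by
  obtain ⟨O, hO⟩ := robust (fun e => if e % 2 = 0 then bf τ (e / 2) else bh (η (e / 2)).b)
    (fun e => if e % 2 = 0 then Gf τ (e / 2) else Hf (η (e / 2))) (by
      intro e A A' z h
      by_cases he : e % 2 = 0
      · simp only [he, if_true] at h ⊢
        exact Gf_loc τ (e / 2) h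
      · simp only [he, if_false] at h ⊢
        unfold Hf
        congr 2
        apply heavy_congr
        intro y hy
        have h2 : A y = A' y := by
          apply h
          have h3 := eval_mono (η (e / 2)).b (unpair_fst_len z)
          simp only [bh, Polynomial.eval_add, Polynomial.eval_one]
          omega
        unfold corr
        rw [h2]) (by
      intro e A z
      by_cases he : e % 2 = 0
      · simp only [he, if_true]
        exact Gf_len τ (e / 2) A z
      · simp only [he, if_false]
        unfold Hf
        rw [bits_length]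
        refine (sz_heavy _ _ _ _).trans ?_
        have h1 : (unpair (unpair z).2).2.length ≤ z.length :=
          (unpair_snd_len _).trans (unpair_snd_len _)
        have h3 := eval_mono (η (e / 2)).b (unpair_fst_len z)
        have h4 : (unpair (unpair z).2).2.length * (η (e / 2)).b.eval (unpair z).1.length *
            (4 * (η (e / 2)).b.eval (unpair z).1.length + 2) ≤
            z.length * (η (e / 2)).b.eval z.length * (4 * (η (e / 2)).b.eval z.length + 2) :=
          Nat.mul_le_mul (Nat.mul_le_mul h1 h3) (by omega)
        simp only [bh, Polynomial.eval_add, Polynomial.eval_mul, Polynomial.eval_C,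
          Polynomial.eval_X, Polynomial.eval_one]
        omega)
  refine ⟨O, fun A hA => ⟨fun e => ?_, fun e => ?_⟩⟩
  · have h1 := hO A hA (2 * e)
    have h2 : 2 * e % 2 = 0 := by omega
    have h3 : 2 * e / 2 = e := by omega
    simp only [h2, h3, if_true] at h1
    exact h1
  · have h1 := hO A hA (2 * e + 1)
    have h2 : ¬ (2 * e + 1) % 2 = 0 := by omega
    have h3 : (2 * e + 1) / 2 = e := by omega
    simp only [h2, h3, if_false] at h1
    exact h1

/-- the list with the new changed strings among the heavy strings -/
noncomputable def nextl (η : HTask) (O A : Oracle) (x : List Bool) (s : ℕ)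
    (l : List (List Bool)) : List (List Bool) :=
  l ++ (heavy η (corr l O) x s).toList.filter
    (fun y => decide (A y ≠ O y) && !decide (y ∈ l))

/-- one round -/
noncomputable def rnd (η : HTask) (O A : Oracle) (σ : Polynomial ℕ) (st : List Bool) :
    List Bool :=
  bits ((d1 st).1, nextl η O A (d1 st).1 (σ.eval (d1 st).1.length) (d1 st).2)

theorem zip_ans (f : List Bool → Bool) (H : List (List Bool)) (m : ℕ) (h : H.length ≤ m) :
    H.zip ((List.range m).map (fun i => f (H.getD i []))) = H.map (fun y => (y, f y)) := by
  apply List.ext_getElem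
  · simp [h]
  · intro i h1 h2
    have h3 : i < H.length := by simpa using h2
    simp [h3]

theorem isFP_ans {O A : Oracle} (hO : IsFP A (fun z => [O z])) : IsFP A (ans O A) :=
  IsFP.votes (isFP_ne hO) Polynomial.X (Q := fun _ => []) (NPC.Poly.const [])
    (W := fun p => (cw p.1.2).getD p.1.1 []) (Poly.getD (poly_cw.comp (Poly.snd (Poly.fst Poly.id)))
      (Poly.fst (Poly.fst Poly.id)) (NPC.Poly.const [])) (H := fun p => p.2) (Poly.snd Poly.id)

/-- the new state -/
def psi2 (p : List Bool × List Bool × List Bool) : List Bool :=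
  bits ((d1 p.1).1, (d1 p.1).2 ++ (((dec p.2.1).zip p.2.2).filter
    (fun q => q.2 && !decide (q.1 ∈ (d1 p.1).2))).map Prod.fst)

theorem poly_psi2 : Poly psi2 := by
  have h1 : Poly (fun p : List Bool × List Bool × List Bool => d1 p.1) :=
    poly_d1.comp (Poly.fst Poly.id)
  have h2 : Poly (fun p : List Bool × List Bool × List Bool => (dec p.2.1).zip p.2.2) :=
    Poly.zip (poly_dec.comp (Poly.fst (Poly.snd Poly.id))) (Poly.snd (Poly.snd Poly.id))
  have h3 : Poly (fun r : (List Bool × List Bool × List Bool) × List Bool × Bool =>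
      r.2.2 && !decide (r.2.1 ∈ (d1 r.1.1).2)) :=
    Poly.and (Poly.snd (Poly.snd Poly.id)) (Poly.not ((Poly.decide_mem
      (Poly.fst (Poly.snd Poly.id)) (Poly.snd (h1.comp (Poly.fst Poly.id)))).congr
        fun _ => decide_eq_decide.2 Iff.rfl))
  have h4 := Poly.filter (p := fun (p : List Bool × List Bool × List Bool)
    (q : List Bool × Bool) => q.2 && !decide (q.1 ∈ (d1 p.1).2)) h2 h3
  have h5 := NPC.Poly.map (F := fun (_ : List Bool × List Bool × List Bool)
    (q : List Bool × Bool) => q.1) h4 (Poly.fst (Poly.snd Poly.id))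
  exact R2.poly_bits (Poly.pair (Poly.fst h1) (Poly.append (Poly.snd h1) h5))

theorem isFP_rnd {η : HTask} {O A : Oracle} (hO : IsFP A (fun z => [O z]))
    (hH : IsFP A (Hf η O)) (σ : Polynomial ℕ) : IsFP A (rnd η O A σ) := by
  have hx : Poly (fun st => (d1 st).1) := Poly.fst poly_d1
  have hl : Poly (fun st => (d1 st).2) := Poly.snd poly_d1
  have hg : Poly (fun st => pairBits (d1 st).1 (pairBits (bits (d1 st).2)
      (List.replicate (σ.eval (d1 st).1.length) true))) :=
    poly_pairBits hx (poly_pairBits (R2.poly_bits hl) (poly_rep ((UPoly.length hx).eval σ) true))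
  have h1 : IsFP A (fun st => Hf η O (pairBits (d1 st).1 (pairBits (bits (d1 st).2)
      (List.replicate (σ.eval (d1 st).1.length) true)))) := IsFP.comp hH (IsFP.of_poly hg)
  have h2 := IsFP.seq h1 (isFP_ans hO) (φ := fun p => pairBits p.2 p.1) (ψ := psi2)
    (poly_pairBits (Poly.snd Poly.id) (Poly.fst Poly.id)) poly_psi2
  refine (congrArg (IsFP A) (funext fun st => ?_)).mp h2
  simp only [Hf_pair, List.length_replicate]
  unfold psi2 rnd nextl
  simp only [dec_bits]
  congr 3
  obtain ⟨H, hH⟩ : ∃ H, H = (heavy η (corr (d1 st).2 O) (d1 st).1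
    (σ.eval (d1 st).1.length)).toList := ⟨_, rfl⟩
  rw [← hH]
  have h3 : ans O A (pairBits (bits H) st) = (List.range (pairBits (bits H) st).length).map
      (fun i => decide (A (H.getD i []) ≠ O (H.getD i []))) := by
    unfold ans
    rw [Polynomial.eval_X]
    apply List.map_congr_left
    intro i _
    have e1 : cw (pairBits (bits H) st) = H := by
      unfold cw
      rw [unpair_pairBits, dec_bits]
    rw [e1]
    simp
  rw [h3, zip_ans (fun y => decide (A y ≠ O y))]
  · rw [List.filter_map, List.map_map]
    simp only [Function.comp_def, List.map_id']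
  · have h4 := length_lt_sz H
    rw [A2.length_pairBits, bits_length]
    omega

end Pool.Agent.TH654.RB
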