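import Pool.Agent.TH654.RB.HT2

/-!
# Near a suitable oracle bounded-error quantum polynomial time is polynomial time
-/

set_option autoImplicit false

namespace Pool.Agent.TH654.RB

open Pool.Agent.NPC Pool.Agent.H620R2.Gauge Pool.Agent.H622R2 Finset Filter
open Pool.Agent.W900.CH (dist finite_short)
open Pool.Agent.TH678.PN Pool.Agent.TH678.EL
open Pool.Agent.TH678.PN.PH (d1 d1_bits poly_d1)

/-- the task to decide whether the probability is at least one half -/
noncomputable def halfTask (η : HTask) : Task where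
  b := η.b
  V := fun A x => 1 / 2 ≤ η.p A x
  loc := fun A A' x h => by rw [(η.loc A A' x h).1]

/-- the list after `i` rounds -/
noncomputable def lst (η : HTask) (O A : Oracle) (x : List Bool) (s i : ℕ) : List (List Bool) :=
  (nextl η O A x s)^[i] []

theorem lst_succ (η : HTask) (O A : Oracle) (x : List Bool) (s i : ℕ) :
    lst η O A x s (i + 1) = nextl η O A x s (lst η O A x s i) := by
  unfold lst
  rw [Function.iterate_succ_apply']

theorem mem_nextl {η : HTask} {O A : Oracle} {x : List Bool} {s : ℕ} {l : List (List Bool)}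
    {y : List Bool} : y ∈ nextl η O A x s l ↔
      y ∈ l ∨ (y ∈ heavy η (corr l O) x s ∧ A y ≠ O y ∧ y ∉ l) := by
  unfold nextl
  rw [List.mem_append, List.mem_filter, mem_toList]
  simp

theorem nextl_nodup {η : HTask} {O A : Oracle} {x : List Bool} {s : ℕ} {l : List (List Bool)}
    (h : l.Nodup) : (nextl η O A x s l).Nodup := by
  unfold nextl
  rw [List.nodup_append']
  refine ⟨h, (nodup_toList _).filter _, ?_⟩
  intro y hy hy'
  rw [List.mem_filter] at hy'
  simp [hy] at hy'

theorem lst_inv (η : HTask) (O A : Oracle) (x : List Bool) (s : ℕ) : ∀ i,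
    (lst η O A x s i).Nodup ∧ ∀ y ∈ lst η O A x s i, y ∈ Df O A (η.b.eval x.length) := by
  intro i
  induction i with
  | zero => exact ⟨List.nodup_nil, fun y hy => absurd hy (by simp [lst])⟩
  | succ i ih =>
    rw [lst_succ]
    refine ⟨nextl_nodup ih.1, fun y hy => ?_⟩
    rcases mem_nextl.1 hy with h | ⟨h1, h2, -⟩
    · exact ih.2 y h
    · exact mem_Df.2 ⟨(mem_heavy.1 h1).1, h2⟩

theorem lst_length (η : HTask) (O A : Oracle) (x : List Bool) (s i : ℕ) :
    (lst η O A x s i).length ≤ (Df O A (η.b.eval x.length)).card := by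
  obtain ⟨h1, h2⟩ := lst_inv η O A x s i
  rw [← List.toFinset_card_of_nodup h1]
  apply card_le_card
  intro y hy
  exact h2 y (List.mem_toFinset.1 hy)

/-- after sufficiently many rounds there are no new strings -/
theorem lst_stable (η : HTask) (O A : Oracle) (x : List Bool) (s R : ℕ)
    (hR : (Df O A (η.b.eval x.length)).card < R) :
    ∀ y, y ∈ heavy η (corr (lst η O A x s R) O) x s → A y ≠ O y → y ∈ lst η O A x s R := by
  have hstep : ∀ i, nextl η O A x s (lst η O A x s i) = lst η O A x s i →
      ∀ j, lst η O A x s (i + j) = lst η O A x s i := by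
    intro i hi j
    induction j with
    | zero => rfl
    | succ j ih => rw [← add_assoc, lst_succ, ih, hi]
  have hfix : nextl η O A x s (lst η O A x s R) = lst η O A x s R := by
    by_contra hne
    have h1 : ∀ i ≤ R, nextl η O A x s (lst η O A x s i) ≠ lst η O A x s i := by
      intro i hi h2
      apply hne
      obtain ⟨j, rfl⟩ : ∃ j, R = i + j := ⟨R - i, by omega⟩
      rw [hstep i h2 j, h2]
    have h2 : ∀ i ≤ R, i ≤ (lst η O A x s i).length := by
      intro i
      induction i with
      | zero => intro _; exact Nat.zero_le _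
      | succ i ih =>
        intro hi
        have h3 := ih (by omega)
        have h4 := h1 i (by omega)
        rw [lst_succ]
        have h5 : (nextl η O A x s (lst η O A x s i)).length = (lst η O A x s i).length +
            ((heavy η (corr (lst η O A x s i) O) x s).toList.filter
            (fun y => decide (A y ≠ O y) && !decide (y ∈ lst η O A x s i))).length := by
          unfold nextl
          rw [List.length_append]
        have h6 : ((heavy η (corr (lst η O A x s i) O) x s).toList.filter
            (fun y => decide (A y ≠ O y) && !decide (y ∈ lst η O A x s i))).length ≠ 0 := by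
          intro h7
          apply h4
          unfold nextl
          rw [List.eq_nil_of_length_eq_zero h7, List.append_nil]
        omega
    have h3 := h2 R le_rfl
    have h4 := lst_length η O A x s R
    omega
  intro y hy hne
  by_contra h
  have h1 : y ∈ nextl η O A x s (lst η O A x s R) := mem_nextl.2 (Or.inr ⟨hy, hne, h⟩)
  rw [hfix] at h1
  exact h h1

/-- the corrected oracle has nearly the right probability -/
theorem close_prob {η : HTask} {O A : Oracle} {x : List Bool} {s : ℕ} {l : List (List Bool)}
    (hl : ∀ y ∈ l, A y ≠ O y)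
    (hst : ∀ y, y ∈ heavy η (corr l O) x s → A y ≠ O y → y ∈ l)
    (hs : 1600 * (η.b.eval x.length * (Df O A (η.b.eval x.length)).card) + 1 ≤ s) :
    |η.p (corr l O) x - η.p A x| ≤ 1 / 10 := by
  obtain ⟨B, hB⟩ : ∃ B, B = η.b.eval x.length := ⟨_, rfl⟩
  rw [← hB] at hs
  have h1 := η.hyb (corr l O) A x ((Df O A B).filter (fun y => y ∉ l)) (by
    intro y hy hne
    rw [mem_filter, mem_Df, ← hB] at *
    by_cases h2 : y ∈ l
    · exfalso
      apply hne
      have h3 := hl y h2
      unfold corr
      rw [if_pos h2]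
      revert h3
      cases A y <;> cases O y <;> simp
    · refine ⟨⟨hy, ?_⟩, h2⟩
      unfold corr at hne
      rw [if_neg h2] at hne
      exact fun h3 => hne h3.symm)
  rw [← hB] at h1
  obtain ⟨S, hS⟩ : ∃ S, S = ∑ y ∈ (Df O A B).filter (fun y => y ∉ l), η.M (corr l O) x y :=
    ⟨_, rfl⟩
  rw [← hS] at h1
  have hS0 : 0 ≤ S := by
    rw [hS]
    exact sum_nonneg fun y _ => η.nonneg _ _ _
  have h2 : (s : ℝ) * S ≤ (Df O A B).card := by
    rw [hS, mul_sum]
    calc ∑ y ∈ (Df O A B).filter (fun y => y ∉ l), (s : ℝ) * η.M (corr l O) x y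
        ≤ ∑ y ∈ (Df O A B).filter (fun y => y ∉ l), (1 : ℝ) := by
          refine sum_le_sum fun y hy => ?_
          rw [mem_filter, mem_Df] at hy
          by_contra h3
          push Not at h3
          apply hy.2
          apply hst y _ hy.1.2
          exact mem_heavy.2 ⟨by rw [← hB]; exact hy.1.1, h3.le⟩
      _ = (((Df O A B).filter (fun y => y ∉ l)).card : ℝ) := by simp
      _ ≤ (Df O A B).card := by exact_mod_cast card_le_card (filter_subset _ _)
  have hsr : 1600 * ((B : ℝ) * (Df O A B).card) + 1 ≤ s := by exact_mod_cast hs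
  have hs0 : (0 : ℝ) < s := by
    have : (0 : ℝ) ≤ (B : ℝ) * (Df O A B).card := by positivity
    linarith
  have h3 : (B : ℝ) * S ≤ 1 / 1600 := by
    have h4 : (s : ℝ) * ((B : ℝ) * S) ≤ (B : ℝ) * (Df O A B).card := by
      calc (s : ℝ) * ((B : ℝ) * S) = (B : ℝ) * ((s : ℝ) * S) := by ring
        _ ≤ (B : ℝ) * (Df O A B).card := mul_le_mul_of_nonneg_left h2 (Nat.cast_nonneg _)
    have h5 : (s : ℝ) * ((B : ℝ) * S) ≤ s * (1 / 1600) := by linarith
    exact le_of_mul_le_mul_left h5 hs0
  have h4 : Real.sqrt ((B : ℝ) * S) ≤ 1 / 40 := by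
    rw [Real.sqrt_le_left (by norm_num)]
    refine h3.trans (le_of_eq ?_)
    norm_num
  linarith

theorem rnd_iter (η : HTask) (O A : Oracle) (σ : Polynomial ℕ) (x : List Bool) (i : ℕ) :
    (rnd η O A σ)^[i] (bits (x, ([] : List (List Bool)))) =
      bits (x, lst η O A x (σ.eval x.length) i) := by
  induction i with
  | zero => rfl
  | succ i ih =>
    rw [Function.iterate_succ_apply', ih, lst_succ]
    unfold rnd
    simp only [d1_bits]

/-- the list after the last round can be computed -/
theorem isFP_lst {η : HTask} {O A : Oracle} (hO : IsFP A (fun z => [O z]))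
    (hH : IsFP A (Hf η O)) (σ d : Polynomial ℕ) (hd : ∀ m, dist O A m ≤ d.eval m) :
    IsFP A (fun x => bits (x, lst η O A x (σ.eval x.length)
      ((d.comp η.b + 1).eval x.length))) := by
  have h1 := IsFP.loop (isFP_rnd hO hH σ) (g := fun x => bits (x, ([] : List (List Bool))))
    (R2.poly_bits (Poly.pair Poly.id (NPC.Poly.const _))) (d.comp η.b + 1)
    (Polynomial.C 4 * Polynomial.X + d.comp η.b * (Polynomial.C 4 * η.b + 2) + 3) (by
      intro x i _
      rw [rnd_iter, bits_length, sz_pair]
      have h2 := sz_listBool_le x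
      have h3 := sz_le_length_mul (lst η O A x (σ.eval x.length) i)
        (4 * η.b.eval x.length + 1) (fun y hy => by
        have h4 := sz_listBool_le y
        have h5 := (mem_Df.1 ((lst_inv η O A x (σ.eval x.length) i).2 y hy)).1
        omega)
      have h6 := lst_length η O A x (σ.eval x.length) i
      rw [card_Df] at h6
      have h7 := hd (η.b.eval x.length)
      have h8 : (lst η O A x (σ.eval x.length) i).length * (4 * η.b.eval x.length + 1 + 1) ≤
          d.eval (η.b.eval x.length) * (4 * η.b.eval x.length + 2) :=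
        Nat.mul_le_mul (h6.trans h7) (by omega)
      simp only [Polynomial.eval_add, Polynomial.eval_mul, Polynomial.eval_C, Polynomial.eval_X,
        Polynomial.eval_comp, Polynomial.eval_ofNat]
      omega)
  refine (congrArg (IsFP A) (funext fun x => ?_)).mp h1
  rw [rnd_iter]

/-- **Quantum polynomial time near the oracle.** -/
theorem isP_of_HTask {τ : ℕ → Task} {η : HTask} {O A : Oracle} {e : ℕ} (he : τ e = halfTask η)
    (h : ∀ e, IsFP A (Gf τ e O)) (hH : IsFP A (Hf η O))
    (hA : ∃ d : Polynomial ℕ, ∀ m, dist O A m ≤ d.eval m) {L : Set (List Bool)}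
    (hL : ∀ x, (x ∈ L → 2 / 3 ≤ η.p A x) ∧ (x ∉ L → η.p A x ≤ 1 / 3)) : IsP A L := by
  obtain ⟨d, hd⟩ := hA
  obtain ⟨σ, hσ⟩ : ∃ σ : Polynomial ℕ, σ = Polynomial.C 1600 * (η.b * d.comp η.b) + 1 := ⟨_, rfl⟩
  have h1 := isFP_lst (h 0) hH σ d hd
  have h2 : IsFP A (fun st => Gf τ (e + 1) O (pairBits (d1 st).1 (bits (d1 st).2))) :=
    IsFP.comp (h (e + 1)) (IsFP.of_poly (poly_pairBits (Poly.fst poly_d1)
      (R2.poly_bits (Poly.snd poly_d1))))
  have h3 := IsFP.comp h2 h1
  refine ⟨_, h3, fun x => ?_⟩
  obtain ⟨l, hl⟩ : ∃ l, l = lst η O A x (σ.eval x.length)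
    ((d.comp η.b + 1).eval x.length) := ⟨_, rfl⟩
  rw [← hl]
  simp only [d1_bits]
  have h4 : Gf τ (e + 1) O (pairBits x (bits l)) = [true] ↔ 1 / 2 ≤ η.p (corr l O) x := by
    have h5 : Gf τ (e + 1) O (pairBits x (bits l)) = [true] ↔
        (τ e).V (corr (dec (unpair (pairBits x (bits l))).2) O) (unpair (pairBits x (bits l))).1 := by
      simp [Gf]
    rw [h5, unpair_pairBits, dec_bits, he]
    rfl
  rw [h4]
  have hR : (Df O A (η.b.eval x.length)).card < (d.comp η.b + 1).eval x.length := by
    rw [card_Df, Polynomial.eval_add, Polynomial.eval_comp, Polynomial.eval_one]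
    have := hd (η.b.eval x.length)
    omega
  have h5 := close_prob (η := η) (O := O) (A := A) (x := x) (s := σ.eval x.length) (l := l)
    (fun y hy => by
      rw [hl] at hy
      exact (mem_Df.1 ((lst_inv η O A x (σ.eval x.length) _).2 y hy)).2)
    (by
      rw [hl]
      exact lst_stable η O A x (σ.eval x.length) _ hR)
    (by
      rw [hσ, card_Df]
      simp only [Polynomial.eval_add, Polynomial.eval_mul, Polynomial.eval_C,
        Polynomial.eval_comp, Polynomial.eval_one]
      have h6 := hd (η.b.eval x.length)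
      have h7 := Nat.mul_le_mul_left (η.b.eval x.length) h6
      omega)
  rw [abs_le] at h5
  constructor
  · intro hx
    have := (hL x).1 hx
    linarith
  · intro hx
    by_contra h6
    have := (hL x).2 h6
    linarith

end Pool.Agent.TH654.RB
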