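import Pool.Agent.TH654.OQ.Fin

/-!
# Blocks of arbitrary size

Every block length `n` has its own parameter `κ n` (no block if `κ n = 0`). Adapted from the files
`PI`, `GI`, `IS`, `IG` of `Pool/Agent/H516R2/EQP5` and `PIn`, `QIn` of `Pool/Agent/H440Q`.
-/

set_option autoImplicit false

namespace Pool.Agent.TH654.RB

open Pool.Agent.NPC Pool.Agent.H620R2.Gauge Finset H568R2 Pool.Agent.H676 Pool.Agent.H516R2.EQP
  Pool.Agent.H516R2.EQP2 Pool.Agent.H516R2.EQP3 Pool.Agent.H516R2.EQP4 Pool.Agent.H516R2.EQP5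
  Pool.Agent.H440Q

variable {κ : ℕ → ℕ}

/-- `z` is a string of the block number `n` -/
def InK (κ : ℕ → ℕ) (n : ℕ) (z : List Bool) : Prop :=
  0 < κ n ∧ z.take (n + 1) = List.replicate n false ++ [true] ∧ z.length = n + 5 + 3 * κ n

instance (κ : ℕ → ℕ) (n : ℕ) (z : List Bool) : Decidable (InK κ n z) :=
  inferInstanceAs (Decidable (_ ∧ _ ∧ _))

/-- the strings of the blocks -/
def TK (κ : ℕ → ℕ) : Set (List Bool) := {z | ∃ n, InK κ n z}

/-- the oracle seen by the circuits for the block `n` -/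
def tlK (n : ℕ) (A : Oracle) : Oracle := fun w => A (List.replicate n false ++ true :: w)

/-- put the instance `x` into the block `n` -/
def pmK (κ : ℕ → ℕ) (n : ℕ) (x : Cube (κ n) → Bool) (B : Oracle) : Oracle := fun z =>
  if InK κ n z then emb (κ n) B (sgm x) (z.drop (n + 1)) else B z

/-- the decoded number computed by the circuits for the block `n` -/
noncomputable def alK (κ : ℕ → ℕ) (n : ℕ) (A : Oracle) : ℝ :=
  Pool.Agent.H440Q.dec (valO (tlK n A) (κ n))

/-- the language -/
def LK (κ : ℕ → ℕ) (B : Oracle) : Set (List Bool) :=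
  {x | 0 < κ x.length ∧ alK κ x.length B = 1 / 2}

theorem K_inj {n n' : ℕ} {z : List Bool} (h : InK κ n z) (h' : InK κ n' z) : n = n' :=
  PI_prefix h.2.1 h'.2.1

theorem K_mem {n : ℕ} (hn : 0 < κ n) (w : List Bool) (hw : w.length = 4 + 3 * κ n) :
    InK κ n (List.replicate n false ++ true :: w) := by
  refine ⟨hn, ?_, ?_⟩
  · rw [List.take_append]
    have e : n + 1 - (List.replicate n false).length = 1 := by simp
    rw [e]
    simp
  · simp only [List.length_append, List.length_replicate, List.length_cons, hw]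
    omega

theorem K_al {n : ℕ} (hn : 0 < κ n) {A A' : Oracle} (h : ∀ z, InK κ n z → A z = A' z) :
    alK κ n A = alK κ n A' := by
  unfold alK
  congr 1
  refine OV_local _ _ _ fun w hw => ?_
  unfold tlK
  exact h _ (K_mem hn w hw)

theorem K_val {n : ℕ} (hn : 0 < κ n) (x : Cube (κ n) → Bool) (B : Oracle) :
    valO (tlK n (pmK κ n x B)) (κ n) = (FF (fun i => x (Sum.inl i)) : ℝ) / 8 ^ (κ n) := by
  rw [← OV_emb (κ n) B x]
  refine OV_local _ _ _ fun w hw => ?_
  unfold tlK
  show pmK κ n x B (List.replicate n false ++ true :: w) = emb (κ n) B (sgm x) w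
  unfold pmK
  rw [if_pos (K_mem hn w hw), PI_drop]

theorem K_yes {n : ℕ} (hn : 0 < κ n) {x : Cube (κ n) → Bool} (h : YesO x) (B : Oracle) :
    alK κ n (pmK κ n x B) = 1 / 2 := by
  unfold alK
  rw [K_val hn]
  exact dec_yes (YesO_div x h)

theorem K_no {n : ℕ} (hn : 0 < κ n) {x : Cube (κ n) → Bool} (h : NoO x) (B : Oracle) :
    alK κ n (pmK κ n x B) = 0 := by
  unfold alK
  rw [K_val hn]
  exact dec_no (NoO_div x h)

theorem K_off {n : ℕ} {z : List Bool} (x : Cube (κ n) → Bool) (B : Oracle) (h : ¬ InK κ n z) :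
    pmK κ n x B z = B z := by
  unfold pmK
  rw [if_neg h]

open Classical in
theorem K_base (κ : ℕ → ℕ) (R : Oracle) : ∃ B : Oracle, (∀ z, z ∉ TK κ → B z = R z) ∧
    ∀ n, 0 < κ n → alK κ n B = 0 := by
  refine ⟨fun z => if h : ∃ n, InK κ n z then base (z.drop (h.choose + 1)) else R z,
    fun z hz => ?_, fun n hn => ?_⟩
  · have h : ¬ ∃ n, InK κ n z := hz
    exact dif_neg h
  · unfold alK
    apply dec_no
    have e : valO (tlK n (fun z => if h : ∃ n, InK κ n z then
        base (z.drop (h.choose + 1)) else R z)) (κ n) = valO base (κ n) := by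
      refine OV_local _ _ _ fun w hw => ?_
      unfold tlK
      have h1 : ∃ n', InK κ n' (List.replicate n false ++ true :: w) := ⟨n, K_mem hn w hw⟩
      have h2 : h1.choose = n := K_inj h1.choose_spec (K_mem hn w hw)
      show (if h : ∃ n', InK κ n' (List.replicate n false ++ true :: w) then
        base ((List.replicate n false ++ true :: w).drop (h.choose + 1))
        else R (List.replicate n false ++ true :: w)) = base w
      rw [dif_pos h1, h2, PI_drop]
    rw [e, OV_base]
    norm_num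

/-! ### quantified oracle algorithms are good functions of the content of a block -/

/-- every bit of `pmK κ n x B` is constant or a variable -/
theorem K_form (κ : ℕ → ℕ) (n : ℕ) (z : List Bool) (B : Oracle) :
    (∃ c, ∀ x : Cube (κ n) → Bool, pmK κ n x B z = c) ∨
    ∃ (i : Cube (κ n)) (c : Bool), ∀ x : Cube (κ n) → Bool,
      pmK κ n x B z = ((sgm x) i ^^ c) := by
  by_cases h : InK κ n z
  · rcases DE_form (κ n) B (z.drop (n + 1)) with ⟨c, hc⟩ | ⟨i, c, hc⟩
    · exact Or.inl ⟨c, fun x => by rw [pmK, if_pos h, hc]⟩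
    · exact Or.inr ⟨i, c, fun x => by rw [pmK, if_pos h, hc, Bool.xor_comm]⟩
  · exact Or.inl ⟨B z, fun x => by rw [pmK, if_neg h]⟩

/-- every bit of the oracle is a decision tree of depth one -/
theorem K_bit {I : Type} [Fintype I] [DecidableEq I] (κ : ℕ → ℕ) (n : ℕ) (B : Oracle)
    (φ : (I → Bool) → Cube (κ n) → Bool) (hφ : ∀ i, DTr 1 (fun v => φ v i)) (w : List Bool) :
    DTr 1 (fun v => pmK κ n (φ v) B w) := by
  rcases K_form κ n w B with ⟨c, hc⟩ | ⟨i, c, hc⟩
  · exact DTr.const ⟨c, fun v => hc _⟩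
  · have h1 := (hφ (sgi i)).comp (fun b => b ^^ c)
    refine (congrArg (DTr 1) (funext fun v => ?_)).mp h1
    have h2 := hc (φ v)
    rw [sgm_apply] at h2
    exact h2.symm

open Classical in
theorem K_main (κ : ℕ → ℕ) (n : ℕ) (M : Alg) (k : ℕ) (y : List Bool) (l t : ℕ)
    (ht : y.length + k * (2 * l + 1) + 2 + 4 * κ n + k + 1 ≤ t)
    (htM : M.p.eval (y.length + k * (2 * l + 1)) ≤ t) (B : Oracle) (b' : Bool)
    {I : Type} [Fintype I] [DecidableEq I]
    (φ : (I → Bool) → Cube (κ n) → Bool) (hφ : ∀ i, DTr 1 (fun v => φ v i)) :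
    Ex (wq ((1 / (24 * (t : ℝ))) ^ k)) (fun ρ : Restr I =>
      if ¬ DTr t (fun v => QO M l k b' y (pmK κ n (φ (ov ρ v)) B)) then (1 : ℝ) else 0) ≤
      (1 / 16) ^ κ n := by
  have ht1 : 1 ≤ t := by omega
  have ht' : (1 : ℝ) ≤ t := by exact_mod_cast ht1
  set q : ℝ := 1 / (24 * (t : ℝ)) with hq
  have hq0 : 0 ≤ q := by positivity
  have hq1 : q ≤ 1 / 3 := by
    rw [hq, div_le_div_iff₀ (by positivity) (by norm_num)]
    linarith
  have hqJ0 : 0 ≤ q ^ k := pow_nonneg hq0 _
  have hqJ1 : q ^ k ≤ 1 := pow_le_one₀ hq0 (by linarith)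
  have key := switch_alt (I := I) ht1 hq0 hq1 l
    (fun y' v => decide (M.out (pmK κ n (φ v) B) y' = some [true])) k y.length
    (fun y' hy' => by
      have h1 := RT I (fun v => pmK κ n (φ v) B) M y' 1 (fun w => K_bit κ n B φ hφ w)
      rw [one_mul] at h1
      exact h1.mono ((eval_mono M.p hy').trans htM))
  refine (le_trans ?_ key).trans (GY_arith (κ n) k (y.length + k * (2 * l + 1)) t ht)
  refine Ex_mono (wq_nonneg hqJ0 hqJ1) fun ρ => ?_
  by_cases h : ∀ y' : List Bool, y'.length ≤ y.length → ∀ b₂ : Bool, DTr t (rs (QF l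
      (fun y' v => decide (M.out (pmK κ n (φ v) B) y' = some [true])) k b₂ y') ρ)
  · have h1 : DTr t (fun v => QO M l k b' y (pmK κ n (φ (ov ρ v)) B)) := by
      refine (congrArg (DTr t) (funext fun v => ?_)).mp (h y le_rfl b')
      have h3 := Pool.Agent.H516R2.EQP.DS.2.2.1 (List Bool) I (fun v => pmK κ n (φ v) B) l
        (fun y' (A' : List Bool → Bool) => decide (M.out A' y' = some [true])) k b' y (ov ρ v)
      exact h3.symm
    rw [if_neg (not_not.2 h1), if_neg (not_not.2 h)]
  · rw [if_pos h]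
    split_ifs <;> norm_num

/-- quantified oracle algorithms are good functions of the content of a block -/
theorem K_goods (κ : ℕ → ℕ) (n : ℕ) (M : Alg) (k : ℕ) (y : List Bool) (l t : ℕ)
    (ht : y.length + k * (2 * l + 1) + 2 + 4 * κ n + k + 1 ≤ t)
    (htM : M.p.eval (y.length + k * (2 * l + 1)) ≤ t) (B : Oracle) (b' : Bool) :
    Goods (κ n) t k (fun x => QO M l k b' y (pmK κ n x B)) := by
  intro c0
  refine ⟨?_, ?_⟩
  · intro z ρ₀
    exact K_main κ n M k y l t ht htM B b'
      (fun p i => Sum.elim (ov ρ₀ p) z i ^^ c0 i) (fun i => by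
        rcases i with j | j
        · simp only [Sum.elim_inl]
          cases hρ : ρ₀ j with
          | none =>
            refine Or.inr ⟨j, fun b => ⟨b ^^ c0 (Sum.inl j), fun v => ?_⟩⟩
            simp [ov, hρ]
          | some b =>
            refine DTr.const ⟨b ^^ c0 (Sum.inl j), fun v => ?_⟩
            simp [ov, hρ]
        · exact DTr.const ⟨z j ^^ c0 (Sum.inr j), fun v => rfl⟩)
  · intro p
    exact K_main κ n M k y l t ht htM B b'
      (fun z i => Sum.elim p z i ^^ c0 i) (fun i => by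
        rcases i with j | j
        · exact DTr.const ⟨p j ^^ c0 (Sum.inl j), fun v => rfl⟩
        · refine Or.inr ⟨j, fun b => ⟨b ^^ c0 (Sum.inr j), fun v => ?_⟩⟩
          simp)

end Pool.Agent.TH654.RB
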