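import Pool.Agent.TH654.RB.KB

/-!
# Blocks of arbitrary size: the construction

Adapted from the files `IS`, `IG`, `AT` of `Pool/Agent/H516R2/EQP5` and `QIn` of `Pool/Agent/H440Q`.
-/

set_option autoImplicit false

namespace Pool.Agent.TH654.RB

open Pool.Agent.NPC Pool.Agent.H620R2.Gauge Finset H568R2 Pool.Agent.H676 Pool.Agent.H516R2.EQP
  Pool.Agent.H516R2.EQP2 Pool.Agent.H516R2.EQP3 Pool.Agent.H516R2.EQP4 Pool.Agent.H516R2.EQP5
  Pool.Agent.H440Q

variable {κ : ℕ → ℕ}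

/-- one step of the construction -/
theorem K_step (hle : ∀ n, κ n ≤ n) (hinf : ∀ c N : ℕ, ∃ n ≥ N, c * n.bits.length ≤ κ n)
    (M : Alg) (p : Polynomial ℕ) (k : ℕ) (B : Oracle) (N : ℕ) :
    ∃ (n : ℕ) (x : Cube (κ n) → Bool) (y : List Bool), 0 < κ n ∧ (YesO x ∨ NoO x) ∧
      (∀ z : List Bool, z.length ≤ N → ¬ InK κ n z) ∧
      ¬ (QO M (p.eval y.length) k true y (pmK κ n x B) = true ↔ y ∈ LK κ (pmK κ n x B)) := by
  obtain ⟨P, hP⟩ : ∃ P : Polynomial ℕ, P = M.p.comp (Polynomial.X +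
    Polynomial.C k * (Polynomial.C 2 * p + 1)) + (Polynomial.X +
    Polynomial.C k * (Polynomial.C 2 * p + 1)) + Polynomial.C 4 * Polynomial.X +
    Polynomial.C (k + 3) := ⟨_, rfl⟩
  have hPe : ∀ n, P.eval n = M.p.eval (n + k * (2 * p.eval n + 1)) +
      (n + k * (2 * p.eval n + 1)) + 4 * n + (k + 3) := by
    intro n
    rw [hP]
    simp [Polynomial.eval_comp]
  obtain ⟨d, hd⟩ : ∃ d, d = P.natDegree := ⟨_, rfl⟩
  obtain ⟨C, hC⟩ : ∃ C, C = P.eval 1 := ⟨_, rfl⟩
  obtain ⟨K, hK⟩ : ∃ K : ℕ, K = 18 + 2 * (k * (5 + C + d)) + 2 * (5 + C + d) := ⟨_, rfl⟩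
  obtain ⟨n, hnN, hn⟩ := hinf (K + 20) (N + 1)
  have hn1 : 1 ≤ n := by omega
  have hL1 : 1 ≤ n.bits.length := by
    rw [Nat.size_eq_bits_len]
    have := Nat.size_pos.2 hn1
    omega
  obtain ⟨L, hL⟩ : ∃ L, L = n.bits.length := ⟨_, rfl⟩
  rw [← hL] at hn hL1
  have hnL : n ≤ 2 ^ L := by
    rw [hL, Nat.size_eq_bits_len]
    exact (Nat.lt_size_self n).le
  have h20 : 20 ≤ κ n := by nlinarith
  have hKL : K * L ≤ κ n := by nlinarith
  -- the bound of t
  obtain ⟨E, hE⟩ : ∃ E : ℕ, E = 5 + C + d * L := ⟨_, rfl⟩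
  have hEκ : 18 + 2 * (k * E) + 2 * E ≤ κ n := by
    refine le_trans ?_ hKL
    have h1 : E ≤ (5 + C + d) * L := by
      rw [hE]
      nlinarith
    have h2 : k * E ≤ k * ((5 + C + d) * L) := Nat.mul_le_mul_left _ h1
    calc 18 + 2 * (k * E) + 2 * E ≤ 18 * L + 2 * (k * ((5 + C + d) * L)) +
          2 * ((5 + C + d) * L) := by omega
      _ = K * L := by rw [hK]; ring
  have htle : 24 * P.eval n ≤ 2 ^ E := by
    have h1 := AS_poly_le P n hn1
    have h2 : C ≤ 2 ^ C := Nat.lt_two_pow_self.le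
    rw [← hd, ← hC] at h1
    calc 24 * P.eval n ≤ 2 ^ 5 * (2 ^ C * (2 ^ L) ^ d) := by
          refine Nat.mul_le_mul (by norm_num) (h1.trans (Nat.mul_le_mul h2 ?_))
          exact Nat.pow_le_pow_left hnL d
      _ = 2 ^ E := by
          rw [← pow_mul, ← pow_add, ← pow_add, hE]
          congr 1
          ring
  have h1t : 1 ≤ P.eval n := by
    rw [hPe]
    omega
  have ht4 : P.eval n ≤ 4 ^ κ n :=
    calc P.eval n ≤ 24 * P.eval n := by omega
      _ ≤ 2 ^ E := htle
      _ ≤ 2 ^ κ n := Nat.pow_le_pow_right (by norm_num) (by omega)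
      _ ≤ 4 ^ κ n := Nat.pow_le_pow_left (by norm_num) _
  obtain ⟨n1, n2⟩ := AT_core (κ n) E k (P.eval n : ℕ) h20 (by exact_mod_cast h1t)
    (by exact_mod_cast htle) hEκ
  obtain ⟨y, hy⟩ : ∃ y : List Bool, y = List.replicate n true := ⟨_, rfl⟩
  have hylen : y.length = n := by rw [hy, List.length_replicate]
  have hG : Goods (κ n) (P.eval n) k
      (fun x => QO M (p.eval n) k true y (pmK κ n x B)) := by
    have hk := hle n
    apply K_goods
    · rw [hylen, hPe]
      omega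
    · rw [hylen, hPe]
      omega
  have hInK : ∀ z : List Bool, z.length ≤ N → ¬ InK κ n z := by
    intro z hz hI
    have h1 := hI.2.2
    omega
  have h0 : 0 < κ n := by omega
  rcases (H2n (L2p L1) all_CM) (κ n) (P.eval n) k h20 h1t ht4 n1 n2 _ hG with
    ⟨x, hx, hv⟩ | ⟨x, hx, hv⟩
  · refine ⟨n, x, y, h0, Or.inl hx, hInK, ?_⟩
    rw [hylen]
    intro hiff
    have h1 : y ∈ LK κ (pmK κ n x B) := by
      refine ⟨by rw [hylen]; exact h0, ?_⟩
      rw [hylen]
      exact K_yes h0 hx B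
    have h2 := hiff.2 h1
    rw [h2] at hv
    exact absurd hv (by decide)
  · refine ⟨n, x, y, h0, Or.inr hx, hInK, ?_⟩
    rw [hylen]
    intro hiff
    obtain ⟨-, h2⟩ := hiff.1 hv
    rw [hylen, K_no h0 hx] at h2
    norm_num at h2

/-- the circuit -/
def KC (κ : ℕ → ℕ) (x : List Bool) : List Unit × List Gate :=
  bif decide (0 < κ x.length) then circO (OQ_pre x.length (κ x.length)) (κ x.length)
  else ([()], [])

theorem KC_poly (hκ : UPoly (fun x : List Bool => κ x.length)) : NPC.Poly (KC κ) :=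
  NPC.Poly.cond (NPC.Poly.decide_lt (NPC.Poly.const 0) hκ.toPoly) (OQ_circP (OQ_preP hκ) hκ)
    (NPC.Poly.const _)

theorem KC_queries (x : List Bool) : queries (KC κ x) ≤ 1 := by
  unfold KC
  cases decide (0 < κ x.length)
  · show queries (([()], []) : List Unit × List Gate) ≤ 1
    unfold queries
    simp
  · exact (OQ_queries _ _).le

theorem KC_acc {x : List Bool} (h : 0 < κ x.length) (A : Oracle) :
    (alK κ x.length A = 1 / 2 → 2 / 3 ≤ accProb A (KC κ x)) ∧
    (alK κ x.length A = 0 → accProb A (KC κ x) ≤ 1 / 3) := by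
  obtain ⟨n, hn⟩ : ∃ n, n = x.length := ⟨_, rfl⟩
  have h1 : KC κ x = circO (OQ_pre n (κ n)) (κ n) := by
    unfold KC
    rw [decide_eq_true h, hn]
    rfl
  have h2 : accProb A (KC κ x) = (1 + valO (tlK n A) (κ n)) / 2 := by
    rw [h1, OC_main (κ n) _ A (by
      intro j hj
      unfold OQ_pre at hj
      rw [List.mem_append] at hj
      rcases hj with hj | hj
      · exact Or.inr (List.eq_of_mem_replicate hj)
      · exact Or.inl (List.mem_singleton.1 hj))]
    congr 2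
    have e : (OQ_pre n (κ n)).map (fun j => decide (j = 3)) =
        List.replicate n false ++ [true] := by
      unfold OQ_pre
      have h6 : decide (6 + 3 * κ n = 3) = false := by
        rw [decide_eq_false_iff_not]
        omega
      rw [List.map_append, List.map_replicate, h6]
      rfl
    rw [e]
    congr 1
    funext z
    unfold tlK
    rw [List.append_assoc]
    rfl
  rw [h2, ← hn]
  unfold alK
  constructor
  · intro h
    have := dec_half h
    linarith
  · intro h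
    have := dec_zero h
    linarith

theorem KC_acc0 {x : List Bool} (h : ¬ 0 < κ x.length) (A : Oracle) :
    accProb A (KC κ x) = 0 := by
  have h1 : KC κ x = ([()], []) := by
    unfold KC
    rw [decide_eq_false h]
    rfl
  rw [h1, QI_acc0]

/-- **Every oracle can be changed in the blocks.** -/
theorem K_exists (hκ : UPoly (fun x : List Bool => κ x.length)) (hle : ∀ n, κ n ≤ n)
    (hinf : ∀ c N : ℕ, ∃ n ≥ N, c * n.bits.length ≤ κ n) (R : Oracle) :
    ∃ A : Oracle, (∀ y, y ∉ TK κ → A y = R y) ∧ ∃ L, IsBQPq 1 A L ∧ ¬ IsPH A L := by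
  obtain ⟨-, hl2⟩ := LL
  have g1 : ∃ B : Oracle, (∀ z, z ∉ TK κ → B z = R z) ∧
      ∀ n, 0 < κ n → alK κ n B = 0 ∨ alK κ n B = 1 / 2 := by
    obtain ⟨B, h1, h2⟩ := K_base κ R
    exact ⟨B, h1, fun n hn => Or.inl (h2 n hn)⟩
  have g2 : ∀ B : Oracle, (∀ N : ℕ, ∃ B' : Oracle, ((∀ z, z ∉ TK κ → B' z = R z) ∧
      ∀ n, 0 < κ n → alK κ n B' = 0 ∨ alK κ n B' = 1 / 2) ∧
      ∀ z : List Bool, z.length ≤ N → B' z = B z) → ((∀ z, z ∉ TK κ → B z = R z) ∧
      ∀ n, 0 < κ n → alK κ n B = 0 ∨ alK κ n B = 1 / 2) := by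
    intro B h
    refine ⟨fun z hz => ?_, fun n hn => ?_⟩
    · obtain ⟨B', ⟨h1, -⟩, he⟩ := h z.length
      rw [← he z le_rfl, h1 z hz]
    · obtain ⟨B', ⟨-, h2⟩, he⟩ := h (n + 5 + 3 * κ n)
      have e : alK κ n B' = alK κ n B := K_al hn fun z hz => he z (le_of_eq hz.2.2)
      rw [← e]
      exact h2 n hn
  have g3 : ∀ (t : Alg × Polynomial ℕ × ℕ) (B : Oracle) (N : ℕ),
      ((∀ z, z ∉ TK κ → B z = R z) ∧ ∀ n, 0 < κ n → alK κ n B = 0 ∨ alK κ n B = 1 / 2) →
      ∃ (B' : Oracle) (N' : ℕ), ((∀ z, z ∉ TK κ → B' z = R z) ∧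
        ∀ n, 0 < κ n → alK κ n B' = 0 ∨ alK κ n B' = 1 / 2) ∧
      (∀ z : List Bool, z.length ≤ N → B' z = B z) ∧
      ∀ B'' : Oracle, ((∀ z, z ∉ TK κ → B'' z = R z) ∧
        ∀ n, 0 < κ n → alK κ n B'' = 0 ∨ alK κ n B'' = 1 / 2) →
        (∀ z : List Bool, z.length ≤ N' → B'' z = B' z) →
        ∃ y : List Bool, ¬ (QO t.1 (t.2.1.eval y.length) t.2.2 true y B'' = true ↔
          y ∈ LK κ B'') := by
    rintro ⟨M, p, k⟩ B N ⟨hB1, hB2⟩
    obtain ⟨n, x, y, h0, hx, hN, hbad⟩ := K_step hle hinf M p k B N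
    obtain ⟨N2, hN2⟩ := hl2 M (p.eval y.length) k true y
    refine ⟨pmK κ n x B, max (y.length + 5 + 3 * κ y.length) N2,
      ⟨fun z hz => ?_, fun n' hn' => ?_⟩, fun z hz => K_off x B (hN z hz), fun B'' _ h'' => ⟨y, ?_⟩⟩
    · rw [K_off x B (fun h => hz ⟨n, h⟩)]
      exact hB1 z hz
    · by_cases hm : n' = n
      · subst hm
        rcases hx with hx | hx
        · exact Or.inr (K_yes h0 hx B)
        · exact Or.inl (K_no h0 hx B)
      · have e : alK κ n' (pmK κ n x B) = alK κ n' B := by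
          apply K_al hn'
          intro z hz
          exact K_off x B (fun h => hm (K_inj hz h))
        rw [e]
        exact hB2 n' hn'
    · have e2 := hN2 B'' (pmK κ n x B) fun z hz => h'' z (hz.trans (le_max_right _ _))
      have e1 : y ∈ LK κ B'' ↔ y ∈ LK κ (pmK κ n x B) := by
        unfold LK
        refine and_congr_right fun hy => ?_
        have e3 : alK κ y.length B'' = alK κ y.length (pmK κ n x B) := by
          apply K_al hy
          intro z hz
          apply h''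
          exact le_trans (le_of_eq hz.2.2) (le_max_left _ _)
        rw [e3]
      simp only
      rw [e1, e2]
      exact hbad
  have hcnt : Countable (Alg × Polynomial ℕ × ℕ) := by
    have h2 : Countable (Polynomial ℕ) := by
      have : Function.Injective (fun p : Polynomial ℕ => (p.toFinsupp.coeff : ℕ →₀ ℕ)) := by
        intro p q h
        ext n
        exact DFunLike.congr_fun h n
      exact this.countable
    infer_instance
  obtain ⟨B, hB, hbad⟩ := DG (Alg × Polynomial ℕ × ℕ)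
    (fun B => (∀ z, z ∉ TK κ → B z = R z) ∧ ∀ n, 0 < κ n → alK κ n B = 0 ∨ alK κ n B = 1 / 2)
    (fun B t => ∃ y : List Bool, ¬ (QO t.1 (t.2.1.eval y.length) t.2.2 true y B = true ↔
          y ∈ LK κ B)) g1 g2 g3
  refine ⟨B, hB.1, LK κ B, ?_, ?_⟩
  · refine ⟨KC κ, polyTime_bits (KC_poly hκ), fun x => ⟨KC_queries x, fun hxL => ?_,
      fun hxL => ?_⟩⟩
    · exact (KC_acc hxL.1 B).1 hxL.2
    · by_cases hm : 0 < κ x.length
      · exact (KC_acc hm B).2 ((hB.2 _ hm).resolve_right (fun h => hxL ⟨hm, h⟩))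
      · rw [KC_acc0 hm B]
        norm_num
  · rintro ⟨V, p, k, ⟨M, hM⟩, hL⟩
    obtain ⟨x, hx⟩ := hbad (M, p, k)
    apply hx
    have h1 : Quant (p.eval x.length) V k true x ↔ QO M (p.eval x.length) k true x B = true :=
      DQ M B V (List Bool) (fun y' A' => decide (M.out A' y' = some [true])) B
        (p.eval x.length) k true x hM (fun _ _ => rfl)
    exact h1.symm.trans (hL x).symm

end Pool.Agent.TH654.RB
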