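import Pool.Agent.TH654.RB.CE1
import Pool.Agent.TH680.LHD.Lev
import Pool.Agent.H673R2.OneTT.Kset
import Pool.Agent.W900.PS.Inv

/-!
# Complete sets with gaps near a suitable oracle
-/

set_option autoImplicit false

namespace Pool.Agent.TH654.RB

open Pool.Agent.NPC Pool.Agent.H620R2.Gauge Pool.Agent.H622R2 Finset Filter
open Pool.Agent.W900.CH (dist finite_diff Close)
open Pool.Agent.TH678.PN Pool.Agent.TH678.EL

open Classical in
/-- a string with the property `P`, after a bit which tells that there is one -/
noncomputable def wsP (P : List Bool → Prop) : List Bool :=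
  if h : ∃ w : List Bool, P w then true :: h.choose else []

/-- a witness relative to the oracle `X` -/
noncomputable def ws (M : Alg) (p : Polynomial ℕ) (X : Oracle) (x : List Bool) : List Bool :=
  wsP fun w => w.length ≤ p.eval x.length ∧ M.out X (pairBits w x) = some [true]

theorem ws_none {M : Alg} {p : Polynomial ℕ} {X : Oracle} {x : List Bool}
    (h : ¬ ∃ w : List Bool, w.length ≤ p.eval x.length ∧
      M.out X (pairBits w x) = some [true]) : ws M p X x = [] := by
  unfold ws wsP
  rw [dif_neg h]

theorem ws_some {M : Alg} {p : Polynomial ℕ} {X : Oracle} {x : List Bool}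
    (h : ∃ w : List Bool, w.length ≤ p.eval x.length ∧ M.out X (pairBits w x) = some [true]) :
    ∃ w : List Bool, w.length ≤ p.eval x.length ∧ M.out X (pairBits w x) = some [true] ∧
      ws M p X x = true :: w := by
  refine ⟨h.choose, h.choose_spec.1, h.choose_spec.2, ?_⟩
  unfold ws wsP
  rw [dif_pos h]

theorem ws_len (M : Alg) (p : Polynomial ℕ) (X : Oracle) (x : List Bool) :
    (ws M p X x).length ≤ p.eval x.length + 1 := by
  by_cases h : ∃ w : List Bool, w.length ≤ p.eval x.length ∧ M.out X (pairBits w x) = some [true]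
  · obtain ⟨w, h1, -, h2⟩ := ws_some h
    rw [h2, List.length_cons]
    omega
  · rw [ws_none h]
    simp

/-- the bound for the questions -/
noncomputable def wb (M : Alg) (p : Polynomial ℕ) : Polynomial ℕ :=
  (Pool.Agent.TH678.PC.out_agree M).choose.comp (2 * p + 1 + Polynomial.X)

theorem wb_spec {M : Alg} {p : Polynomial ℕ} {X X' : Oracle} {x w : List Bool}
    (hw : w.length ≤ p.eval x.length)
    (h : ∀ y : List Bool, y.length ≤ (wb M p).eval x.length → X y = X' y) :
    M.out X (pairBits w x) = M.out X' (pairBits w x) := by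
  have h1 := (Pool.Agent.TH678.PC.out_agree M).choose_spec
  apply h1
  intro y hy
  apply h
  refine hy.trans ?_
  unfold wb
  rw [Polynomial.eval_comp]
  apply eval_mono
  rw [A2.length_pairBits]
  simp only [Polynomial.eval_add, Polynomial.eval_mul, Polynomial.eval_ofNat, Polynomial.eval_X,
    Polynomial.eval_one]
  omega

theorem ws_congr {M : Alg} {p : Polynomial ℕ} {X X' : Oracle} {x : List Bool}
    (h : ∀ y : List Bool, y.length ≤ (wb M p).eval x.length → X y = X' y) :
    ws M p X x = ws M p X' x := by
  have h1 : (fun w : List Bool => w.length ≤ p.eval x.length ∧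
      M.out X (pairBits w x) = some [true]) = fun w : List Bool => w.length ≤ p.eval x.length ∧
      M.out X' (pairBits w x) = some [true] := by
    funext w
    apply propext
    constructor
    · rintro ⟨h2, h3⟩
      exact ⟨h2, by rw [← wb_spec h2 h]; exact h3⟩
    · rintro ⟨h2, h3⟩
      exact ⟨h2, by rw [wb_spec h2 h]; exact h3⟩
  exact congrArg wsP h1

/-- the functions which the code has to provide -/
noncomputable def Gw (g : ℕ → Alg × Polynomial ℕ) : ℕ → Oracle → List Bool → List Bool
  | 0, O, z => [O z]
  | e + 1, O, z => ws (g e).1 (g e).2 (corr (dec (unpair z).2) O) (unpair z).1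

/-- the bounds -/
noncomputable def bw (g : ℕ → Alg × Polynomial ℕ) : ℕ → Polynomial ℕ
  | 0 => Polynomial.X + 1
  | e + 1 => wb (g e).1 (g e).2 + (g e).2 + 1

theorem Gw_loc (g : ℕ → Alg × Polynomial ℕ) (e : ℕ) {A A' : Oracle} {z : List Bool}
    (h : ∀ y : List Bool, y.length ≤ (bw g e).eval z.length → A y = A' y) :
    Gw g e A z = Gw g e A' z := by
  cases e with
  | zero =>
    change [A z] = [A' z]
    rw [h z (by simp [bw])]
  | succ e =>
    unfold Gw
    apply ws_congr
    intro y hy
    have h2 : A y = A' y := by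
      apply h
      have h3 := eval_mono (wb (g e).1 (g e).2) (unpair_fst_len z)
      simp only [bw, Polynomial.eval_add, Polynomial.eval_one]
      omega
    unfold corr
    rw [h2]

theorem Gw_len (g : ℕ → Alg × Polynomial ℕ) (e : ℕ) (A : Oracle) (z : List Bool) :
    (Gw g e A z).length ≤ (bw g e).eval z.length := by
  cases e with
  | zero => simp [Gw, bw]
  | succ e =>
    have h1 := ws_len (g e).1 (g e).2 (corr (dec (unpair z).2) A) (unpair z).1
    have h2 := eval_mono (g e).2 (unpair_fst_len z)
    unfold Gw bw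
    simp only [Polynomial.eval_add, Polynomial.eval_one]
    omega

/-- **Searches near a suitable oracle.** -/
theorem exists_ws : ∃ O : Oracle, ∀ A : Oracle,
    (∃ d : Polynomial ℕ, ∀ m, dist O A m ≤ d.eval m) → IsFP A (fun z => [O z]) ∧
      ∀ (M : Alg) (p : Polynomial ℕ),
        IsFP A (fun z => ws M p (corr (dec (unpair z).2) O) (unpair z).1) := by
  have h1 := CC.poly_countable
  obtain ⟨al, _⟩ := exists_alg
  have h2 : Countable Alg := inferInstance
  have h3 : Nonempty (Alg × Polynomial ℕ) := ⟨(al 0, 0)⟩
  obtain ⟨g, hg⟩ := exists_surjective_nat (Alg × Polynomial ℕ)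
  obtain ⟨O, hO⟩ := robust (bw g) (Gw g) (fun e _ _ _ h => Gw_loc g e h) (Gw_len g)
  refine ⟨O, fun A hA => ⟨hO A hA 0, fun M p => ?_⟩⟩
  obtain ⟨e, he⟩ := hg (M, p)
  have h4 := hO A hA (e + 1)
  have h5 : Gw g (e + 1) O = fun z => ws M p (corr (dec (unpair z).2) O) (unpair z).1 := by
    funext z
    simp only [Gw, he]
  rwa [h5] at h4

/-! ### The short changed strings -/

/-- the changed strings among the first `n` strings -/
def sc (O A : Oracle) (n : ℕ) : List (List Bool) :=
  ((List.range n).filter (fun i => decide (A (str i) ≠ O (str i)))).map str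

theorem mem_sc {O A : Oracle} {n : ℕ} {y : List Bool} :
    y ∈ sc O A n ↔ idx y < n ∧ A y ≠ O y := by
  unfold sc
  rw [List.mem_map]
  constructor
  · rintro ⟨i, h1, rfl⟩
    rw [List.mem_filter, List.mem_range, decide_eq_true_iff] at h1
    rw [idx_str]
    exact h1
  · rintro ⟨h1, h2⟩
    refine ⟨idx y, ?_, str_idx y⟩
    rw [List.mem_filter, List.mem_range, decide_eq_true_iff, str_idx]
    exact ⟨h1, h2⟩

theorem corr_sc {O A : Oracle} {n : ℕ} {y : List Bool} (h : corr (sc O A n) O y ≠ A y) :
    A y ≠ O y ∧ n ≤ idx y := by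
  unfold corr at h
  by_cases hy : y ∈ sc O A n
  · rw [if_pos hy] at h
    have h1 := (mem_sc.1 hy).2
    revert h h1
    cases A y <;> cases O y <;> simp
  · rw [if_neg hy] at h
    refine ⟨fun h' => h h'.symm, ?_⟩
    by_contra hn
    exact hy (mem_sc.2 ⟨by omega, fun h' => h h'.symm⟩)

theorem isFP_diff {O A : Oracle} (hO : IsFP A (fun z => [O z])) :
    IsFP A (fun z => [decide (A z ≠ O z)]) := by
  have h1 : IsFP A (fun z => [A z]) := by
    have h2 := IsFP.tt (A := A) (Q := fun z => [z]) (H := fun p => [p.2.head?.getD false])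
      (Poly.cons Poly.id (NPC.Poly.const []))
      (Poly.cons (Poly.head?_getD (Poly.snd Poly.id) false) (NPC.Poly.const []))
    exact h2
  have h3 := IsFP.seq h1 hO (φ := fun p => p.1)
    (ψ := fun p => [decide (¬ p.2.1 = p.2.2)]) (Poly.fst Poly.id)
    (Poly.cons (Poly.decide_not (Poly.decide_eq (Poly.fst (Poly.snd Poly.id))
      (Poly.snd (Poly.snd Poly.id)))) (NPC.Poly.const []))
  refine (congrArg (IsFP A) (funext fun z => ?_)).mp h3
  show [decide (¬ [A z] = [O z])] = [decide (A z ≠ O z)]
  simp

theorem isFP_sc {O A : Oracle} (hO : IsFP A (fun z => [O z])) (T : Polynomial ℕ) :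
    IsFP A (fun x => bits (sc O A (T.eval x.length))) := by
  have h1 := IsFP.votes (isFP_diff hO) T (Q := fun _ => []) (NPC.Poly.const [])
    (W := fun p => str p.1.1) (Pool.Agent.W900.PS.poly_str (Poly.fst (Poly.fst Poly.id)))
    (H := fun p => bits (((List.range p.2.length).filter (fun i => p.2.getD i false)).map str))
    (R2.poly_bits (NPC.Poly.map (F := fun _ i => str i) (Poly.filter
      (p := fun (p : List Bool × List Bool) i => p.2.getD i false)
      (UPoly.length (Poly.snd Poly.id)).range
      (Poly.getD (Poly.snd (Poly.fst Poly.id)) (Poly.snd Poly.id) (NPC.Poly.const false)))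
      (Pool.Agent.W900.PS.poly_str (Poly.snd Poly.id))))
  refine (congrArg (IsFP A) (funext fun x => ?_)).mp h1
  unfold sc
  simp only [List.length_map, List.length_range]
  congr 2
  apply List.filter_congr
  intro i hi
  rw [List.mem_range] at hi
  rw [List.getD_eq_getElem?_getD, List.getElem?_map, List.getElem?_range hi]
  simp

end Pool.Agent.TH654.RB
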