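import Pool.Agent.TH654.RB.OD1
import Pool.Agent.H673R2.OneOne.Fp

/-!
# The complete set with gaps
-/

set_option autoImplicit false

namespace Pool.Agent.TH654.RB

open Pool.Agent.NPC Pool.Agent.H620R2.Gauge Pool.Agent.H622R2 Finset Filter
open Pool.Agent.W900.CH (dist finite_diff Close)
open Pool.Agent.TH678.PN Pool.Agent.TH678.EL
open Pool.Agent.H943R5.GC.U6 (isFP_toRO isFP_ofRO)
open Pool.Agent.TH680.LHD (isNP_iff)

theorem poly_sval' {α : Type} [TEnc α] {x : α → List Bool} (hx : Poly x) :
    Poly (fun a => sval (x a)) := by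
  apply Poly.of_natBits
  refine (Poly.append (Poly.reverse hx) (NPC.Poly.const [true])).congr fun _ => ?_
  rw [bits_sval]

theorem poly_idx' {α : Type} [TEnc α] {x : α → List Bool} (hx : Poly x) :
    Poly (fun a => idx (x a)) :=
  (Poly.sub (poly_sval' hx) (NPC.Poly.const 1)).congr fun a => (idx_eq _).symm

/-- a change which is not found by brute force -/
def Lc (O A : Oracle) (y : List Bool) : Prop :=
  ∃ z : List Bool, z.length ≤ y.length ∧ y.length ≤ idx z ∧ A z ≠ O z

/-- the set with gaps -/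
def GB (O A : Oracle) (K : Set (List Bool)) : Set (List Bool) :=
  {y | y = [] ∨ ((unpair y).1 ∈ K ∧ Lc O A y)}

theorem isNP_Lc {O A : Oracle} (hO : IsFP A (fun z => [O z])) : IsNP A {y | Lc O A y} := by
  have h1 := IsFP.comp (isFP_diff hO) (IsFP.of_poly (A := A) (F := fun s => (unpair s).1)
    (Poly.fst poly_unpair))
  have h2 := IsFP.seq h1 (IsFP.of_poly (A := A) (F := fun s => s) Poly.id) (φ := fun p => p.1)
    (ψ := fun p => if p.2.1 = [true] ∧ (unpair p.1).2.length ≤ idx (unpair p.1).1 ∧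
      (unpair p.1).1.length ≤ (unpair p.1).2.length then [true] else []) (Poly.fst Poly.id)
    (Poly.ite (Poly.decide_and (Poly.decide_eq (Poly.fst (Poly.snd Poly.id)) (NPC.Poly.const _))
      (Poly.decide_and (Poly.decide_le (Poly.length (Poly.snd (poly_unpair.comp (Poly.fst Poly.id))))
        (poly_idx' (Poly.fst (poly_unpair.comp (Poly.fst Poly.id)))))
      (Poly.decide_le (Poly.length (Poly.fst (poly_unpair.comp (Poly.fst Poly.id))))
        (Poly.length (Poly.snd (poly_unpair.comp (Poly.fst Poly.id)))))))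
      (NPC.Poly.const _) (NPC.Poly.const _))
  refine ⟨_, Polynomial.X, h2, fun y => ?_⟩
  simp only [Polynomial.eval_X]
  constructor
  · rintro ⟨z, h3, h4, h5⟩
    refine ⟨z, h3, ?_⟩
    rw [unpair_pairBits, if_pos]
    refine ⟨?_, h4, h3⟩
    show [decide (A z ≠ O z)] = [true]
    rw [decide_eq_true h5]
  · rintro ⟨z, h3, h4⟩
    rw [unpair_pairBits] at h4
    split_ifs at h4 with h5
    · refine ⟨z, h3, h5.2.1, ?_⟩
      have h6 : [decide (A z ≠ O z)] = [true] := h5.1
      rw [List.cons.injEq, decide_eq_true_iff] at h6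
      exact h6.1

theorem isNP_dec {A : Oracle} {p : List Bool → Bool} (hp : Poly p) :
    IsNP A {x | p x = true} := by
  have hf : Poly (fun z : List Bool => [p (unpair z).2]) :=
    Poly.cons (hp.comp (Poly.snd poly_unpair)) (NPC.Poly.const [])
  refine ⟨_, 0, IsFP.of_poly hf, fun x => ?_⟩
  rw [Set.mem_ofPred_eq]
  constructor
  · intro h
    refine ⟨[], by simp, ?_⟩
    rw [unpair_pairBits]
    show [p x] = [true]
    rw [h]
  · rintro ⟨w, -, h⟩
    rw [unpair_pairBits] at h
    have h1 : [p x] = [true] := h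
    simpa using h1

theorem isNP_union {A : Oracle} {L L' : Set (List Bool)} (h : IsNP A L) (h' : IsNP A L') :
    IsNP A (L ∪ L') :=
  isNP_iff.1 (Pool.Agent.H673R2.OneOne.IsNP.union (isNP_iff.2 h) (isNP_iff.2 h'))

theorem isNP_inter {A : Oracle} {L L' : Set (List Bool)} (h : IsNP A L) (h' : IsNP A L') :
    IsNP A (L ∩ L') :=
  isNP_iff.1 (Pool.Agent.H673R2.OneOne.IsNP.inter (isNP_iff.2 h) (isNP_iff.2 h'))

theorem isNP_red {A : Oracle} {L L' : Set (List Bool)} {F : List Bool → List Bool}
    (hF : IsFP A F) (h : ∀ x, x ∈ L ↔ F x ∈ L') (h' : IsNP A L') : IsNP A L :=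
  isNP_iff.1 (Pool.Agent.H673R2.OneOne.IsNP.red ⟨F, isFP_toRO hF, h⟩ (isNP_iff.2 h'))

theorem isNP_GB {O A : Oracle} (hO : IsFP A (fun z => [O z])) {K : Set (List Bool)}
    (hK : IsNP A K) : IsNP A (GB O A K) := by
  have h1 : IsNP A {y : List Bool | decide (y = []) = true} :=
    isNP_dec (Poly.decide_eq Poly.id (NPC.Poly.const _))
  have h2 : IsNP A {y : List Bool | (unpair y).1 ∈ K} :=
    isNP_red (F := fun y => (unpair y).1) (IsFP.of_poly (Poly.fst poly_unpair))
      (fun x => Iff.rfl) hK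
  have h3 := isNP_union h1 (isNP_inter h2 (isNP_Lc hO))
  refine (congrArg (IsNP A) (Set.ext fun y => ?_)).mp h3
  show (decide (y = []) = true ∨ ((unpair y).1 ∈ K ∧ Lc O A y)) ↔ y ∈ GB O A K
  rw [decide_eq_true_iff]
  exact Iff.rfl

theorem pairBits_ne (x a : List Bool) : pairBits x a ≠ [] := by
  intro h
  have h1 := congrArg List.length h
  rw [A2.length_pairBits] at h1
  simp at h1

/-- **The set with gaps is hard.** -/
theorem hard_GB {O A : Oracle} (hO : IsFP A (fun z => [O z]))
    (hS : ∀ (M : Alg) (p : Polynomial ℕ),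
      IsFP A (fun z => ws M p (corr (dec (unpair z).2) O) (unpair z).1))
    {K : Set (List Bool)} (hK : IsNP A K) :
    ∃ F : List Bool → List Bool, IsFP A F ∧ ∀ x, x ∈ K ↔ F x ∈ GB O A K := by
  obtain ⟨V, p, hV, hL⟩ := hK
  obtain ⟨M, hM⟩ := id hV
  obtain ⟨T, hT⟩ : ∃ T : Polynomial ℕ, T = 2 * Polynomial.X + 1 + wb M p := ⟨_, rfl⟩
  -- the list
  have h1 := isFP_sc hO T
  -- the search
  have h2 := IsFP.seq h1 (hS M p) (φ := fun q => pairBits q.1 q.2) (ψ := fun q => q.2.2)
    (poly_pairBits (Poly.fst Poly.id) (Poly.snd Poly.id)) (Poly.snd (Poly.snd Poly.id))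
  obtain ⟨S, hSd⟩ : ∃ S : List Bool → List Bool,
      S = fun x => ws M p (corr (sc O A (T.eval x.length)) O) x := ⟨_, rfl⟩
  have h3 : IsFP A S := by
    refine (congrArg (IsFP A) (funext fun x => ?_)).mp h2
    rw [hSd]
    simp only [unpair_pairBits, dec_bits]
  -- the reduction
  have h4 := IsFP.seq h3 hV (φ := fun q => pairBits q.2.tail q.1)
    (ψ := fun q => if q.2.1.head? = some true ∧ q.2.2 = [true] then [] else
      pairBits q.1 (ones ((wb M p).eval q.1.length)))
    (poly_pairBits (Poly.tail (Poly.snd Poly.id)) (Poly.fst Poly.id))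
    (Poly.ite (Poly.decide_and (Poly.decide_eq (Poly.head? (Poly.fst (Poly.snd Poly.id)))
      (NPC.Poly.const _)) (Poly.decide_eq (Poly.snd (Poly.snd Poly.id)) (NPC.Poly.const _)))
      (NPC.Poly.const _) (poly_pairBits (Poly.fst Poly.id)
        (poly_rep ((UPoly.length (Poly.fst Poly.id)).eval (wb M p)) true)))
  refine ⟨_, h4, fun x => ?_⟩
  simp only
  obtain ⟨y, hy⟩ : ∃ y, y = pairBits x (ones ((wb M p).eval x.length)) := ⟨_, rfl⟩
  rw [← hy]
  have hyl : y.length = T.eval x.length := by
    rw [hy, A2.length_pairBits, ones_length, hT]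
    simp only [Polynomial.eval_add, Polynomial.eval_mul, Polynomial.eval_ofNat, Polynomial.eval_X,
      Polynomial.eval_one]
    omega
  have hyn : y ≠ [] := by
    rw [hy]
    exact pairBits_ne _ _
  have hyu : (unpair y).1 = x := by
    rw [hy, unpair_pairBits]
  have hTl : (wb M p).eval x.length ≤ y.length := by
    rw [hyl, hT]
    simp only [Polynomial.eval_add]
    omega
  -- a difference shows a change
  have key : ∀ w : List Bool, w.length ≤ p.eval x.length →
      M.out (corr (sc O A (T.eval x.length)) O) (pairBits w x) ≠ M.out A (pairBits w x) →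
      Lc O A y := by
    intro w hw hne
    by_contra hcon
    apply hne
    apply wb_spec hw
    intro q hq
    by_contra hq2
    obtain ⟨h5, h6⟩ := corr_sc hq2
    exact hcon ⟨q, hq.trans hTl, by rw [hyl]; exact h6, h5⟩
  have hmem : Lc O A y → (x ∈ K ↔ y ∈ GB O A K) := by
    intro h5
    unfold GB
    rw [Set.mem_ofPred_eq, hyu]
    constructor
    · intro h6
      exact Or.inr ⟨h6, h5⟩
    · rintro (h6 | h6)
      · exact absurd h6 hyn
      · exact h6.1
  by_cases hw : ∃ w : List Bool, w.length ≤ p.eval x.length ∧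
      M.out (corr (sc O A (T.eval x.length)) O) (pairBits w x) = some [true]
  · obtain ⟨w, h5, h6, h7⟩ := ws_some hw
    have h8 : S x = true :: w := by rw [hSd]; exact h7
    rw [h8]
    simp only [List.head?_cons, List.tail_cons, true_and]
    by_cases h9 : V (pairBits w x) = [true]
    · rw [if_pos h9]
      exact ⟨fun _ => Or.inl rfl, fun _ => (hL x).2 ⟨w, h5, h9⟩⟩
    · rw [if_neg h9]
      apply hmem
      apply key w h5
      rw [h6, hM]
      intro h10
      exact h9 (Option.some.inj h10).symm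
  · have h8 : S x = [] := by rw [hSd]; exact ws_none hw
    rw [h8]
    simp only [List.head?_nil]
    rw [if_neg (by simp)]
    by_cases hx : x ∈ K
    · obtain ⟨w, h5, h6⟩ := (hL x).1 hx
      apply hmem
      apply key w h5
      rw [hM, h6]
      intro h10
      exact hw ⟨w, h5, h10⟩
    · refine ⟨fun h => absurd h hx, ?_⟩
      rintro (h6 | h6)
      · exact absurd h6 hyn
      · rw [hyu] at h6
        exact absurd h6.1 hx

end Pool.Agent.TH654.RB
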