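import Pool.Agent.TH654.RB.OD2

/-!
# Two complete sets that are not one-one equivalent
-/

set_option autoImplicit false

namespace Pool.Agent.TH654.RB

open Pool.Agent.NPC Pool.Agent.H620R2.Gauge Pool.Agent.H622R2 Finset Filter
open Pool.Agent.W900.CH (dist finite_diff Close)
open Pool.Agent.TH678.PN Pool.Agent.TH678.EL
open Pool.Agent.H943R5.GC.U6 (isFP_toRO isFP_ofRO)
open Pool.Agent.TH680.LHD (isNP_iff)

/-- complete for `NP` under many-one reductions -/
def NPComplete (A : Oracle) (K : Set (List Bool)) : Prop :=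
  IsNP A K ∧ ∀ L, IsNP A L → ∃ F : List Bool → List Bool, IsFP A F ∧ ∀ x, x ∈ L ↔ F x ∈ K

/-- one-one reducible -/
def RedOne (A : Oracle) (L L' : Set (List Bool)) : Prop :=
  ∃ F : List Bool → List Bool, IsFP A F ∧ Function.Injective F ∧ ∀ x, x ∈ L ↔ F x ∈ L'

theorem exists_complete (A : Oracle) : ∃ K, NPComplete A K := by
  refine ⟨Pool.Agent.H673R2.OneTT.KA A, isNP_iff.1 (Pool.Agent.H673R2.OneTT.isNP_KA A),
    fun L hL => ?_⟩
  obtain ⟨F, hF, h⟩ := Pool.Agent.H673R2.OneTT.hard_KA A L (isNP_iff.2 hL)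
  exact ⟨F, isFP_ofRO hF, h⟩

/-- the set with many elements -/
def KU (K : Set (List Bool)) : Set (List Bool) := {x | x.head? = some true ∨ x.tail ∈ K}

theorem complete_KU {A : Oracle} {K : Set (List Bool)} (h : NPComplete A K) :
    NPComplete A (KU K) := by
  constructor
  · have h1 : IsNP A {y : List Bool | decide (y.head? = some true) = true} :=
      isNP_dec (Poly.decide_eq (Poly.head? Poly.id) (NPC.Poly.const _))
    have h2 : IsNP A {y : List Bool | y.tail ∈ K} :=
      isNP_red (F := List.tail) (IsFP.of_poly (Poly.tail Poly.id)) (fun x => Iff.rfl) h.1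
    have h3 := isNP_union h1 h2
    refine (congrArg (IsNP A) (Set.ext fun y => ?_)).mp h3
    show (decide (y.head? = some true) = true ∨ y.tail ∈ K) ↔ y ∈ KU K
    rw [decide_eq_true_iff]
    exact Iff.rfl
  · intro L hL
    obtain ⟨F, hF, h1⟩ := h.2 L hL
    refine ⟨fun x => false :: F x, IsFP.comp (IsFP.of_poly (F := fun y => false :: y)
      (Poly.cons (NPC.Poly.const _) Poly.id)) hF, fun x => ?_⟩
    rw [h1 x]
    show _ ↔ ((false :: F x).head? = some true ∨ (false :: F x).tail ∈ K)
    simp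

theorem complete_GB {O A : Oracle} (hO : IsFP A (fun z => [O z]))
    (hS : ∀ (M : Alg) (p : Polynomial ℕ),
      IsFP A (fun z => ws M p (corr (dec (unpair z).2) O) (unpair z).1))
    {K : Set (List Bool)} (hK : NPComplete A K) : NPComplete A (GB O A K) := by
  refine ⟨isNP_GB hO hK.1, fun L hL => ?_⟩
  obtain ⟨F, hF, h1⟩ := hK.2 L hL
  obtain ⟨G, hG, h2⟩ := hard_GB hO hS hK.1
  exact ⟨fun x => G (F x), IsFP.comp hG hF, fun x => (h1 x).trans (h2 _)⟩

/-- there are too many strings -/
theorem gap_false {O A : Oracle} {K : Set (List Bool)} {F : List Bool → List Bool}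
    (hinj : Function.Injective F) (h : ∀ x : List Bool, x.head? = some true → F x ∈ GB O A K)
    {P : Polynomial ℕ} (hP : ∀ x, (F x).length ≤ P.eval x.length) {c : ℕ}
    (hgap : ∀ z : List Bool, c < z.length → z.length ≤ P.eval (2 ^ (c + 1) + 1) → A z = O z) :
    False := by
  obtain ⟨m, hm⟩ : ∃ m, m = 2 ^ (c + 1) := ⟨_, rfl⟩
  have hm1 : 0 < m := by rw [hm]; positivity
  -- the images are short
  have h1 : ∀ u : List Bool, u.length = m → (F (true :: u)).length < m := by
    intro u hu
    rcases h (true :: u) rfl with h2 | ⟨-, z, h3, h4, h5⟩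
    · rw [h2]
      exact hm1
    · have h6 := hP (true :: u)
      rw [List.length_cons, hu, hm] at h6
      have h7 : z.length ≤ c := by
        by_contra h8
        exact h5 (hgap z (by omega) (h3.trans h6))
      have h8 := idx_lt z
      have h9 : 2 ^ (z.length + 1) ≤ 2 ^ (c + 1) := Nat.pow_le_pow_right (by norm_num) (by omega)
      rw [hm]
      omega
  have h2 : ∀ j : Fin (2 ^ m), idx (F (true :: bitsOf m j)) < 2 ^ m - 1 := by
    intro j
    have h3 := h1 (bitsOf m j) (length_bitsOf m j)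
    have h4 := idx_lt (F (true :: bitsOf m j))
    have h5 : 2 ^ ((F (true :: bitsOf m j)).length + 1) ≤ 2 ^ m :=
      Nat.pow_le_pow_right (by norm_num) h3
    omega
  have h3 : Function.Injective (fun j : Fin (2 ^ m) =>
      (⟨idx (F (true :: bitsOf m j)), h2 j⟩ : Fin (2 ^ m - 1))) := by
    intro i j hij
    have h4 : idx (F (true :: bitsOf m i)) = idx (F (true :: bitsOf m j)) := congrArg Fin.val hij
    have h5 : F (true :: bitsOf m i) = F (true :: bitsOf m j) := by
      rw [← str_idx (F (true :: bitsOf m i)), h4, str_idx]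
    have h6 := hinj h5
    rw [List.cons.injEq] at h6
    exact Fin.ext (bitsOf_inj i.2 j.2 h6.2)
  have h4 := Fintype.card_le_of_injective _ h3
  rw [Fintype.card_fin, Fintype.card_fin] at h4
  have h5 : 0 < 2 ^ m := by positivity
  omega

/-- **Two complete sets**, if there are gaps between the changes -/
theorem two_sets {O A : Oracle} (hO : IsFP A (fun z => [O z]))
    (hS : ∀ (M : Alg) (p : Polynomial ℕ),
      IsFP A (fun z => ws M p (corr (dec (unpair z).2) O) (unpair z).1))
    (hgap : ∀ P : Polynomial ℕ, ∃ c : ℕ, ∀ z : List Bool, c < z.length →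
      z.length ≤ P.eval (2 ^ (c + 1) + 1) → A z = O z) :
    ∃ K K', NPComplete A K ∧ NPComplete A K' ∧ ¬ RedOne A K K' := by
  obtain ⟨K, hK⟩ := exists_complete A
  refine ⟨KU K, GB O A K, complete_KU hK, complete_GB hO hS hK, ?_⟩
  rintro ⟨F, ⟨M, hM⟩, hinj, h⟩
  obtain ⟨P, hP⟩ := A2.out_bound M
  obtain ⟨c, hc⟩ := hgap P
  exact gap_false hinj (fun x hx => (h x).1 (Or.inl hx)) (fun x => hP A x _ (hM x)) hc

end Pool.Agent.TH654.RB
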