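import Pool.Agent.TH654.RB.OD3

/-!
# The iterated logarithm
-/

set_option autoImplicit false

namespace Pool.Agent.TH654.RB

open Pool.Agent.NPC Pool.Agent.H620R2.Gauge Pool.Agent.H622R2 Finset Filter
open Pool.Agent.W900.CH (dist finite_diff Close)

/-- the towers -/
def tow : ℕ → ℕ
  | 0 => 1
  | k + 1 => 2 ^ tow k

/-- the iterated logarithm -/
def logStar (n : ℕ) : ℕ := Nat.findGreatest (fun k => tow k ≤ n) n

theorem lt_tow (k : ℕ) : k < tow k := by
  induction k with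
  | zero => simp [tow]
  | succ k ih =>
    have h1 : tow k < 2 ^ tow k := Nat.lt_two_pow_self
    show k + 1 < 2 ^ tow k
    omega

theorem tow_strictMono : StrictMono tow :=
  strictMono_nat_of_lt_succ fun _ => Nat.lt_two_pow_self

theorem le_logStar {k n : ℕ} (h : tow k ≤ n) : k ≤ logStar n :=
  Nat.le_findGreatest ((lt_tow k).le.trans h) h

theorem tow_logStar {n : ℕ} (hn : 1 ≤ n) : tow (logStar n) ≤ n :=
  Nat.findGreatest_spec (P := fun k => tow k ≤ n) (Nat.zero_le n) hn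

/-- double exponentials are larger than polynomials -/
theorem poly_lt_tow (P : Polynomial ℕ) : ∃ c₀ : ℕ, ∀ c ≥ c₀,
    P.eval (2 ^ (c + 1) + 1) ≤ 2 ^ (2 ^ c) := by
  obtain ⟨e, n₁, h1⟩ := Pool.Agent.TH678.PC.exists_exp_le P
  refine ⟨max (6 * e + 2) n₁, fun c hc => ?_⟩
  have hc1 : 6 * e + 2 ≤ c := (le_max_left _ _).trans hc
  have hc2 : n₁ ≤ c := (le_max_right _ _).trans hc
  have h2 : c < 2 ^ c := Nat.lt_two_pow_self
  have h3 : 2 ^ c ≤ 2 ^ (c + 1) := Nat.pow_le_pow_right (by norm_num) (by omega)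
  refine (h1 _ (by omega)).trans ?_
  have h4 : 2 ^ (c + 1) + 1 ≤ 2 ^ (c + 2) := by
    rw [pow_succ 2 (c + 1)]
    omega
  refine (Nat.pow_le_pow_left h4 e).trans ?_
  rw [← pow_mul]
  apply Nat.pow_le_pow_right (by norm_num)
  obtain ⟨h, hh⟩ : ∃ h, h = c / 2 := ⟨_, rfl⟩
  have h5 : h + 1 ≤ 2 ^ h := Nat.lt_two_pow_self
  have h6 : h + 1 ≤ 2 ^ (c - h) := by
    have h7 : c - h < 2 ^ (c - h) := Nat.lt_two_pow_self
    omega
  have h8 : 2 ^ c = 2 ^ h * 2 ^ (c - h) := by
    rw [← pow_add]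
    congr 1
    omega
  rw [h8]
  have h9 : (h + 1) * (h + 1) ≤ 2 ^ h * 2 ^ (c - h) := Nat.mul_le_mul h5 h6
  refine le_trans ?_ h9
  have h10 : c + 2 ≤ 3 * (h + 1) := by omega
  have h11 : 3 * e ≤ h + 1 := by omega
  calc (c + 2) * e ≤ 3 * (h + 1) * e := Nat.mul_le_mul_right _ h10
    _ = (3 * e) * (h + 1) := by ring
    _ ≤ (h + 1) * (h + 1) := Nat.mul_le_mul_right _ h11

/-- the number of changes if there is one in each interval -/
theorem many_changes {O A : Oracle} {i₀ : ℕ}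
    (h : ∀ i ≥ i₀, ∃ z : List Bool, tow (2 * i) < z.length ∧ z.length ≤ tow (2 * i + 2) ∧
      A z ≠ O z) (j : ℕ) : j ≤ dist O A (tow (2 * j)) + i₀ := by
  classical
  choose! z h1 h2 h3 using h
  rcases le_or_gt j i₀ with hj | hj
  · omega
  have h4 : (Ico i₀ j).card ≤ (Df O A (tow (2 * j))).card := by
    apply card_le_card_of_injOn z
    · intro i hi
      have hi' := mem_Ico.1 (mem_coe.1 hi)
      rw [mem_coe, mem_Df]
      refine ⟨(h2 i hi'.1).trans (tow_strictMono.monotone (by omega)), h3 i hi'.1⟩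
    · have key : ∀ i ∈ Ico i₀ j, ∀ i' ∈ Ico i₀ j, i < i' → z i ≠ z i' := by
        intro i hi i' hi' hlt heq
        have h5 := h2 i (mem_Ico.1 hi).1
        have h6 := h1 i' (mem_Ico.1 hi').1
        have h7 : tow (2 * i + 2) ≤ tow (2 * i') := tow_strictMono.monotone (by omega)
        rw [heq] at h5
        omega
      intro i hi i' hi' heq
      rcases lt_trichotomy i i' with h5 | h5 | h5
      · exact absurd heq (key i (mem_coe.1 hi) i' (mem_coe.1 hi') h5)
      · exact h5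
      · exact absurd heq.symm (key i' (mem_coe.1 hi') i (mem_coe.1 hi) h5)
  rw [Nat.card_Ico, card_Df] at h4
  omega

theorem dist_mono (O A : Oracle) {m n : ℕ} (h : m ≤ n) : dist O A m ≤ dist O A n := by
  rw [← card_Df, ← card_Df]
  apply card_le_card
  intro y hy
  rw [mem_Df] at hy ⊢
  exact ⟨hy.1.trans h, hy.2⟩

/-- **Few changes leave gaps.** -/
theorem exists_gap {O A : Oracle} {g : ℕ → ℝ} (hg : ∃ᶠ n in atTop, 3 * g n ≤ logStar n)
    (hA : Close g O A) (P : Polynomial ℕ) : ∃ c : ℕ, ∀ z : List Bool, c < z.length →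
      z.length ≤ P.eval (2 ^ (c + 1) + 1) → A z = O z := by
  by_contra hcon
  push Not at hcon
  obtain ⟨c₀, hc⟩ := poly_lt_tow P
  have h1 : ∀ i ≥ c₀, ∃ z : List Bool, tow (2 * i) < z.length ∧ z.length ≤ tow (2 * i + 2) ∧
      A z ≠ O z := by
    intro i hi
    obtain ⟨z, h2, h3, h4⟩ := hcon (tow (2 * i))
    refine ⟨z, h2, h3.trans ?_, h4⟩
    have h5 := lt_tow (2 * i)
    exact hc _ (by omega)
  obtain ⟨n, h2, h3, h4⟩ := (hg.and_eventually (hA.and (eventually_ge_atTop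
    (tow (6 * c₀ + 4))))).exists
  have hn : 1 ≤ n := by
    have := lt_tow (6 * c₀ + 4)
    omega
  have h5 := le_logStar h4
  have h6 := tow_logStar hn
  have h7 : tow (2 * (logStar n / 2)) ≤ n := (tow_strictMono.monotone (by omega)).trans h6
  have h8 := many_changes h1 (logStar n / 2)
  have h9 := dist_mono O A h7
  have h10 : 3 * (dist O A n : ℝ) ≤ logStar n := by linarith
  have h11 : 3 * dist O A n ≤ logStar n := by exact_mod_cast h10
  omega

end Pool.Agent.TH654.RB
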