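import Pool.Agent.TH654.RB.OD3
import Pool.Agent.TH654.RB.CE4
import Pool.Agent.TH678.EL.Run

/-!
# Hidden changes of growing lengths
-/

set_option autoImplicit false

namespace Pool.Agent.TH654.RB

open Pool.Agent.NPC Pool.Agent.H620R2.Gauge Pool.Agent.H622R2 Finset Filter
open Pool.Agent.W900.CH (dist finite_diff Close)
open Pool.Agent.TH678.PN Pool.Agent.TH678.EL

/-- the lengths of the changed strings -/
def mm (c j : ℕ) : ℕ := 2 ^ c ^ j

theorem mm_succ (c j : ℕ) : mm c (j + 1) = mm c j ^ c := by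
  unfold mm
  rw [← pow_mul, pow_succ]

theorem mm_strictMono {c : ℕ} (hc : 2 ≤ c) : StrictMono (mm c) := by
  intro i j h
  exact Nat.pow_lt_pow_right (by norm_num) (Nat.pow_lt_pow_right (by omega) h)

theorem two_le_mm {c : ℕ} (hc : 2 ≤ c) (j : ℕ) : 2 ≤ mm c j := by
  unfold mm
  calc 2 = 2 ^ 1 := by norm_num
    _ ≤ 2 ^ c ^ j := Nat.pow_le_pow_right (by norm_num) (Nat.one_le_pow _ _ (by omega))

theorem lt_mm {c : ℕ} (hc : 2 ≤ c) (j : ℕ) : j < mm c j := by
  have h1 : j < c ^ j := Nat.lt_pow_self (by omega)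
  have h2 : c ^ j < 2 ^ c ^ j := Nat.lt_two_pow_self
  exact h1.trans h2

theorem mm_two_le {c : ℕ} (hc : 2 ≤ c) (j : ℕ) : 2 ^ 2 ^ j ≤ mm c j :=
  Nat.pow_le_pow_right (by norm_num) (Nat.pow_le_pow_left hc j)

/-- the level of a length -/
def Lv (c n j : ℕ) : Prop := 12 * n ≤ mm c j ∧ mm c j < (12 * n) ^ c

theorem exists_level {c n : ℕ} (hc : 2 ≤ c) (hn : 1 ≤ n) : ∃ j, Lv c n j := by
  classical
  have hex : ∃ j, 12 * n ≤ mm c j := ⟨12 * n, (lt_mm hc _).le⟩
  obtain ⟨j, hj⟩ : ∃ j, j = Nat.find hex := ⟨_, rfl⟩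
  have h1 : 12 * n ≤ mm c j := by rw [hj]; exact Nat.find_spec hex
  refine ⟨j, h1, ?_⟩
  rcases j with _ | k
  · have h2 : mm c 0 = 2 := by simp [mm]
    omega
  · have h2 : ¬ 12 * n ≤ mm c k := Nat.find_min hex (by omega)
    rw [mm_succ]
    exact Nat.pow_lt_pow_left (by omega) (by omega)

theorem level_lt {c n i j : ℕ} (hc : 2 ≤ c) (h : 12 * n ≤ mm c i) (hij : i < j) :
    (12 * n) ^ c ≤ mm c j := by
  have h1 : mm c (i + 1) ≤ mm c j := (mm_strictMono hc).monotone hij
  rw [mm_succ] at h1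
  exact (Nat.pow_le_pow_left h c).trans h1

theorem level_unique {c n i j : ℕ} (hc : 2 ≤ c) (hi : Lv c n i) (hj : Lv c n j) : i = j := by
  rcases lt_trichotomy i j with h | h | h
  · have := level_lt hc hi.1 h
    have := hj.2
    omega
  · exact h
  · have := level_lt hc hj.1 h
    have := hi.2
    omega

/-! ### Tags -/

/-- the tag of `z` is `s` -/
def TagS (s : ℕ) (z : List Bool) : Prop := z.take (s + 2) = ones (s + 1) ++ [false]

/-- the code of `s` and `x` -/
def Cd (s : ℕ) (x : List Bool) : List Bool := ones (s + 1) ++ false :: true :: pairBits x []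

theorem tag_app (s : ℕ) (r : List Bool) : TagS s (ones (s + 1) ++ false :: r) := by
  unfold TagS
  rw [List.take_append]
  rw [ones_length, List.take_of_length_le (by rw [ones_length]; omega)]
  have : s + 2 - (s + 1) = 1 := by omega
  rw [this]
  rfl

theorem tag_unique {s s' : ℕ} {z : List Bool} (h : TagS s z) (h' : TagS s' z) : s = s' := by
  have key : ∀ {a b : ℕ}, a < b → TagS a z → TagS b z → False := by
    intro a b hab ha hb
    have h1 : (z.take (a + 2))[a + 1]? = some false := by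
      rw [ha, List.getElem?_append_right (by rw [ones_length])]
      simp [ones_length]
    have h2 : (z.take (b + 2))[a + 1]? = some true := by
      rw [hb, List.getElem?_append_left (by rw [ones_length]; omega)]
      unfold ones
      rw [List.getElem?_replicate, if_pos (by omega)]
    rw [List.getElem?_take, if_pos (by omega)] at h1 h2
    rw [h1] at h2
    simp at h2
  rcases lt_trichotomy s s' with h1 | h1 | h1
  · exact (key h1 h h').elim
  · exact h1
  · exact (key h1 h' h).elim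

theorem tag_of_cd {s : ℕ} {x z : List Bool} (h : Cd s x <+: z) : TagS s z := by
  obtain ⟨r, rfl⟩ := h
  unfold Cd
  rw [List.append_assoc, List.cons_append]
  exact tag_app _ _

theorem cd_inj {s : ℕ} {x x' z : List Bool} (h : Cd s x <+: z) (h' : Cd s x' <+: z) : x = x' := by
  obtain ⟨r, rfl⟩ := h
  obtain ⟨r', h'⟩ := h'
  unfold Cd at h'
  rw [List.append_assoc, List.append_assoc, List.append_cancel_left_eq] at h'
  simp only [List.cons_append, List.cons.injEq, true_and] at h'
  rw [pairBits_append, pairBits_append] at h'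
  have h1 := congrArg (fun t => (unpair t).1) h'
  simp only [unpair_pairBits] at h1
  exact h1.symm

theorem not_cd {s : ℕ} {x r : List Bool} : ¬ Cd s x <+: ones (s + 1) ++ false :: false :: r := by
  rintro ⟨t, ht⟩
  unfold Cd at ht
  rw [List.append_assoc, List.append_cancel_left_eq] at ht
  simp at ht

theorem cd_length (s : ℕ) (x : List Bool) : (Cd s x).length = s + 2 * x.length + 4 := by
  unfold Cd
  rw [List.length_append, ones_length, List.length_cons, List.length_cons, A2.length_pairBits,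
    List.length_nil]
  omega

theorem neutral {s : ℕ} {r : List Bool} : ¬ TagS s (false :: r) := by
  unfold TagS ones
  rw [List.replicate_succ]
  simp

/-! ### Queries -/

/-- the questions -/
def Qst (M : Alg) (A : Oracle) (y : List Bool) : Finset (List Bool) :=
  qset M A y (M.p.eval y.length) []

theorem Qst_agree {M : Alg} {A B : Oracle} {y : List Bool} (h : ∀ q ∈ Qst M A y, A q = B q) :
    M.out B y = M.out A y := run_agree _ _ h

/-- the inputs -/
def inn (s : ℕ) (x : List Bool) : List Bool := pairBits (ones s) x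

theorem inn_length (s : ℕ) (x : List Bool) : (inn s x).length = 2 * s + 1 + x.length := by
  unfold inn
  rw [A2.length_pairBits, ones_length]
  omega

/-- the active algorithms -/
def actF (N : ℕ → ℕ) (j : ℕ) : Finset ℕ := (range j).filter (fun s => N s ≤ j)

/-- the forbidden strings -/
def Fb (c : ℕ) (g : ℕ → Alg × Alg × Polynomial ℕ) (N : ℕ → ℕ) (O : Oracle)
    (l : List (List Bool)) : Finset (List Bool) :=
  (actF N l.length).biUnion fun s => (range (l.length + 1)).biUnion fun i =>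
    ((range (2 ^ (mm c l.length / 12 + 1))).image str).biUnion fun x =>
      Qst (g s).1 (corr (l.take i) O) (inn s x)

theorem mem_Fb {c : ℕ} {g : ℕ → Alg × Alg × Polynomial ℕ} {N : ℕ → ℕ} {O : Oracle}
    {l : List (List Bool)} {s i : ℕ} {x q : List Bool} (hs : s ∈ actF N l.length)
    (hi : i ≤ l.length) (hx : 12 * x.length ≤ mm c l.length)
    (hq : q ∈ Qst (g s).1 (corr (l.take i) O) (inn s x)) : q ∈ Fb c g N O l := by
  unfold Fb
  rw [mem_biUnion]
  refine ⟨s, hs, ?_⟩
  rw [mem_biUnion]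
  refine ⟨i, mem_range.2 (by omega), ?_⟩
  rw [mem_biUnion]
  refine ⟨x, ?_, hq⟩
  rw [mem_image]
  refine ⟨idx x, ?_, str_idx x⟩
  rw [mem_range]
  have h1 := idx_lt x
  have h2 : 2 ^ (x.length + 1) ≤ 2 ^ (mm c l.length / 12 + 1) :=
    Nat.pow_le_pow_right (by norm_num) (by omega)
  omega

/-- the conditions for the bounds -/
def Thr (c : ℕ) (g : ℕ → Alg × Alg × Polynomial ℕ) (N : ℕ → ℕ) : Prop :=
  2 ≤ c ∧ ∀ s, ∀ j ≥ N s, 4 ≤ j ∧ (g s).1.p.eval (2 * s + 1 + mm c j) ≤ 2 ^ (mm c j / 4)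

theorem sq_le_pow {k : ℕ} (hk : 4 ≤ k) : k * k ≤ 2 ^ k := by
  induction k, hk using Nat.le_induction with
  | base => norm_num
  | succ k hk ih =>
    rw [pow_succ]
    nlinarith

theorem exists_thr {c : ℕ} (hc : 2 ≤ c) (g : ℕ → Alg × Alg × Polynomial ℕ) :
    ∃ N, Thr c g N := by
  have h1 : ∀ s, ∃ n, ∀ j ≥ n, 4 ≤ j ∧ (g s).1.p.eval (2 * s + 1 + mm c j) ≤ 2 ^ (mm c j / 4) := by
    intro s
    obtain ⟨e, n₁, h2⟩ := Pool.Agent.TH678.PC.exists_exp_le (g s).1.p
    refine ⟨max (max 4 n₁) (max (2 * s + 1) (4 * (2 * e))), fun j hj => ?_⟩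
    have a1 : 4 ≤ j := (le_max_left _ _).trans ((le_max_left _ _).trans hj)
    have a2 : n₁ ≤ j := (le_max_right _ _).trans ((le_max_left _ _).trans hj)
    have a3 : 2 * s + 1 ≤ j := (le_max_left _ _).trans ((le_max_right _ _).trans hj)
    have a4 : 4 * (2 * e) ≤ j := (le_max_right _ _).trans ((le_max_right _ _).trans hj)
    have a5 := lt_mm hc j
    refine ⟨a1, (h2 _ (by omega)).trans ?_⟩
    have a6 : 2 * s + 1 + mm c j ≤ mm c j * mm c j := by nlinarith [two_le_mm hc j]
    refine (Nat.pow_le_pow_left a6 e).trans ?_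
    have a7 : (mm c j * mm c j) ^ e = 2 ^ (c ^ j * (2 * e)) := by
      unfold mm
      rw [← pow_add, ← pow_mul]
      congr 1
      ring
    rw [a7]
    apply Nat.pow_le_pow_right (by norm_num)
    rw [Nat.le_div_iff_mul_le (by norm_num)]
    have a8 : j < c ^ j := Nat.lt_pow_self (by omega)
    have a9 : c ^ j * c ^ j ≤ mm c j := sq_le_pow (by omega)
    calc c ^ j * (2 * e) * 4 = c ^ j * (4 * (2 * e)) := by ring
      _ ≤ c ^ j * c ^ j := Nat.mul_le_mul_left _ (by omega)
      _ ≤ mm c j := a9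
  choose N hN using h1
  exact ⟨N, hc, hN⟩

theorem big {c j : ℕ} (hc : 2 ≤ c) (hj : 4 ≤ j) : 65536 ≤ mm c j ∧ 12 * (2 * j + 1) ≤ mm c j := by
  have h0 := mm_two_le hc j
  have h1 : 2 ^ 2 ^ 4 ≤ 2 ^ 2 ^ j :=
    Nat.pow_le_pow_right (by norm_num) (Nat.pow_le_pow_right (by norm_num) hj)
  have h2 : 2 ^ 2 ^ 4 = 65536 := by norm_num
  refine ⟨by omega, ?_⟩
  have h3 : ∀ k : ℕ, 4 ≤ k → k + 12 ≤ 2 ^ k := by
    intro k hk
    induction k, hk using Nat.le_induction with
    | base => norm_num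
    | succ k hk ih =>
      rw [pow_succ]
      omega
  have h4 : 2 ^ (j + 12) ≤ 2 ^ 2 ^ j := Nat.pow_le_pow_right (by norm_num) (h3 j hj)
  have h5 : j < 2 ^ j := Nat.lt_two_pow_self
  rw [pow_add] at h4
  omega

theorem card_Fb {c : ℕ} {g : ℕ → Alg × Alg × Polynomial ℕ} {N : ℕ → ℕ} (hN : Thr c g N)
    (O : Oracle)
    (l : List (List Bool)) : (Fb c g N O l).card < 2 ^ (mm c l.length / 2) := by
  obtain ⟨j, hj⟩ : ∃ j, j = l.length := ⟨_, rfl⟩
  rcases (actF N l.length).eq_empty_or_nonempty with he | ⟨s₀, hs₀⟩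
  · unfold Fb
    rw [he]
    simp
  have h4 : 4 ≤ j := by
    unfold actF at hs₀
    rw [mem_filter] at hs₀
    rw [hj]
    exact (hN.2 s₀ _ hs₀.2).1
  have h1 : (Fb c g N O l).card ≤ j * ((j + 1) * (2 ^ (mm c j / 12 + 1) * 2 ^ (mm c j / 4))) := by
    unfold Fb
    rw [← hj]
    refine (card_biUnion_le_card_mul _ _ ((j + 1) * (2 ^ (mm c j / 12 + 1) * 2 ^ (mm c j / 4)))
      fun s hs => ?_).trans (Nat.mul_le_mul_right _ ?_)
    · refine (card_biUnion_le_card_mul _ _ (2 ^ (mm c j / 12 + 1) * 2 ^ (mm c j / 4))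
        fun i _ => ?_).trans (Nat.mul_le_mul_right _ (by rw [card_range]))
      refine (card_biUnion_le_card_mul _ _ (2 ^ (mm c j / 4))
        fun x hx => ?_).trans (Nat.mul_le_mul_right _ (card_image_le.trans (by rw [card_range])))
      unfold Qst
      refine (qset_card _ _ _ _ _).trans ?_
      unfold actF at hs
      rw [mem_filter] at hs
      refine le_trans (eval_mono _ ?_) (hN.2 s j hs.2).2
      rw [inn_length]
      rw [mem_image] at hx
      obtain ⟨i, hi, rfl⟩ := hx
      rw [mem_range] at hi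
      rw [length_str]
      have h5 : Nat.log 2 (i + 1) ≤ mm c j / 12 + 1 := by
        have h6 : Nat.log 2 (i + 1) ≤ Nat.log 2 (2 ^ (mm c j / 12 + 1)) :=
          Nat.log_mono_right (by omega)
        rwa [Nat.log_pow (by norm_num)] at h6
      have h7 := two_le_mm hN.1 j
      omega
    · unfold actF
      exact (card_filter_le _ _).trans (by rw [card_range])
  obtain ⟨h5, h6⟩ := big hN.1 h4
  rw [← hj]
  refine h1.trans_lt ?_
  have h7 : j < 2 ^ j := Nat.lt_two_pow_self
  have h8 : j * (j + 1) * 2 ≤ 2 ^ (2 * j + 1) := by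
    rw [pow_succ, two_mul, pow_add]
    exact Nat.mul_le_mul_right _ (Nat.mul_le_mul h7.le h7)
  have h9 : 2 ^ (2 * j + 1) ≤ 2 ^ (mm c j / 12) := Nat.pow_le_pow_right (by norm_num) (by omega)
  calc j * ((j + 1) * (2 ^ (mm c j / 12 + 1) * 2 ^ (mm c j / 4)))
      = (j * (j + 1) * 2) * (2 ^ (mm c j / 12) * 2 ^ (mm c j / 4)) := by rw [pow_succ]; ring
    _ ≤ 2 ^ (mm c j / 12) * (2 ^ (mm c j / 12) * 2 ^ (mm c j / 4)) :=
        Nat.mul_le_mul_right _ (h8.trans h9)
    _ = 2 ^ (mm c j / 12 + (mm c j / 12 + mm c j / 4)) := by rw [pow_add, pow_add]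
    _ < 2 ^ (mm c j / 2) := Nat.pow_lt_pow_right (by norm_num) (by omega)

/-- a string outside a small set -/
theorem avoid (F : Finset (List Bool)) {ρ : ℕ} (h : F.card < 2 ^ ρ) (π : List Bool) :
    ∃ r : List Bool, r.length = ρ ∧ π ++ r ∉ F := by
  by_contra hcon
  push Not at hcon
  have h1 : (range (2 ^ ρ)).card ≤ F.card := by
    apply card_le_card_of_injOn (fun i => π ++ bitsOf ρ i)
    · intro i _
      exact hcon _ (length_bitsOf _ _)
    · intro i hi j hj hij
      have h2 : bitsOf ρ i = bitsOf ρ j := List.append_cancel_left hij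
      exact bitsOf_inj (mem_range.1 (mem_coe.1 hi)) (mem_range.1 (mem_coe.1 hj)) h2
  rw [card_range] at h1
  omega

end Pool.Agent.TH654.RB
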