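import Pool.Agent.TH654.RB.OE2

/-!
# One 1-degree
-/

set_option autoImplicit false

namespace Pool.Agent.TH654.RB

open Pool.Agent.NPC Pool.Agent.H620R2.Gauge Pool.Agent.H622R2 Finset Filter
open Pool.Agent.W900.CH (dist finite_diff Close)
open Pool.Agent.TH678.PN Pool.Agent.TH678.EL

theorem poly_Cd {α : Type} [TEnc α] {s x : α → List Bool} (hs : Poly s) (hx : Poly x) :
    Poly (fun a => Cd (s a).length (x a)) := by
  unfold Cd ones
  exact Poly.append (poly_rep ((UPoly.length hs).add (UPoly.const 1)) true)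
    (Poly.cons (NPC.Poly.const _) (Poly.cons (NPC.Poly.const _)
      (poly_pairBits hx (NPC.Poly.const []))))

/-- the hidden language is in `NP` -/
theorem isNP_DD (c : ℕ) {O A : Oracle} (hO : IsFP A (fun z => [O z])) {L : Set (List Bool)}
    (hL : IsNP A L) : IsNP A (DD c O A L) := by
  obtain ⟨V, p, hV, hL⟩ := hL
  have pz : Poly (fun t : List Bool => (unpair (unpair t).1).1) :=
    Poly.fst (poly_unpair.comp (Poly.fst poly_unpair))
  have pw : Poly (fun t : List Bool => (unpair (unpair t).1).2) :=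
    Poly.snd (poly_unpair.comp (Poly.fst poly_unpair))
  have ps : Poly (fun t : List Bool => (unpair (unpair t).2).1) :=
    Poly.fst (poly_unpair.comp (Poly.snd poly_unpair))
  have px : Poly (fun t : List Bool => (unpair (unpair t).2).2) :=
    Poly.snd (poly_unpair.comp (Poly.snd poly_unpair))
  have h1 := IsFP.comp (isFP_diff hO) (IsFP.of_poly (A := A) pz)
  have h2 := IsFP.comp hV (IsFP.of_poly (A := A) (poly_pairBits pw px))
  have c0 : Poly (fun q : List Bool × List Bool × List Bool => q.1) := Poly.fst Poly.id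
  have cz := pz.comp c0
  have cw := pw.comp c0
  have cs := ps.comp c0
  have cx := px.comp c0
  have e1 := Poly.decide_eq (Poly.fst (Poly.snd (Poly.id (α := List Bool × List Bool × List Bool))))
    (NPC.Poly.const [true])
  have e2 := Poly.decide_le (Poly.mul (NPC.Poly.const 12) (Poly.length cx)) (Poly.length cz)
  have e3 := Poly.decide_lt (Poly.length cz) (((UPoly.length cx).eval
    ((12 * Polynomial.X) ^ c)).toPoly)
  have e4 := Poly.decide_not (Poly.decide_eq (R1.poly_take cz
    ((UPoly.length cs).add (UPoly.const 2)))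
    (Poly.append (poly_rep ((UPoly.length cs).add (UPoly.const 1)) true)
      (NPC.Poly.const [false])))
  have e5 := Poly.decide_le (Poly.length cw) ((UPoly.length cx).eval p).toPoly
  have e6 := Poly.decide_eq (Poly.snd (Poly.snd (Poly.id (α := List Bool × List Bool × List Bool))))
    (NPC.Poly.const [true])
  have e7 := Poly.decide_eq (poly_Cd cs cx) (R1.poly_take cz (UPoly.length (poly_Cd cs cx)))
  have h3 := IsFP.seq h1 h2 (φ := fun q => q.1) (Poly.fst Poly.id)
    (Poly.ite (Poly.decide_and e1 (Poly.decide_and e2 (Poly.decide_and e3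
      (Poly.decide_or (Poly.decide_and e4 (Poly.decide_and e5 e6)) e7))))
      (NPC.Poly.const [true]) (NPC.Poly.const []))
  refine ⟨_, 2 * (12 * Polynomial.X) ^ c + 1 + p, h3, fun u => ?_⟩
  have hx : (unpair u).2.length ≤ u.length := usl u
  constructor
  · rintro ⟨z, h4, h5, h6, h7⟩
    have h8 : (12 * (unpair u).2.length) ^ c ≤ (12 * u.length) ^ c :=
      Nat.pow_le_pow_left (Nat.mul_le_mul_left _ hx) c
    rcases h7 with ⟨h9, h10⟩ | h9
    · obtain ⟨w, h11, h12⟩ := (hL _).1 h10
      refine ⟨pairBits z w, ?_, ?_⟩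
      · rw [A2.length_pairBits]
        have h13 := eval_mono p hx
        simp only [Polynomial.eval_add, Polynomial.eval_mul, Polynomial.eval_ofNat,
          Polynomial.eval_X, Polynomial.eval_one, Polynomial.eval_pow]
        omega
      · simp only [unpair_pairBits, Polynomial.eval_mul, Polynomial.eval_ofNat,
          Polynomial.eval_X, Polynomial.eval_pow]
        rw [if_pos]
        refine ⟨by rw [decide_eq_true h6], h4, h5, Or.inl ⟨h9, h11, h12⟩⟩
    · refine ⟨pairBits z [], ?_, ?_⟩
      · rw [A2.length_pairBits, List.length_nil]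
        simp only [Polynomial.eval_add, Polynomial.eval_mul, Polynomial.eval_ofNat,
          Polynomial.eval_X, Polynomial.eval_one, Polynomial.eval_pow]
        omega
      · simp only [unpair_pairBits, Polynomial.eval_mul, Polynomial.eval_ofNat,
          Polynomial.eval_X, Polynomial.eval_pow]
        rw [if_pos]
        exact ⟨by rw [decide_eq_true h6], h4, h5, Or.inr (List.prefix_iff_eq_take.1 h9)⟩
  · rintro ⟨W, h4, h5⟩
    simp only [unpair_pairBits, Polynomial.eval_mul, Polynomial.eval_ofNat,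
      Polynomial.eval_X, Polynomial.eval_pow] at h5
    split_ifs at h5 with h6
    · obtain ⟨h7, h8, h9, h10⟩ := h6
      rw [List.cons.injEq, decide_eq_true_iff] at h7
      refine ⟨(unpair W).1, h8, h9, h7.1, ?_⟩
      rcases h10 with ⟨h11, h12, h13⟩ | h11
      · exact Or.inl ⟨h11, (hL _).2 ⟨(unpair W).2, h12, h13⟩⟩
      · exact Or.inr (List.prefix_iff_eq_take.2 h11)

/-- the number of changes -/
theorem dist_AI {c : ℕ} {g : ℕ → Alg × Alg × Polynomial ℕ} {N : ℕ → ℕ} (hN : Thr c g N)
    (O : Oracle) (n : ℕ) : dist O (AI hN O) n ≤ Nat.log c (Nat.log 2 n) + 1 := by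
  classical
  rw [← card_Df]
  have h1 : Df O (AI hN O) n ⊆ (range (Nat.log c (Nat.log 2 n) + 1)).image (Zs hN O) := by
    intro y hy
    rw [mem_Df] at hy
    obtain ⟨j, rfl⟩ := (AI_ne hN O).1 hy.2
    rw [mem_image]
    refine ⟨j, ?_, rfl⟩
    rw [mem_range]
    have h2 := hy.1
    rw [(Zs_spec hN O j).1] at h2
    unfold mm at h2
    have h3 : c ^ j ≤ Nat.log 2 n := by
      have h4 := Nat.log_mono_right (b := 2) h2
      rwa [Nat.log_pow (by norm_num)] at h4
    have h5 : j ≤ Nat.log c (Nat.log 2 n) := by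
      have h4 := Nat.log_mono_right (b := c) h3
      rwa [Nat.log_pow (by have := hN.1; omega)] at h4
    omega
  refine (card_le_card h1).trans (card_image_le.trans ?_)
  rw [card_range]

/-- **Few changes can give one 1-degree.** -/
theorem exists_one {c : ℕ} (hc : 2 ≤ c) {O : Oracle} (hO : ∀ A : Oracle,
    (∃ d : Polynomial ℕ, ∀ m, dist O A m ≤ d.eval m) → IsFP A (fun z => [O z])) :
    ∃ A : Oracle, (∀ n, dist O A n ≤ Nat.log c (Nat.log 2 n) + 1) ∧
      ∀ K K' : Set (List Bool), IsNP A K →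
        (∀ L, IsNP A L → ∃ F : List Bool → List Bool, IsFP A F ∧ ∀ x, x ∈ L ↔ F x ∈ K') →
        RedOne A K K' := by
  have c1 := CC.poly_countable
  obtain ⟨al, _⟩ := exists_alg
  have c2 : Countable Alg := inferInstance
  have c3 : Nonempty (Alg × Alg × Polynomial ℕ) := ⟨(al 0, al 0, 0)⟩
  obtain ⟨g, hg⟩ := exists_surjective_nat (Alg × Alg × Polynomial ℕ)
  obtain ⟨N, hN⟩ := exists_thr hc g
  obtain ⟨A, hA⟩ : ∃ A, A = AI hN O := ⟨_, rfl⟩
  have hdist : ∀ n, dist O A n ≤ Nat.log c (Nat.log 2 n) + 1 := fun n => by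
    rw [hA]
    exact dist_AI hN O n
  have hOA : IsFP A (fun z => [O z]) := hO A ⟨Polynomial.X + 1, fun m => by
    have h1 := hdist m
    have h2 : Nat.log c (Nat.log 2 m) ≤ m := (Nat.log_le_self _ _).trans (Nat.log_le_self _ _)
    simp only [Polynomial.eval_add, Polynomial.eval_X, Polynomial.eval_one]
    omega⟩
  refine ⟨A, hdist, fun K K' hK hK' => ?_⟩
  obtain ⟨V, p, ⟨M₀, hM₀⟩, hL⟩ := id hK
  -- the padded language
  have h1 : ∀ u, u ∈ Lp M₀ p A ↔ (wb M₀ p).eval (unpair u).1.length ≤ (unpair u).2.length ∧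
      (unpair u).1 ∈ K := by
    intro u
    rw [hL]
    unfold Lp
    rw [Set.mem_ofPred_eq]
    simp only [hM₀, Option.some.injEq]
  have h2 : IsNP A (Lp M₀ p A) := by
    have h3 : IsNP A {u : List Bool | decide ((wb M₀ p).eval (unpair u).1.length ≤
        (unpair u).2.length) = true} :=
      isNP_dec (Poly.decide_le ((UPoly.length (Poly.fst poly_unpair)).eval (wb M₀ p)).toPoly
        (Poly.length (Poly.snd poly_unpair)))
    have h4 : IsNP A {u : List Bool | (unpair u).1 ∈ K} :=
      isNP_red (F := fun y => (unpair y).1) (IsFP.of_poly (Poly.fst poly_unpair))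
        (fun x => Iff.rfl) hK
    refine (congrArg (IsNP A) (Set.ext fun u => ?_)).mp (isNP_inter h3 h4)
    rw [h1 u]
    show (decide ((wb M₀ p).eval (unpair u).1.length ≤ (unpair u).2.length) = true ∧
      (unpair u).1 ∈ K) ↔ _
    rw [decide_eq_true_iff]
  obtain ⟨h, hh, hB⟩ := hK' _ (isNP_DD c hOA h2)
  obtain ⟨M, hM⟩ := id hh
  obtain ⟨s, hs⟩ := hg (M, M₀, p)
  have h3 := main_arg hN O (s := s) (L := Lp M₀ p A) (B := K') (by rw [hs, hA]) (h := h)
    (fun u => by rw [hs, ← hA]; exact hM u) (fun u => by rw [← hA]; exact hB u)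
  obtain ⟨h4, n₁, h5⟩ := h3
  obtain ⟨E, hE⟩ : ∃ E : List Bool → List Bool,
      E = fun x => pairBits x (ones ((wb M₀ p).eval x.length + n₁)) := ⟨_, rfl⟩
  have hEl : ∀ x, (E x).length = 2 * x.length + 1 + ((wb M₀ p).eval x.length + n₁) := by
    intro x
    rw [hE, A2.length_pairBits, ones_length]
    omega
  have hEp : Poly E := by
    rw [hE]
    exact poly_pairBits Poly.id (poly_rep (((UPoly.length Poly.id).eval (wb M₀ p)).add
      (UPoly.const n₁)) true)
  have hEm : ∀ x, x ∈ K ↔ E x ∈ Lp M₀ p A := by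
    intro x
    rw [h1, hE]
    simp only [unpair_pairBits, ones_length]
    exact ⟨fun h' => ⟨by omega, h'⟩, fun h' => h'.2⟩
  refine ⟨fun x => h (inn s (E x)), IsFP.comp hh (IsFP.of_poly ?_), ?_, fun x => ?_⟩
  · exact poly_pairBits (NPC.Poly.const (ones s)) hEp
  · intro x x' hx
    have h6 := h5 (E x) (E x') (by rw [hEl]; omega) (by rw [hEl]; omega) hx
    have h7 := congrArg (fun t => (unpair t).1) h6
    rw [hE] at h7
    simpa only [unpair_pairBits] using h7
  · rw [hEm x]
    exact h4 (E x) (by rw [hEl]; omega)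

end Pool.Agent.TH654.RB
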