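import Pool.Agent.TH654.RB.Pnp
import Pool.Agent.H620R2.GaugeX.X8
import Pool.Agent.H620R2.GaugeQ.Q8

/-!
# Polynomial space and quantum polynomial time near a suitable oracle
-/

set_option autoImplicit false

namespace Pool.Agent.TH654.RB

open Pool.Agent.NPC Pool.Agent.H620R2.Gauge Pool.Agent.H622R2 Finset Filter
open Pool.Agent.W900.CH (dist finite_diff Close)
open Pool.Agent.TH678.PN Pool.Agent.TH678.EL

theorem cut_congr {m : ℕ} {A A' : Oracle} (h : ∀ y : List Bool, y.length ≤ m → A y = A' y) :
    CC.cut m A = CC.cut m A' := by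
  funext y
  unfold CC.cut
  by_cases hy : y.length ≤ m
  · rw [if_pos hy, if_pos hy, h y hy]
  · rw [if_neg hy, if_neg hy]

/-- the task for an algorithm with polynomial space -/
noncomputable def spaceTask (M : SAlg) (b : Polynomial ℕ) : Task where
  b := b
  V := fun A x => CC.Acc M (CC.cut (b.eval x.length) A) x
  loc := fun A A' x h => by rw [cut_congr h]

/-- the task for quantum circuits -/
noncomputable def circTask (C : List Bool → List Unit × List Gate)
    (hC : PolyTime (fun x => bits (C x))) : Task where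
  b := (circ_bound hC).choose
  V := fun A x => 2 / 3 ≤ accProb A (C x)
  loc := fun A A' x h => by
    have h1 : accProb A (C x) = accProb A' (C x) :=
      accProb_local (N := 0) fun q k hq y hy => h y (by
        have := ((circ_bound hC).choose_spec x).2 q k hq
        omega)
    rw [h1]

open Classical in
/-- all tasks -/
theorem exists_tasks : ∃ τ : ℕ → Task,
    (∀ (A : Oracle) (L : Set (List Bool)), IsPSPACE A L → ∃ e, L = {x | (τ e).V A x}) ∧
    (∀ (A : Oracle) (L : Set (List Bool)), IsBQP A L → ∃ e, L = {x | (τ e).V A x}) := by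
  obtain ⟨g, hg⟩ := CC.exists_enum
  obtain ⟨c, hc⟩ := (countable_circ.exists_eq_range ⟨fun _ => ([], []),
    polyTime_bits (NPC.Poly.const _)⟩)
  have hc1 : ∀ e, PolyTime (fun x => bits (c e x)) := fun e => by
    have h1 : c e ∈ {C : List Bool → List Unit × List Gate | PolyTime (fun x => bits (C x))} := by
      rw [hc]
      exact ⟨e, rfl⟩
    exact h1
  refine ⟨fun e => if e % 2 = 0 then
    spaceTask (g (e / 2)).1 (pspace_task (g (e / 2)).1 (g (e / 2)).2).choose else
    circTask (c (e / 2)) (hc1 (e / 2)), ?_, ?_⟩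
  · rintro A L ⟨M, p, hM⟩
    obtain ⟨i, hi⟩ := hg (M, p)
    refine ⟨2 * i, ?_⟩
    have h1 : 2 * i % 2 = 0 := by omega
    have h2 : 2 * i / 2 = i := by omega
    simp only [h1, if_true, h2]
    have h3 := (pspace_task (g i).1 (g i).2).choose_spec A L (by rw [hi]; exact hM)
    ext x
    exact h3 x
  · rintro A L ⟨C, hC, hL⟩
    have h0 : C ∈ {C : List Bool → List Unit × List Gate | PolyTime (fun x => bits (C x))} := hC
    rw [hc] at h0
    obtain ⟨i, hi⟩ := h0
    refine ⟨2 * i + 1, ?_⟩
    have h1 : ¬ (2 * i + 1) % 2 = 0 := by omega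
    have h2 : (2 * i + 1) / 2 = i := by omega
    simp only [h1, if_false, h2]
    ext x
    change x ∈ L ↔ 2 / 3 ≤ accProb A (c i x)
    rw [hi]
    constructor
    · exact (hL x).1
    · intro h3
      by_contra h4
      have := (hL x).2 h4
      linarith

/-- **Polynomially many changes.** -/
theorem exists_robust : ∃ O : Oracle, ∀ A : Oracle,
    (∃ d : Polynomial ℕ, ∀ m, dist O A m ≤ d.eval m) →
    (∀ L, IsPSPACE A L → IsPNP A L) ∧ ∀ L, IsBQP A L → IsPNP A L := by
  obtain ⟨τ, h1, h2⟩ := exists_tasks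
  obtain ⟨O, hO⟩ := robust_tasks τ
  refine ⟨O, fun A hA => ⟨fun L hL => ?_, fun L hL => ?_⟩⟩
  · obtain ⟨e, rfl⟩ := h1 A L hL
    exact hO A hA e
  · obtain ⟨e, rfl⟩ := h2 A L hL
    exact hO A hA e

end Pool.Agent.TH654.RB
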