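import Pool.Agent.TH654.RB.OF1

/-!
# The construction
-/

set_option autoImplicit false

namespace Pool.Agent.TH654.RB

open Pool.Agent.NPC Pool.Agent.H620R2.Gauge Pool.Agent.H622R2 Finset Filter
open Pool.Agent.W900.CH (dist finite_diff Close)
open Pool.Agent.TH678.PN Pool.Agent.TH678.EL

theorem usl (z : List Bool) : (unpair z).2.length ≤ z.length := by
  have := Pool.Agent.H591R3.PHG.LangSig.length_unpair z
  omega

/-- the padded language of a family of questions -/
def Lp (T : Task) (X : Oracle) : Set (List Bool) :=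
  {u | T.b.eval (unpair u).1.length ≤ (unpair u).2.length ∧ T.V X (unpair u).1}

theorem Lp_local {T : Task} {X X' : Oracle} {u : List Bool}
    (h : ∀ y : List Bool, y.length ≤ u.length → X y = X' y) : u ∈ Lp T X ↔ u ∈ Lp T X' := by
  have key : ∀ {X X' : Oracle}, (∀ y : List Bool, y.length ≤ u.length → X y = X' y) →
      u ∈ Lp T X → u ∈ Lp T X' := by
    rintro X X' h ⟨h1, h2⟩
    exact ⟨h1, (T.loc X X' _ fun y hy => h y (hy.trans (h1.trans (usl u)))).1 h2⟩
  exact ⟨key h, key fun y hy => (h y hy).symm⟩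

/-- a collision -/
def Col (c : ℕ) (g : ℕ → Alg × Task) (O : Oracle) (s : ℕ) (l : List (List Bool))
    (x x' : List Bool) : Prop :=
  x ≠ x' ∧ 1 ≤ x'.length ∧ x'.length ≤ x.length ∧ Lv c x.length l.length ∧
    (g s).1.out (corr l O) (inn s x) = (g s).1.out (corr l O) (inn s x')

/-- an algorithm that can be spoiled -/
def Cand (c : ℕ) (g : ℕ → Alg × Task) (N : ℕ → ℕ) (O : Oracle) (l : List (List Bool))
    (s : ℕ) : Prop :=
  s ∈ actF N l.length ∧ (∀ z ∈ l, ¬ TagS s z) ∧ ∃ x x', Col c g O s l x x'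

/-- the truth value of the shorter string -/
def tv (c : ℕ) (g : ℕ → Alg × Task) (O : Oracle) (s : ℕ) (l : List (List Bool))
    (x' : List Bool) : Prop :=
  (12 * x'.length) ^ c ≤ mm c l.length ∧ x' ∈ Lp (g s).2 (corr l O)

/-- the string `z` spoils the algorithm -/
def Spo (c : ℕ) (g : ℕ → Alg × Task) (O : Oracle) (s : ℕ) (l : List (List Bool))
    (z : List Bool) : Prop :=
  TagS s z ∧ ∃ x x', Col c g O s l x x' ∧ ¬ Cd s x' <+: z ∧ (Cd s x <+: z ↔ ¬ tv c g O s l x')

theorem exists_next {c : ℕ} {g : ℕ → Alg × Task} {N : ℕ → ℕ} (hN : Thr c g N) (O : Oracle)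
    (l : List (List Bool)) : ∃ z : List Bool, z.length = mm c l.length ∧ z ∉ Fb c g N O l ∧
      ((∃ s, Cand c g N O l s ∧ (∀ s', Cand c g N O l s' → s ≤ s') ∧ Spo c g O s l z) ∨
        ((∀ s, ¬ Cand c g N O l s) ∧ z.head? = some false)) := by
  classical
  have hcard := card_Fb hN O l
  have hup : ∀ ρ, mm c l.length / 2 ≤ ρ → (Fb c g N O l).card < 2 ^ ρ := fun ρ h =>
    hcard.trans_le (Nat.pow_le_pow_right (by norm_num) h)
  have h2 := two_le_mm hN.1 l.length
  by_cases h : ∃ s, Cand c g N O l s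
  · obtain ⟨s, hs⟩ : ∃ s, s = Nat.find h := ⟨_, rfl⟩
    have hc : Cand c g N O l s := by rw [hs]; exact Nat.find_spec h
    have hmin : ∀ s', Cand c g N O l s' → s ≤ s' := fun s' h' => by
      rw [hs]
      exact Nat.find_min' h h'
    obtain ⟨h3, h4, x, x', hcol⟩ := id hc
    unfold actF at h3
    rw [mem_filter, mem_range] at h3
    obtain ⟨h5, h6⟩ := big hN.1 (hN.2 s _ h3.2).1
    have h7 : 12 * x.length ≤ mm c l.length := hcol.2.2.2.1.1
    by_cases ht : tv c g O s l x'
    · obtain ⟨r, hr, hr2⟩ := avoid (Fb c g N O l) (hup (mm c l.length - (s + 3)) (by omega))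
        (ones (s + 1) ++ [false, false])
      have e1 : ones (s + 1) ++ [false, false] ++ r = ones (s + 1) ++ false :: false :: r := by
        simp
      rw [e1] at hr2
      refine ⟨_, ?_, hr2, Or.inl ⟨s, hc, hmin, tag_app _ _, x, x', hcol, not_cd, ?_⟩⟩
      · rw [List.length_append, ones_length, List.length_cons, List.length_cons, hr]
        omega
      · exact ⟨fun h' => absurd h' not_cd, fun h' => absurd ht h'⟩
    · obtain ⟨r, hr, hr2⟩ := avoid (Fb c g N O l)
        (hup (mm c l.length - (s + 2 * x.length + 4)) (by omega)) (Cd s x)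
      refine ⟨_, ?_, hr2, Or.inl ⟨s, hc, hmin, tag_of_cd (List.prefix_append _ _), x, x', hcol,
        fun h' => hcol.1 (cd_inj (List.prefix_append _ _) h'), ?_⟩⟩
      · rw [List.length_append, cd_length, hr]
        omega
      · exact ⟨fun _ => ht, fun _ => List.prefix_append _ _⟩
  · obtain ⟨r, hr, hr2⟩ := avoid (Fb c g N O l) (hup (mm c l.length - 1) (by omega)) [false]
    refine ⟨[false] ++ r, ?_, hr2, Or.inr ⟨fun s hs => h ⟨s, hs⟩, rfl⟩⟩
    rw [List.length_append, hr, List.length_singleton]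
    omega

section

variable {c : ℕ} {g : ℕ → Alg × Task} {N : ℕ → ℕ} (hN : Thr c g N) (O : Oracle)

/-- the next string -/
noncomputable def nx (l : List (List Bool)) : List Bool := (exists_next hN O l).choose

/-- the first strings -/
noncomputable def Zl : ℕ → List (List Bool)
  | 0 => []
  | j + 1 => Zl j ++ [nx hN O (Zl j)]

/-- the string number `j` -/
noncomputable def Zs (j : ℕ) : List Bool := nx hN O (Zl hN O j)

theorem Zl_length (j : ℕ) : (Zl hN O j).length = j := by
  induction j with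
  | zero => rfl
  | succ j ih =>
    show (Zl hN O j ++ [nx hN O (Zl hN O j)]).length = j + 1
    rw [List.length_append, ih, List.length_singleton]

theorem Zs_spec (j : ℕ) : (Zs hN O j).length = mm c j ∧ Zs hN O j ∉ Fb c g N O (Zl hN O j) ∧
      ((∃ s, Cand c g N O (Zl hN O j) s ∧ (∀ s', Cand c g N O (Zl hN O j) s' → s ≤ s') ∧
        Spo c g O s (Zl hN O j) (Zs hN O j)) ∨
        ((∀ s, ¬ Cand c g N O (Zl hN O j) s) ∧ (Zs hN O j).head? = some false)) := by
  have h := (exists_next hN O (Zl hN O j)).choose_spec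
  exact ⟨h.1.trans (by rw [Zl_length]), h.2⟩

theorem Zl_take {i j : ℕ} (h : i ≤ j) : (Zl hN O j).take i = Zl hN O i := by
  induction j, h using Nat.le_induction with
  | base =>
    apply List.take_of_length_le
    rw [Zl_length]
  | succ j hj ih =>
    show (Zl hN O j ++ [nx hN O (Zl hN O j)]).take i = _
    rw [List.take_append_of_le_length (by rw [Zl_length]; exact hj), ih]

theorem mem_Zl {j : ℕ} {z : List Bool} : z ∈ Zl hN O j ↔ ∃ i < j, z = Zs hN O i := by
  induction j with
  | zero =>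
    show z ∈ [] ↔ _
    simp
  | succ j ih =>
    show z ∈ Zl hN O j ++ [nx hN O (Zl hN O j)] ↔ _
    rw [List.mem_append, ih, List.mem_singleton]
    constructor
    · rintro (⟨i, hi, h⟩ | h)
      · exact ⟨i, by omega, h⟩
      · exact ⟨j, by omega, h⟩
    · rintro ⟨i, hi, h⟩
      rcases Nat.lt_succ_iff_lt_or_eq.1 hi with h1 | h1
      · exact Or.inl ⟨i, h1, h⟩
      · rw [h1] at h
        exact Or.inr h

open Classical in
/-- the changed oracle -/
noncomputable def AI : Oracle := fun y => if ∃ j, y = Zs hN O j then !(O y) else O y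

theorem AI_ne {y : List Bool} : AI hN O y ≠ O y ↔ ∃ j, y = Zs hN O j := by
  unfold AI
  by_cases h : ∃ j, y = Zs hN O j
  · rw [if_pos h]
    refine ⟨fun _ => h, fun _ => ?_⟩
    cases O y <;> simp
  · rw [if_neg h]
    exact ⟨fun h' => absurd rfl h', fun h' => absurd h' h⟩

theorem AI_eq {y : List Bool} {j : ℕ} (h : ∀ i ≥ j, y ≠ Zs hN O i) :
    AI hN O y = corr (Zl hN O j) O y := by
  unfold AI corr
  by_cases h1 : ∃ i, y = Zs hN O i
  · rw [if_pos h1, if_pos]
    obtain ⟨i, hi⟩ := h1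
    rw [mem_Zl]
    refine ⟨i, ?_, hi⟩
    by_contra h2
    exact h i (by omega) hi
  · rw [if_neg h1, if_neg]
    rw [mem_Zl]
    rintro ⟨i, -, hi⟩
    exact h1 ⟨i, hi⟩

theorem AI_short {y : List Bool} {j : ℕ} (h : y.length < mm c j) :
    AI hN O y = corr (Zl hN O j) O y := by
  apply AI_eq
  rintro i hi rfl
  rw [(Zs_spec hN O i).1] at h
  have := (mm_strictMono hN.1).monotone hi
  omega

theorem out_eq {s j : ℕ} (hs : s ∈ actF N j) {x : List Bool} (hx : 12 * x.length ≤ mm c j) :
    (g s).1.out (AI hN O) (inn s x) = (g s).1.out (corr (Zl hN O j) O) (inn s x) := by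
  apply Qst_agree
  intro q hq
  symm
  apply AI_eq
  rintro i hi rfl
  apply (Zs_spec hN O i).2.1
  refine mem_Fb (s := s) (i := j) (x := x) ?_ (by rw [Zl_length]; exact hi) ?_ ?_
  · rw [Zl_length]
    unfold actF at hs ⊢
    rw [mem_filter, mem_range] at hs ⊢
    omega
  · rw [Zl_length]
    exact hx.trans ((mm_strictMono hN.1).monotone hi)
  · rw [Zl_take hN O hi]
    exact hq

/-- the hidden language -/
def DD (c : ℕ) (O A : Oracle) (L : Set (List Bool)) : Set (List Bool) :=
  {u | ∃ z : List Bool, 12 * (unpair u).2.length ≤ z.length ∧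
    z.length < (12 * (unpair u).2.length) ^ c ∧ A z ≠ O z ∧
    ((¬ TagS (unpair u).1.length z ∧ (unpair u).2 ∈ L) ∨
      Cd (unpair u).1.length (unpair u).2 <+: z)}

theorem mem_DD {s j : ℕ} {x : List Bool} {L : Set (List Bool)} (hx : Lv c x.length j) :
    inn s x ∈ DD c O (AI hN O) L ↔
      ((¬ TagS s (Zs hN O j) ∧ x ∈ L) ∨ Cd s x <+: Zs hN O j) := by
  unfold DD inn
  rw [Set.mem_ofPred_eq, unpair_pairBits]
  simp only [ones_length]
  constructor
  · rintro ⟨z, h1, h2, h3, h4⟩
    obtain ⟨i, rfl⟩ := (AI_ne hN O).1 h3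
    rw [(Zs_spec hN O i).1] at h1 h2
    have h5 : i = j := level_unique hN.1 ⟨h1, h2⟩ hx
    rw [h5] at h4
    exact h4
  · intro h
    refine ⟨Zs hN O j, ?_, ?_, (AI_ne hN O).2 ⟨j, rfl⟩, h⟩
    · rw [(Zs_spec hN O j).1]
      exact hx.1
    · rw [(Zs_spec hN O j).1]
      exact hx.2

theorem tag_head {s : ℕ} {z : List Bool} (h : TagS s z) : z.head? ≠ some false := by
  intro h1
  unfold TagS ones at h
  rcases z with _ | ⟨b, z⟩
  · simp at h1
  · rw [List.head?_cons, Option.some.injEq] at h1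
    rw [h1, List.replicate_succ] at h
    simp at h

/-- what a tag means -/
theorem tag_spec {s j : ℕ} (h : TagS s (Zs hN O j)) : Cand c g N O (Zl hN O j) s ∧
    Spo c g O s (Zl hN O j) (Zs hN O j) := by
  rcases (Zs_spec hN O j).2.2 with ⟨s', h1, -, h2⟩ | ⟨-, h1⟩
  · have h3 : s' = s := tag_unique h2.1 h
    rw [h3] at h1 h2
    exact ⟨h1, h2⟩
  · exact absurd h1 (tag_head h)

theorem tag_bound (s : ℕ) : ∃ b, ∀ j ≥ b, ¬ TagS s (Zs hN O j) := by
  by_cases h : ∃ i, TagS s (Zs hN O i)
  · obtain ⟨i, hi⟩ := h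
    refine ⟨i + 1, fun j hj hcon => ?_⟩
    exact (tag_spec hN O hcon).1.2.1 _ ((mem_Zl hN O).2 ⟨i, by omega, rfl⟩) hi
  · exact ⟨0, fun j _ hj => h ⟨j, hj⟩⟩

/-- **The main argument.** -/
theorem main_arg {s : ℕ} {L B : Set (List Bool)}
    (hL : L = Lp (g s).2 (AI hN O)) {h : List Bool → List Bool}
    (hh : ∀ u, (g s).1.out (AI hN O) u = some (h u))
    (hB : ∀ u, u ∈ DD c O (AI hN O) L ↔ h u ∈ B) :
    (∀ x : List Bool, 1 ≤ x.length → (x ∈ L ↔ h (inn s x) ∈ B)) ∧
      ∃ n₁ : ℕ, ∀ x x' : List Bool, n₁ ≤ x.length → n₁ ≤ x'.length →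
        h (inn s x) = h (inn s x') → x = x' := by
  -- the algorithm is never spoiled
  have h1 : ∀ j, ¬ TagS s (Zs hN O j) := by
    intro j hj
    obtain ⟨⟨h2, h3, -⟩, -, x, x', hcol, h4, h5⟩ := tag_spec hN O hj
    rw [Zl_length] at h2
    obtain ⟨h6, h7, h8, h9, h10⟩ := hcol
    rw [Zl_length] at h9
    have h11 : 12 * x'.length ≤ mm c j := (Nat.mul_le_mul_left _ h8).trans h9.1
    rw [← out_eq hN O h2 h9.1, ← out_eq hN O h2 h11, hh, hh, Option.some.injEq] at h10
    have h12 : inn s x ∈ DD c O (AI hN O) L ↔ inn s x' ∈ DD c O (AI hN O) L := by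
      rw [hB, hB, h10]
    rw [mem_DD hN O h9] at h12
    have h13 : ((¬ TagS s (Zs hN O j) ∧ x ∈ L) ∨ Cd s x <+: Zs hN O j) ↔
        ¬ tv c g O s (Zl hN O j) x' := by
      rw [← h5]
      exact ⟨fun h' => h'.elim (fun h'' => absurd hj h''.1) id, Or.inr⟩
    rw [h13] at h12
    by_cases h14 : (12 * x'.length) ^ c ≤ mm c j
    · obtain ⟨i, hi⟩ := exists_level hN.1 h7
      have h15 : i < j := by
        by_contra h16
        have h17 := (mm_strictMono hN.1).monotone (not_lt.1 h16)
        have h18 := hi.2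
        omega
      rw [mem_DD hN O hi] at h12
      have h16 : ¬ TagS s (Zs hN O i) := h3 _ ((mem_Zl hN O).2 ⟨i, h15, rfl⟩)
      have h17 : ((¬ TagS s (Zs hN O i) ∧ x' ∈ L) ∨ Cd s x' <+: Zs hN O i) ↔
          tv c g O s (Zl hN O j) x' := by
        have h18 : x' ∈ L ↔ x' ∈ Lp (g s).2 (corr (Zl hN O j) O) := by
          rw [hL]
          apply Lp_local
          intro y hy
          apply AI_short
          have h19 : 12 * x'.length ≤ (12 * x'.length) ^ c :=
            Nat.le_self_pow (by have := hN.1; omega) _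
          omega
        unfold tv
        rw [Zl_length, ← h18]
        constructor
        · rintro (⟨-, h19⟩ | h19)
          · exact ⟨h14, h19⟩
          · exact absurd (tag_of_cd h19) h16
        · rintro ⟨-, h19⟩
          exact Or.inl ⟨h16, h19⟩
      rw [h17] at h12
      tauto
    · have h15 : Lv c x'.length j := ⟨h11, by omega⟩
      rw [mem_DD hN O h15] at h12
      have h16 : ¬ tv c g O s (Zl hN O j) x' := by
        rintro ⟨h17, -⟩
        rw [Zl_length] at h17
        exact h14 h17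
      rcases h12.1 h16 with h17 | h17
      · exact h17.1 hj
      · exact h4 h17
  refine ⟨fun x hx => ?_, ?_⟩
  · obtain ⟨j, hj⟩ := exists_level hN.1 hx
    rw [← hB, mem_DD hN O hj]
    constructor
    · exact fun h' => Or.inl ⟨h1 j, h'⟩
    · rintro (h' | h')
      · exact h'.2
      · exact absurd (tag_of_cd h') (h1 j)
  -- no collisions
  choose b hb using tag_bound hN O
  obtain ⟨j₁, hj₁⟩ : ∃ j₁, j₁ = max ((range s).sup b) (max (N s) (s + 1)) := ⟨_, rfl⟩
  have h2 : ∀ j ≥ j₁, ∀ x x', ¬ Col c g O s (Zl hN O j) x x' := by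
    intro j hj x x' hcol
    have a1 : (range s).sup b ≤ j := (le_max_left _ _).trans (hj₁ ▸ hj)
    have a2 : N s ≤ j := (le_max_left _ _).trans ((le_max_right _ _).trans (hj₁ ▸ hj))
    have a3 : s + 1 ≤ j := (le_max_right _ _).trans ((le_max_right _ _).trans (hj₁ ▸ hj))
    have h3 : Cand c g N O (Zl hN O j) s := by
      refine ⟨?_, ?_, x, x', hcol⟩
      · rw [Zl_length]
        unfold actF
        rw [mem_filter, mem_range]
        omega
      · intro z hz
        obtain ⟨i, -, rfl⟩ := (mem_Zl hN O).1 hz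
        exact h1 i
    rcases (Zs_spec hN O j).2.2 with ⟨s', h4, h5, h6⟩ | ⟨h4, -⟩
    · rcases Nat.lt_or_ge s' s with h7 | h7
      · exact hb s' j ((Finset.le_sup (f := b) (mem_range.2 h7)).trans a1) h6.1
      · have h8 : s' = s := le_antisymm (h5 s h3) h7
        rw [h8] at h6
        exact h1 j h6.1
    · exact h4 s h3
  refine ⟨mm c j₁, ?_⟩
  have key : ∀ x x' : List Bool, mm c j₁ ≤ x.length → mm c j₁ ≤ x'.length → x'.length ≤ x.length →
      h (inn s x) = h (inn s x') → x = x' := by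
    intro x x' hx hx' hxx heq
    by_contra hne
    have h3 := two_le_mm hN.1 j₁
    obtain ⟨j, hj⟩ := exists_level hN.1 (show 1 ≤ x.length by omega)
    have h4 : j₁ ≤ j := by
      apply (mm_strictMono hN.1).le_iff_le.1
      have := hj.1
      omega
    have h5 : s ∈ actF N j := by
      have a2 : N s ≤ j := (le_max_left _ _).trans ((le_max_right _ _).trans (hj₁ ▸ h4))
      have a3 : s + 1 ≤ j := (le_max_right _ _).trans ((le_max_right _ _).trans (hj₁ ▸ h4))
      unfold actF
      rw [mem_filter, mem_range]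
      omega
    apply h2 j h4 x x'
    refine ⟨hne, by omega, hxx, by rw [Zl_length]; exact hj, ?_⟩
    rw [← out_eq hN O h5 hj.1, ← out_eq hN O h5 (by have := hj.1; omega), hh, hh, heq]
  intro x x' hx hx' heq
  rcases le_total x'.length x.length with h3 | h3
  · exact key x x' hx hx' h3 heq
  · exact (key x' x hx' hx h3 heq.symm).symm

end

end Pool.Agent.TH654.RB
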