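import Pool.Agent.TH654.RB.Ver

/-!
# The changed strings can be counted with an `NP` oracle
-/

set_option autoImplicit false

namespace Pool.Agent.TH654.RB

open Pool.Agent.NPC Pool.Agent.H620R2.Gauge Pool.Agent.H622R2 Finset
open Pool.Agent.W900.CH (dist finite_diff)
open Pool.Agent.TH678.PN Pool.Agent.TH678.EL

/-- the bound for the length of the certificates -/
noncomputable def qc (b : Polynomial ℕ) : Polynomial ℕ :=
  Polynomial.X * (Polynomial.C 4 * b + Polynomial.C 4) + Polynomial.C 1

open Classical in
/-- the oracle in `NP` -/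
noncomputable def Co (τ : ℕ → Task) (e : ℕ) (O A : Oracle) : Oracle := fun u =>
  decide (∃ w : List Bool, w.length ≤ (qc (τ e).b).eval u.length ∧
    chk τ e O A (pairBits w u) = [true])

theorem isNP_Co {τ : ℕ → Task} {O A : Oracle} (h : ∀ e, IsFP A (Gf τ e O)) (e : ℕ) :
    IsNP A {u | Co τ e O A u = true} :=
  ⟨chk τ e O A, qc (τ e).b, isFP_chk h e, fun x => by simp [Co]⟩

theorem Co_iff {τ : ℕ → Task} {e : ℕ} {O A : Oracle} {x s : List Bool} :
    Co τ e O A (pairBits x s) = true ↔ ∃ l, Good (τ e) O A x s l := by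
  have h0 : Co τ e O A (pairBits x s) = true ↔ ∃ w : List Bool,
      w.length ≤ (qc (τ e).b).eval (pairBits x s).length ∧
      chk τ e O A (pairBits w (pairBits x s)) = [true] := by simp [Co]
  rw [h0]
  constructor
  · rintro ⟨w, -, hw⟩
    exact ⟨dec w, chk_iff.1 hw⟩
  · rintro ⟨l, hl⟩
    refine ⟨bits l, ?_, chk_iff.2 (by rw [dec_bits]; exact hl)⟩
    obtain ⟨h1, h2, h3, h4, h5⟩ := hl
    rw [bits_length]
    have h6 := sz_le_length_mul l (4 * (τ e).b.eval x.length + 1) (fun y hy => by
      have h7 := sz_listBool_le y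
      have h8 := h3 y hy
      omega)
    refine h6.trans ?_
    have h7 : x.length ≤ (pairBits x s).length := by rw [A2.length_pairBits]; omega
    have h8 : l.length ≤ (pairBits x s).length := by
      rw [A2.length_pairBits, h2, List.length_tail]; omega
    have h9 := eval_mono (τ e).b h7
    unfold qc
    simp only [Polynomial.eval_add, Polynomial.eval_mul, Polynomial.eval_C, Polynomial.eval_X]
    nlinarith

theorem Co_false {τ : ℕ → Task} {e : ℕ} {O A : Oracle} {x : List Bool} {k : ℕ} :
    Co τ e O A (pairBits x (false :: List.replicate k true)) = true ↔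
      k ≤ (Df O A ((τ e).b.eval x.length)).card := by
  rw [Co_iff, good_false]

theorem Co_true {τ : ℕ → Task} {e : ℕ} {O A : Oracle} {x : List Bool} :
    Co τ e O A (pairBits x (true :: List.replicate
      (Df O A ((τ e).b.eval x.length)).card true)) = true ↔ (τ e).V A x := by
  rw [Co_iff, good_true]

/-- the three questions for the number `i` -/
noncomputable def Qs (T : Polynomial ℕ) (p : ℕ × List Bool) : List (List Bool) :=
  [pairBits p.2 (false :: List.replicate (min p.1 (T.eval p.2.length)) true),
    pairBits p.2 (false :: List.replicate (min p.1 (T.eval p.2.length) + 1) true),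
    pairBits p.2 (true :: List.replicate (min p.1 (T.eval p.2.length)) true)]

theorem poly_Qs (T : Polynomial ℕ) : Poly (Qs T) := by
  have hB : UPoly (fun p : ℕ × List Bool => T.eval p.2.length) :=
    (UPoly.length (Poly.snd Poly.id)).eval T
  have hm : UPoly (fun p : ℕ × List Bool => min p.1 (T.eval p.2.length)) :=
    UPoly.of_le (Poly.min (Poly.fst Poly.id) hB.toPoly) hB (fun p => min_le_right _ _)
  have hx : Poly (fun p : ℕ × List Bool => p.2) := Poly.snd Poly.id
  unfold Qs
  exact Poly.cons (poly_pairBits hx (Poly.cons (NPC.Poly.const _) (poly_rep hm true)))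
    (Poly.cons (poly_pairBits hx (Poly.cons (NPC.Poly.const _)
      (poly_rep (UPoly.add hm (UPoly.const 1)) true)))
    (Poly.cons (poly_pairBits hx (Poly.cons (NPC.Poly.const _) (poly_rep hm true)))
      (NPC.Poly.const [])))

/-- **The questions about the changed oracle can be answered in `P^NP`.** -/
theorem pnp_task {τ : ℕ → Task} {O A : Oracle} (h : ∀ e, IsFP A (Gf τ e O))
    (hA : ∃ d : Polynomial ℕ, ∀ m, dist O A m ≤ d.eval m) (e : ℕ) :
    IsPNP A {x | (τ e).V A x} := by
  obtain ⟨d, hd⟩ := hA
  obtain ⟨T, hT⟩ : ∃ T : Polynomial ℕ, T = d.comp (τ e).b + Polynomial.C 1 := ⟨_, rfl⟩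
  have hTe : ∀ n, T.eval n = d.eval ((τ e).b.eval n) + 1 := by
    intro n
    rw [hT, Polynomial.eval_add, Polynomial.eval_comp, Polynomial.eval_C]
  have h1 := IsFP.votes (A := Co τ e O A) (V := fun z => [decide (z = [true, false, true])])
    (IsFP.of_poly (Poly.cons (Poly.decide_eq Poly.id (NPC.Poly.const _)) (NPC.Poly.const []))) T
    (poly_Qs T) (W := fun p => p.2) (Poly.snd Poly.id)
    (H := fun p => [p.2.any (fun b => b)])
    (Poly.cons (Poly.any (p := fun _ b => b) (Poly.snd Poly.id) (Poly.snd Poly.id))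
      (NPC.Poly.const []))
  refine ⟨Co τ e O A, isNP_Co h e, _, h1, fun x => ?_⟩
  have hD : (Df O A ((τ e).b.eval x.length)).card < T.eval x.length := by
    rw [hTe, card_Df]
    have := hd ((τ e).b.eval x.length)
    omega
  set D := (Df O A ((τ e).b.eval x.length)).card with hDd
  simp only [List.cons.injEq, and_true, List.any_eq_true, List.mem_map, List.mem_range]
  constructor
  · intro hx
    refine ⟨true, ⟨D, hD, ?_⟩, rfl⟩
    have e1 : Co τ e O A (pairBits x (false :: List.replicate D true)) = true := Co_false.2 le_rfl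
    have e2 : Co τ e O A (pairBits x (false :: List.replicate (D + 1) true)) = false := by
      rw [Bool.eq_false_iff]
      intro h2
      have := Co_false.1 h2
      omega
    have e3 : Co τ e O A (pairBits x (true :: List.replicate D true)) = true := Co_true.2 hx
    simp [Qs, min_eq_left hD.le, e1, e2, e3]
  · rintro ⟨b, ⟨k, hk, h2⟩, rfl⟩
    simp only [Qs, min_eq_left hk.le, List.map_cons, List.map_nil, decide_eq_true_eq,
      List.cons.injEq, and_true] at h2
    obtain ⟨h3, h4, h5⟩ := h2
    have h6 := Co_false.1 h3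
    have h7 : ¬ k + 1 ≤ D := by
      intro h8
      rw [Co_false.2 h8] at h4
      exact absurd h4 (by simp)
    have h8 : k = D := by omega
    subst h8
    exact Co_true.1 h5

/-- **Main lemma.** -/
theorem robust_tasks (τ : ℕ → Task) : ∃ O : Oracle, ∀ A : Oracle,
    (∃ d : Polynomial ℕ, ∀ m, dist O A m ≤ d.eval m) → ∀ e, IsPNP A {x | (τ e).V A x} := by
  obtain ⟨O, hO⟩ := exists_code τ
  exact ⟨O, fun A hA e => pnp_task (hO A hA) hA e⟩

end Pool.Agent.TH654.RB
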