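import Pool.Agent.W938.QX.Defs

/-!
# Quantum proofs relative to an oracle, without a bound for the number of the questions
-/

set_option autoImplicit false

namespace Pool.Agent.TH654.RB

open Pool.Agent.NPC Pool.Agent.H620R2.Gauge
open Pool.Agent.W938.QX (accW)

/-- The promise problem `(Y, N)` (the strings in `Y` are to be accepted and the strings in `N` are to
be rejected) has quantum proofs relative to `O`, with completeness `c` and soundness `s`, and with
witness states from the family `W` (`W b` is the set of the witness states of `b` qubits that a
prover may send; for `QMA` these are all states, for `QCMA` the basis states, for `QMA(k)` the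
products of `k` states). The verifier computes in polynomial time relative to `O`, from the input
`x` and a classical witness `w`, the string `F ⟨w, x⟩` and then, in polynomial time, a quantum
circuit, which may contain oracle gates (arbitrarily many, of all lengths). The circuit is applied
to the quantum witness `ψ`, a state of `p(|x|)` qubits, and to `p(|x|)` ancillas; `accW` is the
probability that it accepts. -/
def IsQMA (W : ∀ b : ℕ, Set ((Fin b → Bool) → ℂ)) (c s : ℝ) (O : Oracle)
    (Y N : Set (List Bool)) : Prop :=
  ∃ (F : List Bool → List Bool) (C : List Bool → List Gate) (p : Polynomial ℕ),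
    IsFP O F ∧ PolyTime (fun z => bits (C z)) ∧
    ∀ x : List Bool,
      (x ∈ Y → ∃ (w : List Bool) (ψ : (Fin (p.eval x.length) → Bool) → ℂ),
        w.length ≤ p.eval x.length ∧ ψ ∈ W (p.eval x.length) ∧ ∑ t, ‖ψ t‖ ^ 2 = 1 ∧
        c ≤ accW O (C (F (pairBits w x))) (p.eval x.length) ψ) ∧
      (x ∈ N → ∀ (w : List Bool) (ψ : (Fin (p.eval x.length) → Bool) → ℂ),
        w.length ≤ p.eval x.length → ψ ∈ W (p.eval x.length) → ∑ t, ‖ψ t‖ ^ 2 = 1 →
        accW O (C (F (pairBits w x))) (p.eval x.length) ψ ≤ s)

end Pool.Agent.TH654.RB
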