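import Pool.Agent.TH654.RB.HT3

/-!
# Polynomial space and quantum polynomial time near a suitable oracle
-/

set_option autoImplicit false

namespace Pool.Agent.TH654.RB

open Pool.Agent.NPC Pool.Agent.H620R2.Gauge Pool.Agent.H622R2 Finset Filter
open Pool.Agent.W900.CH (dist)
open Pool.Agent.TH678.PN

/-- all space tasks -/
theorem exists_space : ∃ τ : ℕ → Task,
    ∀ (A : Oracle) (L : Set (List Bool)), IsPSPACE A L → ∃ e, L = {x | (τ e).V A x} := by
  obtain ⟨g, hg⟩ := CC.exists_enum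
  refine ⟨fun e => spaceTask (g e).1 (pspace_task (g e).1 (g e).2).choose, ?_⟩
  rintro A L ⟨M, p, hM⟩
  obtain ⟨i, hi⟩ := hg (M, p)
  refine ⟨i, ?_⟩
  have h3 := (pspace_task (g i).1 (g i).2).choose_spec A L (by rw [hi]; exact hM)
  ext x
  exact h3 x

/-- all quantum tasks -/
theorem exists_circ : ∃ η : ℕ → HTask,
    ∀ (A : Oracle) (L : Set (List Bool)), IsBQP A L → ∃ e, ∀ x,
      (x ∈ L → 2 / 3 ≤ (η e).p A x) ∧ (x ∉ L → (η e).p A x ≤ 1 / 3) := by
  obtain ⟨c, hc⟩ := (countable_circ.exists_eq_range ⟨fun _ => ([], []),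
    polyTime_bits (NPC.Poly.const _)⟩)
  have hc1 : ∀ e, PolyTime (fun x => bits (c e x)) := fun e => by
    have h1 : c e ∈ {C : List Bool → List Unit × List Gate | PolyTime (fun x => bits (C x))} := by
      rw [hc]
      exact ⟨e, rfl⟩
    exact h1
  refine ⟨fun e => circH (c e) (hc1 e), ?_⟩
  rintro A L ⟨C, hC, hL⟩
  have h0 : C ∈ {C : List Bool → List Unit × List Gate | PolyTime (fun x => bits (C x))} := hC
  rw [hc] at h0
  obtain ⟨i, rfl⟩ := h0
  exact ⟨i, hL⟩

/-- **Polynomially many changes.** -/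
theorem exists_robust2 : ∃ O : Oracle, ∀ A : Oracle,
    (∃ d : Polynomial ℕ, ∀ m, dist O A m ≤ d.eval m) →
    (∀ L, IsPSPACE A L → IsPNP A L) ∧ ∀ L, IsBQP A L → IsP A L := by
  obtain ⟨τ, h1⟩ := exists_space
  obtain ⟨η, h2⟩ := exists_circ
  obtain ⟨O, hO⟩ := exists_code2
    (fun e => if e % 2 = 0 then τ (e / 2) else halfTask (η (e / 2))) η
  refine ⟨O, fun A hA => ⟨fun L hL => ?_, fun L hL => ?_⟩⟩
  · obtain ⟨e, rfl⟩ := h1 A L hL
    have h3 := pnp_task (hO A hA).1 hA (2 * e)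
    have h4 : 2 * e % 2 = 0 := by omega
    have h5 : 2 * e / 2 = e := by omega
    simp only [h4, h5, if_true] at h3
    exact h3
  · obtain ⟨e, he⟩ := h2 A L hL
    refine isP_of_HTask (η := η e) (e := 2 * e + 1) ?_ (hO A hA).1 ((hO A hA).2 e) hA he
    have h4 : ¬ (2 * e + 1) % 2 = 0 := by omega
    have h5 : (2 * e + 1) / 2 = e := by omega
    simp only [h4, h5, if_false]

end Pool.Agent.TH654.RB
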