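import Pool.Agent.TH654.RB.QV
import Pool.Agent.TH654.RB.QDefs
import Pool.Agent.TH654.RB.Tasks2

/-!
# Quantum proofs near a suitable oracle: the two directions
-/

set_option autoImplicit false

namespace Pool.Agent.TH654.RB

open Pool.Agent.NPC Pool.Agent.H620R2.Gauge Pool.Agent.H622R2 Finset Filter
open Pool.Agent.W938.Hyb (load)
open Pool.Agent.W900.CH (dist)
open Pool.Agent.TH678.PN
open Pool.Agent.W938.QX (accW IsNPP)

theorem rd_anc {b m : ℕ} (hm : 0 < m) (s : Fin (b + m) → Bool) :
    rd s b = s (Fin.natAdd b ⟨0, hm⟩) := by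
  unfold rd
  rw [dif_pos (by omega)]
  rfl

theorem load_anc {b m : ℕ} (hm : 0 < m) (u : (Fin b → Bool) → ℝ) (s : Fin (b + m) → Bool)
    (h : rd s b = true) : load m u s = 0 := by
  unfold load
  rw [if_neg]
  intro hc
  rw [rd_anc hm, hc] at h
  exact Bool.false_ne_true h

/-- The empty circuit rejects. -/
theorem acc_nil {b m : ℕ} (hm : 0 < m) (O : Oracle) (ψ : (Fin b → Bool) → ℂ) :
    accW O [] m ψ = 0 := by
  unfold accW
  refine Finset.sum_eq_zero fun s _ => ?_
  split_ifs with h
  · simp only [circAct]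
    rw [load_anc hm _ s h, load_anc hm _ s h]
    ring
  · rfl

/-- The circuit which flips the first ancilla accepts. -/
theorem acc_not {b m : ℕ} (hm : 0 < m) (O : Oracle) (ψ : (Fin b → Bool) → ℂ)
    (hψ : ∑ t, ‖ψ t‖ ^ 2 = 1) : accW O [Sum.inr (false, [], b)] m ψ = 1 := by
  have hb : b < b + m := by omega
  have key : ∀ (u : (Fin b → Bool) → ℝ) (s : Fin (b + m) → Bool),
      circAct O [Sum.inr (false, [], b)] (load m u) s =
        load m u (flipIf (fun _ => true) b s) := by
    intro u s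
    simp only [circAct, gateAct, List.all_nil]
  have hz : ∀ (u : (Fin b → Bool) → ℝ) (s : Fin (b + m) → Bool), ¬ rd s b = true →
      load m u (flipIf (fun _ => true) b s) = 0 := by
    intro u s hs
    refine load_anc hm u _ ?_
    unfold flipIf rd at *
    rw [dif_pos hb] at hs ⊢
    rw [dif_pos hb]
    simp only [Function.update_self]
    cases h : s ⟨b, hb⟩
    · rfl
    · exact absurd h hs
  unfold accW
  have h1 : ∀ s : Fin (b + m) → Bool, (if rd s b then
      circAct O [Sum.inr (false, [], b)] (load m fun t => (ψ t).re) s ^ 2 +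
        circAct O [Sum.inr (false, [], b)] (load m fun t => (ψ t).im) s ^ 2 else 0) =
      load m (fun t => (ψ t).re) (flipIf (fun _ => true) b s) ^ 2 +
        load m (fun t => (ψ t).im) (flipIf (fun _ => true) b s) ^ 2 := by
    intro s
    by_cases hs : rd s b = true
    · rw [if_pos hs, key, key]
    · rw [if_neg hs, hz _ s hs, hz _ s hs]
      ring
  rw [Finset.sum_congr rfl fun s _ => h1 s, Finset.sum_add_distrib,
    sum_flipIf (fun _ => true) b (fun s => load m (fun t => (ψ t).re) s ^ 2),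
    sum_flipIf (fun _ => true) b (fun s => load m (fun t => (ψ t).im) s ^ 2)]
  rw [← hψ, ← norm_cp m ψ, Fintype.sum_bool]
  rfl

/-- classical proofs are quantum proofs -/
theorem conv (W : ∀ b : ℕ, Set ((Fin b → Bool) → ℂ)) (hW : ∀ b, ∃ ψ ∈ W b, ∑ t, ‖ψ t‖ ^ 2 = 1)
    (c s : ℝ) (hc : c ≤ 1) (hs : 0 ≤ s) (O : Oracle) (Y N : Set (List Bool))
    (h : IsNPP O Y N) : IsQMA W c s O Y N := by
  classical
  obtain ⟨L, ⟨V, p, hV, hL⟩, hY, hN⟩ := h
  set C : List Bool → List Gate := fun y =>
    if (unpair y).1 = [true] ∧ (unpair (unpair y).2).1.length ≤ p.eval (unpair (unpair y).2).2.length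
    then [Sum.inr (false, [], p.eval (unpair (unpair y).2).2.length + 1)] else [] with hC
  have hx2 : NPC.Poly (fun y : List Bool => (unpair (unpair y).2).2) :=
    NPC.Poly.snd (poly_unpair.comp (NPC.Poly.snd poly_unpair))
  have hw2 : NPC.Poly (fun y : List Bool => (unpair (unpair y).2).1) :=
    NPC.Poly.fst (poly_unpair.comp (NPC.Poly.snd poly_unpair))
  have hp2 : NPC.Poly (fun y : List Bool => p.eval (unpair (unpair y).2).2.length) :=
    UPoly.toPoly (UPoly.eval (UPoly.length hx2) p)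
  have pC : NPC.Poly C := by
    have h1 : NPC.Poly (fun y : List Bool => decide ((unpair y).1 = [true]) &&
        decide ((unpair (unpair y).2).1.length ≤ p.eval (unpair (unpair y).2).2.length)) :=
      NPC.Poly.and (NPC.Poly.decide_eq (NPC.Poly.fst poly_unpair) (NPC.Poly.const _))
        (NPC.Poly.decide_le (NPC.Poly.length hw2) hp2)
    have h2 : NPC.Poly (fun y : List Bool =>
        ([Sum.inr (false, [], p.eval (unpair (unpair y).2).2.length + 1)] : List Gate)) :=
      NPC.Poly.cons (NPC.Poly.inr (NPC.Poly.pair (NPC.Poly.const false)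
        (NPC.Poly.pair (NPC.Poly.const []) (NPC.Poly.succ hp2)))) (NPC.Poly.const [])
    refine (NPC.Poly.cond h1 h2 (NPC.Poly.const ([] : List Gate))).congr fun y => ?_
    simp only [hC]
    by_cases ha : (unpair y).1 = [true] <;>
      by_cases hb : (unpair (unpair y).2).1.length ≤ p.eval (unpair (unpair y).2).2.length <;>
      simp [ha, hb]
  refine ⟨fun z => pairBits (V z) z, C, p + 1, hV.pair (IsFP.of_poly NPC.Poly.id), ?_, ?_⟩
  · exact polyTime_bits pC
  · intro x
    have hm : 0 < (p + 1).eval x.length := by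
      rw [Polynomial.eval_add, Polynomial.eval_one]
      omega
    have hp1 : p.eval x.length + 1 = (p + 1).eval x.length := by
      rw [Polynomial.eval_add, Polynomial.eval_one]
    have hCv : ∀ w, C (pairBits (V (pairBits w x)) (pairBits w x)) =
        if V (pairBits w x) = [true] ∧ w.length ≤ p.eval x.length then
          [Sum.inr (false, [], (p + 1).eval x.length)] else [] := by
      intro w
      simp only [hC, unpair_pairBits, hp1]
    refine ⟨fun hxY => ?_, fun hxN w ψ hw hψW hψ => ?_⟩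
    · obtain ⟨w, hw, hVw⟩ := (hL x).1 (hY hxY)
      obtain ⟨ψ, hψW, hψ⟩ := hW ((p + 1).eval x.length)
      refine ⟨w, ψ, by omega, hψW, hψ, ?_⟩
      rw [hCv, if_pos ⟨hVw, hw⟩, acc_not hm O ψ hψ]
      exact hc
    · rw [hCv, if_neg, acc_nil hm O ψ]
      · exact hs
      · rintro ⟨h1, h2⟩
        exact Set.disjoint_left.1 hN ((hL x).2 ⟨w, h2, h1⟩) hxN

theorem countable_gates :
    {C : List Bool → List Gate | PolyTime (fun x => bits (C x))}.Countable := by
  have h1 : Countable {D : List Bool → List Bool | PolyTime D} := countable_polyTime.to_subtype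
  have h2 : Function.Injective
      (fun C : {C : List Bool → List Gate | PolyTime (fun x => bits (C x))} =>
        (⟨fun x => bits (C.1 x), C.2⟩ : {D : List Bool → List Bool | PolyTime D})) := by
    intro C C' h
    have h3 := congrArg Subtype.val h
    apply Subtype.ext
    funext x
    exact bits_injective (congrFun h3 x)
  exact h2.countable

/-- all verifiers -/
theorem exists_vr (W : ℕ → ∀ b : ℕ, Set ((Fin b → Bool) → ℂ)) : ∃ r : ℕ → Vr,
    ∀ (C : List Bool → List Gate) (hC : PolyTime (fun z => bits (C z))) (p : Polynomial ℕ) (i : ℕ)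
      (q : ℚ), ∃ e, r e = ⟨C, hC, p, W i, q⟩ := by
  have h1 : Countable {C : List Bool → List Gate | PolyTime (fun x => bits (C x))} :=
    countable_gates.to_subtype
  have h0 : Nonempty ({C : List Bool → List Gate | PolyTime (fun x => bits (C x))} ×
      Polynomial ℕ × ℕ × ℚ) :=
    ⟨(⟨fun _ => [], polyTime_bits (NPC.Poly.const _)⟩, 0, 0, 0)⟩
  obtain ⟨f, hf⟩ := exists_surjective_nat
    ({C : List Bool → List Gate | PolyTime (fun x => bits (C x))} × Polynomial ℕ × ℕ × ℚ)
  refine ⟨fun e => ⟨(f e).1.1, (f e).1.2, (f e).2.1, W (f e).2.2.1, (f e).2.2.2⟩, ?_⟩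
  intro C hC p i q
  obtain ⟨e, he⟩ := hf (⟨C, hC⟩, p, i, q)
  refine ⟨e, ?_⟩
  simp only [he]

/-- **Polynomially many changes, quantum proofs.** -/
theorem exists_robust3 (W : ℕ → ∀ b : ℕ, Set ((Fin b → Bool) → ℂ)) : ∃ O : Oracle, ∀ A : Oracle,
    (∃ d : Polynomial ℕ, ∀ m, dist O A m ≤ d.eval m) →
    (∀ (i : ℕ) (c s : ℝ) (Y N : Set (List Bool)), s < c →
      IsQMA (W i) c s A Y N → IsNPP A Y N) ∧
    ∀ L, IsBQP A L → IsP A L := by
  obtain ⟨r, h1⟩ := exists_vr W
  obtain ⟨η, h2⟩ := exists_circ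
  obtain ⟨O, hO⟩ := exists_code2
    (fun e => if e % 2 = 0 then qTask (r (e / 2)) else halfTask (η (e / 2)))
    (fun e => if e % 2 = 0 then qH (r (e / 2)) else η (e / 2))
  refine ⟨O, fun A hA => ⟨fun i c s Y N hsc hL => ?_, fun L hL => ?_⟩⟩
  · obtain ⟨F, C, p, hF, hC, hYN⟩ := hL
    obtain ⟨q, hq1, hq2⟩ := exists_rat_btwn hsc
    obtain ⟨e, he⟩ := h1 C hC p i q
    have h4 : 2 * e % 2 = 0 := by omega
    have h5 : 2 * e / 2 = e := by omega
    have h6 := (hO A hA).2 (2 * e)
    simp only [h4, h5, if_true] at h6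
    rw [he] at h6
    refine npp_of_qma (e := 2 * e) (r := ⟨C, hC, p, W i, q⟩) (F := F) (s := s) ?_ (hO A hA).1 h6
      hA hF hq1 ?_ ?_
    · simp only [h4, h5, if_true]
      rw [he]
    · intro x hx
      obtain ⟨w, ψ, hw, hψW, hψ, hacc⟩ := (hYN x).1 hx
      exact ⟨w, ψ, hw, hψW, hψ, hq2.le.trans hacc⟩
    · intro x hx w ψ hw hψW hψ
      exact (hYN x).2 hx w ψ hw hψW hψ
  · obtain ⟨e, he⟩ := h2 A L hL
    have h4 : ¬ (2 * e + 1) % 2 = 0 := by omega
    have h5 : (2 * e + 1) / 2 = e := by omega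
    have h6 := (hO A hA).2 (2 * e + 1)
    simp only [h4, h5, if_false] at h6
    refine isP_of_HTask (η := η e) (e := 2 * e + 1) ?_ (hO A hA).1 h6 hA he
    simp only [h4, h5, if_false]

end Pool.Agent.TH654.RB
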