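import Pool.Agent.TH654.RB.QW

/-!
# Quantum proofs are classical proofs near a suitable oracle
-/

set_option autoImplicit false

namespace Pool.Agent.TH654.RB

open Pool.Agent.NPC Pool.Agent.H620R2.Gauge Pool.Agent.H622R2 Finset Filter
open Pool.Agent.W900.CH (dist)
open Pool.Agent.TH678.EL
open Pool.Agent.W938.QX (accW IsNPP)

theorem ans_bits (O A : Oracle) (H : List (List Bool)) (st : List Bool) :
    ans O A (pairBits (bits H) st) = (List.range (pairBits (bits H) st).length).map
      (fun i => decide (A (H.getD i []) ≠ O (H.getD i []))) := by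
  unfold ans
  rw [Polynomial.eval_X]
  apply List.map_congr_left
  intro i _
  have e1 : cw (pairBits (bits H) st) = H := by
    unfold cw
    rw [unpair_pairBits, dec_bits]
  rw [e1]
  simp

theorem zip_bits (O A : Oracle) (H : List (List Bool)) (st : List Bool) :
    H.zip (ans O A (pairBits (bits H) st)) = H.map (fun y => (y, decide (A y ≠ O y))) := by
  rw [ans_bits]
  refine zip_ans (fun y => decide (A y ≠ O y)) H _ ?_
  have h4 := length_lt_sz H
  rw [A2.length_pairBits, bits_length]
  omega

/-! ### the parts of the certificate -/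

def xz (zz : List Bool) : List Bool := (unpair zz).2
def wz (zz : List Bool) : List Bool := (unpair (unpair zz).1).1
def cz (zz : List Bool) : List Bool := (unpair (unpair zz).1).2

theorem poly_xz : Poly xz := Poly.snd poly_unpair
theorem poly_wz : Poly wz := Poly.fst (poly_unpair.comp (Poly.fst poly_unpair))
theorem poly_cz : Poly cz := Poly.snd (poly_unpair.comp (Poly.fst poly_unpair))

/-- the input of the task -/
def vz (st : List Bool) : List Bool := pairBits (unpair st).1 (xz (unpair st).2)

theorem poly_vz : Poly vz :=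
  poly_pairBits (Poly.fst poly_unpair) (poly_xz.comp (Poly.snd poly_unpair))

/-- the states -/
noncomputable def S1 (F : List Bool → List Bool) (zz : List Bool) : List Bool :=
  pairBits (F (pairBits (wz zz) (xz zz))) zz

noncomputable def S2 (η : HTask) (O : Oracle) (σ : Polynomial ℕ) (st : List Bool) : List Bool :=
  pairBits (Hf η O (pairBits (vz st) (pairBits (cz (unpair st).2)
    (List.replicate (σ.eval (vz st).length) true)))) st

noncomputable def S3 (O A : Oracle) (st : List Bool) : List Bool := pairBits (ans O A st) st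

/-- the certificate part of the third state -/
def c3 (st : List Bool) : List Bool := cz (unpair (unpair (unpair st).2).2).2

noncomputable def S4 (O A : Oracle) (st : List Bool) : List Bool :=
  pairBits (ans O A (pairBits (bits (dec (c3 st))) st)) st

theorem poly_t (f : List Bool → List Bool) (hf : Poly f) : Poly (fun st => (unpair (f st)).2) :=
  Poly.snd (poly_unpair.comp hf)

theorem poly_c3 : Poly c3 :=
  poly_cz.comp (poly_t _ (poly_t _ (poly_t _ Poly.id)))

/-- the final test -/
def fin4 (p : Polynomial ℕ) (q : List Bool × List Bool) : List Bool :=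
  [decide ((wz (unpair (unpair (unpair (unpair q.1).2).2).2).2).length ≤
      p.eval (xz (unpair (unpair (unpair (unpair q.1).2).2).2).2).length) &&
    (decide (q.2 = [true]) &&
    (((unpair q.1).1.take (dec (cz (unpair (unpair (unpair (unpair q.1).2).2).2).2)).length).all
      (fun b => b) &&
    (((dec (unpair (unpair (unpair q.1).2).2).1).zip (unpair (unpair q.1).2).1).all (fun y =>
      !y.2 || decide (y.1 ∈ dec (cz (unpair (unpair (unpair (unpair q.1).2).2).2).2))))))]

theorem poly_fin4 (p : Polynomial ℕ) : Poly (fin4 p) := by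
  have h4 : Poly (fun q : List Bool × List Bool => unpair q.1) :=
    poly_unpair.comp (Poly.fst Poly.id)
  have h3 : Poly (fun q : List Bool × List Bool => unpair (unpair q.1).2) :=
    poly_unpair.comp (Poly.snd h4)
  have h2 : Poly (fun q : List Bool × List Bool => unpair (unpair (unpair q.1).2).2) :=
    poly_unpair.comp (Poly.snd h3)
  have h1 : Poly (fun q : List Bool × List Bool => unpair (unpair (unpair (unpair q.1).2).2).2) :=
    poly_unpair.comp (Poly.snd h2)
  have hz := Poly.snd h1
  have hl : Poly (fun q : List Bool × List Bool =>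
      dec (cz (unpair (unpair (unpair (unpair q.1).2).2).2).2)) :=
    poly_dec.comp (poly_cz.comp hz)
  have hx := poly_xz.comp hz
  unfold fin4
  refine Poly.cons (Poly.and ?_ (Poly.and ?_ (Poly.and ?_ ?_))) (NPC.Poly.const [])
  · exact Poly.decide_le (Poly.length (poly_wz.comp hz)) ((UPoly.length hx).eval p).toPoly
  · exact Poly.decide_eq (Poly.snd Poly.id) (NPC.Poly.const _)
  · exact Poly.all (p := fun _ b => b) (R1.poly_take (Poly.fst h4) (UPoly.length hl))
      (Poly.snd Poly.id)
  · exact Poly.all (p := fun (q : List Bool × List Bool) (y : List Bool × Bool) =>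
      !y.2 || decide (y.1 ∈ dec (cz (unpair (unpair (unpair (unpair q.1).2).2).2).2)))
      (Poly.zip (poly_dec.comp (Poly.fst h2)) (Poly.fst h3))
      (Poly.or (Poly.not (Poly.snd (Poly.snd Poly.id))) ((Poly.decide_mem
        (Poly.fst (Poly.snd Poly.id)) (hl.comp (Poly.fst Poly.id))).congr
          fun _ => decide_eq_decide.2 Iff.rfl))

/-- the verifier -/
noncomputable def ver (τ : ℕ → Task) (e : ℕ) (r : Vr) (F : List Bool → List Bool) (O A : Oracle)
    (σ : Polynomial ℕ) (zz : List Bool) : List Bool :=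
  fin4 r.p (S4 O A (S3 O A (S2 (qH r) O σ (S1 F zz))),
    Gf τ (e + 1) O (pairBits (vz (S1 F zz)) (cz zz)))

theorem isFP_ver {τ : ℕ → Task} {e : ℕ} {r : Vr} {F : List Bool → List Bool} {O A : Oracle}
    (h : ∀ e, IsFP A (Gf τ e O)) (hH : IsFP A (Hf (qH r) O)) (hF : IsFP A F)
    (σ : Polynomial ℕ) : IsFP A (ver τ e r F O A σ) := by
  have hid : IsFP A (fun st => st) := IsFP.of_poly Poly.id
  have h1 : IsFP A (S1 F) := IsFP.pair (IsFP.comp hF
    (IsFP.of_poly (poly_pairBits poly_wz poly_xz))) hid
  have h2 : IsFP A (S2 (qH r) O σ) := IsFP.pair (IsFP.comp hH (IsFP.of_poly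
    (poly_pairBits poly_vz (poly_pairBits (poly_cz.comp (Poly.snd poly_unpair))
      (poly_rep ((UPoly.length poly_vz).eval σ) true))))) hid
  have h3 : IsFP A (S3 O A) := IsFP.pair (isFP_ans (h 0)) hid
  have h4 : IsFP A (S4 O A) := IsFP.pair (IsFP.comp (isFP_ans (h 0)) (IsFP.of_poly
    (poly_pairBits (R2.poly_bits (poly_dec.comp poly_c3)) Poly.id))) hid
  have h5 : IsFP A (fun zz => S4 O A (S3 O A (S2 (qH r) O σ (S1 F zz)))) :=
    IsFP.comp h4 (IsFP.comp h3 (IsFP.comp h2 h1))
  have h6 : Poly (fun p : List Bool × List Bool => unpair (unpair (unpair p.2).2).2) :=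
    poly_unpair.comp (Poly.snd (poly_unpair.comp (Poly.snd (poly_unpair.comp
      (Poly.snd Poly.id)))))
  have h7 := IsFP.seq h5 (h (e + 1)) (φ := fun p => pairBits (vz (unpair (unpair (unpair
    p.2).2).2).2) (cz p.1)) (ψ := fun p => fin4 r.p (p.2.1, p.2.2))
    (poly_pairBits (poly_vz.comp (Poly.snd h6)) (poly_cz.comp (Poly.fst Poly.id)))
    ((poly_fin4 r.p).comp (Poly.pair (Poly.fst (Poly.snd Poly.id)) (Poly.snd (Poly.snd Poly.id))))
  refine (congrArg (IsFP A) (funext fun zz => ?_)).mp h7
  unfold ver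
  have e1 : (unpair (unpair (unpair (S4 O A (S3 O A (S2 (qH r) O σ (S1 F zz))))).2).2).2 =
      S1 F zz := by
    unfold S4 S3 S2
    simp only [unpair_pairBits]
  rw [e1]

theorem ver_iff {τ : ℕ → Task} {e : ℕ} {r : Vr} {F : List Bool → List Bool} {O A : Oracle}
    (he : τ e = qTask r) {σ : Polynomial ℕ} {ce x w : List Bool} {l : List (List Bool)}
    {v : List Bool} (hw : w = (unpair ce).1) (hl : l = dec (unpair ce).2)
    (hv : v = pairBits (F (pairBits w x)) x) :
    ver τ e r F O A σ (pairBits ce x) = [true] ↔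
      w.length ≤ r.p.eval x.length ∧ (∃ ψ, IsW r (corr l O) v ψ) ∧ (∀ y ∈ l, A y ≠ O y) ∧
      ∀ y, y ∈ heavy (qH r) (corr l O) v (σ.eval v.length) → A y ≠ O y → y ∈ l := by
  have e1 : xz (pairBits ce x) = x := by unfold xz; rw [unpair_pairBits]
  have e2 : wz (pairBits ce x) = w := by unfold wz; rw [unpair_pairBits, hw]
  have e3 : dec (cz (pairBits ce x)) = l := by unfold cz; rw [unpair_pairBits, hl]
  have e4 : vz (S1 F (pairBits ce x)) = v := by
    unfold vz S1
    rw [e1, e2]
    simp only [unpair_pairBits]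
    rw [e1, hv]
  obtain ⟨H, hH⟩ : ∃ H, H = (heavy (qH r) (corr l O) v (σ.eval v.length)).toList := ⟨_, rfl⟩
  have e5 : S2 (qH r) O σ (S1 F (pairBits ce x)) = pairBits (bits H) (S1 F (pairBits ce x)) := by
    unfold S2
    rw [e4]
    congr 1
    unfold Hf
    simp only [unpair_pairBits, List.length_replicate]
    have e6 : (unpair (S1 F (pairBits ce x))).2 = pairBits ce x := by
      unfold S1
      rw [unpair_pairBits]
    rw [e6, e3, hH]
  have e7 : (unpair (S1 F (pairBits ce x))).2 = pairBits ce x := by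
    unfold S1
    rw [unpair_pairBits]
  have e8 : c3 (S3 O A (pairBits (bits H) (S1 F (pairBits ce x)))) = cz (pairBits ce x) := by
    unfold c3 S3
    simp only [unpair_pairBits]
    rw [e7]
  have h5 : Gf τ (e + 1) O (pairBits v (cz (pairBits ce x))) = [true] ↔
      ∃ ψ, IsW r (corr l O) v ψ := by
    have h : Gf τ (e + 1) O (pairBits v (cz (pairBits ce x))) = [true] ↔
        (τ e).V (corr (dec (unpair (pairBits v (cz (pairBits ce x)))).2) O)
          (unpair (pairBits v (cz (pairBits ce x)))).1 := by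
      simp [Gf]
    rw [h, unpair_pairBits, he, e3]
    rfl
  unfold ver
  rw [e4, e5]
  unfold S4
  rw [e8, e3]
  unfold fin4
  simp only [unpair_pairBits]
  unfold S3
  simp only [unpair_pairBits, e7, e1, e2, e3, dec_bits, zip_bits]
  simp only [List.cons.injEq, and_true, Bool.and_eq_true, decide_eq_true_eq]
  rw [h5]
  refine and_congr_right fun _ => and_congr_right fun _ => and_congr ?_ ?_
  · have h6 := ans_take (O := O) (A := A) (z := pairBits (bits l)
      (pairBits (ans O A (pairBits (bits H) (S1 F (pairBits ce x))))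
        (pairBits (bits H) (S1 F (pairBits ce x))))) (k := l.length) (by
        have h4 := length_lt_sz l
        rw [A2.length_pairBits, bits_length]
        omega) (by unfold cw; rw [unpair_pairBits, dec_bits])
    rw [h6]
    unfold cw
    rw [unpair_pairBits, dec_bits]
  · rw [List.all_map, List.all_eq_true, hH]
    constructor
    · intro h y hy hne
      have h6 := h y (mem_toList.2 hy)
      simpa [hne] using h6
    · intro h y hy
      have h6 := h y (mem_toList.1 hy)
      by_cases hne : A y = O y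
      · simp [hne]
      · simp [h6 hne]

/-- **Quantum proofs near the oracle.** -/
theorem npp_of_qma {τ : ℕ → Task} {e : ℕ} {r : Vr} {F : List Bool → List Bool} {O A : Oracle}
    (he : τ e = qTask r) (h : ∀ e, IsFP A (Gf τ e O)) (hH : IsFP A (Hf (qH r) O))
    (hA : ∃ d : Polynomial ℕ, ∀ m, dist O A m ≤ d.eval m) (hF : IsFP A F) {s : ℝ} (hs : s < r.q)
    {Y N : Set (List Bool)}
    (hY : ∀ x ∈ Y, ∃ (w : List Bool) (ψ : (Fin (r.p.eval x.length) → Bool) → ℂ),
      w.length ≤ r.p.eval x.length ∧ ψ ∈ r.W (r.p.eval x.length) ∧ ∑ t, ‖ψ t‖ ^ 2 = 1 ∧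
      r.q ≤ accW A (r.C (F (pairBits w x))) (r.p.eval x.length) ψ)
    (hN : ∀ x ∈ N, ∀ (w : List Bool) (ψ : (Fin (r.p.eval x.length) → Bool) → ℂ),
      w.length ≤ r.p.eval x.length → ψ ∈ r.W (r.p.eval x.length) → ∑ t, ‖ψ t‖ ^ 2 = 1 →
      accW A (r.C (F (pairBits w x))) (r.p.eval x.length) ψ ≤ s) : IsNPP A Y N := by
  obtain ⟨d, hd⟩ := hA
  obtain ⟨k, hk⟩ := exists_nat_gt (1 / (r.q - s))
  have hqs : 0 < r.q - s := by linarith
  have hkr : (0 : ℝ) < k := lt_trans (by positivity) hk
  have hk0 : 0 < k := by exact_mod_cast hkr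
  have hk1 : 1 / (k : ℝ) ≤ r.q - s := by
    rw [div_le_iff₀ hkr]
    rw [div_lt_iff₀ hqs] at hk
    linarith
  obtain ⟨b, hb⟩ : ∃ b, b = (qH r).b := ⟨_, rfl⟩
  obtain ⟨σ, hσ⟩ : ∃ σ : Polynomial ℕ, σ = Polynomial.C (16 * k ^ 2) * (b + 1) * d.comp b + 1 :=
    ⟨_, rfl⟩
  obtain ⟨M, hM⟩ := id hF
  obtain ⟨fb, hfb⟩ := A2.out_bound M
  obtain ⟨vb, hvb⟩ : ∃ vb : Polynomial ℕ, vb = Polynomial.C 2 *
    fb.comp (Polynomial.C 2 * r.p + Polynomial.X + 1) + Polynomial.X + 1 := ⟨_, rfl⟩
  obtain ⟨Q, hQ⟩ : ∃ Q : Polynomial ℕ, Q = Polynomial.C 2 * r.p + 1 +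
    (d.comp b * (Polynomial.C 4 * b + Polynomial.C 2) + 1).comp vb := ⟨_, rfl⟩
  have hDf : ∀ n, (Df O A n).card ≤ d.eval n := fun n => by
    rw [card_Df]
    exact hd n
  refine ⟨{x | ∃ ce : List Bool, ce.length ≤ Q.eval x.length ∧
    ver τ e r F O A σ (pairBits ce x) = [true]}, ⟨ver τ e r F O A σ, Q, isFP_ver h hH hF σ,
    fun x => Iff.rfl⟩, ?_, ?_⟩
  · intro x hx
    obtain ⟨w, ψ, hw, hψW, hψ, hacc⟩ := hY x hx
    obtain ⟨v, hv⟩ : ∃ v, v = pairBits (F (pairBits w x)) x := ⟨_, rfl⟩
    obtain ⟨l, hl⟩ : ∃ l, l = (Df O A (b.eval v.length)).toList := ⟨_, rfl⟩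
    have hvl : v.length ≤ vb.eval x.length := by
      have h1 := hfb A (pairBits w x) _ (hM _)
      have h2 : (pairBits w x).length ≤ 2 * r.p.eval x.length + x.length + 1 := by
        rw [A2.length_pairBits]
        omega
      have h3 := eval_mono fb h2
      rw [hv, A2.length_pairBits, hvb]
      simp only [Polynomial.eval_add, Polynomial.eval_mul, Polynomial.eval_C, Polynomial.eval_X,
        Polynomial.eval_comp, Polynomial.eval_one]
      omega
    refine ⟨pairBits w (bits l), ?_, ?_⟩
    · rw [A2.length_pairBits, bits_length]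
      have h1 := sz_le_length_mul l (4 * b.eval v.length + 1) (fun y hy => by
        have h4 := sz_listBool_le y
        rw [hl] at hy
        have h5 := (mem_Df.1 (mem_toList.1 hy)).1
        omega)
      have h2 : l.length ≤ d.eval (b.eval v.length) := by
        rw [hl, length_toList]
        exact hDf _
      have h3 : l.length * (4 * b.eval v.length + 1 + 1) ≤
          d.eval (b.eval v.length) * (4 * b.eval v.length + 2) := Nat.mul_le_mul h2 (by omega)
      have h4 := eval_mono (d.comp b * (Polynomial.C 4 * b + Polynomial.C 2) + 1) hvl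
      rw [hQ]
      simp only [Polynomial.eval_add, Polynomial.eval_mul, Polynomial.eval_C,
        Polynomial.eval_comp, Polynomial.eval_one] at h4 ⊢
      omega
    · rw [ver_iff he (w := w) (l := l) (v := v) (by rw [unpair_pairBits])
        (by rw [unpair_pairBits, dec_bits]) hv]
      have hcorr : ∀ y : List Bool, y.length ≤ b.eval v.length → corr l O y = A y := fun y hy =>
        corr_eq (fun z => by rw [hl, mem_toList]) hy
      refine ⟨hw, ?_, ?_, ?_⟩
      · have h1 : IsW r (corr l O) v = IsW r A v :=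
          IsW_loc (gates_bd r.hC).choose_spec (fun y hy => hcorr y (by rw [hb]; exact hy))
        rw [h1]
        have key : ∀ u : List Bool × List Bool, u = (F (pairBits w x), x) →
            ∃ ψ : (Fin (r.p.eval u.2.length) → Bool) → ℂ,
              IsWb r A u.1 (r.p.eval u.2.length) ψ := by
          rintro _ rfl
          exact ⟨ψ, hψW, hψ, hacc⟩
        exact key (unpair v) (by rw [hv, unpair_pairBits])
      · intro y hy
        rw [hl] at hy
        exact (mem_Df.1 (mem_toList.1 hy)).2
      · intro y hy hne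
        rw [hl, mem_toList, mem_Df, hb]
        exact ⟨(mem_heavy.1 hy).1, hne⟩
  · rw [Set.disjoint_left]
    rintro x ⟨ce, -, hce⟩ hxN
    obtain ⟨v, hv⟩ : ∃ v, v = pairBits (F (pairBits (unpair ce).1 x)) x := ⟨_, rfl⟩
    obtain ⟨l, hl⟩ : ∃ l, l = dec (unpair ce).2 := ⟨_, rfl⟩
    rw [ver_iff he rfl hl hv] at hce
    obtain ⟨h1, h2, h3, h4⟩ := hce
    refine gap hk0 hk1 h2 h3 h4 ?_ ?_
    · rw [hσ, ← hb]
      simp only [Polynomial.eval_add, Polynomial.eval_mul, Polynomial.eval_C,
        Polynomial.eval_comp, Polynomial.eval_one]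
      have h6 := Nat.mul_le_mul_left (16 * k ^ 2 * (b.eval v.length + 1)) (hDf (b.eval v.length))
      omega
    · have key : ∀ u : List Bool × List Bool, u = (F (pairBits (unpair ce).1 x), x) →
          ∀ ψ : (Fin (r.p.eval u.2.length) → Bool) → ℂ, ψ ∈ r.W _ → ∑ t, ‖ψ t‖ ^ 2 = 1 →
            accW A (r.C u.1) (r.p.eval u.2.length) ψ ≤ s := by
        rintro _ rfl ψ h5 h6
        exact hN x hxN _ ψ h1 h5 h6
      have hopt : IsW r (corr l O) v (opt r (corr l O) v) := optP_spec h2
      exact key (unpair v) (by rw [hv, unpair_pairBits]) _ hopt.1 hopt.2.1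

end Pool.Agent.TH654.RB
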