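import Pool.Agent.TH654.RB.HT3
import Pool.Agent.W938.QX.Hybrid
import Pool.Agent.W938.Hyb.HMach

/-!
# Quantum witnesses: weights of the questions asked on a good witness
-/

set_option autoImplicit false

namespace Pool.Agent.TH654.RB

open Pool.Agent.NPC Pool.Agent.H620R2.Gauge Pool.Agent.H622R2 Finset Filter
open Pool.Agent.W938.Hyb (load nsq_load)
open Pool.Agent.W938.QM (wq wq_nonneg numQ sum_wq_le circ_diff circ_norm Cov qn gw)
open Pool.Agent.W938.QX (accW accQ)

/-- The real part and the imaginary part of a vector. -/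
def cp {b : ℕ} (ψ : (Fin b → Bool) → ℂ) (c : Bool) : (Fin b → Bool) → ℝ :=
  fun t => if c then (ψ t).re else (ψ t).im

theorem ld_norm {b m : ℕ} (u : (Fin b → Bool) → ℝ) : ∑ s, load m u s ^ 2 = ∑ t, u t ^ 2 :=
  nsq_load u

theorem norm_cp {b : ℕ} (m : ℕ) (ψ : (Fin b → Bool) → ℂ) :
    ∑ c : Bool, ∑ s, load m (cp ψ c) s ^ 2 = ∑ t, ‖ψ t‖ ^ 2 := by
  simp only [ld_norm]
  rw [Fintype.sum_bool, ← Finset.sum_add_distrib]
  refine Finset.sum_congr rfl fun t _ => ?_
  rw [Complex.sq_norm, Complex.normSq_apply]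
  simp only [cp, if_true, Bool.false_eq_true, if_false]
  ring

theorem accW_cp {b : ℕ} (m : ℕ) (O : Oracle) (l : List Gate) (ψ : (Fin b → Bool) → ℂ) :
    accW O l m ψ = ∑ c : Bool, accQ b O l (load m (cp ψ c)) := by
  rw [Fintype.sum_bool]
  unfold accW accQ
  rw [← Finset.sum_add_distrib]
  refine Finset.sum_congr rfl fun s _ => ?_
  split_ifs
  · rfl
  · rw [add_zero]

theorem accW_loc {O O' : Oracle} {b m : ℕ} (l : List Gate)
    (h : ∀ q' k, Sum.inr (true, q', k) ∈ l → ∀ z : List Bool, z.length = q'.length → O z = O' z)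
    (ψ : (Fin b → Bool) → ℂ) : accW O l m ψ = accW O' l m ψ := by
  unfold accW
  rw [circAct_local l h, circAct_local l h]

theorem wq_loc {O O' : Oracle} {m : ℕ} : ∀ (l : List Gate)
    (_ : ∀ q' k, Sum.inr (true, q', k) ∈ l → ∀ z : List Bool, z.length = q'.length → O z = O' z)
    (ψ : (Fin m → Bool) → ℝ) (z : List Bool), wq O l ψ z = wq O' l ψ z
  | [], _, _, _ => rfl
  | g :: l, h, ψ, z => by
    simp only [wq]
    rw [gateAct_local (A := O) (A' := O')
      (fun q k hg => h q k (by rw [hg]; exact List.mem_cons_self)) ψ,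
      wq_loc l (fun q k hq => h q k (List.mem_cons_of_mem _ hq))]

theorem numQ_le : ∀ l : List Gate, numQ l ≤ l.length
  | [] => le_rfl
  | Sum.inr (true, _, _) :: l => by
    simp only [numQ, List.length_cons]
    have := numQ_le l
    omega
  | Sum.inr (false, _, _) :: l => by
    simp only [numQ, List.length_cons]
    have := numQ_le l
    omega
  | Sum.inl _ :: l => by
    simp only [numQ, List.length_cons]
    have := numQ_le l
    omega

/-- If a circuit accepts with probability at least `c` for the oracle `A` and at most `d` for the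
oracle `A'`, where `c - d` is at least `1/k`, then it asks the strings on which the two oracles
differ with a large weight. (Adapted from `W938/QX/Hybrid`.) -/
theorem wfar {ι : Type} [Fintype ι] {m : ℕ} (A A' : Oracle) (T : Finset (List Bool))
    (l : List Gate) (hT : Cov m A A' T l) (a : ℕ) (ψ : ι → (Fin m → Bool) → ℝ)
    (hψ : ∑ j, ∑ s, ψ j s ^ 2 = 1)
    (c d k : ℝ) (hk : 0 < k) (hcd : 1 / k ≤ c - d)
    (h1 : c ≤ ∑ j, accQ a A l (ψ j)) (h2 : ∑ j, accQ a A' l (ψ j) ≤ d) (R : ℝ)
    (hR0 : 0 < R) (hR : (numQ l : ℝ) ≤ R) :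
    1 / (16 * k ^ 2 * R) ≤ ∑ z ∈ T, ∑ j, wq A l (ψ j) z := by
  have h4 : ∑ j, accQ a A l (ψ j) - ∑ j, accQ a A' l (ψ j) ≤
      ∑ j, ∑ s, (2 * k * (circAct A l (ψ j) s - circAct A' l (ψ j) s) ^ 2 +
        (circAct A l (ψ j) s ^ 2 + circAct A' l (ψ j) s ^ 2) / (4 * k)) := by
    rw [← Finset.sum_sub_distrib]
    refine Finset.sum_le_sum fun j _ => ?_
    unfold accQ
    rw [← Finset.sum_sub_distrib]
    refine Finset.sum_le_sum fun s _ => ?_
    set u := circAct A l (ψ j) s
    set v := circAct A' l (ψ j) s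
    have h5 : u ^ 2 - v ^ 2 ≤ 2 * k * (u - v) ^ 2 + (u ^ 2 + v ^ 2) / (4 * k) := by
      have e : 2 * k * (u - v) ^ 2 + (u ^ 2 + v ^ 2) / (4 * k) - (u ^ 2 - v ^ 2) =
          ((4 * k * (u - v) - (u + v)) ^ 2 + (u - v) ^ 2) / (8 * k) := by
        field_simp
        ring
      have h6 : 0 ≤ ((4 * k * (u - v) - (u + v)) ^ 2 + (u - v) ^ 2) / (8 * k) := by positivity
      linarith
    have h6 : 0 ≤ 2 * k * (u - v) ^ 2 + (u ^ 2 + v ^ 2) / (4 * k) := by positivity
    split_ifs
    · exact h5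
    · linarith
  have h5 : ∀ j, ∑ s, (2 * k * (circAct A l (ψ j) s - circAct A' l (ψ j) s) ^ 2 +
        (circAct A l (ψ j) s ^ 2 + circAct A' l (ψ j) s ^ 2) / (4 * k)) ≤
      8 * k * R * ∑ z ∈ T, wq A l (ψ j) z + (∑ s, ψ j s ^ 2) / (2 * k) := by
    intro j
    have h3 := circ_diff A A' T l hT (ψ j)
    rw [Finset.sum_add_distrib, ← Finset.mul_sum, ← Finset.sum_div, Finset.sum_add_distrib,
      circ_norm, circ_norm]
    set W := ∑ z ∈ T, wq A l (ψ j) z with hW
    have hW0 : 0 ≤ W := Finset.sum_nonneg fun z _ => wq_nonneg A l (ψ j) z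
    have h7 : (numQ l : ℝ) * (4 * W) ≤ R * (4 * W) := mul_le_mul_of_nonneg_right hR (by positivity)
    have h8 : 2 * k * ∑ s, (circAct A l (ψ j) s - circAct A' l (ψ j) s) ^ 2 ≤
        2 * k * (R * (4 * W)) := mul_le_mul_of_nonneg_left (h3.trans h7) (by positivity)
    have h9 : (∑ s, ψ j s ^ 2 + ∑ s, ψ j s ^ 2) / (4 * k) = (∑ s, ψ j s ^ 2) / (2 * k) := by
      field_simp
      ring
    rw [h9]
    linarith
  have h6 := h4.trans (Finset.sum_le_sum fun j _ => h5 j)
  rw [Finset.sum_add_distrib, ← Finset.mul_sum, ← Finset.sum_div, hψ] at h6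
  rw [Finset.sum_comm]
  set X := ∑ j, ∑ z ∈ T, wq A l (ψ j) z with hX
  have h7 : 1 / k ≤ 8 * k * R * X + 1 / (2 * k) := by linarith
  have h8 : 1 / k - 1 / (2 * k) = 1 / (2 * k) := by
    field_simp
    ring
  have h9 : 1 / (2 * k) ≤ 8 * k * R * X := by linarith
  have h10 : 1 / (16 * k ^ 2 * R) = 1 / (2 * k) / (8 * k * R) := by
    field_simp
    ring
  rw [h10, div_le_iff₀ (by positivity)]
  linarith

/-- the data of a verifier: the circuits, the number of qubits, the allowed witness states, and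
the threshold for the probability of acceptance -/
structure Vr : Type where
  C : List Bool → List Gate
  hC : PolyTime (fun z => bits (C z))
  p : Polynomial ℕ
  W : ∀ b : ℕ, Set ((Fin b → Bool) → ℂ)
  q : ℝ

theorem gates_bd {C : List Bool → List Gate} (hC : PolyTime (fun z => bits (C z))) :
    ∃ b : Polynomial ℕ, ∀ z, (C z).length ≤ b.eval z.length ∧
      ∀ q k, Sum.inr (true, q, k) ∈ C z → q.length ≤ b.eval z.length := by
  obtain ⟨q, hq⟩ := (Pool.Agent.H622R2.poly_of_polyTime hC).sz_le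
  refine ⟨q.comp (Polynomial.C 4 * Polynomial.X + Polynomial.C 1), fun x => ?_⟩
  have h0 : sz (C x) ≤ (q.comp (Polynomial.C 4 * Polynomial.X + Polynomial.C 1)).eval x.length := by
    have h1 := length_lt_sz (bits (C x))
    rw [bits_length] at h1
    refine h1.le.trans ((hq _).trans ?_)
    rw [Polynomial.eval_comp]
    apply eval_mono
    have h2 := sz_listBool_le x
    simp only [Polynomial.eval_add, Polynomial.eval_mul, Polynomial.eval_C, Polynomial.eval_X]
    omega
  refine ⟨?_, ?_⟩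
  · have := length_lt_sz (C x)
    omega
  · intro q' k hmem
    have h4 := sz_le_of_mem hmem
    have h5 := length_lt_sz q'
    rw [sz_inr, sz_pair, sz_pair] at h4
    omega

/-- `ψ` is a good witness -/
def IsWb (r : Vr) (A : Oracle) (z : List Bool) (b : ℕ) (ψ : (Fin b → Bool) → ℂ) : Prop :=
  ψ ∈ r.W b ∧ ∑ t, ‖ψ t‖ ^ 2 = 1 ∧ r.q ≤ accW A (r.C z) b ψ

/-- the number of qubits -/
noncomputable def pb (r : Vr) (v : List Bool) : ℕ := r.p.eval (unpair v).2.length

/-- `ψ` is a good witness for the input `v` -/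
def IsW (r : Vr) (A : Oracle) (v : List Bool) (ψ : (Fin (pb r v) → Bool) → ℂ) : Prop :=
  IsWb r A (unpair v).1 (pb r v) ψ

open Classical in
/-- a vector with the property `P`, if there is one -/
noncomputable def optP {b : ℕ} (P : ((Fin b → Bool) → ℂ) → Prop) : (Fin b → Bool) → ℂ :=
  if h : ∃ ψ, P ψ then h.choose else fun _ => 0

theorem optP_spec {b : ℕ} {P : ((Fin b → Bool) → ℂ) → Prop} (h : ∃ ψ, P ψ) : P (optP P) := by
  unfold optP
  rw [dif_pos h]
  exact h.choose_spec

/-- a good witness -/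
noncomputable def opt (r : Vr) (A : Oracle) (v : List Bool) : (Fin (pb r v) → Bool) → ℂ :=
  optP (IsW r A v)

theorem opt_norm (r : Vr) (A : Oracle) (v : List Bool) : ∑ t, ‖opt r A v t‖ ^ 2 ≤ 1 := by
  unfold opt optP
  split_ifs with h
  · exact h.choose_spec.2.1.le
  · simp

theorem IsW_loc {r : Vr} {b : Polynomial ℕ} (hb : ∀ z, (r.C z).length ≤ b.eval z.length ∧
    ∀ q k, Sum.inr (true, q, k) ∈ r.C z → q.length ≤ b.eval z.length) {A A' : Oracle}
    {v : List Bool} (h : ∀ y : List Bool, y.length ≤ b.eval v.length → A y = A' y) :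
    IsW r A v = IsW r A' v := by
  funext ψ
  unfold IsW IsWb
  rw [accW_loc (O := A) (O' := A') (r.C (unpair v).1) (fun q k hq z hz => h z (by
    have h1 := (hb (unpair v).1).2 q k hq
    have h2 := eval_mono b (Pool.Agent.TH678.EL.unpair_fst_len v)
    omega))]

/-- the weights -/
noncomputable def qH (r : Vr) : HTask where
  b := (gates_bd r.hC).choose
  p := fun _ _ => 0
  M := fun A v y => ∑ c : Bool, wq A (r.C (unpair v).1) (load (pb r v) (cp (opt r A v) c)) y
  loc := by
    intro A A' v h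
    refine ⟨rfl, ?_⟩
    have h1 : opt r A v = opt r A' v := by
      unfold opt
      rw [IsW_loc (gates_bd r.hC).choose_spec h]
    funext y
    rw [h1]
    refine sum_congr rfl fun c _ => ?_
    exact wq_loc _ (fun q k hq z hz => h z (by
      have h1 := ((gates_bd r.hC).choose_spec (unpair v).1).2 q k hq
      have h2 := eval_mono (gates_bd r.hC).choose (Pool.Agent.TH678.EL.unpair_fst_len v)
      omega)) _ _
  nonneg := fun A v y => sum_nonneg fun c _ => wq_nonneg _ _ _ _
  sum := by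
    intro A v S
    rw [sum_comm]
    have h1 : ∀ c : Bool, ∑ y ∈ S, wq A (r.C (unpair v).1) (load (pb r v) (cp (opt r A v) c)) y ≤
        numQ (r.C (unpair v).1) * ∑ s, load (pb r v) (cp (opt r A v) c) s ^ 2 := fun c =>
      sum_wq_le _ _ _ _
    refine (sum_le_sum fun c _ => h1 c).trans ?_
    rw [← mul_sum, norm_cp]
    have h2 := opt_norm r A v
    have h3 : numQ (r.C (unpair v).1) ≤ (gates_bd r.hC).choose.eval v.length :=
      (numQ_le _).trans (((gates_bd r.hC).choose_spec (unpair v).1).1.trans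
        (eval_mono _ (Pool.Agent.TH678.EL.unpair_fst_len v)))
    have h4 : (numQ (r.C (unpair v).1) : ℝ) ≤ (gates_bd r.hC).choose.eval v.length := by
      exact_mod_cast h3
    calc (numQ (r.C (unpair v).1) : ℝ) * ∑ t, ‖opt r A v t‖ ^ 2
        ≤ (numQ (r.C (unpair v).1) : ℝ) * 1 := mul_le_mul_of_nonneg_left h2 (Nat.cast_nonneg _)
      _ ≤ _ := by rw [mul_one]; exact h4
  hyb := by
    intro A A' x D _
    rw [sub_self, abs_zero]
    positivity

/-- the task to decide whether there is a good witness -/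
noncomputable def qTask (r : Vr) : Task where
  b := (gates_bd r.hC).choose
  V := fun A v => ∃ ψ, IsW r A v ψ
  loc := fun A A' v h => by rw [IsW_loc (gates_bd r.hC).choose_spec h]

/-- a witness which is good for the corrected oracle is good for the changed oracle -/
theorem gap {r : Vr} {O A : Oracle} {v : List Bool} {l : List (List Bool)} {s k : ℕ} {d : ℝ}
    (hk : 0 < k) (hd : 1 / (k : ℝ) ≤ r.q - d)
    (hD : ∃ ψ, IsW r (corr l O) v ψ)
    (hl : ∀ y ∈ l, A y ≠ O y)
    (hst : ∀ y, y ∈ heavy (qH r) (corr l O) v s → A y ≠ O y → y ∈ l)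
    (hs : 16 * k ^ 2 * ((qH r).b.eval v.length + 1) * (Df O A ((qH r).b.eval v.length)).card + 1 ≤
      s) :
    ¬ accW A (r.C (unpair v).1) (pb r v) (opt r (corr l O) v) ≤ d := by
  intro hacc
  obtain ⟨B, hB⟩ : ∃ B, B = (qH r).b.eval v.length := ⟨_, rfl⟩
  rw [← hB] at hs
  have hopt : IsW r (corr l O) v (opt r (corr l O) v) := optP_spec hD
  obtain ⟨-, hn, hq⟩ := hopt
  obtain ⟨T, hT⟩ : ∃ T, T = (Df O A B).filter (fun y => y ∉ l) := ⟨_, rfl⟩
  have hcov : Cov (pb r v + pb r v) (corr l O) A T (r.C (unpair v).1) := by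
    intro q j hmem t hj hne
    have h1 : (qn q j t).length ≤ B := by
      have h2 : (qn q j t).length = q.length := by
        unfold qn
        rw [dif_pos hj, List.length_map]
      have h3 := ((gates_bd r.hC).choose_spec (unpair v).1).2 q j hmem
      have h4 := eval_mono (gates_bd r.hC).choose (Pool.Agent.TH678.EL.unpair_fst_len v)
      have h5 : (qH r).b = (gates_bd r.hC).choose := rfl
      rw [h5] at hB
      omega
    rw [hT, mem_filter, mem_Df]
    by_cases h2 : qn q j t ∈ l
    · exfalso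
      apply hne
      have h3 := hl _ h2
      unfold corr
      rw [if_pos h2]
      revert h3
      cases A (qn q j t) <;> cases O (qn q j t) <;> simp
    · refine ⟨⟨h1, ?_⟩, h2⟩
      unfold corr at hne
      rw [if_neg h2] at hne
      exact fun h3 => hne h3.symm
  rw [accW_cp] at hq hacc
  have hnum : (numQ (r.C (unpair v).1) : ℝ) ≤ (B : ℝ) + 1 := by
    have h3 : numQ (r.C (unpair v).1) ≤ B := by
      rw [hB]
      exact (numQ_le _).trans (((gates_bd r.hC).choose_spec (unpair v).1).1.trans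
        (eval_mono _ (Pool.Agent.TH678.EL.unpair_fst_len v)))
    have h4 : (numQ (r.C (unpair v).1) : ℝ) ≤ B := by exact_mod_cast h3
    linarith
  have hkr : (0 : ℝ) < k := by exact_mod_cast hk
  have hw := wfar (corr l O) A T (r.C (unpair v).1) hcov (pb r v)
    (fun c : Bool => load (pb r v) (cp (opt r (corr l O) v) c))
    ((norm_cp (pb r v) (opt r (corr l O) v)).trans hn) r.q d k hkr hd hq hacc ((B : ℝ) + 1)
    (by positivity) hnum
  have hM : ∀ y, ∑ c : Bool, wq (corr l O) (r.C (unpair v).1)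
      (load (pb r v) (cp (opt r (corr l O) v) c)) y = (qH r).M (corr l O) v y := fun y => rfl
  simp only [hM] at hw
  have h2 : (s : ℝ) * ∑ y ∈ T, (qH r).M (corr l O) v y ≤ (Df O A B).card := by
    rw [mul_sum, hT]
    calc ∑ y ∈ (Df O A B).filter (fun y => y ∉ l), (s : ℝ) * (qH r).M (corr l O) v y
        ≤ ∑ y ∈ (Df O A B).filter (fun y => y ∉ l), (1 : ℝ) := by
          refine sum_le_sum fun y hy => ?_
          rw [mem_filter, mem_Df] at hy
          by_contra h3
          push Not at h3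
          apply hy.2
          apply hst y _ hy.1.2
          exact mem_heavy.2 ⟨by rw [← hB]; exact hy.1.1, h3.le⟩
      _ = (((Df O A B).filter (fun y => y ∉ l)).card : ℝ) := by simp
      _ ≤ (Df O A B).card := by exact_mod_cast card_le_card (filter_subset _ _)
  have hsr : 16 * (k : ℝ) ^ 2 * ((B : ℝ) + 1) * (Df O A B).card + 1 ≤ s := by exact_mod_cast hs
  have hpos : (0 : ℝ) < 16 * (k : ℝ) ^ 2 * ((B : ℝ) + 1) := by positivity
  have h3 : (s : ℝ) * (1 / (16 * (k : ℝ) ^ 2 * ((B : ℝ) + 1))) ≤ (Df O A B).card :=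
    (mul_le_mul_of_nonneg_left hw (Nat.cast_nonneg _)).trans h2
  rw [mul_one_div, div_le_iff₀ hpos] at h3
  linarith

end Pool.Agent.TH654.RB
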