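import Pool.Agent.TH678.EL.Robust
import Pool.Agent.TH678.PN.Incl

/-!
# Oracles for which polynomially many changes can be undone in `P^NP`
-/

set_option autoImplicit false

namespace Pool.Agent.TH654.RB

open Pool.Agent.NPC Pool.Agent.H620R2.Gauge Pool.Agent.H622R2 Finset
open Pool.Agent.W900.CH (dist finite_diff)
open Pool.Agent.TH678.PN Pool.Agent.TH678.EL

/-- a family of questions about the oracle, each depending on short strings only -/
structure Task : Type where
  b : Polynomial ℕ
  V : Oracle → List Bool → Prop
  loc : ∀ (A A' : Oracle) (x : List Bool),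
    (∀ y : List Bool, y.length ≤ b.eval x.length → A y = A' y) → (V A x ↔ V A' x)

/-- the list of strings written in `w` -/
def dec (w : List Bool) : List (List Bool) := (unbits (List (List Bool)) w).getD []

theorem dec_bits (l : List (List Bool)) : dec (bits l) = l := by
  unfold dec
  rw [unbits_bits]
  rfl

theorem poly_dec : Poly dec :=
  (Poly.optCases (o := unbits (List (List Bool))) (g := fun _ => ([] : List (List Bool)))
    (h := fun _ b => b) poly_unbits (NPC.Poly.const _) (Poly.snd Poly.id)).congr fun s => by
      unfold dec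
      cases unbits (List (List Bool)) s <;> rfl

/-- the oracle changed on the strings of a list -/
def corr (l : List (List Bool)) (O : Oracle) : Oracle := fun y => if y ∈ l then !(O y) else O y

open Classical in
/-- the functions which the code has to provide -/
noncomputable def Gf (τ : ℕ → Task) : ℕ → Oracle → List Bool → List Bool
  | 0, O, z => [O z]
  | e + 1, O, z => [decide ((τ e).V (corr (dec (unpair z).2) O) (unpair z).1)]

/-- the bounds -/
noncomputable def bf (τ : ℕ → Task) : ℕ → Polynomial ℕ
  | 0 => Polynomial.X + 1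
  | e + 1 => (τ e).b + 1

theorem Gf_loc (τ : ℕ → Task) (e : ℕ) {A A' : Oracle} {z : List Bool}
    (h : ∀ y : List Bool, y.length ≤ (bf τ e).eval z.length → A y = A' y) :
    Gf τ e A z = Gf τ e A' z := by
  cases e with
  | zero =>
    change [A z] = [A' z]
    rw [h z (by simp [bf])]
  | succ e =>
    unfold Gf
    have h1 : (τ e).V (corr (dec (unpair z).2) A) (unpair z).1 ↔
        (τ e).V (corr (dec (unpair z).2) A') (unpair z).1 := by
      apply (τ e).loc
      intro y hy
      have h2 : A y = A' y := by
        apply h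
        have h3 := eval_mono (τ e).b (unpair_fst_len z)
        simp only [bf, Polynomial.eval_add, Polynomial.eval_one]
        omega
      unfold corr
      rw [h2]
    exact congrArg (fun b => [b]) (decide_eq_decide.2 h1)

theorem Gf_len (τ : ℕ → Task) (e : ℕ) (A : Oracle) (z : List Bool) :
    (Gf τ e A z).length ≤ (bf τ e).eval z.length := by
  cases e with
  | zero => simp [Gf, bf]
  | succ e => simp [Gf, bf]

theorem exists_code (τ : ℕ → Task) : ∃ O : Oracle, ∀ A : Oracle,
    (∃ d : Polynomial ℕ, ∀ m, dist O A m ≤ d.eval m) → ∀ e, IsFP A (Gf τ e O) :=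
  robust (bf τ) (Gf τ) (fun e _ _ _ h => Gf_loc τ e h) (Gf_len τ)

/-- the strings of length at most `m` which are changed -/
noncomputable def Df (O A : Oracle) (m : ℕ) : Finset (List Bool) := (finite_diff O A m).toFinset

theorem mem_Df {O A : Oracle} {m : ℕ} {y : List Bool} : y ∈ Df O A m ↔ y.length ≤ m ∧ A y ≠ O y := by
  unfold Df
  rw [Set.Finite.mem_toFinset]
  rfl

theorem card_Df (O A : Oracle) (m : ℕ) : (Df O A m).card = dist O A m := by
  unfold Pool.Agent.W900.CH.dist Df
  rw [Set.ncard_eq_toFinset_card _ (finite_diff O A m)]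

/-- what the certificate `l` has to satisfy -/
def Good (τ : Task) (O A : Oracle) (x s : List Bool) (l : List (List Bool)) : Prop :=
  l.Nodup ∧ l.length = s.tail.length ∧ (∀ y ∈ l, y.length ≤ τ.b.eval x.length) ∧
    (∀ y ∈ l, A y ≠ O y) ∧ (s.head? = some true → τ.V (corr l O) x)

theorem good_false {τ : Task} {O A : Oracle} {x : List Bool} {k : ℕ} :
    (∃ l, Good τ O A x (false :: List.replicate k true) l) ↔
      k ≤ (Df O A (τ.b.eval x.length)).card := by
  constructor
  · rintro ⟨l, h1, h2, h3, h4, -⟩
    rw [List.tail_cons, List.length_replicate] at h2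
    rw [← h2, ← List.toFinset_card_of_nodup h1]
    apply card_le_card
    intro y hy
    rw [List.mem_toFinset] at hy
    exact mem_Df.2 ⟨h3 y hy, h4 y hy⟩
  · intro h
    obtain ⟨S, hS, hc⟩ := exists_subset_card_eq h
    refine ⟨S.toList, S.nodup_toList, by simp [hc], ?_, ?_, by simp⟩
    · intro y hy
      exact (mem_Df.1 (hS (mem_toList.1 hy))).1
    · intro y hy
      exact (mem_Df.1 (hS (mem_toList.1 hy))).2

theorem corr_eq {O A : Oracle} {m : ℕ} {l : List (List Bool)}
    (hl : ∀ y, y ∈ l ↔ y ∈ Df O A m) {y : List Bool} (hy : y.length ≤ m) : corr l O y = A y := by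
  unfold corr
  have h1 := hl y
  rw [mem_Df] at h1
  by_cases h : A y = O y
  · rw [if_neg (fun h2 => (h1.1 h2).2 h), h]
  · rw [if_pos (h1.2 ⟨hy, h⟩)]
    revert h
    cases A y <;> cases O y <;> simp

theorem good_true {τ : Task} {O A : Oracle} {x : List Bool} :
    (∃ l, Good τ O A x (true :: List.replicate (Df O A (τ.b.eval x.length)).card true) l) ↔
      τ.V A x := by
  constructor
  · rintro ⟨l, h1, h2, h3, h4, h5⟩
    rw [List.tail_cons, List.length_replicate] at h2
    have h6 : l.toFinset = Df O A (τ.b.eval x.length) := by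
      apply eq_of_subset_of_card_le
      · intro y hy
        rw [List.mem_toFinset] at hy
        exact mem_Df.2 ⟨h3 y hy, h4 y hy⟩
      · rw [List.toFinset_card_of_nodup h1, h2]
    refine (τ.loc _ _ x fun y hy => ?_).1 (h5 rfl)
    refine corr_eq (m := τ.b.eval x.length) (fun z => ?_) hy
    rw [← h6, List.mem_toFinset]
  · intro h
    refine ⟨(Df O A (τ.b.eval x.length)).toList, nodup_toList _, by simp, ?_, ?_, fun _ => ?_⟩
    · intro y hy
      exact (mem_Df.1 (mem_toList.1 hy)).1
    · intro y hy
      exact (mem_Df.1 (mem_toList.1 hy)).2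
    · refine (τ.loc _ _ x fun y hy => ?_).1 h
      exact (corr_eq (m := τ.b.eval x.length) (fun z => mem_toList) hy).symm

end Pool.Agent.TH654.RB
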