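import Pool.Agent.TH654.RB.Ver
import Pool.Agent.TH654.RB.HT3

/-!
# A sparse set in `NP` which knows all changed strings
-/

set_option autoImplicit false

namespace Pool.Agent.TH654.RB

open Pool.Agent.NPC Pool.Agent.H620R2.Gauge Pool.Agent.H622R2 Finset
open Pool.Agent.W900.CH (dist finite_diff)
open Pool.Agent.TH678.PN Pool.Agent.TH678.EL

/-! ### sorted lists -/

/-- the number of a string -/
def key (y : List Bool) : ℕ := valB (y ++ [true])

theorem key_pos (y : List Bool) : 0 < key y := by
  unfold key
  rw [valB_append]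
  have : 0 < 2 ^ y.length := Nat.pow_pos (by omega)
  simp only [valB_cons, valB_nil, if_true]
  omega

theorem key_cons (b : Bool) (y : List Bool) : key (b :: y) = (if b then 1 else 0) + 2 * key y := rfl

theorem key_inj : ∀ {y z : List Bool}, key y = key z → y = z
  | [], [], _ => rfl
  | [], b :: z, h => by
    rw [key_cons] at h
    have h1 := key_pos z
    have h2 : key [] = 1 := rfl
    omega
  | b :: y, [], h => by
    rw [key_cons] at h
    have h1 := key_pos y
    have h2 : key [] = 1 := rfl
    omega
  | b :: y, c :: z, h => by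
    rw [key_cons, key_cons] at h
    cases b <;> cases c <;> simp only [if_true, Bool.false_eq_true, if_false] at h
    · rw [key_inj (y := y) (z := z) (by omega)]
    · omega
    · omega
    · rw [key_inj (y := y) (z := z) (by omega)]

theorem poly_key : Poly key :=
  Poly.valBits (Poly.append Poly.id (NPC.Poly.const [true]))

/-- the test that a list is sorted -/
def srt (l : List (List Bool)) : Bool := (l.zip l.tail).all (fun p => decide (key p.1 < key p.2))

theorem poly_srt : Poly srt := by
  unfold srt
  exact Poly.all (p := fun (_ : List (List Bool)) (p : List Bool × List Bool) =>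
    decide (key p.1 < key p.2)) (Poly.zip Poly.id (Poly.tail Poly.id))
    (Poly.decide_lt (poly_key.comp (Poly.fst (Poly.snd Poly.id)))
      (poly_key.comp (Poly.snd (Poly.snd Poly.id))))

theorem srt_chain : ∀ l : List (List Bool), srt l = true ↔ l.IsChain (fun a b => key a < key b)
  | [] => by simp [srt]
  | [a] => by simp [srt]
  | a :: b :: l => by
    have ih := srt_chain (b :: l)
    unfold srt at ih ⊢
    rw [List.isChain_cons_cons, ← ih]
    simp

theorem srt_iff (l : List (List Bool)) : srt l = true ↔ l.Pairwise (fun a b => key a < key b) := by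
  rw [srt_chain]
  exact List.isChain_iff_pairwise

theorem srt_nodup {l : List (List Bool)} (h : srt l = true) : l.Nodup := by
  rw [srt_iff] at h
  exact h.imp (fun hab he => by rw [he] at hab; exact lt_irrefl _ hab)

theorem srt_unique {l l' : List (List Bool)} (h : srt l = true) (h' : srt l' = true)
    (hm : ∀ y, y ∈ l ↔ y ∈ l') : l = l' := by
  have h1 := (List.perm_ext_iff_of_nodup (srt_nodup h) (srt_nodup h')).2 hm
  rw [srt_iff] at h h'
  exact List.Perm.eq_of_pairwise (fun a b _ _ h1 h2 => absurd (h1.trans h2) (lt_irrefl _)) h h' h1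

/-- the sorted list of the changed strings -/
noncomputable def Ls (O A : Oracle) (n : ℕ) : List (List Bool) :=
  List.insertionSort (fun a b => key a ≤ key b) (Df O A n).toList

theorem mem_Ls {O A : Oracle} {n : ℕ} {y : List Bool} : y ∈ Ls O A n ↔ y ∈ Df O A n := by
  unfold Ls
  rw [(List.perm_insertionSort _ _).mem_iff, mem_toList]

theorem Ls_nodup (O A : Oracle) (n : ℕ) : (Ls O A n).Nodup :=
  (List.perm_insertionSort _ _).nodup_iff.2 (nodup_toList _)

theorem Ls_length (O A : Oracle) (n : ℕ) : (Ls O A n).length = (Df O A n).card := by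
  unfold Ls
  rw [(List.perm_insertionSort _ _).length_eq, length_toList]

theorem srt_Ls (O A : Oracle) (n : ℕ) : srt (Ls O A n) = true := by
  rw [srt_iff]
  have : Std.Total (fun a b : List Bool => key a ≤ key b) := ⟨fun a b => le_total _ _⟩
  have : IsTrans (List Bool) (fun a b : List Bool => key a ≤ key b) :=
    ⟨fun a b c h1 h2 => le_trans h1 h2⟩
  have h1 : (Ls O A n).Pairwise (fun a b => key a ≤ key b) := List.pairwise_insertionSort _ _
  exact h1.imp₂ (fun a b h2 h3 => lt_of_le_of_ne h2 fun he => h3 (key_inj he)) (Ls_nodup O A n)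

/-- a prefix of a sorted list is sorted -/
theorem srt_take {l : List (List Bool)} (h : srt l = true) (k : ℕ) : srt (l.take k) = true := by
  rw [srt_iff] at h ⊢
  exact h.sublist (List.take_sublist _ _)

/-! ### the set -/

/-- `n` ones -/
def ones (n : ℕ) : List Bool := List.replicate n true

theorem ones_length (n : ℕ) : (ones n).length = n := List.length_replicate

/-- the elements -/
def tri (n k j : ℕ) : List Bool := pairBits (ones n) (pairBits (ones k) (ones j))

theorem tri_length (n k j : ℕ) : (tri n k j).length = 2 * n + 2 * k + j + 2 := by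
  unfold tri
  rw [A2.length_pairBits, A2.length_pairBits, ones_length, ones_length, ones_length]
  omega

/-- what the certificate has to satisfy -/
def Gct (O A : Oracle) (n k j : ℕ) (l : List (List Bool)) : Prop :=
  srt l = true ∧ l.length = k ∧ (∀ y ∈ l, y.length ≤ n) ∧ (∀ y ∈ l, A y ≠ O y) ∧
    (j = 0 ∨ (bits l ++ [true]).getD (j - 1) false = true)

theorem Gct_card {O A : Oracle} {n k j : ℕ} {l : List (List Bool)} (h : Gct O A n k j l) :
    k ≤ (Df O A n).card := by
  obtain ⟨h1, h2, h3, h4, -⟩ := h
  rw [← h2, ← List.toFinset_card_of_nodup (srt_nodup h1)]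
  exact card_le_card fun y hy => by
    rw [List.mem_toFinset] at hy
    exact mem_Df.2 ⟨h3 y hy, h4 y hy⟩

theorem Gct_eq {O A : Oracle} {n k j : ℕ} {l : List (List Bool)} (h : Gct O A n k j l)
    (hk : k = (Df O A n).card) : l = Ls O A n := by
  obtain ⟨h1, h2, h3, h4, -⟩ := h
  refine srt_unique h1 (srt_Ls O A n) fun y => ?_
  have h5 : l.toFinset = Df O A n := by
    apply eq_of_subset_of_card_le
    · intro y hy
      rw [List.mem_toFinset] at hy
      exact mem_Df.2 ⟨h3 y hy, h4 y hy⟩
    · rw [List.toFinset_card_of_nodup (srt_nodup h1), h2, hk]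
  rw [mem_Ls, ← h5, List.mem_toFinset]

theorem exists_Gct {O A : Oracle} {n k : ℕ} (hk : k ≤ (Df O A n).card) :
    ∃ l, Gct O A n k 0 l := by
  refine ⟨(Ls O A n).take k, srt_take (srt_Ls O A n) k, ?_, ?_, ?_, Or.inl rfl⟩
  · rw [List.length_take, Ls_length]
    omega
  · intro y hy
    exact (mem_Df.1 (mem_Ls.1 (List.mem_of_mem_take hy))).1
  · intro y hy
    exact (mem_Df.1 (mem_Ls.1 (List.mem_of_mem_take hy))).2

open Classical in
/-- the set -/
noncomputable def TS (O A : Oracle) : Oracle := fun u =>
  decide (∃ n k j : ℕ, u = tri n k j ∧ ∃ l, Gct O A n k j l)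

theorem ones_inj {n m : ℕ} (h : ones n = ones m) : n = m := by
  have := congrArg List.length h
  rwa [ones_length, ones_length] at this

theorem tri_inj {n k j n' k' j' : ℕ} (h : tri n k j = tri n' k' j') :
    n = n' ∧ k = k' ∧ j = j' := by
  unfold tri at h
  have h1 := congrArg unpair h
  rw [unpair_pairBits, unpair_pairBits, Prod.mk.injEq] at h1
  have h2 := congrArg unpair h1.2
  rw [unpair_pairBits, unpair_pairBits, Prod.mk.injEq] at h2
  exact ⟨ones_inj h1.1, ones_inj h2.1, ones_inj h2.2⟩

theorem TS_tri {O A : Oracle} {n k j : ℕ} :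
    TS O A (tri n k j) = true ↔ ∃ l, Gct O A n k j l := by
  have h0 : TS O A (tri n k j) = true ↔
      ∃ n' k' j' : ℕ, tri n k j = tri n' k' j' ∧ ∃ l, Gct O A n' k' j' l := by simp [TS]
  rw [h0]
  constructor
  · rintro ⟨n', k', j', h, hl⟩
    obtain ⟨rfl, rfl, rfl⟩ := tri_inj h
    exact hl
  · intro hl
    exact ⟨n, k, j, rfl, hl⟩

theorem TS_zero {O A : Oracle} {n k : ℕ} :
    TS O A (tri n k 0) = true ↔ k ≤ (Df O A n).card := by
  rw [TS_tri]
  exact ⟨fun ⟨l, hl⟩ => Gct_card hl, exists_Gct⟩

theorem TS_succ {O A : Oracle} {n j : ℕ} :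
    TS O A (tri n (Df O A n).card (j + 1)) = true ↔
      (bits (Ls O A n) ++ [true]).getD j false = true := by
  rw [TS_tri]
  constructor
  · rintro ⟨l, hl⟩
    have h1 := Gct_eq hl rfl
    subst h1
    rcases hl.2.2.2.2 with h | h
    · omega
    · simpa using h
  · intro h
    refine ⟨Ls O A n, srt_Ls O A n, Ls_length O A n, fun y hy => (mem_Df.1 (mem_Ls.1 hy)).1,
      fun y hy => (mem_Df.1 (mem_Ls.1 hy)).2, Or.inr ?_⟩
    simpa using h

/-! ### it is in `NP` -/

def un (u : List Bool) : List Bool := (unpair u).1
def uk (u : List Bool) : List Bool := (unpair (unpair u).2).1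
def uj (u : List Bool) : List Bool := (unpair (unpair u).2).2

theorem poly_un : Poly un := Poly.fst poly_unpair
theorem poly_uk : Poly uk := Poly.fst (poly_unpair.comp (Poly.snd poly_unpair))
theorem poly_uj : Poly uj := Poly.snd (poly_unpair.comp (Poly.snd poly_unpair))

/-- the test -/
def Ht (p : List Bool × List Bool) : List Bool :=
  [decide ((unpair p.1).2 = pairBits (List.replicate (un (unpair p.1).2).length true)
      (pairBits (List.replicate (uk (unpair p.1).2).length true)
        (List.replicate (uj (unpair p.1).2).length true))) &&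
    (srt (cw p.1) && (decide ((cw p.1).length = (uk (unpair p.1).2).length) &&
    ((cw p.1).all (fun y => decide (y.length ≤ (un (unpair p.1).2).length)) &&
    ((p.2.take (uk (unpair p.1).2).length).all (fun b => b) &&
    (decide ((uj (unpair p.1).2).length = 0) ||
      (bits (cw p.1) ++ [true]).getD ((uj (unpair p.1).2).length - 1) false)))))]

theorem poly_Ht : Poly Ht := by
  have hu : Poly (fun p : List Bool × List Bool => (unpair p.1).2) :=
    Poly.snd (poly_unpair.comp (Poly.fst Poly.id))
  have hw : Poly (fun p : List Bool × List Bool => cw p.1) := poly_cw.comp (Poly.fst Poly.id)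
  have h1 : Poly (fun p : List Bool × List Bool => un (unpair p.1).2) := poly_un.comp hu
  have h2 : Poly (fun p : List Bool × List Bool => uk (unpair p.1).2) := poly_uk.comp hu
  have h3 : Poly (fun p : List Bool × List Bool => uj (unpair p.1).2) := poly_uj.comp hu
  unfold Ht
  refine Poly.cons (Poly.and (Poly.decide_eq hu (poly_pairBits (poly_rep (UPoly.length h1) true)
    (poly_pairBits (poly_rep (UPoly.length h2) true) (poly_rep (UPoly.length h3) true))))
    (Poly.and (poly_srt.comp hw) (Poly.and (Poly.decide_eq (Poly.length hw) (Poly.length h2))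
    (Poly.and ?_ (Poly.and ?_ (Poly.or ?_ ?_)))))) (NPC.Poly.const [])
  · exact Poly.all (p := fun (p : List Bool × List Bool) (y : List Bool) =>
      decide (y.length ≤ (un (unpair p.1).2).length)) hw
      (Poly.decide_le (Poly.length (Poly.snd Poly.id)) ((Poly.length h1).comp (Poly.fst Poly.id)))
  · exact Poly.all (p := fun _ b => b) (R1.poly_take (Poly.snd Poly.id) (UPoly.length h2))
      (Poly.snd Poly.id)
  · exact Poly.decide_eq (Poly.length h3) (NPC.Poly.const 0)
  · exact Poly.getD (Poly.append (R2.poly_bits hw) (NPC.Poly.const [true]))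
      (Poly.sub (Poly.length h3) (NPC.Poly.const 1)) (NPC.Poly.const false)

/-- the verifier -/
noncomputable def vT (O A : Oracle) (z : List Bool) : List Bool := Ht (z, ans O A z)

theorem isFP_vT {O A : Oracle} (hO : IsFP A (fun z => [O z])) : IsFP A (vT O A) :=
  IsFP.votes (isFP_ne hO) Polynomial.X (Q := fun _ => []) (NPC.Poly.const [])
    (W := fun p => (cw p.1.2).getD p.1.1 []) (Poly.getD (poly_cw.comp (Poly.snd (Poly.fst Poly.id)))
      (Poly.fst (Poly.fst Poly.id)) (NPC.Poly.const [])) poly_Ht

theorem vT_iff {O A : Oracle} {w u : List Bool} : vT O A (pairBits w u) = [true] ↔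
    u = tri (un u).length (uk u).length (uj u).length ∧
      Gct O A (un u).length (uk u).length (uj u).length (dec w) := by
  have e1 : cw (pairBits w u) = dec w := by unfold cw; rw [unpair_pairBits]
  have hl : (dec w).length = (uk u).length →
      (((ans O A (pairBits w u)).take (uk u).length).all (fun b => b) = true ↔
        ∀ y ∈ dec w, A y ≠ O y) := by
    intro h
    have h0 : (uk u).length ≤ (pairBits w u).length := by
      have h1 := unpair_fst_len (unpair u).2
      have h2 := unpair_snd_len u
      rw [A2.length_pairBits]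
      unfold uk
      omega
    have h1 := ans_take (O := O) (A := A) h0 (e1.symm ▸ h)
    rw [e1] at h1
    exact h1
  unfold vT Ht Gct tri ones
  simp only [e1, unpair_pairBits, List.cons.injEq, and_true, Bool.and_eq_true, decide_eq_true_eq,
    Bool.or_eq_true]
  refine and_congr_right fun _ => and_congr_right fun _ => ?_
  constructor
  · rintro ⟨h1, h2, h3, h4⟩
    refine ⟨h1, ?_, (hl h1).1 h3, h4⟩
    intro y hy
    have := List.all_eq_true.1 h2 y hy
    simpa using this
  · rintro ⟨h1, h2, h3, h4⟩
    refine ⟨h1, ?_, (hl h1).2 h3, h4⟩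
    rw [List.all_eq_true]
    intro y hy
    simpa using h2 y hy

theorem isNP_TS {O A : Oracle} (hO : IsFP A (fun z => [O z])) : IsNP A {u | TS O A u = true} := by
  refine ⟨vT O A, Polynomial.X * (Polynomial.C 4 * Polynomial.X + Polynomial.C 2) +
    Polynomial.C 1, isFP_vT hO, fun u => ?_⟩
  constructor
  · intro h
    have h0 : ∃ n k j : ℕ, u = tri n k j ∧ ∃ l, Gct O A n k j l := by
      simpa [TS] using h
    obtain ⟨n, k, j, rfl, l, hl⟩ := h0
    have e1 : (un (tri n k j)).length = n := by
      unfold un tri
      rw [unpair_pairBits, ones_length]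
    have e2 : (uk (tri n k j)).length = k := by
      unfold uk tri
      rw [unpair_pairBits, unpair_pairBits, ones_length]
    have e3 : (uj (tri n k j)).length = j := by
      unfold uj tri
      rw [unpair_pairBits, unpair_pairBits, ones_length]
    refine ⟨bits l, ?_, vT_iff.2 ?_⟩
    · rw [bits_length]
      have h6 := sz_le_length_mul l (4 * n + 1) (fun y hy => by
        have h7 := sz_listBool_le y
        have h8 := hl.2.2.1 y hy
        omega)
      refine h6.trans ?_
      rw [hl.2.1]
      have h7 := tri_length n k j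
      simp only [Polynomial.eval_add, Polynomial.eval_mul, Polynomial.eval_C, Polynomial.eval_X]
      have h8 : k * (4 * n + 1 + 1) ≤ (tri n k j).length * (4 * (tri n k j).length + 2) :=
        Nat.mul_le_mul (by omega) (by omega)
      omega
    · rw [e1, e2, e3, dec_bits]
      exact ⟨rfl, hl⟩
  · rintro ⟨w, -, hw⟩
    obtain ⟨h1, h2⟩ := vT_iff.1 hw
    show TS O A u = true
    rw [h1]
    exact TS_tri.2 ⟨_, h2⟩

end Pool.Agent.TH654.RB
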