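import Pool.Agent.TH654.RB.SP1
import Pool.Agent.W900.SP.Left

/-!
# The sparse set is Cook-complete near a suitable oracle
-/

set_option autoImplicit false

namespace Pool.Agent.TH654.RB

open Pool.Agent.NPC Pool.Agent.H620R2.Gauge Pool.Agent.H622R2 Finset
open Pool.Agent.W900.CH (dist finite_diff)
open Pool.Agent.TH678.PN Pool.Agent.TH678.EL
open Pool.Agent.W900.SP (join isFP_join)

/-! ### removing the end -/

/-- the index of the last one -/
def lasti (r : List Bool) : ℕ :=
  (((List.range r.length).filter (fun i => r.getD i false)).reverse.head?).getD 0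

theorem lasti_eq {r : List Bool} {m : ℕ} (h1 : r.getD m false = true)
    (h2 : ∀ i, m < i → r.getD i false = false) : lasti r = m := by
  have hm : m < r.length := by
    by_contra h
    rw [List.getD_eq_default _ _ (by omega)] at h1
    exact Bool.false_ne_true h1
  obtain ⟨k, hk⟩ : ∃ k, r.length = m + 1 + k := ⟨r.length - (m + 1), by omega⟩
  unfold lasti
  rw [hk, List.range_add, List.filter_append, List.range_succ, List.filter_append]
  have h3 : (List.map (fun x => m + 1 + x) (List.range k)).filter (fun i => r.getD i false) =
      [] := by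
    rw [List.filter_eq_nil_iff]
    intro i hi
    obtain ⟨j, -, rfl⟩ := List.mem_map.1 hi
    rw [h2 _ (by omega)]
    exact Bool.false_ne_true
  rw [h3, List.append_nil, List.filter_cons, if_pos (by rw [h1]), List.filter_nil,
    List.reverse_append]
  rfl

theorem lasti_le (r : List Bool) : lasti r ≤ r.length := by
  unfold lasti
  cases h : ((List.range r.length).filter (fun i => r.getD i false)).reverse.head? with
  | none => simp
  | some m =>
    have h1 := List.mem_of_mem_head? h
    rw [List.mem_reverse, List.mem_filter, List.mem_range] at h1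
    simpa using h1.1.le

theorem poly_lasti : Poly lasti := by
  have h1 : Poly (fun r : List Bool => ((List.range r.length).filter
      (fun i => r.getD i false)).reverse.head?) :=
    Poly.head? (Poly.reverse (Poly.filter (p := fun (r : List Bool) (i : ℕ) => r.getD i false)
      (UPoly.length Poly.id).range (Poly.getD (Poly.fst Poly.id) (Poly.snd Poly.id)
        (NPC.Poly.const false))))
  exact (Poly.optCases (g := fun _ => 0) (h := fun _ b => b) h1 (NPC.Poly.const _)
    (Poly.snd Poly.id)).congr fun r => by
      unfold lasti
      cases ((List.range r.length).filter (fun i => r.getD i false)).reverse.head? <;> rfl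

/-- recovering a list from the bits -/
theorem take_lasti {s : List Bool} {B : ℕ} (hB : s.length < B) {r : List Bool}
    (hr : r = (List.range B).map (fun j => (s ++ [true]).getD j false)) :
    r.take (lasti r) = s := by
  have hg : ∀ i, r.getD i false = if i < B then (s ++ [true]).getD i false else false := by
    intro i
    by_cases hi : i < B
    · rw [if_pos hi, hr, List.getD_eq_getElem _ _ (by simpa using hi)]
      simp
    · rw [if_neg hi, List.getD_eq_default]
      rw [hr, List.length_map, List.length_range]
      omega
  have h1 : lasti r = s.length := by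
    apply lasti_eq
    · rw [hg, if_pos hB]
      simp
    · intro i hi
      rw [hg]
      split_ifs with h
      · rw [List.getD_eq_default]
        rw [List.length_append, List.length_singleton]
        omega
      · rfl
  rw [h1]
  apply List.ext_getElem
  · rw [List.length_take, hr, List.length_map, List.length_range]
    omega
  · intro i h2 h3
    rw [List.getElem_take]
    have h4 := hg i
    rw [if_pos (by omega), List.getD_eq_getElem _ _ (by
      rw [List.length_take] at h2
      omega), List.getD_eq_getElem _ _ (by rw [List.length_append]; omega),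
      List.getElem_append_left h3] at h4
    exact h4

theorem count_lt (D : ℕ) : ∀ K : ℕ,
    (((List.range K).map (fun i => decide (i + 1 ≤ D))).filter (fun b => b)).length = min K D
  | 0 => by simp
  | K + 1 => by
    rw [List.range_succ, List.map_append, List.filter_append, List.length_append, count_lt D K,
      List.map_singleton]
    by_cases h : K + 1 ≤ D
    · simp only [h, decide_true, List.filter_cons_of_pos, List.filter_nil, List.length_singleton]
      omega
    · simp only [h, decide_false, Bool.false_eq_true, not_false_eq_true,
        List.filter_cons_of_neg, List.filter_nil, List.length_nil]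
      omega

theorem poly_tri {α : Type} [TEnc α] {n k j : α → ℕ} (hn : UPoly n) (hk : UPoly k)
    (hj : UPoly j) : Poly (fun a => tri (n a) (k a) (j a)) :=
  poly_pairBits (poly_rep hn true) (poly_pairBits (poly_rep hk true) (poly_rep hj true))

/-! ### the number of the changed strings -/

/-- the questions for the number of the changed strings -/
noncomputable def Q1 (b K : Polynomial ℕ) (x : List Bool) : List (List Bool) :=
  (List.range (K.eval x.length)).map (fun i => true :: tri (b.eval x.length)
    (min i (K.eval x.length) + 1) 0)

theorem poly_Q1 (b K : Polynomial ℕ) : Poly (Q1 b K) := by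
  have hx : UPoly (fun x : List Bool => x.length) := UPoly.length Poly.id
  have hx' : UPoly (fun p : List Bool × ℕ => p.1.length) := UPoly.length (Poly.fst Poly.id)
  unfold Q1
  refine NPC.Poly.map (F := fun (x : List Bool) (i : ℕ) => true :: tri (b.eval x.length)
    (min i (K.eval x.length) + 1) 0) (hx.eval K).range ?_
  exact Poly.cons (NPC.Poly.const true) (poly_tri (hx'.eval b) (UPoly.add (UPoly.of_le
    (Poly.min (Poly.snd Poly.id) (hx'.eval K).toPoly) (hx'.eval K)
    (fun p => min_le_right _ _)) (UPoly.const 1)) (UPoly.const 0))

/-- the number of the changed strings, in unary -/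
noncomputable def F1 (S : Oracle) (b K : Polynomial ℕ) (x : List Bool) : List Bool :=
  List.replicate (((Q1 b K x).map S).filter (fun b => b)).length true

theorem isFP_F1 (S : Oracle) (b K : Polynomial ℕ) : IsFP S (F1 S b K) :=
  IsFP.tt (H := fun p => List.replicate (p.2.filter (fun b => b)).length true) (poly_Q1 b K)
    (poly_rep (UPoly.length (Poly.filter (p := fun (_ : List Bool × List Bool) (b : Bool) => b)
      (Poly.snd Poly.id) (Poly.snd Poly.id))) true)

theorem F1_eq {O A : Oracle} {b K : Polynomial ℕ} {x : List Bool}
    (hK : (Df O A (b.eval x.length)).card ≤ K.eval x.length) :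
    F1 (join A (TS O A)) b K x = ones (Df O A (b.eval x.length)).card := by
  unfold F1 ones
  congr 1
  have h1 : (Q1 b K x).map (join A (TS O A)) = (List.range (K.eval x.length)).map
      (fun i => decide (i + 1 ≤ (Df O A (b.eval x.length)).card)) := by
    unfold Q1
    rw [List.map_map]
    apply List.map_congr_left
    intro i hi
    rw [List.mem_range] at hi
    show TS O A (tri (b.eval x.length) (min i (K.eval x.length) + 1) 0) = _
    rw [min_eq_left hi.le, Bool.eq_iff_iff, TS_zero, decide_eq_true_iff]
  rw [h1, count_lt, min_eq_right hK]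

/-! ### the list of the changed strings -/

/-- the questions for the list -/
noncomputable def Q2 (b B : Polynomial ℕ) (y : List Bool) : List (List Bool) :=
  (List.range (B.eval (unpair y).2.length)).map (fun j => true :: tri
    (b.eval (unpair y).2.length) (unpair y).1.length
    (min j (B.eval (unpair y).2.length) + 1))

theorem poly_Q2 (b B : Polynomial ℕ) : Poly (Q2 b B) := by
  have hx : UPoly (fun y : List Bool => (unpair y).2.length) :=
    UPoly.length (Poly.snd poly_unpair)
  have hx' : UPoly (fun p : List Bool × ℕ => (unpair p.1).2.length) :=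
    UPoly.length (Poly.snd (poly_unpair.comp (Poly.fst Poly.id)))
  have hd' : UPoly (fun p : List Bool × ℕ => (unpair p.1).1.length) :=
    UPoly.length (Poly.fst (poly_unpair.comp (Poly.fst Poly.id)))
  unfold Q2
  refine NPC.Poly.map (F := fun (y : List Bool) (j : ℕ) => true :: tri
    (b.eval (unpair y).2.length) (unpair y).1.length
    (min j (B.eval (unpair y).2.length) + 1)) (hx.eval B).range ?_
  exact Poly.cons (NPC.Poly.const true) (poly_tri (hx'.eval b) hd' (UPoly.add (UPoly.of_le
    (Poly.min (Poly.snd Poly.id) (hx'.eval B).toPoly) (hx'.eval B)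
    (fun p => min_le_right _ _)) (UPoly.const 1)))

/-- the input and the list -/
noncomputable def F2 (S : Oracle) (b B : Polynomial ℕ) (y : List Bool) : List Bool :=
  pairBits (unpair y).2 (((Q2 b B y).map S).take (lasti ((Q2 b B y).map S)))

theorem isFP_F2 (S : Oracle) (b B : Polynomial ℕ) : IsFP S (F2 S b B) :=
  IsFP.tt (H := fun p => pairBits (unpair p.1).2 (p.2.take (lasti p.2))) (poly_Q2 b B)
    (poly_pairBits (Poly.snd (poly_unpair.comp (Poly.fst Poly.id)))
      (R1.poly_take (Poly.snd Poly.id) (UPoly.of_le (poly_lasti.comp (Poly.snd Poly.id))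
        (UPoly.length (Poly.snd Poly.id)) (fun p => lasti_le p.2))))

theorem F2_eq {O A : Oracle} {b B : Polynomial ℕ} {x : List Bool}
    (hB : (bits (Ls O A (b.eval x.length))).length < B.eval x.length) :
    F2 (join A (TS O A)) b B (pairBits (ones (Df O A (b.eval x.length)).card) x) =
      pairBits x (bits (Ls O A (b.eval x.length))) := by
  have h1 : (Q2 b B (pairBits (ones (Df O A (b.eval x.length)).card) x)).map
      (join A (TS O A)) = (List.range (B.eval x.length)).map
        (fun j => (bits (Ls O A (b.eval x.length)) ++ [true]).getD j false) := by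
    unfold Q2
    rw [unpair_pairBits, List.map_map]
    apply List.map_congr_left
    intro i hi
    rw [List.mem_range] at hi
    show TS O A (tri (b.eval x.length) (ones (Df O A (b.eval x.length)).card).length
      (min i (B.eval x.length) + 1)) = _
    rw [min_eq_left hi.le, ones_length, Bool.eq_iff_iff, TS_succ]
  unfold F2
  rw [take_lasti hB h1, unpair_pairBits]

/-- **All questions about the changed oracle are answered with the sparse set.** -/
theorem isP_task {τ : ℕ → Task} {O A : Oracle} (h : ∀ e, IsFP A (Gf τ e O))
    (hA : ∃ d : Polynomial ℕ, ∀ m, dist O A m ≤ d.eval m) (e : ℕ) :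
    IsP (join A (TS O A)) {x | (τ e).V A x} := by
  obtain ⟨d, hd⟩ := hA
  obtain ⟨K, hK⟩ : ∃ K : Polynomial ℕ, K = d.comp (τ e).b := ⟨_, rfl⟩
  obtain ⟨B, hB⟩ : ∃ B : Polynomial ℕ, B = K * (Polynomial.C 4 * (τ e).b + Polynomial.C 2) +
    Polynomial.C 2 := ⟨_, rfl⟩
  have hKe : ∀ x : List Bool, (Df O A ((τ e).b.eval x.length)).card ≤ K.eval x.length := by
    intro x
    rw [hK, Polynomial.eval_comp, card_Df]
    exact hd _
  have hBe : ∀ x : List Bool,
      (bits (Ls O A ((τ e).b.eval x.length))).length < B.eval x.length := by
    intro x
    rw [bits_length]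
    have h1 := sz_le_length_mul (Ls O A ((τ e).b.eval x.length)) (4 * (τ e).b.eval x.length + 1)
      (fun y hy => by
        have h2 := sz_listBool_le y
        have h3 := (mem_Df.1 (mem_Ls.1 hy)).1
        omega)
    rw [Ls_length] at h1
    have h2 : (Df O A ((τ e).b.eval x.length)).card * (4 * (τ e).b.eval x.length + 1 + 1) ≤
        K.eval x.length * (4 * (τ e).b.eval x.length + 2) :=
      Nat.mul_le_mul (hKe x) (by omega)
    rw [hB]
    simp only [Polynomial.eval_add, Polynomial.eval_mul, Polynomial.eval_C]
    omega
  refine ⟨fun x => Gf τ (e + 1) O (F2 (join A (TS O A)) (τ e).b B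
    (pairBits (F1 (join A (TS O A)) (τ e).b K x) x)),
    IsFP.comp (isFP_join _ (h (e + 1))) (IsFP.comp (isFP_F2 _ _ _)
      (IsFP.pair (isFP_F1 _ _ _) (IsFP.of_poly Poly.id))), fun x => ?_⟩
  beta_reduce
  rw [F1_eq (hKe x), F2_eq (hBe x)]
  have h1 : Gf τ (e + 1) O (pairBits x (bits (Ls O A ((τ e).b.eval x.length)))) = [true] ↔
      (τ e).V (corr (Ls O A ((τ e).b.eval x.length)) O) x := by
    have h2 : Gf τ (e + 1) O (pairBits x (bits (Ls O A ((τ e).b.eval x.length)))) = [true] ↔
        (τ e).V (corr (dec (unpair (pairBits x (bits (Ls O A ((τ e).b.eval x.length))))).2) O)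
          (unpair (pairBits x (bits (Ls O A ((τ e).b.eval x.length))))).1 := by
      simp [Gf]
    rw [h2, unpair_pairBits, dec_bits]
  rw [h1]
  show (τ e).V A x ↔ (τ e).V (corr (Ls O A ((τ e).b.eval x.length)) O) x
  rw [(τ e).loc _ A x (fun y hy => corr_eq (fun z => mem_Ls) hy)]

end Pool.Agent.TH654.RB
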