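import Pool.Agent.TH654.RB.SP3

/-!
# If the set with few candidates is many-one hard for `NP` then `P = NP`
-/

set_option autoImplicit false

namespace Pool.Agent.TH654.RB

open Pool.Agent.NPC Pool.Agent.H620R2.Gauge Pool.Agent.H622R2 Finset
open Pool.Agent.W900.CH (dist finite_diff)
open Pool.Agent.TH678.PN Pool.Agent.TH678.EL
open Pool.Agent.TH678.PN.PH (d1 d1_bits poly_d1)

/-- one level, on the codes -/
noncomputable def lvl (f : List Bool → List Bool) (cand : ℕ → List (List Bool))
    (B : Polynomial ℕ) (st : List Bool) : List Bool :=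
  bits ((d1 st).1, nxt f (cand (B.eval (d1 st).1.length)) (d1 st).1 (d1 st).2)

theorem poly_kids {α : Type} [TEnc α] {F : α → List (List Bool)} (hF : Poly F) :
    Poly (fun a => kids (F a)) := by
  unfold kids
  exact Poly.flatMap (F := fun (_ : α) (a : List Bool) => [a ++ [false], a ++ [true]]) hF
    (Poly.cons (Poly.append (Poly.snd Poly.id) (NPC.Poly.const _))
      (Poly.cons (Poly.append (Poly.snd Poly.id) (NPC.Poly.const _)) (NPC.Poly.const _)))

theorem poly_qs {α : Type} [TEnc α] {U C : α → List (List Bool)} {x : α → List Bool}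
    (hU : Poly U) (hx : Poly x) (hC : Poly C) : Poly (fun a => qs (U a) (x a) (C a)) := by
  unfold qs
  refine Poly.flatMap (F := fun (s : α) (a : List Bool) =>
    (U s).map (fun u => pairBits (pairBits a (x s)) u)) hC ?_
  refine NPC.Poly.map (F := fun (s : α × List Bool) (u : List Bool) =>
    pairBits (pairBits s.2 (x s.1)) u) (hU.comp (Poly.fst Poly.id)) ?_
  exact poly_pairBits (poly_pairBits (Poly.snd (Poly.fst Poly.id))
    (hx.comp (Poly.fst (Poly.fst Poly.id)))) (Poly.snd Poly.id)

theorem poly_pick {α : Type} [TEnc α] {U R : α → List (List Bool)} (hU : Poly U) (hR : Poly R) :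
    Poly (fun a => pick (U a) (R a)) := by
  unfold pick
  refine Poly.flatMap (F := fun (s : α) (u : List Bool) =>
    (((R s).filter (fun z => decide ((unpair z).2 = u))).take 1).map
      (fun z => (unpair (unpair z).1).1)) hU ?_
  refine NPC.Poly.map (F := fun (_ : α × List Bool) (z : List Bool) => (unpair (unpair z).1).1)
    (R1.poly_take ?_ (UPoly.const 1)) ?_
  · exact Poly.filter (p := fun (s : α × List Bool) (z : List Bool) =>
      decide ((unpair z).2 = s.2)) (hR.comp (Poly.fst Poly.id))
      (Poly.decide_eq (Poly.snd (poly_unpair.comp (Poly.snd Poly.id)))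
        (Poly.snd (Poly.fst Poly.id)))
  · exact Poly.fst (poly_unpair.comp (Poly.fst (poly_unpair.comp (Poly.snd Poly.id))))

theorem poly_cand {cand : ℕ → List (List Bool)} (hc : Poly (fun l : List Bool => cand l.length))
    {α : Type} [TEnc α] {n : α → ℕ} (hn : UPoly n) : Poly (fun a => cand (n a)) :=
  (hc.comp (poly_rep hn true)).congr fun a => by
    rw [List.length_replicate]

theorem isFP_eqt {A : Oracle} {f : List Bool → List Bool} (hf : IsFP A f) : IsFP A (eqt f) := by
  have h1 := IsFP.seq (IsFP.of_poly (A := A) (F := fun x => x) Poly.id) hf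
    (φ := fun q => (unpair q.1).1)
    (ψ := fun q => [decide (q.2.2 = (unpair q.1).2)])
    (Poly.fst (poly_unpair.comp (Poly.fst Poly.id)))
    (Poly.cons (Poly.decide_eq (Poly.snd (Poly.snd Poly.id))
      (Poly.snd (poly_unpair.comp (Poly.fst Poly.id)))) (NPC.Poly.const []))
  exact h1

theorem isFP_lvl {A : Oracle} {f : List Bool → List Bool} (hf : IsFP A f)
    {cand : ℕ → List (List Bool)} (hc : Poly (fun l : List Bool => cand l.length))
    (B : Polynomial ℕ) : IsFP A (lvl f cand B) := by
  have hU : Poly (fun st : List Bool => cand (B.eval (d1 st).1.length)) :=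
    poly_cand hc ((UPoly.length (Poly.fst poly_d1)).eval B)
  exact isFP_filt (isFP_eqt hf) (P := fun st => qs (cand (B.eval (d1 st).1.length)) (d1 st).1
    (kids (d1 st).2)) (poly_qs hU (Poly.fst poly_d1) (poly_kids (Poly.snd poly_d1)))
    (φ := fun p => bits ((d1 p.1).1, pick (cand (B.eval (d1 p.1).1.length)) p.2))
    (R2.poly_bits (Poly.pair (Poly.fst (poly_d1.comp (Poly.fst Poly.id)))
      (poly_pick (hU.comp (Poly.fst Poly.id)) (Poly.snd Poly.id))))

theorem lvl_iter (f : List Bool → List Bool) (cand : ℕ → List (List Bool)) (B : Polynomial ℕ)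
    (x : List Bool) (i : ℕ) : (lvl f cand B)^[i] (bits (x, ([[]] : List (List Bool)))) =
      bits (x, fr f (cand (B.eval x.length)) x i) := by
  induction i with
  | zero => rfl
  | succ i ih =>
    rw [Function.iterate_succ_apply', ih, fr_succ]
    unfold lvl
    simp only [d1_bits]

/-- the levels can be computed -/
theorem isFP_fr {A : Oracle} {f : List Bool → List Bool} (hf : IsFP A f)
    {cand : ℕ → List (List Bool)} (hc : Poly (fun l : List Bool => cand l.length))
    (B p : Polynomial ℕ) :
    IsFP A (fun x => bits (x, fr f (cand (B.eval x.length)) x ((p + 1).eval x.length))) := by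
  obtain ⟨q, hq⟩ := hc.sz_le
  obtain ⟨C, hC⟩ : ∃ C : Polynomial ℕ,
    C = q.comp (Polynomial.C 4 * Polynomial.X + Polynomial.C 1) := ⟨_, rfl⟩
  have h0 : ∀ N, (cand N).length + 1 ≤ C.eval N := by
    intro N
    have h1 := length_lt_sz (cand N)
    have h2 := hq (List.replicate N true)
    rw [List.length_replicate] at h2
    have h3 : (cand N).length + 1 ≤ _ := A2.sz_eval_le (h1.trans_le h2)
    rw [List.length_replicate] at h3
    rw [hC]
    exact h3
  have h1 := IsFP.loop (isFP_lvl hf hc B) (g := fun x => bits (x, ([[]] : List (List Bool))))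
    (R2.poly_bits (Poly.pair Poly.id (NPC.Poly.const _))) (p + 1)
    (Polynomial.C 4 * Polynomial.X + (C.comp B + 1) * (Polynomial.C 4 * (p + 1) + 2) + 3) (by
      intro x i hi
      rw [lvl_iter, bits_length, sz_pair]
      have h2 := sz_listBool_le x
      have h3 := sz_le_length_mul (fr f (cand (B.eval x.length)) x i)
        (4 * (p + 1).eval x.length + 1) (fun y hy => by
        have h4 := sz_listBool_le y
        have h5 := fr_len hy
        omega)
      have h6 := fr_card f (cand (B.eval x.length)) x i
      have h7 := h0 (B.eval x.length)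
      have h8 : (fr f (cand (B.eval x.length)) x i).length *
          (4 * (p + 1).eval x.length + 1 + 1) ≤
          (C.eval (B.eval x.length) + 1) * (4 * (p + 1).eval x.length + 2) :=
        Nat.mul_le_mul (by omega) (by omega)
      simp only [Polynomial.eval_add, Polynomial.eval_mul, Polynomial.eval_C, Polynomial.eval_X,
        Polynomial.eval_comp, Polynomial.eval_ofNat, Polynomial.eval_one] at *
      omega)
  refine (congrArg (IsFP A) (funext fun x => ?_)).mp h1
  rw [lvl_iter]

/-- if the language of the partial witnesses is reduced to a set with few candidates -/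
theorem isP_of_ext {A S : Oracle} {cand : ℕ → List (List Bool)}
    (hc : Poly (fun l : List Bool => cand l.length))
    (hS : ∀ (u : List Bool) (N : ℕ), S u = true → u.length ≤ N → u ∈ cand N)
    {V : List Bool → List Bool} {p : Polynomial ℕ} (hV : IsFP A V)
    {f : List Bool → List Bool} (hf : IsFP A f)
    (hfL : ∀ z, Ext V p (unpair z).2 (unpair z).1 ↔ S (f z) = true)
    {L : Set (List Bool)}
    (hVL : ∀ x, x ∈ L ↔ ∃ w : List Bool, w.length ≤ p.eval x.length ∧
      V (pairBits w x) = [true]) : IsP A L := by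
  obtain ⟨b, hb⟩ : ∃ b : Polynomial ℕ, ∀ z, (f z).length ≤ b.eval z.length := by
    obtain ⟨M, hM⟩ := hf
    obtain ⟨b, hb⟩ := A2.out_bound M
    exact ⟨b, fun z => hb A z (f z) (hM z)⟩
  obtain ⟨B, hB⟩ : ∃ B : Polynomial ℕ,
    B = b.comp (Polynomial.C 2 * (p + 1) + Polynomial.X + 1) := ⟨_, rfl⟩
  have h1 := isFP_fr hf hc B p
  have hs : Poly (fun st : List Bool => (d1 st).2.map (fun a => pairBits (stp a) (d1 st).1)) :=
    NPC.Poly.map (F := fun (st a : List Bool) => pairBits (stp a) (d1 st).1)
      (Poly.snd poly_d1) (poly_pairBits (poly_stp.comp (Poly.snd Poly.id))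
        (Poly.fst (poly_d1.comp (Poly.fst Poly.id))))
  have h2 := isFP_filt hV (P := fun st => (d1 st).2.map (fun a => pairBits (stp a) (d1 st).1)) hs
    (φ := fun p => if p.2.length = 0 then [] else [true])
    (Poly.ite (Poly.decide_eq (Poly.length (Poly.snd Poly.id)) (NPC.Poly.const 0))
      (NPC.Poly.const _) (NPC.Poly.const _))
  refine ⟨_, IsFP.comp h2 h1, fun x => ?_⟩
  simp only [d1_bits]
  obtain ⟨F, hF⟩ : ∃ F, F = fr f (cand (B.eval x.length)) x ((p + 1).eval x.length) := ⟨_, rfl⟩
  rw [← hF]
  have hpe : (p + 1).eval x.length = p.eval x.length + 1 := by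
    rw [Polynomial.eval_add, Polynomial.eval_one]
  have hlen : ∀ a ∈ F, a.length = p.eval x.length + 1 := fun a ha => by
    rw [hF] at ha
    rw [fr_len ha, hpe]
  have h3 : x ∈ L ↔ ∃ a ∈ F, V (pairBits (stp a) x) = [true] := by
    constructor
    · intro hx
      have h4 : Ext V p x [] := ext_nil.2 ((hVL x).1 hx)
      obtain ⟨a, ha, he⟩ := fr_inv (U := cand (B.eval x.length)) (fun z => hfL z) (by
        intro a ha hSa
        refine hS _ _ hSa ((hb _).trans ?_)
        rw [hB, Polynomial.eval_comp]
        apply eval_mono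
        rw [A2.length_pairBits]
        simp only [Polynomial.eval_add, Polynomial.eval_mul, Polynomial.eval_C,
          Polynomial.eval_X, Polynomial.eval_one]
        omega) h4 _ le_rfl
      rw [← hpe, ← hF] at ha
      exact ⟨a, ha, (ext_full (hlen a ha)).1 he⟩
    · rintro ⟨a, ha, hV⟩
      exact (hVL x).2 (ext_nil.1 (by
        have h5 := stp_length a
        have h6 := hlen a ha
        exact ext_nil.2 ⟨stp a, by omega, hV⟩))
  rw [h3]
  constructor
  · rintro ⟨a, ha, hV⟩
    rw [if_neg]
    intro h4
    have h5 : pairBits (stp a) x ∈ (F.map (fun a => pairBits (stp a) x)).filter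
        (fun z => decide (V z = [true])) := by
      rw [List.mem_filter]
      exact ⟨List.mem_map.2 ⟨a, ha, rfl⟩, by simpa using hV⟩
    rw [List.eq_nil_of_length_eq_zero h4] at h5
    exact absurd h5 (by simp)
  · intro h4
    split_ifs at h4 with h5
    obtain ⟨z, hz⟩ := List.exists_mem_of_length_pos (Nat.pos_of_ne_zero h5)
    rw [List.mem_filter, List.mem_map] at hz
    obtain ⟨⟨a, ha, rfl⟩, hV⟩ := hz
    exact ⟨a, ha, by simpa using hV⟩

/-- **A set with few candidates which is many-one hard for `NP` makes `P = NP`.** -/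
theorem isP_of_hard {A S : Oracle} {cand : ℕ → List (List Bool)}
    (hc : Poly (fun l : List Bool => cand l.length))
    (hS : ∀ (u : List Bool) (N : ℕ), S u = true → u.length ≤ N → u ∈ cand N)
    (hK : ∀ L, IsNP A L → ∃ f : List Bool → List Bool, IsFP A f ∧ ∀ x, x ∈ L ↔ S (f x) = true)
    {L : Set (List Bool)} (hL : IsNP A L) : IsP A L := by
  obtain ⟨V, p, hV, hVL⟩ := hL
  obtain ⟨f, hf, hfL⟩ := hK _ (isNP_ext hV p)
  exact isP_of_ext hc hS hV hf (fun z => hfL z) hVL

/-! ### the candidates for the sparse set -/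

/-- the candidates for the members of length at most `N` -/
def cnd (N : ℕ) : List (List Bool) :=
  (List.range (N + 1)).flatMap (fun n => (List.range (N + 1)).flatMap (fun k =>
    (List.range (N + 1)).map (fun j => tri (min n N) (min k N) (min j N))))

theorem poly_cnd : Poly (fun l : List Bool => cnd l.length) := by
  unfold cnd
  have hl : UPoly (fun l : List Bool => l.length) := UPoly.length Poly.id
  have hr : UPoly (fun l : List Bool => l.length + 1) := UPoly.add hl (UPoly.const 1)
  refine Poly.flatMap (F := fun (l : List Bool) (n : ℕ) => (List.range (l.length + 1)).flatMap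
    (fun k => (List.range (l.length + 1)).map (fun j =>
      tri (min n l.length) (min k l.length) (min j l.length)))) hr.range ?_
  refine Poly.flatMap (F := fun (s : List Bool × ℕ) (k : ℕ) =>
    (List.range (s.1.length + 1)).map (fun j =>
      tri (min s.2 s.1.length) (min k s.1.length) (min j s.1.length)))
    (UPoly.add (UPoly.length (Poly.fst Poly.id)) (UPoly.const 1)).range ?_
  refine NPC.Poly.map (F := fun (s : (List Bool × ℕ) × ℕ) (j : ℕ) =>
      tri (min s.1.2 s.1.1.length) (min s.2 s.1.1.length) (min j s.1.1.length))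
    (UPoly.add (UPoly.length (Poly.fst (Poly.fst Poly.id))) (UPoly.const 1)).range ?_
  have h1 : UPoly (fun s : ((List Bool × ℕ) × ℕ) × ℕ => s.1.1.1.length) :=
    UPoly.length (Poly.fst (Poly.fst (Poly.fst Poly.id)))
  exact poly_tri
    (UPoly.of_le (Poly.min (Poly.snd (Poly.fst (Poly.fst Poly.id))) h1.toPoly) h1
      (fun p => min_le_right _ _))
    (UPoly.of_le (Poly.min (Poly.snd (Poly.fst Poly.id)) h1.toPoly) h1
      (fun p => min_le_right _ _))
    (UPoly.of_le (Poly.min (Poly.snd Poly.id) h1.toPoly) h1 (fun p => min_le_right _ _))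

theorem mem_cnd {O A : Oracle} {u : List Bool} {N : ℕ} (h : TS O A u = true)
    (hN : u.length ≤ N) : u ∈ cnd N := by
  have h0 : ∃ n k j : ℕ, u = tri n k j ∧ ∃ l, Gct O A n k j l := by
    simpa [TS] using h
  obtain ⟨n, k, j, rfl, -⟩ := h0
  rw [tri_length] at hN
  unfold cnd
  rw [List.mem_flatMap]
  refine ⟨n, List.mem_range.2 (by omega), ?_⟩
  rw [List.mem_flatMap]
  refine ⟨k, List.mem_range.2 (by omega), ?_⟩
  rw [List.mem_map]
  refine ⟨j, List.mem_range.2 (by omega), ?_⟩
  rw [min_eq_left (by omega), min_eq_left (by omega), min_eq_left (by omega)]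

theorem cnd_length (N : ℕ) : (cnd N).length = (N + 1) ^ 3 := by
  unfold cnd
  simp [List.length_flatMap]
  ring

/-- the set is sparse -/
theorem sparse_TS (O A : Oracle) : ∃ p : Polynomial ℕ, ∀ n,
    {x : List Bool | TS O A x = true ∧ x.length ≤ n}.ncard ≤ p.eval n := by
  refine ⟨(Polynomial.X + 1) ^ 3, fun n => ?_⟩
  have h1 : {x : List Bool | TS O A x = true ∧ x.length ≤ n} ⊆ ((cnd n).toFinset : Set _) := by
    rintro x ⟨h2, h3⟩
    simp only [Finset.mem_coe, List.mem_toFinset]
    exact mem_cnd h2 h3
  refine (Set.ncard_le_ncard h1 (Finset.finite_toSet _)).trans ?_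
  rw [Set.ncard_coe_finset]
  refine (List.toFinset_card_le _).trans ?_
  rw [cnd_length]
  simp

/-- if the set is many-one hard for `NP` then `P = NP` -/
theorem isP_of_TS {O A : Oracle}
    (hK : ∀ L, IsNP A L → ∃ f : List Bool → List Bool, IsFP A f ∧
      ∀ x, x ∈ L ↔ TS O A (f x) = true) {L : Set (List Bool)} (hL : IsNP A L) : IsP A L :=
  isP_of_hard poly_cnd (fun _ _ h1 h2 => mem_cnd h1 h2) hK hL

end Pool.Agent.TH654.RB
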