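import Pool.Agent.TH654.RB.SP4
import Pool.Agent.TH654.RB.Tasks2

/-!
# A tally set which is truth-table complete near a suitable oracle
-/

set_option autoImplicit false

namespace Pool.Agent.TH654.RB

open Pool.Agent.NPC Pool.Agent.H620R2.Gauge Pool.Agent.H622R2 Finset
open Pool.Agent.W900.CH (dist finite_diff)
open Pool.Agent.TH678.PN Pool.Agent.TH678.EL
open Pool.Agent.W900.SP (join isFP_join)

/-! ### the tally set -/

/-- the number of a triple -/
def pr (n k j : ℕ) : ℕ := Nat.pair n (Nat.pair k j)

theorem pr_inj {n k j n' k' j' : ℕ} (h : pr n k j = pr n' k' j') : n = n' ∧ k = k' ∧ j = j' := by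
  unfold pr at h
  rw [Nat.pair_eq_pair, Nat.pair_eq_pair] at h
  exact h

theorem pr_le (n k j : ℕ) : n ≤ pr n k j ∧ k ≤ pr n k j ∧ j ≤ pr n k j := by
  unfold pr
  have h1 := Nat.left_le_pair n (Nat.pair k j)
  have h2 := Nat.right_le_pair n (Nat.pair k j)
  have h3 := Nat.left_le_pair k j
  have h4 := Nat.right_le_pair k j
  omega

theorem uPoly_pair {α : Type} [TEnc α] {a b : α → ℕ} (ha : UPoly a) (hb : UPoly b) :
    UPoly (fun x => Nat.pair (a x) (b x)) := by
  refine UPoly.of_le ?_
    (UPoly.mul (UPoly.add (UPoly.add ha hb) (UPoly.const 1))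
      (UPoly.add (UPoly.add ha hb) (UPoly.const 1))) ?_
  · unfold Nat.pair
    exact Poly.ite (Poly.decide_lt ha.toPoly hb.toPoly)
      (Poly.add (Poly.mul hb.toPoly hb.toPoly) ha.toPoly)
      (Poly.add (Poly.add (Poly.mul ha.toPoly ha.toPoly) ha.toPoly) hb.toPoly)
  · intro x
    show Nat.pair (a x) (b x) ≤ (a x + b x + 1) * (a x + b x + 1)
    unfold Nat.pair
    split_ifs <;> nlinarith

theorem uPoly_pr {α : Type} [TEnc α] {n k j : α → ℕ} (hn : UPoly n) (hk : UPoly k)
    (hj : UPoly j) : UPoly (fun a => pr (n a) (k a) (j a)) :=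
  uPoly_pair hn (uPoly_pair hk hj)

/-- the tally set -/
noncomputable def TT (O A : Oracle) : Oracle := fun u =>
  open Classical in decide (∃ n k j : ℕ, u = ones (pr n k j) ∧ TS O A (tri n k j) = true)

theorem TT_ones {O A : Oracle} {n k j : ℕ} : TT O A (ones (pr n k j)) = TS O A (tri n k j) := by
  have h0 : TT O A (ones (pr n k j)) = true ↔ ∃ n' k' j' : ℕ,
      ones (pr n k j) = ones (pr n' k' j') ∧ TS O A (tri n' k' j') = true := by simp [TT]
  rw [Bool.eq_iff_iff, h0]
  constructor
  · rintro ⟨n', k', j', h, h1⟩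
    obtain ⟨rfl, rfl, rfl⟩ := pr_inj (ones_inj h)
    exact h1
  · intro h
    exact ⟨n, k, j, rfl, h⟩

theorem tally_TT (O A : Oracle) (u : List Bool) (h : TT O A u = true) :
    u = List.replicate u.length true := by
  have h0 : ∃ n k j : ℕ, u = ones (pr n k j) ∧ TS O A (tri n k j) = true := by
    simpa [TT] using h
  obtain ⟨n, k, j, rfl, -⟩ := h0
  rw [ones_length]
  rfl

/-- the lengths of the parts -/
def plen (z : List Bool) : ℕ := pr (un z).length (uk z).length (uj z).length

theorem plen_tri (n k j : ℕ) : plen (tri n k j) = pr n k j := by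
  unfold plen un uk uj tri
  simp only [unpair_pairBits, ones_length]

/-- from the tally set to the sparse set -/
def back (u : List Bool) : List Bool :=
  (((cnd (2 * u.length + 2 * u.length + u.length + 2)).filter
    (fun z => decide (u = ones (plen z)) )).head?).getD []

theorem TS_nil (O A : Oracle) : TS O A [] = false := by
  rw [← Bool.not_eq_true]
  intro h
  have h0 : ∃ n k j : ℕ, ([] : List Bool) = tri n k j ∧ ∃ l, Gct O A n k j l := by
    simpa [TS] using h
  obtain ⟨n, k, j, h1, -⟩ := h0
  have h2 := congrArg List.length h1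
  rw [tri_length] at h2
  simp at h2

theorem mem_cnd_tri {n k j N : ℕ} (h : n ≤ N ∧ k ≤ N ∧ j ≤ N) : tri n k j ∈ cnd N := by
  unfold cnd
  rw [List.mem_flatMap]
  refine ⟨n, List.mem_range.2 (by omega), ?_⟩
  rw [List.mem_flatMap]
  refine ⟨k, List.mem_range.2 (by omega), ?_⟩
  rw [List.mem_map]
  refine ⟨j, List.mem_range.2 (by omega), ?_⟩
  rw [min_eq_left (by omega), min_eq_left (by omega), min_eq_left (by omega)]

theorem cnd_tri {z : List Bool} {N : ℕ} (h : z ∈ cnd N) : ∃ n k j, z = tri n k j := by
  unfold cnd at h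
  rw [List.mem_flatMap] at h
  obtain ⟨n, -, h⟩ := h
  rw [List.mem_flatMap] at h
  obtain ⟨k, -, h⟩ := h
  rw [List.mem_map] at h
  obtain ⟨j, -, rfl⟩ := h
  exact ⟨_, _, _, rfl⟩

theorem back_spec (O A : Oracle) (u : List Bool) : TS O A (back u) = TT O A u := by
  obtain ⟨F, hF⟩ : ∃ F, F = (cnd (2 * u.length + 2 * u.length + u.length + 2)).filter
    (fun z => decide (u = ones (plen z))) := ⟨_, rfl⟩
  have hb : back u = F.head?.getD [] := by rw [hF]; rfl
  rw [hb]
  cases hc : F with
  | nil =>
    show TS O A [] = _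
    rw [TS_nil]
    symm
    rw [← Bool.not_eq_true]
    intro h
    have h0 : ∃ n k j : ℕ, u = ones (pr n k j) ∧ TS O A (tri n k j) = true := by
      simpa [TT] using h
    obtain ⟨n, k, j, h1, -⟩ := h0
    have h2 : u.length = pr n k j := by rw [h1, ones_length]
    have h3 := pr_le n k j
    have h4 : tri n k j ∈ F := by
      rw [hF, List.mem_filter]
      refine ⟨mem_cnd_tri (by omega), ?_⟩
      rw [plen_tri]
      simpa using h1
    rw [hc] at h4
    exact absurd h4 (by simp)
  | cons z t =>
    show TS O A z = _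
    have h1 : z ∈ F := by rw [hc]; simp
    rw [hF, List.mem_filter] at h1
    obtain ⟨h1, h2⟩ := h1
    obtain ⟨n, k, j, rfl⟩ := cnd_tri h1
    rw [plen_tri] at h2
    have h3 : u = ones (pr n k j) := by simpa using h2
    rw [h3, TT_ones]

theorem poly_back : Poly back := by
  have h1 : Poly (fun u : List Bool => cnd (2 * u.length + 2 * u.length + u.length + 2)) := by
    have hl : UPoly (fun u : List Bool => u.length) := UPoly.length Poly.id
    refine poly_cand poly_cnd (UPoly.add (UPoly.add (UPoly.add (UPoly.mul (UPoly.const 2) hl)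
      (UPoly.mul (UPoly.const 2) hl)) hl) (UPoly.const 2))
  have h2 : Poly (fun u : List Bool => ((cnd (2 * u.length + 2 * u.length + u.length + 2)).filter
      (fun z => decide (u = ones (plen z)))).head?) := by
    refine Poly.head? (Poly.filter (p := fun (u z : List Bool) => decide (u = ones (plen z)))
      h1 ?_)
    refine Poly.decide_eq (Poly.fst Poly.id) (poly_rep (uPoly_pr ?_ ?_ ?_) true)
    · exact UPoly.length (poly_un.comp (Poly.snd Poly.id))
    · exact UPoly.length (poly_uk.comp (Poly.snd Poly.id))
    · exact UPoly.length (poly_uj.comp (Poly.snd Poly.id))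
  exact (Poly.optCases (g := fun _ => []) (h := fun _ b => b) h2 (NPC.Poly.const _)
    (Poly.snd Poly.id)).congr fun r => by
      unfold back
      cases ((cnd (2 * r.length + 2 * r.length + r.length + 2)).filter
        (fun z => decide (r = ones (plen z)))).head? <;> rfl

/-- many-one reductions in polynomial time -/
theorem isNP_comp {A : Oracle} {L : Set (List Bool)} (hL : IsNP A L)
    {g : List Bool → List Bool} (hg : Poly g) : IsNP A {x | g x ∈ L} := by
  obtain ⟨V, p, hV, hVL⟩ := hL
  obtain ⟨q, hq⟩ := hg.sz_le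
  have h1 : ∀ x : List Bool, (g x).length ≤
      (q.comp (Polynomial.C 4 * Polynomial.X + Polynomial.C 1)).eval x.length := fun x =>
    A2.sz_eval_le ((length_lt_sz (g x)).le.trans (hq x))
  refine ⟨fun y => if (unpair y).1.length ≤ p.eval (g (unpair y).2).length then
    V (pairBits (unpair y).1 (g (unpair y).2)) else [],
    p.comp (q.comp (Polynomial.C 4 * Polynomial.X + Polynomial.C 1)), ?_, fun x => ?_⟩
  · have h2 := IsFP.seq (IsFP.of_poly (A := A) (F := fun x => x) Poly.id) hV
      (φ := fun r => pairBits (unpair r.1).1 (g (unpair r.1).2))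
      (ψ := fun r => if (unpair r.1).1.length ≤ p.eval (g (unpair r.1).2).length then r.2.2
        else [])
      (poly_pairBits (Poly.fst (poly_unpair.comp (Poly.fst Poly.id)))
        (hg.comp (Poly.snd (poly_unpair.comp (Poly.fst Poly.id)))))
      (Poly.ite (Poly.decide_le (Poly.length (Poly.fst (poly_unpair.comp (Poly.fst Poly.id))))
        ((UPoly.length (hg.comp (Poly.snd (poly_unpair.comp (Poly.fst Poly.id))))).eval p).toPoly)
        (Poly.snd (Poly.snd Poly.id)) (NPC.Poly.const []))
    exact h2
  · show g x ∈ L ↔ _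
    rw [hVL]
    simp only [unpair_pairBits]
    constructor
    · rintro ⟨w, h3, h4⟩
      refine ⟨w, h3.trans ?_, ?_⟩
      · rw [Polynomial.eval_comp]
        exact eval_mono _ (h1 x)
      · rw [if_pos h3]
        exact h4
    · rintro ⟨w, -, h4⟩
      split_ifs at h4 with h5
      exact ⟨w, h5, h4⟩

theorem isNP_TT {O A : Oracle} (hO : IsFP A (fun z => [O z])) : IsNP A {u | TT O A u = true} := by
  have h1 := isNP_comp (isNP_TS hO) poly_back
  have h2 : {x | back x ∈ {u | TS O A u = true}} = {u | TT O A u = true} := by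
    ext u
    show TS O A (back u) = true ↔ TT O A u = true
    rw [back_spec]
  rw [h2] at h1
  exact h1

/-- if the tally set is many-one hard for `NP` then `P = NP` -/
theorem isP_of_TT {O A : Oracle}
    (hK : ∀ L, IsNP A L → ∃ f : List Bool → List Bool, IsFP A f ∧
      ∀ x, x ∈ L ↔ TT O A (f x) = true) {L : Set (List Bool)} (hL : IsNP A L) : IsP A L := by
  refine isP_of_TS (O := O) (fun L' hL' => ?_) hL
  obtain ⟨f, hf, h⟩ := hK L' hL'
  refine ⟨fun x => back (f x), IsFP.comp (IsFP.of_poly poly_back) hf, fun x => ?_⟩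
  rw [back_spec]
  exact h x

/-! ### truth-table reductions -/

/-- `L` is reduced to `S` by a truth-table reduction relative to `A` -/
def TtRed (A S : Oracle) (L : Set (List Bool)) : Prop :=
  ∃ Q E : List Bool → List Bool, IsFP A Q ∧ IsFP A E ∧
    ∀ x, ∃ qs : List (List Bool), Q x = bits qs ∧
      (x ∈ L ↔ E (pairBits x (qs.map S)) = [true])

/-- looking up an answer -/
def lk (Q : List (List Bool)) (r : List Bool) (q : List Bool) : Bool :=
  (Q.zip r).any (fun p => decide (p.1 = q) && p.2)

theorem lk_eq {S : Oracle} {Q : List (List Bool)} {q : List Bool} (h : q ∈ Q) :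
    lk Q (Q.map S) q = S q := by
  unfold lk
  rw [Bool.eq_iff_iff, List.any_eq_true]
  have h1 : Q.zip (Q.map S) = Q.map (fun z => (z, S z)) := by
    induction Q with
    | nil => rfl
    | cons a t ih =>
      rw [List.map_cons, List.zip_cons_cons, List.map_cons]
      by_cases h2 : q ∈ t
      · rw [ih h2]
      · congr 1
        clear ih h h2
        induction t with
        | nil => rfl
        | cons a t ih => rw [List.map_cons, List.zip_cons_cons, List.map_cons, ih]
  rw [h1]
  constructor
  · rintro ⟨p, hp, h2⟩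
    obtain ⟨z, -, rfl⟩ := List.mem_map.1 hp
    simp only [Bool.and_eq_true, decide_eq_true_eq] at h2
    rw [← h2.1]
    exact h2.2
  · intro h2
    exact ⟨(q, S q), List.mem_map.2 ⟨q, h, rfl⟩, by simp [h2]⟩

/-- all questions -/
noncomputable def QA (b K B : Polynomial ℕ) (x : List Bool) : List (List Bool) :=
  (List.range (K.eval x.length + 1)).flatMap (fun k => (List.range (B.eval x.length + 1)).map
    (fun j => ones (pr (b.eval x.length) (min k (K.eval x.length)) (min j (B.eval x.length)))))

theorem poly_QA (b K B : Polynomial ℕ) : Poly (QA b K B) := by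
  unfold QA
  refine Poly.flatMap (F := fun (x : List Bool) (k : ℕ) => (List.range (B.eval x.length + 1)).map
    (fun j => ones (pr (b.eval x.length) (min k (K.eval x.length)) (min j (B.eval x.length)))))
    (UPoly.add ((UPoly.length Poly.id).eval K) (UPoly.const 1)).range ?_
  refine NPC.Poly.map (F := fun (s : List Bool × ℕ) (j : ℕ) =>
    ones (pr (b.eval s.1.length) (min s.2 (K.eval s.1.length)) (min j (B.eval s.1.length))))
    (UPoly.add ((UPoly.length (Poly.fst Poly.id)).eval B) (UPoly.const 1)).range ?_
  have h1 : UPoly (fun s : (List Bool × ℕ) × ℕ => s.1.1.length) :=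
    UPoly.length (Poly.fst (Poly.fst Poly.id))
  exact poly_rep (uPoly_pr (h1.eval b)
    (UPoly.of_le (Poly.min (Poly.snd (Poly.fst Poly.id)) (h1.eval K).toPoly) (h1.eval K)
      (fun p => min_le_right _ _))
    (UPoly.of_le (Poly.min (Poly.snd Poly.id) (h1.eval B).toPoly) (h1.eval B)
      (fun p => min_le_right _ _))) true

theorem mem_QA {b K B : Polynomial ℕ} {x : List Bool} {k j : ℕ} (hk : k ≤ K.eval x.length)
    (hj : j ≤ B.eval x.length) : ones (pr (b.eval x.length) k j) ∈ QA b K B x := by
  unfold QA
  rw [List.mem_flatMap]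
  refine ⟨k, List.mem_range.2 (by omega), ?_⟩
  rw [List.mem_map]
  refine ⟨j, List.mem_range.2 (by omega), ?_⟩
  rw [min_eq_left hk, min_eq_left hj]

/-- the number of the changed strings from the answers -/
noncomputable def cntl (b K B : Polynomial ℕ) (y : List Bool) : List Bool :=
  ((List.range (K.eval (unpair y).1.length)).map (fun i => lk (QA b K B (unpair y).1) (unpair y).2
    (ones (pr (b.eval (unpair y).1.length) (min i (K.eval (unpair y).1.length) + 1) 0)))).filter
      (fun c => c)

/-- the list of the changed strings from the answers -/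
noncomputable def lst1 (b K B : Polynomial ℕ) (y : List Bool) : List Bool :=
  (List.range (B.eval (unpair y).1.length)).map (fun j => lk (QA b K B (unpair y).1) (unpair y).2
    (ones (pr (b.eval (unpair y).1.length) (cntl b K B y).length
      (min j (B.eval (unpair y).1.length) + 1))))

theorem poly_lk {α : Type} [TEnc α] {Q : α → List (List Bool)} {r q : α → List Bool}
    (hQ : Poly Q) (hr : Poly r) (hq : Poly q) : Poly (fun a => lk (Q a) (r a) (q a)) := by
  unfold lk
  exact Poly.any (p := fun (a : α) (p : List Bool × Bool) => decide (p.1 = q a) && p.2)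
    (Poly.zip hQ hr) (Poly.and (Poly.decide_eq (Poly.fst (Poly.snd Poly.id))
      (hq.comp (Poly.fst Poly.id))) (Poly.snd (Poly.snd Poly.id)))

theorem poly_cntl (b K B : Polynomial ℕ) : Poly (cntl b K B) := by
  have hx : Poly (fun y : List Bool => (unpair y).1) := Poly.fst poly_unpair
  have hr : Poly (fun y : List Bool => (unpair y).2) := Poly.snd poly_unpair
  have hl : UPoly (fun s : List Bool × ℕ => (unpair s.1).1.length) :=
    UPoly.length (hx.comp (Poly.fst Poly.id))
  unfold cntl
  refine Poly.filter (p := fun (_ : List Bool) (c : Bool) => c) ?_ (Poly.snd Poly.id)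
  refine NPC.Poly.map (F := fun (y : List Bool) (i : ℕ) => lk (QA b K B (unpair y).1) (unpair y).2
    (ones (pr (b.eval (unpair y).1.length) (min i (K.eval (unpair y).1.length) + 1) 0)))
    ((UPoly.length hx).eval K).range ?_
  exact poly_lk ((poly_QA b K B).comp (hx.comp (Poly.fst Poly.id))) (hr.comp (Poly.fst Poly.id))
    (poly_rep (uPoly_pr (hl.eval b) (UPoly.add (UPoly.of_le (Poly.min (Poly.snd Poly.id)
      (hl.eval K).toPoly) (hl.eval K) (fun p => min_le_right _ _)) (UPoly.const 1))
      (UPoly.const 0)) true)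

theorem poly_lst1 (b K B : Polynomial ℕ) : Poly (lst1 b K B) := by
  have hx : Poly (fun y : List Bool => (unpair y).1) := Poly.fst poly_unpair
  have hr : Poly (fun y : List Bool => (unpair y).2) := Poly.snd poly_unpair
  have hl : UPoly (fun s : List Bool × ℕ => (unpair s.1).1.length) :=
    UPoly.length (hx.comp (Poly.fst Poly.id))
  unfold lst1
  refine NPC.Poly.map (F := fun (y : List Bool) (j : ℕ) => lk (QA b K B (unpair y).1) (unpair y).2
    (ones (pr (b.eval (unpair y).1.length) (cntl b K B y).length
      (min j (B.eval (unpair y).1.length) + 1)))) ((UPoly.length hx).eval B).range ?_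
  exact poly_lk ((poly_QA b K B).comp (hx.comp (Poly.fst Poly.id))) (hr.comp (Poly.fst Poly.id))
    (poly_rep (uPoly_pr (hl.eval b) (UPoly.length ((poly_cntl b K B).comp (Poly.fst Poly.id)))
      (UPoly.add (UPoly.of_le (Poly.min (Poly.snd Poly.id)
      (hl.eval B).toPoly) (hl.eval B) (fun p => min_le_right _ _)) (UPoly.const 1))) true)

end Pool.Agent.TH654.RB
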