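import Pool.Agent.TH654.RB.Rob

/-!
# The certificates can be checked in polynomial time relative to the changed oracle
-/

set_option autoImplicit false

namespace Pool.Agent.TH654.RB

open Pool.Agent.NPC Pool.Agent.H620R2.Gauge Pool.Agent.H622R2 Finset
open Pool.Agent.W900.CH (dist finite_diff)
open Pool.Agent.TH678.PN Pool.Agent.TH678.EL

def cw (z : List Bool) : List (List Bool) := dec (unpair z).1
def cx (z : List Bool) : List Bool := (unpair (unpair z).2).1
def cs (z : List Bool) : List Bool := (unpair (unpair z).2).2

theorem poly_cw : Poly cw := poly_dec.comp (Poly.fst poly_unpair)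
theorem poly_cx : Poly cx := Poly.fst (poly_unpair.comp (Poly.snd poly_unpair))
theorem poly_cs : Poly cs := Poly.snd (poly_unpair.comp (Poly.snd poly_unpair))

/-- the test that a list has no repetition -/
def nd (l : List (List Bool)) : Bool :=
  l.all (fun y => decide ((l.filter (fun z => decide (z = y))).length ≤ 1))

theorem nd_iff (l : List (List Bool)) : nd l = true ↔ l.Nodup := by
  have h : ∀ y, (l.filter (fun z => decide (z = y))).length = l.count y := by
    intro y
    rw [List.count, List.countP_eq_length_filter]
    congr 1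
    apply List.filter_congr
    intro z _
    rw [Bool.eq_iff_iff, decide_eq_true_iff, beq_iff_eq]
  unfold nd
  rw [List.nodup_iff_count_le_one, List.all_eq_true]
  simp only [decide_eq_true_eq, h]
  constructor
  · intro h1 y
    by_cases hy : y ∈ l
    · exact h1 y hy
    · rw [List.count_eq_zero_of_not_mem hy]
      omega
  · intro h1 y _
    exact h1 y

theorem poly_nd : Poly nd := by
  have h1 : Poly (fun q : List (List Bool) × List Bool =>
      (q.1.filter (fun z => decide (z = q.2))).length) :=
    Poly.length (Poly.filter (p := fun (q : List (List Bool) × List Bool) (z : List Bool) =>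
      decide (z = q.2)) (Poly.fst Poly.id)
      (Poly.decide_eq (Poly.snd Poly.id) (Poly.snd (Poly.fst Poly.id))))
  unfold nd
  exact Poly.all (p := fun (l : List (List Bool)) (y : List Bool) =>
    decide ((l.filter (fun z => decide (z = y))).length ≤ 1))
    Poly.id (Poly.decide_le h1 (NPC.Poly.const 1))

/-- the part of the test which does not need the code -/
def Hp (b : Polynomial ℕ) (p : List Bool × List Bool) : List Bool :=
  [nd (cw p.1) && (decide ((cw p.1).length = (cs p.1).tail.length) &&
    ((cw p.1).all (fun y => decide (y.length ≤ b.eval (cx p.1).length)) &&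
      (p.2.take (cs p.1).tail.length).all (fun b => b)))]

theorem poly_Hp (b : Polynomial ℕ) : Poly (Hp b) := by
  have hw : Poly (fun p : List Bool × List Bool => cw p.1) := poly_cw.comp (Poly.fst Poly.id)
  have hx : Poly (fun p : List Bool × List Bool => cx p.1) := poly_cx.comp (Poly.fst Poly.id)
  have hs : Poly (fun p : List Bool × List Bool => (cs p.1).tail) :=
    Poly.tail (poly_cs.comp (Poly.fst Poly.id))
  have hB : UPoly (fun p : List Bool × List Bool => b.eval (cx p.1).length) :=
    (UPoly.length hx).eval b
  unfold Hp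
  refine Poly.cons (Poly.and (poly_nd.comp hw) (Poly.and (Poly.decide_eq (Poly.length hw)
    (Poly.length hs)) (Poly.and ?_ ?_))) (NPC.Poly.const [])
  · exact Poly.all (p := fun (p : List Bool × List Bool) (y : List Bool) =>
      decide (y.length ≤ b.eval (cx p.1).length)) hw
      (Poly.decide_le (Poly.length (Poly.snd Poly.id)) (hB.toPoly.comp (Poly.fst Poly.id)))
  · exact Poly.all (p := fun _ b => b) (R1.poly_take (Poly.snd Poly.id) (UPoly.length hs))
      (Poly.snd Poly.id)

/-- the answers to the questions about the strings of the certificate -/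
noncomputable def ans (O A : Oracle) (z : List Bool) : List Bool :=
  (List.range ((Polynomial.X : Polynomial ℕ).eval z.length)).map
    (fun i => decide ([decide (A ((cw z).getD i []) ≠ O ((cw z).getD i []))] = [true]))

theorem isFP_ne {O A : Oracle} (hO : IsFP A (fun z => [O z])) :
    IsFP A (fun z => [decide (A z ≠ O z)]) := by
  have h1 : IsFP A (fun z => [A z]) :=
    IsFP.tt (Q := fun z => [z]) (H := fun p => p.2) (Poly.cons Poly.id (NPC.Poly.const []))
      (Poly.snd Poly.id)
  have h2 := IsFP.seq (φ := fun p => p.1) (ψ := fun p => [!(decide (p.2.1 = p.2.2))]) h1 hO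
    (Poly.fst Poly.id) (Poly.cons (Poly.not (Poly.decide_eq (Poly.fst (Poly.snd Poly.id))
      (Poly.snd (Poly.snd Poly.id)))) (NPC.Poly.const []))
  refine (congrArg (IsFP A) (funext fun x => ?_)).mp h2
  simp

theorem isFP_Hp {O A : Oracle} (b : Polynomial ℕ) (hO : IsFP A (fun z => [O z])) :
    IsFP A (fun z => Hp b (z, ans O A z)) :=
  IsFP.votes (isFP_ne hO) Polynomial.X (Q := fun _ => []) (NPC.Poly.const [])
    (W := fun p => (cw p.1.2).getD p.1.1 []) (Poly.getD (poly_cw.comp (Poly.snd (Poly.fst Poly.id)))
      (Poly.fst (Poly.fst Poly.id)) (NPC.Poly.const [])) (poly_Hp b)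

/-- the whole test -/
noncomputable def chk (τ : ℕ → Task) (e : ℕ) (O A : Oracle) (z : List Bool) : List Bool :=
  [decide (Hp (τ e).b (z, ans O A z) = [true]) &&
    ((!(decide ((cs z).head? = some true))) ||
      decide (Gf τ (e + 1) O (pairBits (cx z) (unpair z).1) = [true]))]

theorem isFP_chk {τ : ℕ → Task} {O A : Oracle} (h : ∀ e, IsFP A (Gf τ e O)) (e : ℕ) :
    IsFP A (chk τ e O A) := by
  exact IsFP.seq (isFP_Hp (τ e).b (h 0)) (h (e + 1))
    (φ := fun p => pairBits (cx p.1) (unpair p.1).1)
    (ψ := fun p => [decide (p.2.1 = [true]) && ((!(decide ((cs p.1).head? = some true))) ||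
      decide (p.2.2 = [true]))])
    (poly_pairBits (poly_cx.comp (Poly.fst Poly.id)) (Poly.fst (poly_unpair.comp
      (Poly.fst Poly.id))))
    (Poly.cons (Poly.and (Poly.decide_eq (Poly.fst (Poly.snd Poly.id)) (NPC.Poly.const _))
      (Poly.or (Poly.not (Poly.decide_eq (Poly.head? (poly_cs.comp (Poly.fst Poly.id)))
        (NPC.Poly.const _))) (Poly.decide_eq (Poly.snd (Poly.snd Poly.id)) (NPC.Poly.const _))))
      (NPC.Poly.const []))

theorem ans_take {O A : Oracle} {z : List Bool} {k : ℕ} (hk : k ≤ z.length)
    (hw : (cw z).length = k) :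
    ((ans O A z).take k).all (fun b => b) = true ↔ ∀ y ∈ cw z, A y ≠ O y := by
  unfold ans
  rw [← List.map_take, List.take_range, List.all_eq_true, Polynomial.eval_X, min_eq_left hk]
  constructor
  · intro h y hy
    obtain ⟨i, hi, rfl⟩ := List.mem_iff_getElem.1 hy
    have h1 := h _ (List.mem_map.2 ⟨i, List.mem_range.2 (by omega), rfl⟩)
    simp only [List.getD_eq_getElem _ _ hi] at h1
    simpa using h1
  · intro h b hb
    obtain ⟨i, hi, rfl⟩ := List.mem_map.1 hb
    rw [List.mem_range] at hi
    have hi' : i < (cw z).length := by omega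
    rw [List.getD_eq_getElem _ _ hi']
    have h1 := h _ (List.getElem_mem hi')
    simpa using h1

theorem chk_iff {τ : ℕ → Task} {e : ℕ} {O A : Oracle} {x s w : List Bool} :
    chk τ e O A (pairBits w (pairBits x s)) = [true] ↔ Good (τ e) O A x s (dec w) := by
  have e1 : cw (pairBits w (pairBits x s)) = dec w := by unfold cw; rw [unpair_pairBits]
  have e2 : cx (pairBits w (pairBits x s)) = x := by unfold cx; simp only [unpair_pairBits]
  have e3 : cs (pairBits w (pairBits x s)) = s := by unfold cs; simp only [unpair_pairBits]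
  have hl : s.tail.length ≤ (pairBits w (pairBits x s)).length := by
    rw [A2.length_pairBits, A2.length_pairBits, List.length_tail]
    omega
  have h4 : (dec w).length = s.tail.length →
      (((ans O A (pairBits w (pairBits x s))).take s.tail.length).all (fun b => b) = true ↔
        ∀ y ∈ dec w, A y ≠ O y) := by
    intro h
    have h1 := ans_take (O := O) (A := A) hl (e1.symm ▸ h)
    rw [e1] at h1
    exact h1
  have h5 : Gf τ (e + 1) O (pairBits x w) = [true] ↔ (τ e).V (corr (dec w) O) x := by
    have h : Gf τ (e + 1) O (pairBits x w) = [true] ↔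
        (τ e).V (corr (dec (unpair (pairBits x w)).2) O) (unpair (pairBits x w)).1 := by
      simp [Gf]
    rw [h, unpair_pairBits]
  unfold chk Hp Good
  simp only [e1, e2, e3, unpair_pairBits]
  rw [← h5, ← nd_iff]
  simp only [List.cons.injEq, and_true, Bool.and_eq_true, decide_eq_true_eq, Bool.or_eq_true,
    Bool.not_eq_true', decide_eq_false_iff_not]
  constructor
  · rintro ⟨⟨h6, h7, h8, h9⟩, h10⟩
    refine ⟨h6, h7, ?_, (h4 h7).1 h9, fun h11 => ?_⟩
    · intro y hy
      have := List.all_eq_true.1 h8 y hy
      simpa using this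
    · rcases h10 with h10 | h10
      · exact absurd h11 h10
      · exact h10
  · rintro ⟨h6, h7, h8, h9, h10⟩
    refine ⟨⟨h6, h7, ?_, (h4 h7).2 h9⟩, ?_⟩
    · rw [List.all_eq_true]
      intro y hy
      simpa using h8 y hy
    · by_cases h11 : s.head? = some true
      · exact Or.inr (h10 h11)
      · exact Or.inl h11

end Pool.Agent.TH654.RB
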